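import Mathlib
import Pool.Agent.Lib.MP_aa9ae4_nt.Defs
import Pool.Agent.Lib.MP_aa9ae4_nt.Final

/-!
Definitions for the lines `Re s = σ`, `1/2 < σ < 1`, `k = 1` (Theorem S, note on MP_aa9ae4_nt).
-/

namespace Pool.Agent.Lib.MP_aa9ae4_nt.S1

open Finset MeasureTheory Filter Topology
open Complex (I)

/-- the primes in `(y, z]` -/
def prs (y z : ℕ) : Finset ℕ := (Ioc y z).filter Nat.Prime

/-- `n^{-σ-iu}` -/
noncomputable def pw (σ : ℝ) (n : ℕ) (u : ℝ) : ℂ := (n : ℂ) ^ (-((σ : ℂ) + (u : ℂ) * I))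

/-- `∏_{y < p ≤ z} (1 - p^{-σ-iu})` -/
noncomputable def eulS (σ : ℝ) (y z : ℕ) (u : ℝ) : ℂ := ∏ p ∈ prs y z, (1 - pw σ p u)

/-- `∑_{y < p ≤ z} p^{-σ-iu}` -/
noncomputable def psumS (σ : ℝ) (y z : ℕ) (u : ℝ) : ℂ := ∑ p ∈ prs y z, pw σ p u

/-- `∑_{y < p ≤ z} p^{-τ}` -/
noncomputable def tail (τ : ℝ) (y z : ℕ) : ℝ := ∑ p ∈ prs y z, (p : ℝ) ^ (-τ)

/-- the divisors of `primorial z` with at most `J` prime factors larger than `w` -/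
noncomputable def dset (w z J : ℕ) : Finset ℕ :=
  (primorial z).divisors.filter fun d => (d.primeFactors.filter fun p => w < p).card ≤ J

/-- `∑_{d ∈ dset w z J} μ(d) d^{-σ-iu}` -/
noncomputable def mollS (σ : ℝ) (w z J : ℕ) (u : ℝ) : ℂ :=
  ∑ d ∈ dset w z J, ((ArithmeticFunction.moebius d : ℤ) : ℂ) * pw σ d u

/-- the truncated exponential series -/
noncomputable def expJ (J : ℕ) (x : ℂ) : ℂ := ∑ j ∈ range (J + 1), x ^ j / (j.factorial : ℂ)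

open Classical in
/-- exponent vectors supported on `s` of total degree at most `J` -/
noncomputable def KK (s : Finset ℕ) (J : ℕ) : Finset (ℕ → ℕ) :=
  (range (J + 1)).biUnion fun j => s.piAntidiag j

/-- the integer with exponent vector `k` on `s` -/
def nn (s : Finset ℕ) (k : ℕ → ℕ) : ℕ := ∏ p ∈ s, p ^ k p

/-- the exponent `B(σ)` -/
noncomputable def Bs (σ : ℝ) : ℕ := ⌈20 / (2 * σ - 1)⌉₊

/-- the exponent `A(σ)` -/
noncomputable def As (σ : ℝ) : ℕ := ⌈2 / (2 * σ - 1)⌉₊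

/-- `z(T)` -/
noncomputable def zT (σ T : ℝ) : ℕ := ⌊(Real.log T) ^ (2 * Bs σ)⌋₊

/-- `y₁(T)` -/
noncomputable def y1 (σ T : ℝ) : ℕ := ⌊(Real.log (Real.log T)) ^ As σ⌋₊

/-- the length `N(T)` of the approximation of `ζ(1/2+it)` -/
noncomputable def NT (T : ℝ) : ℕ := ⌊T * Real.exp (-(Real.log (Real.log T)) ^ 3)⌋₊

/-- the weight `‖∑_{n ≤ N(T)} n^{-1/2-it}‖^2` -/
noncomputable def zw (T t : ℝ) : ℝ := ‖zsum (1 / 2 + t * I) (NT T)‖ ^ 2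

/-- `ζ(σ+iat)` -/
noncomputable def fzS (σ a t : ℝ) : ℂ := riemannZeta ((σ : ℂ) + ((a * t : ℝ) : ℂ) * I)

/-- the exceptional set on `[U, 2U]` -/
def exc (σ U : ℝ) (z : ℕ) : Set ℝ :=
  {u ∈ Set.Icc U (2 * U) | 1 / Real.log U < ‖riemannZeta ((σ : ℂ) + (u : ℂ) * I) * eulS σ 0 z u - 1‖ ∨
    Real.log U ^ (1 - σ / 2) < ‖psumS σ 0 z u‖}

/-- the good points of `[T, 2T]` -/
def good (σ a T : ℝ) : Set ℝ :=
  {t ∈ Set.Icc T (2 * T) | a * t ∉ exc σ (a * T) (zT σ T)}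

/-- the weighted mean over the good points -/
noncomputable def LG (σ a γ T : ℝ) : ℝ :=
  (∫ t in good σ a T, fw t * ‖eulS σ 0 (zT σ T) (a * t)‖ ^ γ) / fn T

end Pool.Agent.Lib.MP_aa9ae4_nt.S1
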