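import Mathlib
import Pool.Agent.Lib.MP_aa9ae4_nt.S1.Defs
import Pool.Agent.Lib.MP_aa9ae4_nt.MeanValue
import Pool.Agent.Lib.MP_aa9ae4_nt.ZetaApprox
import Pool.Agent.Lib.MP_aa9ae4_nt.Kuzmin
import Pool.Agent.Lib.MP_aa9ae4_nt.Rough
import Pool.Agent.Lib.MP_aa9ae4_nt.Expand

/-!
MP_aa9ae4_nt, Theorem S. Part G: for `1/2 < σ < 1`, outside a set of measure `U^(1-δ)` of
`u ∈ [U,2U]`, `ζ(σ+iu) ∏_{p ≤ z}(1-p^{-σ-iu}) = 1 + O(1/log U)` and `|∑_{p≤z} p^{-σ-iu}|` is at most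
`(log U)^(1-σ/2)`, for `z` a power of `log U`.

Every `S_X : Prop` is to be proved as `theorem pX : S_X` in `S1/PX.lean`, the statements used are
hypotheses (for instance `theorem pBad (hMc : S_Mc) : S_Bad`). The docstrings contain the complete
proofs. Throughout `κ = 2σ-1`, so `0 < κ < 1` and `2-2σ = 1-κ`; `s = σ+iu`, `pw σ n u = n^{-s}`,
`‖pw σ n u‖ = n^{-σ}` for `n ≥ 1` (`Complex.norm_natCast_cpow_of_pos`).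
-/

namespace Pool.Agent.Lib.MP_aa9ae4_nt.S1

open Finset MeasureTheory Filter Topology
open Complex (I)

/-- **Approximation of `ζ(σ+iu)` by a sum of length about `u`.**

Proof. As `zeta_half_approx` in Half.lean. Let `N' = ⌈u^2⌉₊ + 1`, so `N ≤ N'` and
`u^2 ≤ N' ≤ u^2 + 2 ≤ 2u^2` (`u ≥ 2`). `zeta_approx` at `N'`, `s = σ+iu`: `‖s‖ ≤ σ + u ≤ 2u`,
`‖s-1‖ ≥ u`, `‖N'^(1-s)/(s-1)‖ = N'^(1-σ)/‖s-1‖ ≤ 2 u^(2-2σ)/u = 2u^(1-2σ)` and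
`‖s‖ N'^(-σ)/σ ≤ 2u * u^(-2σ) * 2 = 4 u^(1-2σ)`. Middle part `∑_{N<n≤N'} n^(-σ) n^(-iu)`: with
`A(n) = ∑_{N<k≤n} k^(-iu)`, `‖A(n)‖ ≤ C₀ n/u` (`sum_cpow_le`, `u/3 ≤ N`), partial summation gives
`A(N') N'^(-σ) + ∑_{N<n<N'} A(n) (n^(-σ) - (n+1)^(-σ))`, `0 ≤ n^(-σ) - (n+1)^(-σ) ≤ σ n^(-σ-1)` and
`∑_{n≤N'} n^(-σ) ≤ N'^(1-σ)/(1-σ)`, so its norm is at most `(C₀/u) N'^(1-σ) (1 + σ/(1-σ))`, which is at
most `C u^(1-2σ)`. (Or use `n^(-σ) = n^(-1/2) n^(1/2-σ)`... the direct way is simpler: an induction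
on the upper limit as in Half.lean.) About 120 lines. -/
def S_Za : Prop :=
  ∀ σ : ℝ, 1 / 2 < σ → σ < 1 → ∃ C : ℝ, 0 < C ∧ ∀ u : ℝ, 2 ≤ u → ∀ N : ℕ, u / 3 ≤ N →
    (N : ℝ) ≤ u ^ 2 + 1 →
    ‖riemannZeta ((σ : ℂ) + (u : ℂ) * I) - zsum ((σ : ℂ) + (u : ℂ) * I) N‖ ≤ C * u ^ (1 - 2 * σ)

/-- **Sums over primes.** (a) `τ > 1`, `y ≥ 1`: `∑_{y<p≤z} p^(-τ) ≤ y^(1-τ)/(τ-1)`; (b) `τ > 1`: the sum
is at most `τ/(τ-1)` for all `y`; (c) `0 < σ < 1`: `∑_{y<p≤z} p^(-σ) ≤ z^(1-σ)/(1-σ)`; (d) the same as (a)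
for `∑_{1≤n≤N} n^(-τ) ≤ τ/(τ-1)`.

Proof. The sum over primes is at most the sum over all integers `n` in `(y,z]`. (a)
`n^(-τ) ≤ ((n-1)^(1-τ) - n^(1-τ))/(τ-1)` for `n ≥ 2` (mean value theorem, or compare with the integral),
telescoping (induction on `z`). (b), (d): the term `n = 1` (only in (d)) plus (a) with `y = 1`:
`1 + 1/(τ-1) = τ/(τ-1)`. (c) `n^(-σ) ≤ (n^(1-σ) - (n-1)^(1-σ))/(1-σ)`, telescoping. Mathlib may have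
`sum_Ioc_rpow...`; the lemmas `AntitoneOn.sum_le_integral` are an alternative. If `z = 0` all sums are
empty and `0 ^ (1-σ) = 0`. About 100 lines. -/
def S_Sz : Prop :=
  (∀ τ : ℝ, 1 < τ → ∀ y z : ℕ, 1 ≤ y → tail τ y z ≤ (y : ℝ) ^ (1 - τ) / (τ - 1)) ∧
  (∀ τ : ℝ, 1 < τ → ∀ y z : ℕ, tail τ y z ≤ τ / (τ - 1)) ∧
  (∀ σ : ℝ, 0 < σ → σ < 1 → ∀ y z : ℕ, tail σ y z ≤ (z : ℝ) ^ (1 - σ) / (1 - σ)) ∧
  (∀ τ : ℝ, 1 < τ → ∀ N : ℕ, ∑ n ∈ Icc 1 N, (n : ℝ) ^ (-τ) ≤ τ / (τ - 1))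

/-- **Rankin sum.**

Proof. For `k ≥ 1` the set `S = k.primeFactors.filter (· ≤ z)` is contained in `prs 0 z` and
`∏_{p∈S}(1+a p) = ∑_{D ⊆ S} ∏_{p∈D} a p` (`Finset.prod_one_add` or `Finset.prod_add`). Interchange: the
sum over `D ⊆ prs 0 z` of `∏_D a` times the sum over the `k ≤ N` divisible by every `p ∈ D`, i.e. by
`d = ∏_{p∈D} p` (pairwise coprime: `Finset.prod_primes_dvd`); `k = d k'`, `1 ≤ k' ≤ N`, so this inner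
sum is at most `d^(-τ) ∑_{k'≤N} k'^(-τ)`. Hence the bound
`∑_D ∏_{p∈D} (a p * p^(-τ)) * Z = ∏_{p ∈ prs 0 z} (1 + a p p^(-τ)) * Z` and `1+x ≤ exp x`.
About 100 lines. -/
def S_Mc : Prop :=
  ∀ (τ : ℝ) (a : ℕ → ℝ) (z N : ℕ), 0 < τ → (∀ p, 0 ≤ a p) →
    ∑ k ∈ Icc 1 N, (∏ p ∈ k.primeFactors.filter (fun p => p ≤ z), (1 + a p)) * (k : ℝ) ^ (-τ) ≤
      Real.exp (∑ p ∈ prs 0 z, a p * (p : ℝ) ^ (-τ)) * ∑ k ∈ Icc 1 N, (k : ℝ) ^ (-τ)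

/-- **Mean square of the part with too many prime factors.**

Uses `S_Mc`. Proof. `mean_value` (with `c = T = U`, coefficients `c k * k^(-σ)`, since
`pw σ k u = k^(-σ) k^(-iu)`) gives `C (U+N) ∑_{k≤N} ‖c k‖^2 k^(-2σ)`. Let
`a p = 3` if `p ≤ w` and `a p = 4R-1` if `p > w` (`≥ 3 ≥ 0`). If `c k ≠ 0` then with
`e = #{p | k : w<p≤z} > J` and `f = #{p | k : p ≤ z}`: `‖c k‖^2 ≤ 4^f ≤ 4^f R^(e-J) = R^(-J) ∏(1+a p)` over the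
prime factors `p ≤ z` of `k`, since each `p ≤ w` contributes 4 and each `w < p ≤ z` contributes `4R`.
So by `S_Mc` (`τ = 2σ`) the sum is at most `R^(-J) exp(∑_{p ≤ z} a p p^(-2σ)) ∑ k^(-2σ)`, and
`∑_{p≤z} a p p^(-2σ) ≤ 3 tail(2σ) 0 w + 4R tail(2σ) w z` (`prs 0 z` is the disjoint union of `prs 0 w` and
`prs w z` for `w ≤ z`). About 110 lines. -/
def S_Bad : Prop :=
  ∃ C : ℝ, 0 < C ∧ ∀ (σ U R : ℝ) (w z J N : ℕ) (c : ℕ → ℂ), 1 / 2 < σ → 1 ≤ U → 1 ≤ R → w ≤ z →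
    (∀ k ∈ Icc 1 N, ‖c k‖ ≤ 2 ^ (k.primeFactors.filter fun p => p ≤ z).card) →
    (∀ k ∈ Icc 1 N, c k ≠ 0 → J < (k.primeFactors.filter fun p => w < p ∧ p ≤ z).card) →
    ∫ u in U..(2 * U), ‖∑ k ∈ Icc 1 N, c k * pw σ k u‖ ^ 2 ≤
      C * (U + N) * (R ^ J)⁻¹ * Real.exp (3 * tail (2 * σ) 0 w + 4 * R * tail (2 * σ) w z) *
        ∑ k ∈ Icc 1 N, (k : ℝ) ^ (-(2 * σ))

/-- **Rough blocks on the line `σ`.**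

Proof. From `rough_moment` (Rough.lean) by scaling: `pw σ k u = k^(1-σ) k^(-(1+iu))`. Put
`c' k = c k * (k/(2Y))^(1-σ)`, so `‖c' k‖ ≤ 1` for `k ≤ 2Y` (`1-σ > 0`), `c' k ≠ 0 → c k ≠ 0`, and
`∑ c k pw σ k u = (2Y)^(1-σ) ∑ c' k k^(-(1+iu))`. The integral is `(2Y)^(2m(1-σ))` times the one of
`rough_moment`, and `(2Y)^(2m(1-σ))/Y^m = 2^(2m(1-σ)) Y^(m(1-2σ)) ≤ 4^m Y^(m(1-2σ))`. About 70 lines. -/
def S_Rm : Prop :=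
  ∃ C : ℝ, 0 < C ∧ ∀ (σ U : ℝ) (z Y m : ℕ) (c : ℕ → ℂ), 1 / 2 < σ → σ < 1 → 1 ≤ U → 2 ≤ z →
    z ≤ Y → 1 ≤ m → (∀ k ∈ Ioc Y (2 * Y), ‖c k‖ ≤ 1) →
    (∀ k ∈ Ioc Y (2 * Y), c k ≠ 0 → ∀ p : ℕ, p.Prime → p ∣ k → z < p) →
    ∫ u in U..(2 * U), ‖∑ k ∈ Ioc Y (2 * Y), c k * pw σ k u‖ ^ (2 * m) ≤
      C * (U + (2 * Y) ^ m) * (m : ℝ) ^ (m * Real.log (2 * Y) / Real.log z) *
        (4 ^ m * (Y : ℝ) ^ (m * (1 - 2 * σ)))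

/-- **Coarse blocks on the line `σ`.**

Proof. From `coarse_block` (Rough.lean) by the same scaling as in `S_Rm`. About 50 lines. -/
def S_Cb : Prop :=
  ∃ C : ℝ, 0 < C ∧ ∀ (σ U : ℝ) (Y : ℕ) (c : ℕ → ℂ), 1 / 2 < σ → σ < 1 → 1 ≤ U → 1 ≤ Y →
    (∀ k ∈ Ioc Y (2 * Y), ‖c k‖ ≤ (Nat.divisors k).card) →
    ∫ u in U..(2 * U), ‖∑ k ∈ Ioc Y (2 * Y), c k * pw σ k u‖ ^ 2 ≤
      C * ((U + Y) / Y) * (1 + Real.log (2 * Y)) ^ 4 * ((2 * Y : ℕ) : ℝ) ^ (2 - 2 * σ)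

/-- **High moments of prime sums.**

Proof. Let `P = prs y z`. `(psumS σ y z u)^m = ∑_{f : Fin m → P} ∏ pw σ (f i) u = ∑_n r(n) n^(-σ) n^(-iu)`,
`r(n)` the number of `f` with `∏ f i = n` (`Finset.sum_pow'`/`Finset.prod_univ_sum`,
`Fintype.piFinset (fun _ => P)`, regroup by the product, `Finset.sum_fiberwise_of_maps_to`); all
`n ≤ z^m`. `mean_value` with `N = z^m`: the integral is at most `C (U + z^m) ∑_n r(n)^2 n^(-2σ)`.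
`r(n) ≤ m!`: if `∏ f i = ∏ g i = n` with all `f i`, `g i` prime then `g = f ∘ e` for a permutation `e` of
`Fin m` (unique factorisation: the multisets `f` and `g` agree, `n.primeFactorsList`), so there are at
most `m!` of them. Hence `∑ r(n)^2 n^(-2σ) ≤ m! ∑ r(n) n^(-2σ) = m! (∑_{p∈P} p^(-2σ))^m`. (If `m = 0`
everything is 1, `∫ 1 = U`.) About 140 lines. -/
def S_Hm : Prop :=
  ∃ C : ℝ, 0 < C ∧ ∀ (σ U : ℝ) (y z m : ℕ), 1 ≤ U →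
    ∫ u in U..(2 * U), ‖psumS σ y z u‖ ^ (2 * m) ≤
      C * (U + (z : ℝ) ^ m) * (m.factorial * tail (2 * σ) y z ^ m)

/-- **Expansion of the mollified sum.**

Proof. `zsum (σ+iu) N * mollS σ w z J u = ∑_{d ∈ dset} ∑_{n≤N} μ(d) pw σ (dn) u
= ∑_{k ≤ N D} c_k pw σ k u`, `c_k = ∑ μ(d)` over the `d ∈ dset`, `d | k`, `k/d ≤ N`
(as in `mollified_expansion` of Expand.lean). `‖c_k‖ ≤ card (divisors k)`. For `k ≤ N` the condition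
`k/d ≤ N` is void. `c_1 = 1` (`d = 1` is in `dset`). Let `1 < k ≤ N` and
`g = gcd k (primorial z)` (squarefree, its prime factors are the prime factors `p ≤ z` of `k`); the
`d` with `d | k`, `d | primorial z` are the divisors of `g`.
Case 1: `#{p | k : w < p ≤ z} ≤ J`: every divisor of `g` is in `dset`, `c_k = ∑_{d | g} μ(d)` is 1 if
`g = 1` and 0 otherwise. If `g = 1` all prime factors of `k > 1` are `> z`, so `k > z`. Put `r k = c_k`,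
`b k = 0`. Case 2: `#{p | k : w<p≤z} > J`: `‖c_k‖ ≤ card (divisors g) = 2^(#{p | k : p ≤ z})`
(`ArithmeticFunction.card_divisors...` or `Nat.card_divisors`/`Finset.card_powerset` through
`Nat.divisors` of a squarefree number: `Nat.sum_divisors_filter_squarefree`,
`Nat.divisors_filter_squarefree`). Put `b k = c_k`, `r k = 0`. `l k = c_k` for `k > N`. For `k ≤ z` in
case 1 (`k > 1`) `c_k = 0`, so the `r`-sum may be restricted to `Ioc z N`; `b 1 = 0`. About 170 lines. -/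
def S_Ex : Prop :=
  ∀ w z J N D : ℕ, w ≤ z → 1 ≤ z → z ≤ N → (∀ d ∈ dset w z J, d ≤ D) →
    ∃ r b l : ℕ → ℂ,
      (∀ k, ‖r k‖ ≤ 1) ∧ (∀ k, r k ≠ 0 → ∀ p : ℕ, p.Prime → p ∣ k → z < p) ∧
      (∀ k ∈ Icc 1 N, ‖b k‖ ≤ 2 ^ (k.primeFactors.filter fun p => p ≤ z).card) ∧
      (∀ k ∈ Icc 1 N, b k ≠ 0 → J < (k.primeFactors.filter fun p => w < p ∧ p ≤ z).card) ∧
      (∀ k, ‖l k‖ ≤ (Nat.divisors k).card) ∧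
      ∀ σ u : ℝ, zsum ((σ : ℂ) + (u : ℂ) * I) N * mollS σ w z J u =
        1 + ∑ k ∈ Ioc z N, r k * pw σ k u + ∑ k ∈ Icc 1 N, b k * pw σ k u +
          ∑ k ∈ Ioc N (N * D), l k * pw σ k u

/-- **Tail of the elementary symmetric polynomials.**

Proof. Let `f(X) = ∏_{p∈s}(1 - x_p X) = ∑_j (-1)^j e_j X^j`, `(-1)^j e_j = ∑_{D ⊆ s, |D| = j} ∏_{p∈D}(-x_p)`. For
`|X| = R`: `|1-v| ≤ exp(-Re v + |v|^2)` for `|v| ≤ 1/2` (`|1-v|^2 = 1 - 2 Re v + |v|^2 ≤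
exp(-2 Re v + |v|^2)`, true for all `v` by `1+x ≤ exp x`), so
`|f(X)| ≤ exp(-Re(X ∑x_p) + R^2 ∑|x_p|^2/2) ≤ M := exp(R ‖∑x‖ + R^2 ∑‖x‖^2)` for all `|X| = R`.
Cauchy: `|e_j| R^j ≤ M`. (Without complex analysis: for `n > |s|` and `ζ = exp(2πi/n)` the average of
`f(R ζ^a) ζ^(-ja)` over `a mod n` is `(-1)^j e_j R^j`.) Then the difference is
`∑_{j>J} (-1)^j e_j`, of norm at most `M ∑_{j>J} R^(-j) ≤ M R^(-J)` (`R ≥ 2`). About 120 lines. -/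
def S_Ej : Prop :=
  ∀ (s : Finset ℕ) (x : ℕ → ℂ) (R : ℝ) (J : ℕ), 2 ≤ R →
    ‖∏ p ∈ s, (1 - x p) - ∑ D ∈ s.powerset.filter (fun D => D.card ≤ J), ∏ p ∈ D, (-x p)‖ ≤
      (R ^ J)⁻¹ * Real.exp (R * ‖∑ p ∈ s, x p‖ + R ^ 2 * ∑ p ∈ s, ‖x p‖ ^ 2)

/-- **The mollifier against the Euler product.**

Uses `S_Ej`. Proof. A divisor `d` of `primorial z` corresponds to a set `D` of primes `≤ z`
(`d = ∏_{p∈D} p`, `D = d.primeFactors`, `μ(d) = (-1)^|D|`, `pw σ d u = ∏_{p∈D} pw σ p u`), and `d ∈ dset w z J`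
iff `|D ∩ (w,z]| ≤ J`. Writing `D = D₁ ∪ D₂`, `D₁ ⊆ prs 0 w`, `D₂ ⊆ prs w z`:
`mollS σ w z J u = (∑_{D₁} ∏(-pw)) (∑_{D₂, |D₂|≤J} ∏(-pw)) = eulS σ 0 w u * (...)`. And
`eulS σ 0 z u = eulS σ 0 w u * eulS σ w z u`. Apply `S_Ej` with `s = prs w z`, `x p = pw σ p u`,
`‖x p‖^2 = p^(-2σ)`. About 130 lines. -/
def S_Trn : Prop :=
  ∀ (σ u R : ℝ) (w z J : ℕ), w ≤ z → 2 ≤ R →
    ‖eulS σ 0 z u - mollS σ w z J u‖ ≤ ‖eulS σ 0 w u‖ *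
      ((R ^ J)⁻¹ * Real.exp (R * ‖psumS σ w z u‖ + R ^ 2 * tail (2 * σ) w z))

/-- **Size of the Euler product.**

Proof. `‖x‖ = p^(-σ) ≤ 2^(-1/2) ≤ 0.7072` for `x = pw σ p u`, `σ ≥ 1/2`, so `1 - x ≠ 0`, and
`|log‖1-x‖ + Re x| = |Re(log(1-x) + x)| ≤ ‖x‖^2/(2(1-‖x‖)) ≤ 2‖x‖^2` (Mathlib:
`Complex.norm_log_one_add_sub_self_le`: `‖log(1+z) - z‖ ≤ ‖z‖^2 (1-‖z‖)⁻¹/2` for `‖z‖ < 1`, at `z = -x`;
`1/(2(1-0.7072)) < 2`; `Real.log ‖w‖ = (Complex.log w).re`). Sum over `p`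
(`Real.log_prod`, `norm_prod`). About 60 lines. -/
def S_Es : Prop :=
  ∀ (σ : ℝ) (y z : ℕ) (u : ℝ), 1 / 2 ≤ σ → eulS σ y z u ≠ 0 ∧
    |Real.log ‖eulS σ y z u‖ + (psumS σ y z u).re| ≤ 2 * tail (2 * σ) y z

/-- **Measure, rough blocks.**

Uses `S_Rm`. Proof. Let `L = log U`, `ℓ = log L`, `B = Bs σ`, so `B ≥ 20/κ`, `B ≥ 20`. Everything for `U`
large. `log z ≥ B ℓ`. If `Y ≤ U` let `m = ⌊L/log Y⌋₊ ≥ 1`, otherwise `m = 1`. Then `Y^m ≤ 2U` and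
`Y^m ≥ U^(1/2)` (if `m ≥ 2` or `Y ≤ U`: `Y^(m+1) > U` and `2m ≥ m+1`), and `m ≤ max 1 (L/log z) ≤ L/(Bℓ)` for
`U` large. By `S_Rm` the `2m`-th moment is at most
`C (U + 2^m 2U) m^(m log(2Y)/log z) 4^m (Y^m)^(-κ) ≤ 3C 8^m U^(1-κ/2) m^(m log(2Y)/log z)`. Here
`m log(2Y) ≤ m log Y + m ≤ L + log 2 + m ≤ 1.2 L`, `m ≤ L`, so the power is at most
`exp(ℓ * 1.2L/(Bℓ)) = exp(1.2L/B)`; `8^m ≤ exp(2.1 L/(Bℓ)) ≤ exp(0.1L/B)`. Markov's inequality for the set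
where the sum exceeds `1/L^3` (`except_markov` in Except.lean has this form, for continuous `g`): the
measure is at most `L^(6m)` times the moment, `L^(6m) ≤ exp(6ℓ L/(Bℓ)) = exp(6L/B)`. Total at most
`3C U^(1-κ/2) exp(7.3 L/B) ≤ 3C U^(1-κ/2+0.365κ) = 3C U^(1-0.135κ) ≤ U^(1-κ/10)`. So `δ = κ/10`. Continuity
of `u ↦ ∑ c k pw σ k u`: `except_cont` in Except.lean is the case `σ = 1`. About 200 lines. -/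
def S_Gr : Prop :=
  ∀ σ : ℝ, 1 / 2 < σ → σ < 1 → ∃ δ U₀ : ℝ, 0 < δ ∧ ∀ U : ℝ, U₀ ≤ U → ∀ (z Y : ℕ) (c : ℕ → ℂ),
    Real.log U ^ Bs σ ≤ z → z ≤ Y → (Y : ℝ) ≤ 2 * U → (∀ k, ‖c k‖ ≤ 1) →
    (∀ k, c k ≠ 0 → ∀ p : ℕ, p.Prime → p ∣ k → z < p) →
    volume {u ∈ Set.Icc U (2 * U) | 1 / Real.log U ^ 3 < ‖∑ k ∈ Ioc Y (2 * Y), c k * pw σ k u‖} ≤
      ENNReal.ofReal (U ^ (1 - δ))

/-- **Measure, coarse blocks.**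

Uses `S_Cb`. Proof. `L = log U`. `(U+Y)/Y ≤ 3` (`Y ≥ U/2`), `(2Y)^(2-2σ) = (2Y)^(1-κ) ≤ (4 U^(1+κ/8))^(1-κ)
≤ 4 U^(1-7κ/8)` as `(1+κ/8)(1-κ) ≤ 1-κ+κ/8`; `1 + log(2Y) ≤ 4L`. Markov (`m = 1`): the measure is at most
`L^6 * C * 3 * (4L)^4 * 4 U^(1-7κ/8) ≤ U^(1-κ/2)` for `U` large. `δ = κ/2`. About 100 lines. -/
def S_Gc : Prop :=
  ∀ σ : ℝ, 1 / 2 < σ → σ < 1 → ∃ δ U₀ : ℝ, 0 < δ ∧ ∀ U : ℝ, U₀ ≤ U → ∀ (Y : ℕ) (c : ℕ → ℂ),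
    U / 2 ≤ Y → (Y : ℝ) ≤ 2 * U ^ (1 + (2 * σ - 1) / 8) → (∀ k, ‖c k‖ ≤ (Nat.divisors k).card) →
    volume {u ∈ Set.Icc U (2 * U) | 1 / Real.log U ^ 3 < ‖∑ k ∈ Ioc Y (2 * Y), c k * pw σ k u‖} ≤
      ENNReal.ofReal (U ^ (1 - δ))

/-- `w(U)`, the border between small and large primes -/
noncomputable def wU (σ U : ℝ) : ℕ := ⌊(2 * σ - 1) / 32 * Real.log U⌋₊

/-- `J(U)`, the number of large prime factors allowed -/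
noncomputable def JU (σ U : ℝ) : ℕ :=
  ⌊(2 * σ - 1) * Real.log U / (100 * Bs σ * Real.log (Real.log U))⌋₊

/-- **Measure, numbers with too many prime factors.**

Uses `S_Bad`, `S_Sz`. Proof. `L = log U`, `ℓ = log L`, `w = wU σ U ≥ √L` for `U` large, `J = JU σ U`,
`N = ⌈U⌉₊ ≤ 2U`, `w ≤ z` for `U` large (`z ≥ L^B ≥ L`). `S_Bad` with `R = w^κ` (real power, `≥ 1`): by `S_Sz`
`tail (2σ) w z ≤ w^(-κ)/κ` and `tail (2σ) 0 w ≤ 2σ/κ`, so the exponent is at most `6σ/κ + 4/κ`, a constant, and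
the last sum is at most `2σ/κ`. `R^J = exp(κ J log w)` with `J ≥ κL/(100Bℓ) - 1` and `log w ≥ ℓ/2`:
`R^(-J) ≤ exp(-κ^2 L/(200B) + κℓ/2) ≤ U^(-κ²/(200B)) L`. Markov: the measure is at most
`L^6 C' U * U^(-κ²/(200B)) L ≤ U^(1-κ²/(400B))` for `U` large. `δ = κ²/(400B)`. About 130 lines. -/
def S_Gb : Prop :=
  ∀ σ : ℝ, 1 / 2 < σ → σ < 1 → ∃ δ U₀ : ℝ, 0 < δ ∧ ∀ U : ℝ, U₀ ≤ U → ∀ (z : ℕ) (c : ℕ → ℂ),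
    Real.log U ^ Bs σ ≤ z →
    (∀ k ∈ Icc 1 ⌈U⌉₊, ‖c k‖ ≤ 2 ^ (k.primeFactors.filter fun p => p ≤ z).card) →
    (∀ k ∈ Icc 1 ⌈U⌉₊, c k ≠ 0 →
      JU σ U < (k.primeFactors.filter fun p => wU σ U < p ∧ p ≤ z).card) →
    volume {u ∈ Set.Icc U (2 * U) | 1 / Real.log U ^ 3 < ‖∑ k ∈ Icc 1 ⌈U⌉₊, c k * pw σ k u‖} ≤
      ENNReal.ofReal (U ^ (1 - δ))

/-- **Measure, large values of the prime sum.**

Uses `S_Hm`, `S_Sz`. Proof. `L = log U`, `ℓ = log L`, `w = wU σ U ≥ κL/64` for `U` large, `V = L^(1-σ/2)/2`. Take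
`m = ⌊L/log z⌋₊`, so `z^m ≤ U`, `1 ≤ m ≤ L` and `m ≥ L/(3Bℓ) - 1` because `log z ≤ 3Bℓ`. `S_Hm`, `S_Sz` (a):
the moment is at most `2C U m! (w^(-κ)/κ)^m ≤ 2C U (L (κL/64)^(-κ)/κ)^m`, and Markov gives measure at most
`2C U (L (κL/64)^(-κ) κ⁻¹ 4 L^(-2+σ))^m = 2C U (C' L^(1-κ-2+σ))^m`, where `1-κ-2+σ = 1-(2σ-1)-2+σ = -σ`. For `U`
large `C' ≤ L^(σ/2)`, so it is at most `2C U exp(-(σ/2) ℓ m) ≤ 2C U exp(-σL/(6B) + ℓ) ≤ U^(1-σ/(7B))`.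
About 150 lines. -/
def S_Gs : Prop :=
  ∀ σ : ℝ, 1 / 2 < σ → σ < 1 → ∃ δ U₀ : ℝ, 0 < δ ∧ ∀ U : ℝ, U₀ ≤ U → ∀ z : ℕ,
    Real.log U ^ Bs σ ≤ z → (z : ℝ) ≤ Real.log U ^ (3 * Bs σ) →
    volume {u ∈ Set.Icc U (2 * U) | Real.log U ^ (1 - σ / 2) / 2 < ‖psumS σ (wU σ U) z u‖} ≤
      ENNReal.ofReal (U ^ (1 - δ))

/-- **Pointwise conclusion.**

Uses `S_Za`, `S_Sz`, `S_Trn`, `S_Es`. Proof. `L = log U`, `ℓ = log L`, `V = L^(1-σ/2)`, `w = wU σ U`, `J = JU σ U`,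
`N = ⌈U⌉₊` (`u/3 ≤ N ≤ u^2+1` for `U ≤ u ≤ 2U`), `w ≤ z`, everything for `U` large.
(1) `‖psumS σ 0 w u‖ ≤ tail σ 0 w ≤ w^(1-σ)/(1-σ) ≤ L^(1-σ)/(1-σ) ≤ V/2`, so `‖psumS σ 0 z u‖ ≤ V`
(`psumS 0 z = psumS 0 w + psumS w z`). This is the second claim.
(2) By `S_Es`, `|log‖eulS σ 0 w u‖| ≤ V/2 + c₁` and `|log‖eulS σ w z u‖| ≤ V/2 + c₁` with `c₁ = 4σ/κ` (`S_Sz` (b)).
So with `E = exp(V + 2c₁)`: `‖eulS σ 0 w u‖`, `‖eulS σ 0 z u‖` and `‖eulS σ 0 z u‖⁻¹` are at most `E`.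
(3) `S_Trn` with `R = L^(σ/4) ≥ 2`: `R ‖psumS w z‖ ≤ L^(1-σ/4)/2`, `R^2 tail ≤ L^(σ/2) 2σ/κ ≤ L^(1-σ/4)/2`, and
`R^J = exp((σ/4) ℓ J)`, `J ≥ κL/(100Bℓ) - 1`: `‖eulS - mollS‖ ≤ E exp(-σκL/(400B) + ℓ + L^(1-σ/4)) =: ϱ`.
Since `V` and `L^(1-σ/4)` are `o(L)`, `ϱ E ≤ 1/2` and `4E ϱ ≤ 1/(4L)`.
(4) `‖mollS‖ ≥ ‖eulS 0 z‖ - ϱ ≥ 1/E - ϱ ≥ 1/(2E)` and `‖zsum * mollS‖ ≤ 2`, so `‖zsum‖ ≤ 4E`.
(5) `ζ * eulS - 1 = (zsum * mollS - 1) + zsum * (eulS - mollS) + (ζ - zsum) * eulS`, of norm at most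
`1/(2L) + 1/(4L) + C U^(1-2σ) E ≤ 1/L`. About 200 lines. -/
def S_Gp : Prop :=
  ∀ σ : ℝ, 1 / 2 < σ → σ < 1 → ∃ U₀ : ℝ, ∀ U : ℝ, U₀ ≤ U → ∀ z : ℕ,
    Real.log U ^ Bs σ ≤ z → ∀ u ∈ Set.Icc U (2 * U),
    ‖zsum ((σ : ℂ) + (u : ℂ) * I) ⌈U⌉₊ * mollS σ (wU σ U) z (JU σ U) u - 1‖ ≤ 1 / (2 * Real.log U) →
    ‖psumS σ (wU σ U) z u‖ ≤ Real.log U ^ (1 - σ / 2) / 2 →
    ‖riemannZeta ((σ : ℂ) + (u : ℂ) * I) * eulS σ 0 z u - 1‖ ≤ 1 / Real.log U ∧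
      ‖psumS σ 0 z u‖ ≤ Real.log U ^ (1 - σ / 2)

/-- **Theorem G.**

Uses `S_Ex`, `S_Gr`, `S_Gc`, `S_Gb`, `S_Gs`, `S_Gp`. Proof. `L = log U`, `ℓ = log L`, `w = wU σ U`, `J = JU σ U`,
`N = ⌈U⌉₊`, `κ = 2σ-1`, `B = Bs σ`. For `d ∈ dset w z J`: `d` is the product of its prime factors, those `≤ w` have
product at most `primorial w ≤ 4^w` (`primorial_le_four_pow`), the others are at most `J` primes `≤ z`: so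
`d ≤ 4^w z^J =: D`. `4^w ≤ exp(1.39 κL/32)`, `z^J ≤ exp(3Bℓ κL/(100Bℓ)) = exp(0.03 κL)`: `D ≤ U^(κ/10)` and
`N D ≤ 2 U^(1+κ/10) ≤ U^(1+κ/8)` for `U` large. Take `r, b, l` from `S_Ex`. The `r`-sum over `Ioc z N` is the sum
of the blocks `Ioc Y (2Y)`, `Y = z 2^i`, `i < I`, where `I` is least with `z 2^I ≥ N`, with `r` replaced by 0
above `N` (`except_blocks`, Except.lean); `Y < N ≤ U+1`. The `l`-sum: blocks `Y = N 2^i`, `Y < N D ≤ U^(1+κ/8)`,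
coefficients 0 above `N D`. Both numbers of blocks are at most `2L` (`2^i ≤ U^(1+κ/8)`). Outside the union of the
at most `4L + 2` exceptional sets of `S_Gr`, `S_Gc`, `S_Gb`, `S_Gs` (total measure at most
`(4L+2) U^(1-δ') ≤ U^(1-δ'/2)`, `δ'` the minimum of the four) one has
`‖zsum * mollS - 1‖ ≤ (4L+1)/L^3 ≤ 1/(2L)` and `S_Gp` applies: such a `u` is not in `exc σ U z`.
About 200 lines. -/
def S_G : Prop :=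
  ∀ σ : ℝ, 1 / 2 < σ → σ < 1 → ∃ δ U₀ : ℝ, 0 < δ ∧ ∀ U : ℝ, U₀ ≤ U → ∀ z : ℕ,
    Real.log U ^ Bs σ ≤ z → (z : ℝ) ≤ Real.log U ^ (3 * Bs σ) →
    volume (exc σ U z) ≤ ENNReal.ofReal (U ^ (1 - δ))

end Pool.Agent.Lib.MP_aa9ae4_nt.S1
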