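import Mathlib
import Pool.Agent.Lib.MP_aa9ae4_nt.S1.SpecG
import Pool.Agent.Lib.MP_aa9ae4_nt.Twist
import Pool.Agent.Lib.MP_aa9ae4_nt.Weight
import Pool.Agent.Lib.MP_aa9ae4_nt.PrimeWeight
import Pool.Agent.Lib.MP_aa9ae4_nt.K2.Main

/-!
MP_aa9ae4_nt, Theorem S. Part W: exponential moments of prime sums, unweighted and with the weight
`zw T t = |∑_{n ≤ N(T)} n^{-1/2-it}|^2`, `N(T) = T exp(-(log log T)^3)`.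

Rules as in SpecG. Notation: `L = log T`, `ℓ = log log T`, `κ = 2σ-1`, `ρ = exp(-ℓ^3)`,
`fw t = |ζ(1/2+it)|^2`, `fn T = T log T` (both from Final.lean).
-/

namespace Pool.Agent.Lib.MP_aa9ae4_nt.S1

open Finset MeasureTheory Filter Topology
open Complex (I)

/-- **Truncated exponential series.**

Proof. `Complex.exp_bound'` with `n = J+1` (`‖x‖/(J+2) ≤ 1/2`): the difference is at most
`2 ‖x‖^(J+1)/(J+1)! ≤ 2 ((J+1)/10)^(J+1)/(J+1)! ≤ 2 (e/10)^(J+1)` since `n^n/n! ≤ exp n`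
(`Real.pow_div_factorial_le_exp`), and `e/10 ≤ 0.2719 ≤ exp(-1)`, so this is at most
`2 * 0.2719 * exp(-J)`. About 40 lines. -/
def S_Tay : Prop :=
  ∀ (J : ℕ) (x : ℂ), ‖x‖ ≤ (J : ℝ) / 10 → ‖Complex.exp x - expJ J x‖ ≤ Real.exp (-(J : ℝ))

/-- **Multinomial theorem.**

Proof. `Finset.sum_pow_eq_sum_piAntidiag`: `(∑_s x)^j = ∑_{k ∈ s.piAntidiag j} multinomial s k ∏ x^k` and
`multinomial s k = j!/∏ (k p)!` (`Nat.multinomial`, `Nat.multinomial_spec`: `(∏ (k p)!) * multinomial =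
(∑ k)!`), so `(∑ x)^j/j! = ∑_{k ∈ piAntidiag s j} ∏ x^k/k!`. The sets `s.piAntidiag j` are pairwise
disjoint (`∑_{p∈s} k p = j`), so `∑_{k ∈ KK s J} = ∑_{j ≤ J} ∑_{piAntidiag s j}` (`Finset.sum_biUnion`).
Second part: the same identity over the reals, and `∑_{j≤J} X^j/j! ≤ exp X` for `X ≥ 0`
(`Real.sum_le_exp_of_nonneg`). About 80 lines. -/
def S_Mn : Prop :=
  (∀ (s : Finset ℕ) (x : ℕ → ℂ) (J : ℕ), expJ J (∑ p ∈ s, x p) =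
    ∑ k ∈ KK s J, ∏ p ∈ s, (x p ^ k p / ((k p).factorial : ℂ))) ∧
  (∀ (s : Finset ℕ) (x : ℕ → ℝ) (J : ℕ), (∀ p, 0 ≤ x p) →
    ∑ k ∈ KK s J, ∏ p ∈ s, (x p ^ k p / ((k p).factorial : ℝ)) ≤ Real.exp (∑ p ∈ s, x p))

/-- **The integers `nn s k`.** `s` is a finite set of primes.

Proof. `k ∈ KK s J` means: `∑_{p∈s} k p ≤ J` and `k p = 0` for `p ∉ s` (`Finset.mem_piAntidiag`). (a) unique
factorisation: the `p`-adic valuation of `nn s k` is `k p` for `p ∈ s` (`Nat.factorization_prod`, or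
`Nat.Prime.factorization`...). (b) `p^(k p) ≤ M^(k p)`. (c) `pow_add`, `prod_mul_distrib`. (d) compare
valuations, `Nat.factorization_gcd` (`gcd ↔ ⊓`). (e) clear. (f) `Complex.natCast_mul_natCast_cpow`
(multiplicativity of `n ↦ n^w` for natural numbers), `nn s k = ∏ p^(k p)`. About 130 lines. -/
def S_Nn : Prop :=
  ∀ s : Finset ℕ, (∀ p ∈ s, p.Prime) → ∀ J : ℕ,
    (∀ k ∈ KK s J, ∀ l ∈ KK s J, nn s k = nn s l → k = l) ∧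
    (∀ M : ℕ, 1 ≤ M → (∀ p ∈ s, p ≤ M) → ∀ k ∈ KK s J, 1 ≤ nn s k ∧ nn s k ≤ M ^ J) ∧
    (∀ k l : ℕ → ℕ, nn s (k + l) = nn s k * nn s l) ∧
    (∀ k l : ℕ → ℕ, Nat.gcd (nn s k) (nn s l) = nn s (fun p => min (k p) (l p))) ∧
    (∀ k ∈ KK s J, ∀ g : ℕ → ℕ, (∀ p, g p ≤ k p) → g ∈ KK s J ∧ (fun p => k p - g p) ∈ KK s J) ∧
    (∀ (σ u : ℝ) (k : ℕ → ℕ), pw σ (nn s k) u = ∏ p ∈ s, pw σ p u ^ k p)

/-- **Unweighted mean square of the exponential.**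

Uses `S_Mn`, `S_Nn`. Proof. `P = prs y z`. By `S_Mn` and (f) of `S_Nn`
`expJ J (λ ω psumS) = ∑_{k∈KK P J} a_k nn(k)^(-iu)`, `a_k = ∏ (λω)^(k p) p^(-σ k p)/(k p)!`, with distinct
integers `1 ≤ nn(k) ≤ (z+1)^J` ((a), (b)). `mean_value` gives `C (X + (z+1)^J) ∑ ‖a_k‖^2` and
`‖a_k‖^2 ≤ ∏ (λ^2 p^(-2σ))^(k p)/(k p)!` as `‖ω‖ ≤ 1` and `((k p)!)^2 ≥ (k p)!`; apply the second part of `S_Mn`.
About 120 lines. -/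
def S_Eq : Prop :=
  ∃ C : ℝ, 0 < C ∧ ∀ (σ lam c X : ℝ) (om : ℂ) (y z J : ℕ), 0 ≤ lam → ‖om‖ ≤ 1 → 1 ≤ X →
    ∫ u in c..(c + X), ‖expJ J ((lam : ℂ) * om * psumS σ y z u)‖ ^ 2 ≤
      C * (X + ((z : ℝ) + 1) ^ J) * Real.exp (lam ^ 2 * tail (2 * σ) y z)

/-- **Unweighted exponential moments.**

Uses `S_Sz`, `S_Tay`, `S_Eq`. Proof. Let `S = psumS σ y z (a t)`, `J = ⌈10 λ L^om⌉₊`. For `ω ∈ {1, i, -1, -i}`: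
`max_ω Re(ω S) ≥ ‖S‖/√2`, so `exp(λ‖S‖) ≤ ∑_ω exp(2λ Re(ωS)) = ∑_ω ‖exp(λωS)‖^2`. On the set
`‖λωS‖ ≤ J/10`, so by `S_Tay` `‖exp(λωS)‖^2 ≤ 2‖expJ J (λωS)‖^2 + 2`. Integrate over all of `[T,2T]`,
substitution `u = at` (`intervalIntegral.integral_comp_mul_left`): `(1/a) ∫_{aT}^{2aT}`, and `S_Eq` with
`X = aT ≥ 1`: at most `(C/a)(aT + (z+1)^J) exp(λ^2 C_σ)`, `C_σ = 2σ/κ` (`S_Sz` (b)), where
`(z+1)^J ≤ exp((10λL^om+1) log(L^K+1)) ≤ T` for `T` large. The set is closed, the integrand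
nonnegative and continuous (`u ↦ psumS σ y z u` is continuous). About 150 lines. -/
def S_Hx : Prop :=
  ∀ (σ a lam om : ℝ) (K : ℕ), 1 / 2 < σ → 0 < a → 0 ≤ lam → 0 < om → om < 1 →
    ∃ C : ℝ, 0 < C ∧ ∀ᶠ T : ℝ in atTop, ∀ y z : ℕ, (z : ℝ) ≤ Real.log T ^ K →
    ∫ t in {t ∈ Set.Icc T (2 * T) | ‖psumS σ y z (a * t)‖ ≤ Real.log T ^ om},
      Real.exp (lam * ‖psumS σ y z (a * t)‖) ≤ C * T

/-- the height up to which the integers are separated -/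
noncomputable def HT (T : ℝ) : ℕ := ⌊Real.exp ((Real.log (Real.log T)) ^ 2)⌋₊

/-- `ψ` bounds the twisted means of `zw` at the ratios `(k/h)^a` -/
def PsiOK (a T : ℝ) (ψ : ℕ → ℕ → ℝ) : Prop :=
  (∀ h k, 0 ≤ ψ h k) ∧
  ∀ h ∈ Icc 1 (HT T), ∀ k ∈ Icc 1 (HT T), Nat.Coprime h k →
    ‖∫ t in T..(2 * T), (zw T t : ℂ) * ((((k : ℝ) / h) ^ a : ℝ) : ℂ) ^ ((t : ℂ) * I)‖ ≤
      (ψ h k + Real.exp (-(Real.log (Real.log T)) ^ 3 / 8)) * fn T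

/-- **Separation: distinct ratios have distinct rational approximations.**

Uses `S_Sz` ((d) with `τ = v/2`). Proof. `ρ = exp(-ℓ^3)`, `N = NT T`, so `1 ≤ N ≤ ρT` for `T` large,
`1 + log N ≤ 2L`. Let `h, k ≤ H = HT T ≤ exp(ℓ^2)` be coprime with `h < k`, `θ = (k/h)^a > 1`. Call `n ≥ 1` a
solution if `|θn - m| ≤ 8ρ^(1/2)` for an integer `m`. Let `q` be the least solution if there is one
with `n ≤ ρ^(-1/4)`, otherwise `q = ⌈ρ^(-1/4)⌉₊`. `twisted_bound` with `Λ = ρ^(-1/2)` (`8ΛN/T ≤ 8ρ^(1/2)`):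
`‖∫ zw θ^(it)‖ ≤ C (N 2L + 2TL (ρ^(1/2) + 1/(√θ q))) ≤ 2C fn(T) (2ρ^(1/2) + 1/(√θ q))`. In the second case
`1/(√θ q) ≤ ρ^(1/4)`; put `ψ h k = 0`, `6Cρ^(1/4) ≤ exp(-ℓ^3/8)` for `T` large. In the first case let `m` be the
integer with `|θq-m| ≤ 8ρ^(1/2) < 1/2`: `1 ≤ m ≤ 2θq`, so `1/(√θ q) = 1/√(θq q) ≤ √2/√(mq)`; put
`ψ h k = 2√2 C/√(mq)`. The map `(h,k) ↦ (m,q)` is injective on the pairs of the first case: if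
`(h',k')` has the same `(m,q)` then `|θ-θ'| ≤ 16ρ^(1/2)`, but for different reduced fractions
`x = k/h > x' = k'/h' > 1` one has `x - x' ≥ 1/(hh') ≥ H^(-2)` and
`x^a - x'^a ≥ a(x-x')/x ≥ a H^(-3)` (`primeweight_rpow_sub`), and `16ρ^(1/2) < a exp(-3ℓ^2)` for `T` large. For
`h > k`: `ψ h k = ψ k h`, the integral for `θ⁻¹` is the complex conjugate of the one for `θ` (`zw` real). For
`h = k = 1`: `θ = 1`, `q = 1` in `twisted_bound`: `ψ 1 1 = 4C`. For non coprime pairs `ψ = 0`. Then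
`∑ ψ^v ≤ (4C)^v + 2 (2√2C)^v ∑_{m,q} (mq)^(-v/2)`, where the finite sum over distinct pairs `(m,q)`,
`m, q ≥ 1`, is at most `(∑_{n≤M} n^(-v/2))^2 ≤ ((v/2)/(v/2-1))^2`. About 250 lines; split if necessary. -/
def S_Psi : Prop :=
  ∀ a v : ℝ, 0 < a → 2 < v → ∃ C : ℝ, 0 < C ∧ ∀ᶠ T : ℝ in atTop, ∃ ψ : ℕ → ℕ → ℝ,
    PsiOK a T ψ ∧ (∀ h k, ψ h k ≤ C) ∧
    ∑ h ∈ Icc 1 (HT T), ∑ k ∈ Icc 1 (HT T), ψ h k ^ v ≤ C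

/-- **Quadratic form.**

Proof. `‖∑ b_i n_i^(-iat)‖^2 = ∑_i ∑_j b_i conj(b_j) n_i^(-iat) n_j^(iat)` and
`n_i^(-iat) n_j^(iat) = exp(iat log(n_j/n_i)) = ((k/h)^a)^(it)` with `g = gcd(n_i,n_j)`, `h = n_i/g`,
`k = n_j/g`, which are coprime and in `Icc 1 (HT T)`. Integrate against `zw` (continuous,
`weight_zsum_cont`), take norms. About 100 lines. -/
def S_Wsq : Prop :=
  ∀ (a T : ℝ) (ψ : ℕ → ℕ → ℝ), 0 < T → PsiOK a T ψ → ∀ (ι : Type) (s : Finset ι) (n : ι → ℕ) (b : ι → ℂ),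
    (∀ i ∈ s, n i ∈ Icc 1 (HT T)) →
    ∫ t in T..(2 * T), zw T t * ‖∑ i ∈ s, b i * (n i : ℂ) ^ (-(((a * t : ℝ) : ℂ) * I))‖ ^ 2 ≤
      fn T * ∑ i ∈ s, ∑ j ∈ s, ‖b i‖ * ‖b j‖ *
        (ψ (n i / Nat.gcd (n i) (n j)) (n j / Nat.gcd (n i) (n j)) +
          Real.exp (-(Real.log (Real.log T)) ^ 3 / 8))

/-- **The combinatorial inequality.**

Uses `S_Nn`. Proof. For `k, l ∈ KK s J` let `g = min(k,l)`, `h = k-g`, `l' = l-g` (all in `KK s J` by (e)); by (c),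
(d) `nn k = nn g nn h`, `gcd(nn k, nn l) = nn g ≥ 1`, so the arguments of `ψ` are `nn h`, `nn l'`. The map
`(k,l) ↦ (g,h,l')` is injective and `b k b l ≤ b(g)^2 b(h) b(l')`. So the left side is at most
`∑_g b(g)^2 * ∑_{h,l'} b(h) b(l') ψ(nn h, nn l')`, sums over `KK s J` (all terms nonnegative). Hölder
(`Real.inner_le_Lp_mul_Lq_of_nonneg`, exponents `u`, `v`) on the product `KK × KK`:
`∑ b(h)b(l')ψ ≤ (∑ (b(h) b(l'))^u)^(1/u) (∑ ψ(nn h, nn l')^v)^(1/v)`, the first sum is `(∑_h b(h)^u)^2`, the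
second is at most `Cψ` as `(h,l') ↦ (nn h, nn l')` is injective into `Icc 1 H × Icc 1 H` ((a)).
About 150 lines. -/
def S_Cmb : Prop :=
  ∀ (s : Finset ℕ) (J H : ℕ) (b : (ℕ → ℕ) → ℝ) (ψ : ℕ → ℕ → ℝ) (u v Cp : ℝ),
    (∀ p ∈ s, p.Prime) → (∀ k, 0 ≤ b k) → (∀ g h, b (g + h) ≤ b g * b h) → 1 < u → 1 < v →
    1 / u + 1 / v = 1 → (∀ h k, 0 ≤ ψ h k) → ∑ h ∈ Icc 1 H, ∑ k ∈ Icc 1 H, ψ h k ^ v ≤ Cp →
    (∀ k ∈ KK s J, nn s k ∈ Icc 1 H) →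
    ∑ k ∈ KK s J, ∑ l ∈ KK s J, b k * b l *
        ψ (nn s k / Nat.gcd (nn s k) (nn s l)) (nn s l / Nat.gcd (nn s k) (nn s l)) ≤
      (∑ g ∈ KK s J, b g ^ 2) * ((∑ h ∈ KK s J, b h ^ u) ^ (2 / u) * Cp ^ (1 / v))

/-- **Weighted mean square of the exponential.**

Uses `S_Sz`, `S_Mn`, `S_Nn`, `S_Psi`, `S_Wsq`, `S_Cmb`. Proof. `u = 1 + 1/(2σ)` is in `(1,2)` and
`σu = σ + 1/2 > 1`; `v = u/(u-1) > 2`. Take `ψ`, `C₁` from `S_Psi` for `v`. `P = prs y z`. By `S_Mn`, (f) of `S_Nn`: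
`expJ J (λ ω psumS σ y z (at)) = ∑_{k∈KK P J} b_k nn(k)^(-iat)` with
`‖b_k‖ ≤ β(k) := ∏_{p∈P} (λ p^(-σ))^(k p)/(k p)!`. `nn(k) ≤ (z+1)^J ≤ exp(Kℓ log(ℓ^A+1)) ≤ exp(ℓ^2) - 1 ≤ HT T`
for `T` large. `S_Wsq`: the integral is at most `fn T` times
`∑∑ β(k)β(l)ψ(..) + exp(-ℓ^3/8) (∑ β(k))^2`. Here `∑_k β(k) = ∑_{j≤J} (λ ∑p^(-σ))^j/j! ≤ (J+1)(1+λz)^J ≤
exp(ℓ^2)` for `T` large, so the second term is at most 1. `β(g+h) ≤ β(g)β(h)` since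
`(a+b)! ≥ a! b!` (`Nat.factorial_mul_factorial_dvd_factorial_add`). `S_Cmb`: the first term is at most
`(∑ β^2)(∑ β^u)^(2/u) C₁^(1/v)`; `β(k)^2 ≤ ∏ (λ^2 p^(-2σ))^(k p)/(k p)!` and
`β(k)^u ≤ ∏ (λ^u p^(-σu))^(k p)/(k p)!` (as `((k p)!)^u ≥ (k p)!`), so by the second part of `S_Mn` and `S_Sz` (b) the
sums are at most `exp(λ^2 2σ/κ)` and `exp(λ^u σu/(σu-1))`. About 250 lines. -/
def S_Wex : Prop :=
  ∀ (σ a lam K : ℝ) (A : ℕ), 1 / 2 < σ → σ < 1 → 0 < a → 0 ≤ lam → 0 < K →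
    ∃ C : ℝ, 0 < C ∧ ∀ᶠ T : ℝ in atTop, ∀ (y z J : ℕ) (om : ℂ),
    (z : ℝ) ≤ Real.log (Real.log T) ^ A → (J : ℝ) ≤ K * Real.log (Real.log T) → ‖om‖ ≤ 1 →
    ∫ t in T..(2 * T), zw T t * ‖expJ J ((lam : ℂ) * om * psumS σ y z (a * t))‖ ^ 2 ≤ C * fn T

/-- **Weighted second moment of a prime sum.**

Uses `S_Sz`, `S_Psi`, `S_Wsq`. Proof. `u, v, ψ, C₁` as in `S_Wex`, `P = prs y z`, `z ≤ ℓ^A ≤ HT T` for `T` large.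
`S_Wsq` with `ι = ℕ`, `s = P`, `n p = p`, `b p = p^(-σ)`: at most `fn T` times
`∑_{p,q} (pq)^(-σ) (ψ(..) + exp(-ℓ^3/8))`. The last part is at most `z^2 exp(-ℓ^3/8) ≤ 1/L`. `p = q`:
`ψ 1 1 ≤ C₁` times `∑ p^(-2σ) ≤ y^(-κ)/κ`. `p ≠ q`: `gcd = 1`, Hölder:
`(∑_p p^(-σu))^(2/u) C₁^(1/v)`, `∑_{p>y} p^(-σu) ≤ y^(1-σu)/(σu-1)`, `σu - 1 = σ - 1/2 = κ/2` and
`(κ/2)(2/u) = κ/u ≥ κ/2`. Since `y ≥ 1` all is at most `C (y^(-κ/2) + 1/L)`. About 130 lines. -/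
def S_W2m : Prop :=
  ∀ (σ a : ℝ) (A : ℕ), 1 / 2 < σ → σ < 1 → 0 < a → ∃ C : ℝ, 0 < C ∧ ∀ᶠ T : ℝ in atTop,
    ∀ y z : ℕ, 1 ≤ y → (z : ℝ) ≤ Real.log (Real.log T) ^ A →
    ∫ t in T..(2 * T), zw T t * ‖psumS σ y z (a * t)‖ ^ 2 ≤
      C * ((y : ℝ) ^ (-(2 * σ - 1) / 2) + 1 / Real.log T) * fn T

/-- **Comparison of the weights and masses.**

Proof. (a) `weight_compare` with `N = NT T`: `1 ≤ N ≤ T`, `N ≥ ρT/2`, so `1 + log(T/N) ≤ 2 + ℓ^3`, and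
`C T √((1+L)(2+ℓ^3)) ≤ T L L^(-1/3)` for `T` large. (b) `weight_mv` with `M = 0` (`zsum _ 0 = 0`,
`∑_{n≤N} 1/n ≤ 1 + log N ≤ 2L`). (c) `K2.main` with `a = 1`, `β = 0` (`x^0 = 1`): the fourth moment divided by
`T L^4` converges, so it is eventually bounded; `fw^2 = ‖ζ‖^4`. (d) `∫ fw/fn T → 1`: `mass_limit` (Final.lean
uses it) or `weight_rational 1 1`. About 100 lines. -/
def S_Cf : Prop :=
  (∀ᶠ T : ℝ in atTop, ∫ t in T..(2 * T), |fw t - zw T t| ≤ fn T * Real.log T ^ (-(1 / 3) : ℝ)) ∧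
  (∃ C : ℝ, 0 < C ∧ ∀ᶠ T : ℝ in atTop, ∫ t in T..(2 * T), zw T t ≤ C * fn T) ∧
  (∃ C : ℝ, 0 < C ∧ ∀ᶠ T : ℝ in atTop, ∫ t in T..(2 * T), fw t ^ 2 ≤ C * (T * Real.log T ^ 4)) ∧
  Tendsto (fun T : ℝ => (∫ t in T..(2 * T), fw t) / fn T) atTop (𝓝 1)

/-- **Weighted exponential moments.**

Uses `S_Tay`, `S_Wex`, `S_Cf`. Proof. As `S_Hx`: `S = psumS σ y z (at)`, `J = ⌈10λKℓ⌉₊ ≤ (10λK+1)ℓ`,
`exp(λ‖S‖) ≤ ∑_{ω ∈ {1,i,-1,-i}} ‖exp(λωS)‖^2 ≤ ∑_ω (2‖expJ J (λωS)‖^2 + 2)` on the set; integrate over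
`[T,2T]` with `S_Wex` (with `K' = 10λK+1`) and (b) of `S_Cf`. About 90 lines. -/
def S_We : Prop :=
  ∀ (σ a lam K : ℝ) (A : ℕ), 1 / 2 < σ → σ < 1 → 0 < a → 0 ≤ lam → 0 < K →
    ∃ C : ℝ, 0 < C ∧ ∀ᶠ T : ℝ in atTop, ∀ y z : ℕ, (z : ℝ) ≤ Real.log (Real.log T) ^ A →
    ∫ t in {t ∈ Set.Icc T (2 * T) | ‖psumS σ y z (a * t)‖ ≤ K * Real.log (Real.log T)},
      zw T t * Real.exp (lam * ‖psumS σ y z (a * t)‖) ≤ C * fn T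

/-- **Hölder with the fourth moment.**

Uses `S_Cf` (c). Proof. Cauchy-Schwarz on `F` (`MeasureTheory.integral_mul_le_Lp_mul_Lq_of_nonneg` with
`p = q = 2`): `∫_F fw g ≤ (∫_F fw^2)^(1/2) (∫_F g^2)^(1/2)`, and `∫_F fw^2 ≤ ∫_T^{2T} fw^2 ≤ C T L^4`.
About 60 lines. -/
def S_Hol : Prop :=
  ∃ C : ℝ, 0 < C ∧ ∀ᶠ T : ℝ in atTop, ∀ (F : Set ℝ) (g : ℝ → ℝ), MeasurableSet F →
    F ⊆ Set.Icc T (2 * T) → (∀ t, 0 ≤ g t) → AEStronglyMeasurable g (volume.restrict F) →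
    IntegrableOn (fun t => g t ^ 2) F →
    ∫ t in F, fw t * g t ≤ C * (√T * Real.log T ^ 2) * √(∫ t in F, g t ^ 2)

/-- **Large values of the short prime sum.**

Uses `S_Hx`. Proof. `S_Hx` with `λ = 101/kap`, `om = 1/2`, `K = 1`: for `T` large `y1 σ T ≤ ℓ^A ≤ L^(1/2) ≤ L` and
`‖psumS σ y y₁ (at)‖ ≤ y₁ ≤ L^(1/2)` for every `t`, so `∫_{[T,2T]} exp(λ‖S‖) ≤ C T`; Markov: the measure is at most
`exp(-101ℓ) C T = C T L^(-101) ≤ T L^(-100)`. About 80 lines. -/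
def S_Tla : Prop :=
  ∀ σ a kap : ℝ, 1 / 2 < σ → σ < 1 → 0 < a → 0 < kap → ∀ᶠ T : ℝ in atTop, ∀ y : ℕ,
    volume {t ∈ Set.Icc T (2 * T) |
      kap * Real.log (Real.log T) < ‖psumS σ y (y1 σ T) (a * t)‖} ≤
      ENNReal.ofReal (T * Real.log T ^ (-(100 : ℝ)))

/-- **Large values of the long prime sum.**

Uses `S_Hm`, `S_Sz`. Proof. `S = psumS σ y₁ z (at)`, `y₁ = y1 σ T ≥ ℓ^A/2 ≥ 1`, `z = zT σ T ≤ L^(2B)`, `A = As σ`, `Aκ ≥ 2`, so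
`tail (2σ) y₁ z ≤ y₁^(-κ)/κ ≤ 2ℓ^(-2)/κ`. `m = ⌈ℓ⌉₊ ≤ 2ℓ`. By `S_Hm` (`U = aT`, substitution `u = at`)
`∫_T^{2T} ‖S‖^(2m) ≤ (C/a)(aT + z^m) m! (2ℓ^(-2)/κ)^m ≤ C' T (4/(κℓ))^m` (`z^m ≤ exp(2Bℓ * 2ℓ) ≤ T`,
`m! ≤ m^m ≤ (2ℓ)^m`). Markov with threshold `ℓ^(-1/4)`: the measure is at most
`C' T (4 ℓ^(1/2)/(κℓ))^m = C' T (4/(κℓ^(1/2)))^m ≤ C' T exp(-101ℓ)` once `log(κℓ^(1/2)/4) ≥ 101`.
About 130 lines. -/
def S_Tlb : Prop :=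
  ∀ σ a : ℝ, 1 / 2 < σ → σ < 1 → 0 < a → ∀ᶠ T : ℝ in atTop,
    volume {t ∈ Set.Icc T (2 * T) | Real.log (Real.log T) ^ (-(1 / 4) : ℝ) <
      ‖psumS σ (y1 σ T) (zT σ T) (a * t)‖} ≤
      ENNReal.ofReal (T * Real.log T ^ (-(100 : ℝ)))

end Pool.Agent.Lib.MP_aa9ae4_nt.S1
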