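import Mathlib
import Pool.Agent.Lib.MP_aa9ae4_nt.S1.SpecW
import Pool.Agent.Lib.MP_aa9ae4_nt.Torus
import Pool.Agent.Lib.MP_aa9ae4_nt.Final

/-!
MP_aa9ae4_nt, Theorem S. Part M: the primes `> y` are negligible for the weighted means, and the
theorem. Rules and notation as in SpecG and SpecW.
-/

namespace Pool.Agent.Lib.MP_aa9ae4_nt.S1

open Finset MeasureTheory Filter Topology
open Complex (I)

/-- the points where the full prime sum is not too large -/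
def Gz (σ a T : ℝ) : Set ℝ :=
  {t ∈ Set.Icc T (2 * T) | ‖psumS σ 0 (zT σ T) (a * t)‖ ≤ 2 * Real.log T ^ (1 - σ / 2)}

/-- the points of `Gz` where the prime sum over `(y, y₁]` or over `(y₁, z]` is large -/
def bigF (σ a kap : ℝ) (y : ℕ) (T : ℝ) : Set ℝ :=
  {t ∈ Gz σ a T | kap * Real.log (Real.log T) < ‖psumS σ y (y1 σ T) (a * t)‖ ∨
    Real.log (Real.log T) ^ (-(1 / 4) : ℝ) < ‖psumS σ (y1 σ T) (zT σ T) (a * t)‖}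

/-- the effect of the primes in `(y, z(T)]` -/
noncomputable def gm (σ a γ : ℝ) (y : ℕ) (T t : ℝ) : ℝ :=
  ‖eulS σ 0 y (a * t)‖ ^ γ * |‖eulS σ y (zT σ T) (a * t)‖ ^ γ - 1|

/-- **The set of large prime sums is negligible, even with exponential weights.**

Uses `S_Hx`, `S_Hol`, `S_Tla`, `S_Tlb`. Proof. `F = bigF σ a kap y T`, measurable because `u ↦ psumS σ y z u` is
continuous. `S = psumS σ y z (at)`, `z = zT σ T`, `y ≤ z` for `T` large. `g = exp(λ‖S‖)` is continuous. On `Gz`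
`‖S‖ ≤ ‖psumS σ 0 z‖ + ‖psumS σ 0 y‖ ≤ 2L^(1-σ/2) + y ≤ 3L^(1-σ/2) ≤ L^om`, `om = 1-σ/4`, for `T` large.
Cauchy-Schwarz: `∫_F g^2 = ∫_F exp(2λ‖S‖) ≤ (vol F)^(1/2) (∫_{Gz} exp(4λ‖S‖))^(1/2)
≤ (2T L^(-100))^(1/2) (C T)^(1/2)` by `S_Tla`, `S_Tlb` and `S_Hx` (with `4λ`, `om`, `K = 2 Bs σ`). So by `S_Hol` the
integral is at most `C √T L^2 * (C' T L^(-50))^(1/2) = C'' T L^(-23)`, divided by `fn T = T L` this tends
to 0. About 120 lines. -/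
def S_Ft : Prop :=
  ∀ σ a lam kap : ℝ, 1 / 2 < σ → σ < 1 → 0 < a → 0 ≤ lam → 0 < kap → ∀ y : ℕ,
    Tendsto (fun T : ℝ => (∫ t in bigF σ a kap y T,
      fw t * Real.exp (lam * ‖psumS σ y (zT σ T) (a * t)‖)) / fn T) atTop (𝓝 0)

/-- **The remaining points.**

Uses `S_Sz`, `S_Es`, `S_W2m`, `S_We`, `S_Cf`. Proof. `c = |γ|`, `c₁ = 2σ/κ`, `kap = 1/(16(c+1))`,
`W = Gz \ bigF`, `S₀ = psumS σ 0 y`, `S₁ = psumS σ y y₁`, `S₂ = psumS σ y₁ z` at `at`; for `T` large `y ≤ y₁ ≤ z` and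
`psumS σ y z = S₁ + S₂`. On `W`: `‖S₁‖ ≤ kap ℓ`, `‖S₂‖ ≤ ℓ^(-1/4) ≤ 1`. With `τ = tail (2σ) y z ≤ y^(-κ)/κ`
(`S_Sz` (a)) and `e = ‖S₁‖ + ℓ^(-1/4) + 2τ`: `|log‖eulS σ y z‖| ≤ e` (`S_Es`), so
`|‖eulS σ y z‖^γ - 1| = |exp(γ log‖..‖) - 1| ≤ c e exp(c e)`; and `‖eulS σ 0 y‖^γ ≤ exp(c(‖S₀‖ + 2c₁))`. Hence
`gm ≤ C₁ (‖S₁‖ + r) exp(c‖S₀‖) exp(c‖S₁‖)`, `r = ℓ^(-1/4) + 2τ`, `C₁ = (c+1) exp(c(1+2/κ+2c₁))`.
(i) `‖S₀‖ ≤ y`; `gm ≤ C₁ (kap ℓ + r) exp(cy) L^(c kap) ≤ L^(1/8)` for `T` large as `c kap ≤ 1/16`. So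
`∫_W fw gm ≤ ∫_W zw gm + L^(1/8) ∫_T^{2T} |fw - zw| ≤ ∫_W zw gm + fn T L^(1/8-1/3)` (`S_Cf` (a)).
(ii) Cauchy-Schwarz with the weight `zw`:
`∫_W zw gm ≤ C₁ (∫_T^{2T} zw (‖S₁‖+r)^2)^(1/2) (∫_W zw exp(2c‖S₀‖ + 2c‖S₁‖))^(1/2)`. First factor:
`(‖S₁‖+r)^2 ≤ 2‖S₁‖^2 + 2r^2`, `S_W2m` (`z = y₁ ≤ ℓ^A`), `S_Cf` (b), `r^2 ≤ 2ℓ^(-1/2) + 8 y^(-2κ)/κ^2`: for `T` large
(depending on `y`) at most `C₂ y^(-κ/2) fn T`. Second factor: `exp(2c‖S₀‖+2c‖S₁‖) ≤ exp(4c‖S₀‖) +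
exp(4c‖S₁‖)`; `S_We` with `λ = 4c`, `K = 1`, `A = As σ`, for `(0,y)` (`y ≤ ℓ ≤ ℓ^A`, `‖S₀‖ ≤ y ≤ ℓ` everywhere, `T` large)
and `(y,y₁)` (`‖S₁‖ ≤ kap ℓ ≤ ℓ` on `W`): at most `2C₃ fn T`. Together
`∫_W fw gm ≤ (C₄ y^(-κ/4) + L^(-1/5)) fn T ≤ 2C₄ y^(-κ/4) fn T` for `T` large; `C₄` does not depend on `y`.
About 280 lines; split into private lemmas. -/
def S_Md : Prop :=
  ∀ σ a γ : ℝ, 1 / 2 < σ → σ < 1 → 0 < a → ∃ kap C : ℝ, 0 < kap ∧ 0 < C ∧ ∀ y : ℕ, 1 ≤ y →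
    ∀ᶠ T : ℝ in atTop, ∫ t in Gz σ a T \ bigF σ a kap y T, fw t * gm σ a γ y T t ≤
      C * (y : ℝ) ^ (-(2 * σ - 1) / 4) * fn T

/-- **The good set.**

Uses `S_G`. Proof. `z = zT σ T = ⌊L^(2B)⌋₊`. With `U = aT`, `log U = L + log a`: for `T` large
`(log U)^B ≤ L^(2B) - 1 ≤ z ≤ L^(2B) ≤ (log U)^(3B)`, so `S_G` applies:
`volume (exc σ (aT) z) ≤ (aT)^(1-δ)`. The set `Icc T (2T) \ good` is the preimage of `exc σ (aT) z` under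
`t ↦ at` (`t ∈ [T,2T]` iff `at ∈ [aT,2aT]`), its measure is `1/a` times that (`Real.volume_preimage_mul_left`),
at most `T^(1-δ/2)` for `T` large. Measurability of `good`: on `[aT,2aT]` the functions
`u ↦ ζ(σ+iu)` (`differentiableAt_riemannZeta`, the imaginary part is not 0), `eulS`, `psumS` are
continuous, so the exceptional set is relatively open in a closed interval
(`fin_exc_meas` in Final.lean is similar). For `t ∈ good`: `a t ∈ [aT,2aT]` is not in `exc`, so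
`‖ζ eulS - 1‖ ≤ 1/log(aT) ≤ 2/L` and `‖psumS σ 0 z‖ ≤ (log aT)^(1-σ/2) ≤ 2L^(1-σ/2)`. About 170 lines. -/
def S_Gd : Prop :=
  ∀ σ a : ℝ, 1 / 2 < σ → σ < 1 → 0 < a → ∃ δ : ℝ, 0 < δ ∧ ∀ᶠ T : ℝ in atTop,
    MeasurableSet (good σ a T) ∧
    volume (Set.Icc T (2 * T) \ good σ a T) ≤ ENNReal.ofReal (T ^ (1 - δ)) ∧
    good σ a T ⊆ Gz σ a T ∧
    ∀ t ∈ good σ a T, ‖fzS σ a t * eulS σ 0 (zT σ T) (a * t) - 1‖ ≤ 2 / Real.log T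

/-- **The primes above `y`.**

Uses `S_Sz`, `S_Es`, `S_Ft`, `S_Md`, `S_Gd`. Proof. `good ⊆ Gz ⊆ (Gz \ F) ∪ F`, `F = bigF σ a kap y T`, all integrands
nonnegative. The first part is `S_Md`. On `F`: with `c = |γ|`, `c₁ = 2σ/κ`, `S = psumS σ y z`:
`gm ≤ exp(c(y+2c₁)) (exp(c(‖S‖+2c₁)) + 1) ≤ C_y exp(c‖S‖)` (`S_Es`, `S_Sz` (b)), so by `S_Ft` (`λ = c`) the part over `F` is
eventually at most `y^(-κ/4) fn T` (`y ≥ 1` fixed). Integrability: continuous functions on bounded measurable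
sets. About 100 lines. -/
def S_Cmp : Prop :=
  ∀ σ a γ : ℝ, 1 / 2 < σ → σ < 1 → 0 < a → ∃ C : ℝ, 0 < C ∧ ∀ y : ℕ, 1 ≤ y →
    ∀ᶠ T : ℝ in atTop, ∫ t in good σ a T, fw t * gm σ a γ y T t ≤
      C * (y : ℝ) ^ (-(2 * σ - 1) / 4) * fn T

/-- **Finite Euler products.**

Proof. Copy of `torus_limit` (Torus.lean) with `p^(-1)` replaced by `p^(-σ)`:
`eulS σ 0 y (at) = f(torusFlow a y t)`, `f(x) = ∏_p (1 - p^(-σ) fourier 1 (x p))` continuous and without zeros on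
the compact torus (`p^(-σ) < 1`), so `‖f‖^γ` is continuous and `torus_good` applies with `w = fw`, `nrm = fn`; the
hypotheses of `torus_good` for this weight are those used in Final.lean (`fin_close`: the twisted limits,
`weight_rational`, `weight_irrational...`). About 80 lines. -/
def S_Tor : Prop :=
  ∀ (σ a γ : ℝ) (y : ℕ), 1 / 2 < σ → 0 < a → ∃ D : ℝ, Tendsto (fun T : ℝ =>
    (∫ t in T..(2 * T), fw t * ‖eulS σ 0 y (a * t)‖ ^ γ) / fn T) atTop (𝓝 D)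

/-- **The weighted means over the good set converge.**

Uses `S_Cmp`, `S_Tor`, `S_Gd`, `S_Hol`. Proof. `z = zT σ T ≥ y` for `T` large, `eulS σ 0 z = eulS σ 0 y * eulS σ y z`. So
`|∫_good fw ‖eulS σ 0 z‖^γ - ∫_{[T,2T]} fw ‖eulS σ 0 y‖^γ| ≤ ∫_good fw gm + ∫_bad fw ‖eulS σ 0 y‖^γ`,
`bad = Icc T (2T) \ good`. The first is at most `C y^(-κ/4) fn T` (`S_Cmp`). For fixed `y` `‖eulS σ 0 y‖^γ` is
bounded (continuous and nonvanishing periodic factors: `0 < 1-2^(-1/2) ≤ ‖1-pw‖ ≤ 2`), and by `S_Hol` with `g = 1`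
`∫_bad fw ≤ C √T L^2 T^((1-δ)/2) = o(fn T)`. With the limit `D_y` of `S_Tor`:
`|LG σ a γ T - D_y| ≤ 2C y^(-κ/4)` for `T` large. As `y^(-κ/4) → 0`, `fin_conv` (Final.lean) gives the limit.
About 150 lines. -/
def S_Lim : Prop :=
  ∀ σ a γ : ℝ, 1 / 2 < σ → σ < 1 → 0 < a → ∃ D : ℝ, Tendsto (LG σ a γ) atTop (𝓝 D)

/-- **Positivity.**

Uses `S_Lim`, `S_Gd`, `S_Hol`, `S_Cf`. Proof. Cauchy-Schwarz:
`(∫_good fw)^2 ≤ ∫_good fw ‖eulS‖^γ * ∫_good fw ‖eulS‖^(-γ)` (`fin_cs` in Final.lean is similar), so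
`((∫_good fw)/fn T)^2 ≤ LG σ a γ T * LG σ a (-γ) T`. `∫_good fw = ∫_{[T,2T]} fw - ∫_bad fw`, the first divided by
`fn T` tends to 1 (`S_Cf` (d)), the second is `o(fn T)` (`S_Hol`, `g = 1`, `S_Gd`). In the limit
`1 ≤ D D'`, `D ≥ 0`, so `D > 0`. About 120 lines. -/
def S_Pos : Prop :=
  ∀ σ a γ D : ℝ, 1 / 2 < σ → σ < 1 → 0 < a → Tendsto (LG σ a γ) atTop (𝓝 D) → 0 < D

/-- **The truncated asymptotic formula.**

Uses `S_Gd`, `S_Hol`, `S_Lim`. Proof. `x(t) = ‖fzS σ a t‖^(-g)`, `E = eulS σ 0 z (at)`, `δ = δ₁/4` with the `δ₁` of `S_Gd`.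
(1) On `good`: `‖ζE‖ ∈ [1-2/L, 1+2/L]`, so for every `ε > 0` eventually `|x - ‖E‖^g| ≤ ε ‖E‖^g` there
(`x = ‖E‖^g (‖ζE‖)^(-g)`; `fin_good` in Final.lean is similar), also for `2g` in place of `g`. Hence
`(∫_good fw x)/fn → D`, and `(∫_good fw x^2)/fn` is bounded (`S_Lim` for `2g`).
(2) `min(x,V) = x - (x-V)_+` and `0 ≤ (x-V)_+ ≤ x^2/V` for `V > 0`: the part over `good` of `∫ fw min(x,V)` divided by
`fn` tends to `D` since `V(T) → ∞`. (3) Over `bad`: `0 ≤ ∫_bad fw min(x,V) ≤ V ∫_bad fw ≤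
T^δ C √T L^2 T^((1-δ₁)/2) = C T^(1-δ₁/4) L^2 = o(fn T)`. (4) Integrability: `t ↦ fzS σ a t` is continuous on
`[T,2T]` (`T > 0`), so `fw min(x,V)` is measurable, nonnegative for `V > 0` and bounded; `good` is measurable.
The interval integral is the sum of the integrals over `good` and `bad`. About 220 lines. -/
def S_Trc : Prop :=
  ∀ σ a : ℝ, 1 / 2 < σ → σ < 1 → 0 < a → ∃ δ : ℝ, 0 < δ ∧ ∀ g D : ℝ,
    Tendsto (LG σ a g) atTop (𝓝 D) → ∀ V : ℝ → ℝ, Tendsto V atTop atTop →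
    (∀ᶠ T : ℝ in atTop, V T ≤ T ^ δ) →
    Tendsto (fun T : ℝ => (∫ t in T..(2 * T), fw t * min (‖fzS σ a t‖ ^ (-g)) (V T)) / fn T)
      atTop (𝓝 D)

/-- **Theorem S.**

Uses `S_Lim`, `S_Pos`, `S_Trc`. Proof. `D` from `S_Lim` with `γ = 2β`, positive by `S_Pos`, `δ` and the first part from
`S_Trc` with `g = 2β` (`fw`, `fn`, `fzS` unfolded, `(a*t:ℝ)` cast). Second part: take `V T = log T`
(`≤ T^δ` eventually). For `c < D` eventually `c * (T log T) ≤ ∫_T^{2T} fw min(x, V)`, and for `t ∈ [T,2T]`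
`0 ≤ fw t min(x,V) ≤ fw t x(t) = (‖ζ(1/2+it)‖/‖ζ(σ+iat)‖^β)^2` (if `ζ(σ+iat) ≠ 0`:
`‖·‖^(-2β) = (‖·‖^β)^(-2)`; if it is 0 both sides: for `β > 0` `0^(-2β) = 0`; for the other cases `min` and the
quotient: `β < 0`: `0^(-2β) = 0` and `0^β = 0`, quotient `x/0 = 0`; `β = 0`: all exponents 0, `1 = 1`). So
`ENNReal.ofReal (∫ ...) ≤ ∫⁻ ofReal(...)` (`ofReal_integral_eq_lintegral_ofReal`). About 100 lines. -/
def S_Fin : Prop :=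
  ∀ σ a β : ℝ, 1 / 2 < σ → σ < 1 → 0 < a → ∃ D δ : ℝ, 0 < D ∧ 0 < δ ∧
    (∀ V : ℝ → ℝ, Tendsto V atTop atTop → (∀ᶠ T : ℝ in atTop, V T ≤ T ^ δ) →
      Tendsto (fun T : ℝ => (∫ t in T..(2 * T), ‖riemannZeta (1 / 2 + t * I)‖ ^ 2 *
        min (‖riemannZeta (σ + a * t * I)‖ ^ (-(2 * β))) (V T)) / (T * Real.log T)) atTop (𝓝 D)) ∧
    (∀ c : ℝ, c < D → ∀ᶠ T : ℝ in atTop, ENNReal.ofReal (c * (T * Real.log T)) ≤
      ∫⁻ t in Set.Icc T (2 * T), ENNReal.ofReal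
        ((‖riemannZeta (1 / 2 + t * I)‖ / ‖riemannZeta (σ + a * t * I)‖ ^ β) ^ 2))

end Pool.Agent.Lib.MP_aa9ae4_nt.S1
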