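import Pool.Agent.Lib.MP_aa9ae4_nt.S1.SpecW

/-!
MP_aa9ae4_nt, Theorem S: the integers with a given exponent vector (`S_Nn`).
-/

namespace Pool.Agent.Lib.MP_aa9ae4_nt.S1

open Finset MeasureTheory Filter Topology
open Complex (I)

private theorem nnl_mem {s : Finset ℕ} {J : ℕ} {k : ℕ → ℕ} :
    k ∈ KK s J ↔ ∑ p ∈ s, k p ≤ J ∧ ∀ p, k p ≠ 0 → p ∈ s := by
  classical
  unfold KK
  rw [Finset.mem_biUnion]
  constructor
  · rintro ⟨j, hj, hk⟩
    rw [mem_piAntidiag] at hk
    rw [Finset.mem_range] at hj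
    exact ⟨by rw [hk.1]; omega, hk.2⟩
  · rintro ⟨h1, h2⟩
    exact ⟨∑ p ∈ s, k p, Finset.mem_range.2 (by omega), mem_piAntidiag.2 ⟨rfl, h2⟩⟩

private theorem nnl_ne {s : Finset ℕ} (hs : ∀ p ∈ s, p.Prime) (k : ℕ → ℕ) : nn s k ≠ 0 := by
  unfold nn
  exact Finset.prod_ne_zero_iff.2 fun p hp => pow_ne_zero _ (hs p hp).ne_zero

private theorem nnl_fac {s : Finset ℕ} (hs : ∀ p ∈ s, p.Prime) (k : ℕ → ℕ) (q : ℕ) :
    (nn s k).factorization q = if q ∈ s then k q else 0 := by
  unfold nn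
  rw [Nat.factorization_prod_apply fun p hp => pow_ne_zero _ (hs p hp).ne_zero]
  rw [Finset.sum_congr rfl fun p hp => by
    rw [Nat.factorization_pow, Finsupp.smul_apply, (hs p hp).factorization, smul_eq_mul,
      Finsupp.single_apply]]
  simp

/-- The integers `nn s k`. -/
theorem pNn : S_Nn := by
  intro s hs J
  refine ⟨fun k hk l hl h => ?_, fun M hM hsM k hk => ?_, fun k l => ?_, fun k l => ?_,
    fun k hk g hg => ?_, fun σ u k => ?_⟩
  · rw [nnl_mem] at hk hl
    funext q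
    by_cases hq : q ∈ s
    · have h1 := nnl_fac hs k q
      have h2 := nnl_fac hs l q
      rw [if_pos hq] at h1 h2
      rw [← h1, ← h2, h]
    · have h1 : k q = 0 := by
        by_contra h0
        exact hq (hk.2 q h0)
      have h2 : l q = 0 := by
        by_contra h0
        exact hq (hl.2 q h0)
      rw [h1, h2]
  · rw [nnl_mem] at hk
    refine ⟨Nat.pos_of_ne_zero (nnl_ne hs k), ?_⟩
    unfold nn
    calc ∏ p ∈ s, p ^ k p ≤ ∏ p ∈ s, M ^ k p :=
          Finset.prod_le_prod' fun p hp => Nat.pow_le_pow_left (hsM p hp) _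
      _ = M ^ ∑ p ∈ s, k p := Finset.prod_pow_eq_pow_sum _ _ _
      _ ≤ M ^ J := Nat.pow_le_pow_right hM hk.1
  · unfold nn
    rw [← Finset.prod_mul_distrib]
    exact Finset.prod_congr rfl fun p _ => by rw [Pi.add_apply, pow_add]
  · refine Nat.eq_of_factorization_eq (Nat.gcd_pos_of_pos_left _
      (Nat.pos_of_ne_zero (nnl_ne hs k))).ne' (nnl_ne hs _) fun q => ?_
    rw [Nat.factorization_gcd (nnl_ne hs k) (nnl_ne hs l), Finsupp.inf_apply, nnl_fac hs, nnl_fac hs,
      nnl_fac hs]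
    split_ifs <;> simp
  · rw [nnl_mem] at hk
    rw [nnl_mem, nnl_mem]
    refine ⟨⟨le_trans (Finset.sum_le_sum fun p _ => hg p) hk.1, fun p hp => hk.2 p ?_⟩,
      ⟨le_trans (Finset.sum_le_sum fun p _ => Nat.sub_le _ _) hk.1, fun p hp => hk.2 p ?_⟩⟩
    · have := hg p
      omega
    · omega
  · unfold nn pw
    induction s using Finset.cons_induction with
    | empty => simp
    | cons a s ha ih =>
      rw [Finset.prod_cons, Finset.prod_cons, Nat.cast_mul, Complex.natCast_mul_natCast_cpow,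
        ih fun p hp => hs p (Finset.mem_cons_of_mem hp), Nat.cast_pow,
        ← Complex.natCast_cpow_natCast_mul, Complex.cpow_nat_mul]

end Pool.Agent.Lib.MP_aa9ae4_nt.S1
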