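import Mathlib
import Pool.Agent.Lib.MP_aa9ae4_nt.S1.SpecG

/-!
MP_aa9ae4_nt, Theorem S: sums over primes.
-/

namespace Pool.Agent.Lib.MP_aa9ae4_nt.S1

open Finset MeasureTheory Filter Topology
open Complex (I)

private lemma sz_step_a (τ : ℝ) (hτ : 1 < τ) (n : ℕ) (hn : 1 ≤ n) :
    (((n + 1 : ℕ) : ℝ)) ^ (-τ) ≤ ((n : ℝ) ^ (1 - τ) - (((n + 1 : ℕ) : ℝ)) ^ (1 - τ)) / (τ - 1) := by
  have hn0 : (0 : ℝ) < n := by exact_mod_cast hn
  have hm0 : (0 : ℝ) < ((n + 1 : ℕ) : ℝ) := by positivity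
  have hτ1 : 0 < τ - 1 := by linarith
  set m : ℝ := ((n + 1 : ℕ) : ℝ) with hm
  have hmn : m = n + 1 := by rw [hm]; push_cast; ring
  have hr : 0 < (n : ℝ) / m := by positivity
  have h1 : (n : ℝ) ^ (1 - τ) = m ^ (1 - τ) * ((n : ℝ) / m) ^ (1 - τ) := by
    rw [← Real.mul_rpow hm0.le hr.le]
    congr 1
    field_simp
  have h2 : 1 + (τ - 1) / m ≤ ((n : ℝ) / m) ^ (1 - τ) := by
    rw [Real.rpow_def_of_pos hr]
    have h3 : Real.log ((n : ℝ) / m) ≤ (n : ℝ) / m - 1 := Real.log_le_sub_one_of_pos hr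
    have h4 : (n : ℝ) / m - 1 = -(1 / m) := by
      rw [hmn] ; field_simp; ring
    have h5 : (τ - 1) / m ≤ Real.log ((n : ℝ) / m) * (1 - τ) := by
      rw [h4] at h3
      have : (τ - 1) * (1 / m) ≤ (τ - 1) * (-Real.log ((n : ℝ) / m)) :=
        mul_le_mul_of_nonneg_left (by linarith) hτ1.le
      calc (τ - 1) / m = (τ - 1) * (1 / m) := by ring
        _ ≤ _ := this
        _ = _ := by ring
    have h6 := Real.add_one_le_exp (Real.log ((n : ℝ) / m) * (1 - τ))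
    linarith
  have h7 : m ^ (-τ) = m ^ (1 - τ) / m := by
    rw [show -τ = (1 - τ) - 1 by ring, Real.rpow_sub_one hm0.ne']
  rw [le_div_iff₀ hτ1, h1, h7]
  have h8 : 0 < m ^ (1 - τ) := Real.rpow_pos_of_pos hm0 _
  have h9 := mul_le_mul_of_nonneg_left h2 h8.le
  have h10 : m ^ (1 - τ) / m * (τ - 1) = m ^ (1 - τ) * (1 + (τ - 1) / m) - m ^ (1 - τ) := by ring
  linarith

private lemma sz_sum_a (τ : ℝ) (hτ : 1 < τ) (y z : ℕ) (hy : 1 ≤ y) (hyz : y ≤ z) :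
    ∑ n ∈ Ioc y z, (n : ℝ) ^ (-τ) ≤ ((y : ℝ) ^ (1 - τ) - (z : ℝ) ^ (1 - τ)) / (τ - 1) := by
  induction z, hyz using Nat.le_induction with
  | base => simp
  | succ k hk ih =>
    rw [Finset.sum_Ioc_succ_top hk]
    have h := sz_step_a τ hτ k (hy.trans hk)
    have e : ((y : ℝ) ^ (1 - τ) - (((k + 1 : ℕ) : ℝ)) ^ (1 - τ)) / (τ - 1)
        = ((y : ℝ) ^ (1 - τ) - (k : ℝ) ^ (1 - τ)) / (τ - 1)
          + ((k : ℝ) ^ (1 - τ) - (((k + 1 : ℕ) : ℝ)) ^ (1 - τ)) / (τ - 1) := by ring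
    rw [e]
    exact add_le_add ih h

private lemma sz_step_c (σ : ℝ) (h0 : 0 < σ) (h1 : σ < 1) (n : ℕ) :
    (((n + 1 : ℕ) : ℝ)) ^ (-σ) ≤ ((((n + 1 : ℕ) : ℝ)) ^ (1 - σ) - (n : ℝ) ^ (1 - σ)) / (1 - σ) := by
  have hm0 : (0 : ℝ) < ((n + 1 : ℕ) : ℝ) := by positivity
  have hσ1 : 0 < 1 - σ := by linarith
  set m : ℝ := ((n + 1 : ℕ) : ℝ) with hm
  have hmn : m = n + 1 := by rw [hm]; push_cast; ring
  have hr : 0 ≤ (n : ℝ) / m := by positivity
  have e1 : (n : ℝ) ^ (1 - σ) = m ^ (1 - σ) * ((n : ℝ) / m) ^ (1 - σ) := by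
    rw [← Real.mul_rpow hm0.le hr]
    congr 1
    field_simp
  have e4 : (n : ℝ) / m = 1 + -(1 / m) := by
    rw [hmn] ; field_simp; ring
  have h2 : ((n : ℝ) / m) ^ (1 - σ) ≤ 1 + (1 - σ) * (-(1 / m)) := by
    rw [e4]
    refine rpow_one_add_le_one_add_mul_self ?_ hσ1.le (by linarith)
    have : (1 : ℝ) / m ≤ 1 := by
      rw [div_le_one hm0, hmn]
      have : (0 : ℝ) ≤ n := Nat.cast_nonneg n
      linarith
    linarith
  have h7 : m ^ (-σ) = m ^ (1 - σ) / m := by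
    rw [show -σ = (1 - σ) - 1 by ring, Real.rpow_sub_one hm0.ne']
  rw [le_div_iff₀ hσ1, e1, h7]
  have h8 : 0 < m ^ (1 - σ) := Real.rpow_pos_of_pos hm0 _
  have h9 := mul_le_mul_of_nonneg_left h2 h8.le
  have h10 : m ^ (1 - σ) / m * (1 - σ) =
    m ^ (1 - σ) - m ^ (1 - σ) * (1 + (1 - σ) * (-(1 / m))) := by ring
  linarith

private lemma sz_sum_c (σ : ℝ) (h0 : 0 < σ) (h1 : σ < 1) (z : ℕ) :
    ∑ n ∈ Icc 1 z, (n : ℝ) ^ (-σ) ≤ (z : ℝ) ^ (1 - σ) / (1 - σ) := by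
  induction z with
  | zero =>
    simp only [Nat.cast_zero]
    rw [Real.zero_rpow (by linarith)]
    simp
  | succ k ih =>
    rw [Finset.sum_Icc_succ_top (by omega)]
    have h := sz_step_c σ h0 h1 k
    have e : (((k + 1 : ℕ) : ℝ)) ^ (1 - σ) / (1 - σ)
        = (k : ℝ) ^ (1 - σ) / (1 - σ)
          + ((((k + 1 : ℕ) : ℝ)) ^ (1 - σ) - (k : ℝ) ^ (1 - σ)) / (1 - σ) := by ring
    rw [e]
    exact add_le_add ih h

private lemma sz_sum_d (τ : ℝ) (hτ : 1 < τ) (N : ℕ) :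
    ∑ n ∈ Icc 1 N, (n : ℝ) ^ (-τ) ≤ τ / (τ - 1) := by
  have hτ1 : 0 < τ - 1 := by linarith
  rcases Nat.eq_zero_or_pos N with h | h
  · subst h
    simp only [Nat.lt_one_iff, pos_of_gt, Finset.Icc_eq_empty_of_lt,
      Finset.sum_empty]
    positivity
  · have e : Icc 1 N = insert 1 (Ioc 1 N) := by
      ext n
      simp only [Finset.mem_Icc, Finset.mem_insert, Finset.mem_Ioc]
      omega
    rw [e, Finset.sum_insert (by simp)]
    have h1 := sz_sum_a τ hτ 1 N le_rfl h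
    have h2 : 0 ≤ (N : ℝ) ^ (1 - τ) := Real.rpow_nonneg (Nat.cast_nonneg N) _
    have h3 : (((1 : ℕ) : ℝ) ^ (1 - τ) - (N : ℝ) ^ (1 - τ)) / (τ - 1) ≤ 1 / (τ - 1) := by
      rw [Nat.cast_one, Real.one_rpow]
      exact div_le_div_of_nonneg_right (by linarith) hτ1.le
    have h4 : τ / (τ - 1) = 1 + 1 / (τ - 1) := by
      field_simp
      ring
    rw [h4, Nat.cast_one, Real.one_rpow]
    rw [Nat.cast_one] at h1 h3
    linarith

private lemma sz_tail_le (τ : ℝ) (y z : ℕ) (s : Finset ℕ) (h : prs y z ⊆ s) :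
    tail τ y z ≤ ∑ n ∈ s, (n : ℝ) ^ (-τ) := by
  unfold tail
  exact Finset.sum_le_sum_of_subset_of_nonneg h
    (fun n _ _ => Real.rpow_nonneg (Nat.cast_nonneg n) _)

theorem pSz : S_Sz := by
  refine ⟨?_, ?_, ?_, ?_⟩
  · intro τ hτ y z hy
    have hτ1 : 0 < τ - 1 := by linarith
    rcases le_total y z with h | h
    · refine (sz_tail_le τ y z (Ioc y z) (Finset.filter_subset _ _)).trans
        ((sz_sum_a τ hτ y z hy h).trans ?_)
      refine div_le_div_of_nonneg_right ?_ hτ1.le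
      have : 0 ≤ (z : ℝ) ^ (1 - τ) := Real.rpow_nonneg (Nat.cast_nonneg z) _
      linarith
    · have e : tail τ y z = 0 := by
        unfold tail prs
        rw [Finset.Ioc_eq_empty_of_le h]
        simp
      rw [e]
      exact div_nonneg (Real.rpow_nonneg (Nat.cast_nonneg y) _) hτ1.le
  · intro τ hτ y z
    refine (sz_tail_le τ y z (Icc 1 z) ?_).trans (sz_sum_d τ hτ z)
    intro n hn
    simp only [prs, Finset.mem_filter, Finset.mem_Ioc] at hn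
    simp only [Finset.mem_Icc]
    omega
  · intro σ h0 h1 y z
    refine (sz_tail_le σ y z (Icc 1 z) ?_).trans (sz_sum_c σ h0 h1 z)
    intro n hn
    simp only [prs, Finset.mem_filter, Finset.mem_Ioc] at hn
    simp only [Finset.mem_Icc]
    omega
  · intro τ hτ N
    exact sz_sum_d τ hτ N

end Pool.Agent.Lib.MP_aa9ae4_nt.S1
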