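import Pool.Agent.Lib.MP_aa9ae4_nt.S1.SpecW
import Pool.Agent.Lib.MP_aa9ae4_nt.MeanValue

/-!
MP_aa9ae4_nt, Theorem S: unweighted mean square of the exponential (`S_Eq`).
-/

namespace Pool.Agent.Lib.MP_aa9ae4_nt.S1

open Finset MeasureTheory Filter Topology
open Complex (I)

open Classical in
private theorem eql_reindex {ι : Type*} (S : Finset ι) (g : ι → ℕ)
    (hg : ∀ k ∈ S, ∀ l ∈ S, g k = g l → k = l) (N : ℕ) (hN : ∀ k ∈ S, g k ∈ Icc 1 N) (a : ι → ℂ) :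
    ∃ A : ℕ → ℂ, ∀ {M : Type} [AddCommMonoid M] (F : ℕ → ℂ → M), (∀ n, F n 0 = 0) →
      ∑ n ∈ Icc 1 N, F n (A n) = ∑ k ∈ S, F (g k) (a k) := by
  refine ⟨fun n => if h : ∃ k ∈ S, g k = n then a h.choose else 0, ?_⟩
  intro M _ F hF
  have h1 : ∑ n ∈ S.image g, F n (if h : ∃ k ∈ S, g k = n then a h.choose else 0) =
      ∑ k ∈ S, F (g k) (a k) := by
    rw [Finset.sum_image fun k hk l hl h => hg k hk l hl h]
    refine Finset.sum_congr rfl fun k hk => ?_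
    have hex : ∃ l ∈ S, g l = g k := ⟨k, hk, rfl⟩
    have hc : hex.choose = k := hg _ hex.choose_spec.1 _ hk hex.choose_spec.2
    rw [dif_pos hex, hc]
  rw [← h1]
  refine (Finset.sum_subset ?_ ?_).symm
  · intro n hn
    rw [Finset.mem_image] at hn
    obtain ⟨k, hk, rfl⟩ := hn
    exact hN k hk
  · intro n _ hn
    have : ¬ ∃ k ∈ S, g k = n := fun h => hn (Finset.mem_image.2 h)
    simp only []
    rw [dif_neg this, hF]

private theorem eql_pw (σ u : ℝ) {n : ℕ} (hn : n ≠ 0) :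
    pw σ n u = (((n : ℝ) ^ (-σ) : ℝ) : ℂ) * (n : ℂ) ^ (-(u * I)) := by
  unfold pw
  have h0 : (n : ℂ) ≠ 0 := by exact_mod_cast hn
  rw [neg_add, Complex.cpow_add _ _ h0, Complex.ofReal_cpow (Nat.cast_nonneg n)]
  simp

/-- Unweighted mean square of the exponential. -/
theorem pEq (hMn : S_Mn) (hNn : S_Nn) : S_Eq := by
  obtain ⟨C, hC, hmv⟩ := mean_value
  refine ⟨C, hC, ?_⟩
  intro σ lam c X om y z J hlam hom hX
  set P : Finset ℕ := prs y z with hP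
  have hprime : ∀ p ∈ P, p.Prime := fun p hp => (Finset.mem_filter.1 hp).2
  have hpz : ∀ p ∈ P, p ≤ z + 1 := fun p hp => by
    have := Finset.mem_Ioc.1 (Finset.mem_filter.1 hp).1
    omega
  obtain ⟨hinj, hle, -, -, -, hf⟩ := hNn P hprime J
  have hle' := hle (z + 1) (by omega) hpz
  set x : ℕ → ℂ := fun p => (lam : ℂ) * om * (((p : ℝ) ^ (-σ) : ℝ) : ℂ) with hx
  set a : (ℕ → ℕ) → ℂ := fun k => ∏ p ∈ P, (x p ^ k p / ((k p).factorial : ℂ)) with ha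
  have hexp : ∀ u : ℝ, expJ J ((lam : ℂ) * om * psumS σ y z u) =
      ∑ k ∈ KK P J, a k * (nn P k : ℂ) ^ (-((u : ℂ) * I)) := by
    intro u
    have h1 : (lam : ℂ) * om * psumS σ y z u = ∑ p ∈ P, x p * (p : ℂ) ^ (-((u : ℂ) * I)) := by
      unfold psumS
      rw [Finset.mul_sum]
      refine Finset.sum_congr rfl fun p hp => ?_
      rw [eql_pw σ u (hprime p hp).ne_zero, hx]
      ring
    rw [h1, hMn.1 P _ J]
    refine Finset.sum_congr rfl fun k _ => ?_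
    have h2 := hf 0 u k
    have h3 : ∀ n : ℕ, pw 0 n u = (n : ℂ) ^ (-((u : ℂ) * I)) := fun n => by
      unfold pw
      simp
    rw [h3] at h2
    rw [h2, ha, ← Finset.prod_mul_distrib]
    refine Finset.prod_congr rfl fun p _ => ?_
    rw [h3, mul_pow]
    ring
  obtain ⟨A, hA⟩ := eql_reindex (KK P J) (nn P) hinj ((z + 1) ^ J)
    (fun k hk => Finset.mem_Icc.2 (hle' k hk)) a
  have hint : ∫ u in c..(c + X), ‖expJ J ((lam : ℂ) * om * psumS σ y z u)‖ ^ 2 =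
      ∫ u in c..(c + X), ‖∑ n ∈ Icc 1 ((z + 1) ^ J), A n * (n : ℂ) ^ (-((u : ℂ) * I))‖ ^ 2 := by
    congr 1
    funext u
    rw [hexp u, hA (fun n w => w * (n : ℂ) ^ (-((u : ℂ) * I))) (fun n => zero_mul _)]
  rw [hint]
  refine (hmv c X hX ((z + 1) ^ J) A).trans ?_
  have hsum : ∑ n ∈ Icc 1 ((z + 1) ^ J), ‖A n‖ ^ 2 = ∑ k ∈ KK P J, ‖a k‖ ^ 2 :=
    hA (fun _ w => ‖w‖ ^ 2) (fun _ => by simp)
  rw [hsum]
  have hterm : ∀ k : ℕ → ℕ, ‖a k‖ ^ 2 ≤
      ∏ p ∈ P, ((lam ^ 2 * (p : ℝ) ^ (-(2 * σ))) ^ k p / ((k p).factorial : ℝ)) := by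
    intro k
    rw [ha]
    simp only []
    rw [norm_prod, ← Finset.prod_pow]
    refine Finset.prod_le_prod (fun p _ => by positivity) fun p _ => ?_
    have hf1 : (1 : ℝ) ≤ ((k p).factorial : ℝ) := by exact_mod_cast (k p).factorial_pos
    have hp0 : (0 : ℝ) ≤ (p : ℝ) ^ (-σ) := Real.rpow_nonneg (Nat.cast_nonneg p) _
    have hp2 : ((p : ℝ) ^ (-σ)) ^ 2 = (p : ℝ) ^ (-(2 * σ)) := by
      rw [← Real.rpow_natCast, ← Real.rpow_mul (Nat.cast_nonneg p)]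
      congr 1
      push_cast
      ring
    have hxn : ‖x p‖ ^ 2 ≤ lam ^ 2 * (p : ℝ) ^ (-(2 * σ)) := by
      rw [hx]
      simp only []
      rw [norm_mul, norm_mul, Complex.norm_real, Complex.norm_real, Real.norm_of_nonneg hlam,
        Real.norm_of_nonneg hp0, mul_pow, mul_pow, hp2]
      have h1 : ‖om‖ ^ 2 ≤ 1 := pow_le_one₀ (norm_nonneg _) hom
      have h2 : 0 ≤ (p : ℝ) ^ (-(2 * σ)) := Real.rpow_nonneg (Nat.cast_nonneg p) _
      nlinarith [mul_nonneg (sq_nonneg lam) h2]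
    rw [norm_div, norm_pow, Complex.norm_natCast, div_pow, ← pow_mul, mul_comm (k p) 2, pow_mul]
    calc (‖x p‖ ^ 2) ^ k p / ((k p).factorial : ℝ) ^ 2
        ≤ (lam ^ 2 * (p : ℝ) ^ (-(2 * σ))) ^ k p / ((k p).factorial : ℝ) ^ 2 := by
          gcongr
      _ ≤ (lam ^ 2 * (p : ℝ) ^ (-(2 * σ))) ^ k p / ((k p).factorial : ℝ) := by
          have h3 : (0 : ℝ) ≤ (lam ^ 2 * (p : ℝ) ^ (-(2 * σ))) ^ k p := by positivity
          refine div_le_div_of_nonneg_left h3 (by linarith) ?_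
          nlinarith
  have hsq : ∑ k ∈ KK P J, ‖a k‖ ^ 2 ≤ Real.exp (lam ^ 2 * tail (2 * σ) y z) := by
    refine (Finset.sum_le_sum fun k _ => hterm k).trans ?_
    refine (hMn.2 P (fun p => lam ^ 2 * (p : ℝ) ^ (-(2 * σ))) J fun p => by positivity).trans ?_
    rw [← Finset.mul_sum]
    exact le_of_eq rfl
  have hcast : (((z + 1) ^ J : ℕ) : ℝ) = ((z : ℝ) + 1) ^ J := by push_cast; ring
  rw [hcast]
  exact mul_le_mul_of_nonneg_left hsq (by positivity)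

end Pool.Agent.Lib.MP_aa9ae4_nt.S1
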