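import Pool.Agent.Lib.MP_aa9ae4_nt.S1.SpecG

namespace Pool.Agent.Lib.MP_aa9ae4_nt.S1

open Finset MeasureTheory Filter Topology
open Complex (I)

private theorem hm_equiv {s t : ℕ} (f : Fin t → ℕ) (g : Fin s → ℕ)
    (h : Finset.univ.val.map f = Finset.univ.val.map g) : ∃ σ : Fin t ≃ Fin s, ∀ i, g (σ i) = f i := by
  classical
  have hc : ∀ n, Nonempty ({i // f i = n} ≃ {i // g i = n}) := by
    intro n
    refine ⟨Fintype.equivOfCardEq ?_⟩
    have h1 := congrArg (Multiset.count n) h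
    rw [Multiset.count_map, Multiset.count_map] at h1
    rw [Fintype.card_subtype, Fintype.card_subtype, Finset.card_def, Finset.card_def,
      Finset.filter_val, Finset.filter_val]
    simpa only [eq_comm] using h1
  exact ⟨Equiv.ofFiberEquiv (fun n => (hc n).some), fun i => Equiv.ofFiberEquiv_map _ i⟩

private theorem hm_list (m : ℕ) (f : Fin m → ℕ) (hf : ∀ i, (f i).Prime) :
    (List.ofFn f).Perm (∏ i, f i).primeFactorsList := by
  refine Nat.primeFactorsList_unique ?_ ?_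
  · rw [List.prod_ofFn]
  · intro p hp
    rw [List.mem_ofFn] at hp
    obtain ⟨i, rfl⟩ := hp
    exact hf i

private theorem hm_perm (m : ℕ) (f g : Fin m → ℕ) (hf : ∀ i, (f i).Prime) (hg : ∀ i, (g i).Prime)
    (h : ∏ i, f i = ∏ i, g i) : ∃ σ : Equiv.Perm (Fin m), ∀ i, g (σ i) = f i := by
  have h1 := (hm_list m f hf)
  rw [h] at h1
  have h2 := h1.trans (hm_list m g hg).symm
  refine hm_equiv f g ?_
  rw [Fin.univ_val_map, Fin.univ_val_map]
  exact Quot.sound h2

/-- the number of `f` with `∏ f i = n` -/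
private noncomputable def hmF (y z m n : ℕ) : Finset (Fin m → ℕ) :=
  (Fintype.piFinset fun _ : Fin m => prs y z).filter fun f => ∏ i, f i = n

private theorem hm_mem {y z m : ℕ} {f : Fin m → ℕ}
    (hf : f ∈ Fintype.piFinset fun _ : Fin m => prs y z) (i : Fin m) :
    (f i).Prime ∧ f i ≤ z := by
  rw [Fintype.mem_piFinset] at hf
  have := hf i
  rw [prs, Finset.mem_filter, Finset.mem_Ioc] at this
  exact ⟨this.2, this.1.2⟩

private theorem hm_card (y z m n : ℕ) : (hmF y z m n).card ≤ m.factorial := by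
  classical
  rcases (hmF y z m n).eq_empty_or_nonempty with h | ⟨f0, hf0⟩
  · rw [h]
    simp
  have h1 : hmF y z m n ⊆ (Finset.univ : Finset (Equiv.Perm (Fin m))).image (fun e : Equiv.Perm (Fin m) => f0 ∘ ⇑e) := by
    intro f hf
    rw [hmF, Finset.mem_filter] at hf hf0
    obtain ⟨σ, hσ⟩ := hm_perm m f f0 (fun i => (hm_mem hf.1 i).1) (fun i => (hm_mem hf0.1 i).1)
      (hf.2.trans hf0.2.symm)
    rw [Finset.mem_image]
    exact ⟨σ, Finset.mem_univ _, funext hσ⟩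
  refine (Finset.card_le_card h1).trans (Finset.card_image_le.trans ?_)
  rw [Finset.card_univ, Fintype.card_perm, Fintype.card_fin]

private theorem hm_range {y z m : ℕ} {f : Fin m → ℕ}
    (hf : f ∈ Fintype.piFinset fun _ : Fin m => prs y z) : ∏ i, f i ∈ Icc 1 (z ^ m) := by
  rw [Finset.mem_Icc]
  constructor
  · exact Finset.prod_pos fun i _ => (hm_mem hf i).1.pos
  · refine (Finset.prod_le_prod' fun i _ => (hm_mem hf i).2).trans ?_
    rw [Finset.prod_const, Finset.card_univ, Fintype.card_fin]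

private theorem hm_sum {R : Type*} [CommSemiring R] (y z m : ℕ) (φ : ℕ →* R) :
    (∑ p ∈ prs y z, φ p) ^ m = ∑ n ∈ Icc 1 (z ^ m), ((hmF y z m n).card : R) * φ n := by
  classical
  rw [Finset.sum_pow', ← Finset.sum_fiberwise_of_maps_to (t := Icc 1 (z ^ m))
    (g := fun f : Fin m → ℕ => ∏ i, f i) (fun f hf => hm_range hf)]
  refine Finset.sum_congr rfl fun n _ => ?_
  rw [Finset.sum_congr rfl (g := fun _ => φ n) (fun f hf => ?_)]
  · rw [Finset.sum_const, nsmul_eq_mul]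
    rfl
  · rw [← map_prod, (Finset.mem_filter.1 hf).2]

private noncomputable def hmP (σ u : ℝ) : ℕ →* ℂ where
  toFun n := pw σ n u
  map_one' := by simp [pw]
  map_mul' a b := by
    simp only [pw, Nat.cast_mul]
    exact Complex.natCast_mul_natCast_cpow a b _

private noncomputable def hmT (τ : ℝ) : ℕ →* ℝ where
  toFun n := (n : ℝ) ^ (-τ)
  map_one' := by simp
  map_mul' a b := by
    rw [Nat.cast_mul]
    exact Real.mul_rpow (Nat.cast_nonneg a) (Nat.cast_nonneg b)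

private theorem hm_pw (σ u : ℝ) (n : ℕ) (hn : 1 ≤ n) :
    pw σ n u = (((n : ℝ) ^ (-σ) : ℝ) : ℂ) * (n : ℂ) ^ (-((u : ℂ) * I)) := by
  have h0 : (n : ℂ) ≠ 0 := by
    have : n ≠ 0 := by omega
    exact_mod_cast this
  rw [pw, neg_add, Complex.cpow_add _ _ h0, Complex.ofReal_cpow (Nat.cast_nonneg n)]
  push_cast
  rfl

theorem pHm : S_Hm := by
  obtain ⟨C, hC, hM⟩ := mean_value
  refine ⟨C, hC, ?_⟩
  intro σ U y z m hU
  have h1 := hM U U hU (z ^ m)
    (fun n => (((hmF y z m n).card * (n : ℝ) ^ (-σ) : ℝ) : ℂ))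
  have h2 : ∀ u : ℝ, ‖psumS σ y z u‖ ^ (2 * m) =
      ‖∑ n ∈ Icc 1 (z ^ m), (((hmF y z m n).card * (n : ℝ) ^ (-σ) : ℝ) : ℂ) *
        (n : ℂ) ^ (-((u : ℂ) * I))‖ ^ 2 := by
    intro u
    rw [mul_comm 2 m, pow_mul, ← norm_pow]
    have := hm_sum y z m (hmP σ u)
    change (psumS σ y z u) ^ m = _ at this
    rw [this]
    refine congrArg (fun x : ℂ => ‖x‖ ^ 2) (Finset.sum_congr rfl fun n hn => ?_)
    change _ * pw σ n u = _
    rw [hm_pw σ u n (Finset.mem_Icc.1 hn).1]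
    push_cast
    ring
  rw [show 2 * U = U + U by ring]
  rw [intervalIntegral.integral_congr (g := fun u : ℝ =>
    ‖∑ n ∈ Icc 1 (z ^ m), (((hmF y z m n).card * (n : ℝ) ^ (-σ) : ℝ) : ℂ) *
        (n : ℂ) ^ (-((u : ℂ) * I))‖ ^ 2) (fun u _ => h2 u)]
  refine h1.trans ?_
  rw [Nat.cast_pow]
  have h3 : 0 ≤ C * (U + (z : ℝ) ^ m) := by positivity
  refine mul_le_mul_of_nonneg_left ?_ h3
  have h4 : tail (2 * σ) y z ^ m = ∑ n ∈ Icc 1 (z ^ m), ((hmF y z m n).card : ℝ) *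
      (n : ℝ) ^ (-(2 * σ)) := hm_sum y z m (hmT (2 * σ))
  rw [h4, Finset.mul_sum]
  refine Finset.sum_le_sum fun n hn => ?_
  have hn1 : 1 ≤ n := (Finset.mem_Icc.1 hn).1
  have hn0 : (0 : ℝ) < n := by exact_mod_cast hn1
  rw [Complex.norm_real, Real.norm_eq_abs, sq_abs, mul_pow]
  have h5 : ((n : ℝ) ^ (-σ)) ^ 2 = (n : ℝ) ^ (-(2 * σ)) := by
    rw [← Real.rpow_natCast, ← Real.rpow_mul hn0.le]
    congr 1
    push_cast
    ring
  rw [h5, pow_two, mul_assoc]
  have h6 : ((hmF y z m n).card : ℝ) ≤ (m.factorial : ℝ) := by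
    exact_mod_cast hm_card y z m n
  exact mul_le_mul_of_nonneg_right h6 (by positivity)

end Pool.Agent.Lib.MP_aa9ae4_nt.S1
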