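import Pool.Agent.Lib.MP_aa9ae4_nt.S1.SpecW

/-!
MP_aa9ae4_nt, Theorem S, module Hx: unweighted exponential moments.
-/

namespace Pool.Agent.Lib.MP_aa9ae4_nt.S1

open Finset MeasureTheory Filter Topology
open Complex (I)

private theorem continuous_psumS (σ : ℝ) (y z : ℕ) : Continuous (psumS σ y z) := by
  unfold psumS
  refine continuous_finsetSum _ fun p hp => ?_
  unfold pw
  have hp0 : (p : ℂ) ≠ 0 := by
    have := (mem_filter.mp hp).2.ne_zero
    exact_mod_cast this
  refine Continuous.const_cpow ?_ (Or.inl hp0)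
  fun_prop

private theorem continuous_expJ (J : ℕ) : Continuous (expJ J) := by
  unfold expJ
  refine continuous_finsetSum _ fun j _ => ?_
  fun_prop

/-- the four directions -/
private theorem exp_norm_le (lam : ℝ) (hl : 0 ≤ lam) (S : ℂ) :
    Real.exp (lam * ‖S‖) ≤ ‖Complex.exp ((lam : ℂ) * 1 * S)‖ ^ 2 +
      ‖Complex.exp ((lam : ℂ) * (-1) * S)‖ ^ 2 + ‖Complex.exp ((lam : ℂ) * I * S)‖ ^ 2 +
      ‖Complex.exp ((lam : ℂ) * (-I) * S)‖ ^ 2 := by
  have h1 : ‖S‖ ≤ |S.re| + |S.im| := Complex.norm_le_abs_re_add_abs_im S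
  have e : ∀ x : ℂ, ‖Complex.exp x‖ ^ 2 = Real.exp (2 * x.re) := by
    intro x
    rw [Complex.norm_exp, ← Real.exp_nat_mul]
    norm_num
  rw [e, e, e, e]
  have r1 : ((lam : ℂ) * 1 * S).re = lam * S.re := by simp
  have r2 : ((lam : ℂ) * (-1) * S).re = -(lam * S.re) := by simp
  have r3 : ((lam : ℂ) * I * S).re = -(lam * S.im) := by simp
  have r4 : ((lam : ℂ) * (-I) * S).re = lam * S.im := by simp
  rw [r1, r2, r3, r4]
  have p1 := Real.exp_pos (2 * (lam * S.re))
  have p2 := Real.exp_pos (2 * -(lam * S.re))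
  have p3 := Real.exp_pos (2 * -(lam * S.im))
  have p4 := Real.exp_pos (2 * (lam * S.im))
  have key : ∀ w : ℝ, ‖S‖ ≤ 2 * |w| → Real.exp (lam * ‖S‖) ≤
      Real.exp (2 * (lam * w)) + Real.exp (2 * -(lam * w)) := by
    intro w hw
    have q1 := Real.exp_pos (2 * (lam * w))
    have q2 := Real.exp_pos (2 * -(lam * w))
    have h2 : lam * ‖S‖ ≤ lam * (2 * |w|) := mul_le_mul_of_nonneg_left hw hl
    rcases abs_cases w with ⟨h3, _⟩ | ⟨h3, _⟩
    · have h4 : Real.exp (lam * ‖S‖) ≤ Real.exp (2 * (lam * w)) := by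
        apply Real.exp_le_exp.mpr
        rw [h3] at h2
        linarith
      linarith
    · have h4 : Real.exp (lam * ‖S‖) ≤ Real.exp (2 * -(lam * w)) := by
        apply Real.exp_le_exp.mpr
        rw [h3] at h2
        linarith
      linarith
  rcases le_total |S.re| |S.im| with h | h
  · have := key S.im (by linarith)
    linarith
  · have := key S.re (by linarith)
    linarith

private theorem sq_le_two (x y : ℂ) (h : ‖x - y‖ ≤ 1) : ‖x‖ ^ 2 ≤ 2 * ‖y‖ ^ 2 + 2 := by
  have h1 : ‖x‖ ≤ ‖y‖ + 1 := by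
    have : x = y + (x - y) := by ring
    calc ‖x‖ = ‖y + (x - y)‖ := by rw [← this]
      _ ≤ ‖y‖ + ‖x - y‖ := norm_add_le _ _
      _ ≤ ‖y‖ + 1 := by linarith
  have h2 : 0 ≤ ‖x‖ := norm_nonneg _
  have h3 : 0 ≤ ‖y‖ := norm_nonneg _
  nlinarith [sq_nonneg (‖y‖ - 1)]

/-- the length of the expansion is at most `T` -/
private theorem length_le (lam om : ℝ) (K : ℕ) (hl : 0 ≤ lam) (hom : 0 < om) (hom1 : om < 1) :
    ∀ᶠ T : ℝ in atTop, ∀ z : ℕ, (z : ℝ) ≤ Real.log T ^ K →
      ((z : ℝ) + 1) ^ ⌈10 * lam * Real.log T ^ om⌉₊ ≤ T := by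
  have hε : 0 < 1 / ((10 * lam + 2) * ((K : ℝ) + 1) * 2) := by positivity
  have hlo := (isLittleO_log_rpow_atTop (r := 1 - om) (by linarith)).def hε
  have hlo2 := Real.tendsto_log_atTop.eventually hlo
  have hL2 := Real.tendsto_log_atTop.eventually (eventually_ge_atTop (2 : ℝ))
  filter_upwards [hlo2, hL2, eventually_gt_atTop (0 : ℝ)] with T h1 h2 hT z hz
  set L := Real.log T with hL
  have hL0 : 0 < L := by linarith
  have hlogL : 0 ≤ Real.log L := Real.log_nonneg (by linarith)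
  rw [Real.norm_eq_abs, Real.norm_eq_abs, abs_of_nonneg hlogL,
    abs_of_nonneg (Real.rpow_nonneg hL0.le _)] at h1
  have hz0 : (0 : ℝ) ≤ z := Nat.cast_nonneg z
  -- `z + 1 ≤ L ^ (2 (K+1))`
  have hz1 : (z : ℝ) + 1 ≤ L ^ (2 * (K + 1)) := by
    have h3 : L ^ (2 * (K + 1)) = L ^ K * (L ^ (K + 1) * L) := by ring
    have h4 : (1 : ℝ) ≤ L ^ K := one_le_pow₀ (by linarith)
    have h5 : (1 : ℝ) ≤ L ^ (K + 1) := one_le_pow₀ (by linarith)
    have h6 : (2 : ℝ) ≤ L ^ (K + 1) * L := by nlinarith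
    rw [h3]
    nlinarith
  have hzpos : (0 : ℝ) < (z : ℝ) + 1 := by linarith
  have hlz : Real.log ((z : ℝ) + 1) ≤ 2 * ((K : ℝ) + 1) * Real.log L := by
    have h3 := Real.log_le_log hzpos hz1
    rw [Real.log_pow] at h3
    push_cast at h3
    linarith
  have hlz0 : 0 ≤ Real.log ((z : ℝ) + 1) := Real.log_nonneg (by linarith)
  have hLom : (1 : ℝ) ≤ L ^ om := Real.one_le_rpow (by linarith) hom.le
  have hJ : ((⌈10 * lam * L ^ om⌉₊ : ℕ) : ℝ) ≤ (10 * lam + 2) * L ^ om := by
    have h3 : 0 ≤ 10 * lam * L ^ om := by positivity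
    have h4 := (Nat.ceil_lt_add_one h3).le
    nlinarith
  have hmain : ((⌈10 * lam * L ^ om⌉₊ : ℕ) : ℝ) * Real.log ((z : ℝ) + 1) ≤ L := by
    calc ((⌈10 * lam * L ^ om⌉₊ : ℕ) : ℝ) * Real.log ((z : ℝ) + 1)
        ≤ ((10 * lam + 2) * L ^ om) * (2 * ((K : ℝ) + 1) * Real.log L) :=
          mul_le_mul hJ hlz hlz0 (by positivity)
      _ ≤ ((10 * lam + 2) * L ^ om) * (2 * ((K : ℝ) + 1) *
            (1 / ((10 * lam + 2) * ((K : ℝ) + 1) * 2) * L ^ (1 - om))) := by
          gcongr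
      _ = L ^ om * L ^ (1 - om) := by
          have : (0 : ℝ) < 10 * lam + 2 := by linarith
          field_simp
      _ = L := by
          rw [← Real.rpow_add hL0]
          simp
  calc ((z : ℝ) + 1) ^ ⌈10 * lam * L ^ om⌉₊
      = Real.exp (((⌈10 * lam * L ^ om⌉₊ : ℕ) : ℝ) * Real.log ((z : ℝ) + 1)) := by
        rw [Real.exp_nat_mul, Real.exp_log hzpos]
    _ ≤ Real.exp L := Real.exp_le_exp.mpr hmain
    _ = T := Real.exp_log hT

theorem pHx (hSz : S_Sz) (hTay : S_Tay) (hEq : S_Eq) : S_Hx := by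
  intro σ a lam om K hσ ha hl hom hom1
  obtain ⟨C, hC, hEqC⟩ := hEq
  set E : ℝ := Real.exp (lam ^ 2 * (2 * σ / (2 * σ - 1))) with hE
  have hE0 : 0 < E := Real.exp_pos _
  refine ⟨8 * (C * (a + 1) / a * E) + 8, by positivity, ?_⟩
  have haT : ∀ᶠ T : ℝ in atTop, 1 ≤ a * T :=
    (tendsto_id.const_mul_atTop ha).eventually (eventually_ge_atTop (1 : ℝ))
  filter_upwards [length_le lam om K hl hom hom1, haT, eventually_ge_atTop (1 : ℝ)] with
    T hlen haT hT y z hz
  have hT0 : 0 < T := by linarith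
  set L := Real.log T with hL
  have hL0 : 0 ≤ L := Real.log_nonneg hT
  set J : ℕ := ⌈10 * lam * L ^ om⌉₊ with hJ
  set S : ℝ → ℂ := fun t => psumS σ y z (a * t) with hS
  have hScont : Continuous S := (continuous_psumS σ y z).comp (continuous_const.mul continuous_id)
  -- the mean square
  have hmean : ∀ w : ℂ, ‖w‖ ≤ 1 →
      ∫ t in T..(2 * T), ‖expJ J ((lam : ℂ) * w * S t)‖ ^ 2 ≤ C * (a + 1) / a * E * T := by
    intro w hw
    have h1 : ∫ t in T..(2 * T), ‖expJ J ((lam : ℂ) * w * S t)‖ ^ 2 =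
        a⁻¹ * ∫ u in (a * T)..(a * (2 * T)), ‖expJ J ((lam : ℂ) * w * psumS σ y z u)‖ ^ 2 := by
      have := intervalIntegral.integral_comp_mul_left
        (f := fun u => ‖expJ J ((lam : ℂ) * w * psumS σ y z u)‖ ^ 2) (a := T) (b := 2 * T) ha.ne'
      rw [smul_eq_mul] at this
      exact this
    have h2 := hEqC σ lam (a * T) (a * T) w y z J hl hw haT
    have h3 : a * T + a * T = a * (2 * T) := by ring
    rw [h3] at h2
    have h4 : tail (2 * σ) y z ≤ 2 * σ / (2 * σ - 1) := hSz.2.1 (2 * σ) (by linarith) y z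
    have h5 : Real.exp (lam ^ 2 * tail (2 * σ) y z) ≤ E :=
      Real.exp_le_exp.mpr (mul_le_mul_of_nonneg_left h4 (sq_nonneg _))
    have h6 : ((z : ℝ) + 1) ^ J ≤ T := hlen z hz
    have h7 : C * (a * T + ((z : ℝ) + 1) ^ J) * Real.exp (lam ^ 2 * tail (2 * σ) y z) ≤
        C * (a * T + T) * E := by
      have h8 : (0 : ℝ) ≤ ((z : ℝ) + 1) ^ J := by positivity
      gcongr
    rw [h1]
    calc a⁻¹ * ∫ u in (a * T)..(a * (2 * T)), ‖expJ J ((lam : ℂ) * w * psumS σ y z u)‖ ^ 2
        ≤ a⁻¹ * (C * (a * T + T) * E) :=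
          mul_le_mul_of_nonneg_left (h2.trans h7) (by positivity)
      _ = C * (a + 1) / a * E * T := by
          field_simp
  -- the pointwise bound on the set
  set A : Set ℝ := {t ∈ Set.Icc T (2 * T) | ‖psumS σ y z (a * t)‖ ≤ L ^ om} with hA
  have hAsub : A ⊆ Set.Icc T (2 * T) := fun t ht => ht.1
  have hAmeas : MeasurableSet A := by
    have h1 : A = Set.Icc T (2 * T) ∩ {t | ‖S t‖ ≤ L ^ om} := by
      ext t
      simp only [hA, hS, Set.mem_ofPred_eq, Set.mem_inter_iff]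
    rw [h1]
    exact measurableSet_Icc.inter (isClosed_le hScont.norm continuous_const).measurableSet
  let g : ℝ → ℝ := fun t =>
    2 * ‖expJ J ((lam : ℂ) * 1 * S t)‖ ^ 2 + 2 * ‖expJ J ((lam : ℂ) * (-1) * S t)‖ ^ 2 +
      2 * ‖expJ J ((lam : ℂ) * I * S t)‖ ^ 2 + 2 * ‖expJ J ((lam : ℂ) * (-I) * S t)‖ ^ 2 + 8
  have hpt : ∀ t ∈ A, Real.exp (lam * ‖psumS σ y z (a * t)‖) ≤ g t := by
    intro t ht
    have ht2 : ‖S t‖ ≤ L ^ om := ht.2
    have h1 := exp_norm_le lam hl (S t)
    have h2 : ∀ w : ℂ, ‖w‖ = 1 → ‖Complex.exp ((lam : ℂ) * w * S t)‖ ^ 2 ≤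
        2 * ‖expJ J ((lam : ℂ) * w * S t)‖ ^ 2 + 2 := by
      intro w hw
      apply sq_le_two
      have h3 : ‖(lam : ℂ) * w * S t‖ ≤ (J : ℝ) / 10 := by
        rw [norm_mul, norm_mul, hw, mul_one, Complex.norm_real, Real.norm_eq_abs,
          abs_of_nonneg hl]
        have h4 : lam * ‖S t‖ ≤ lam * L ^ om := mul_le_mul_of_nonneg_left ht2 hl
        have h5 : 10 * lam * L ^ om ≤ (J : ℝ) := Nat.le_ceil _
        linarith
      have h6 := hTay J _ h3
      refine h6.trans (Real.exp_le_one_iff.mpr ?_)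
      have : (0 : ℝ) ≤ J := Nat.cast_nonneg J
      linarith
    have e1 := h2 1 (by simp)
    have e2 := h2 (-1) (by simp)
    have e3 := h2 I (by simp)
    have e4 := h2 (-I) (by simp)
    change Real.exp (lam * ‖S t‖) ≤ g t
    simp only [g]
    linarith
  have hc : ∀ w : ℂ, Continuous fun t => ‖expJ J ((lam : ℂ) * w * S t)‖ ^ 2 := by
    intro w
    exact (((continuous_expJ J).comp (continuous_const.mul hScont)).norm).pow 2
  have hgc : Continuous g := by
    simp only [g]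
    exact ((((hc 1).const_mul 2 |>.add ((hc (-1)).const_mul 2)).add
      ((hc I).const_mul 2)).add ((hc (-I)).const_mul 2)).add continuous_const
  have hg0 : ∀ t, 0 ≤ g t := by
    intro t
    simp only [g]
    positivity
  have hgI : IntegrableOn g (Set.Icc T (2 * T)) := hgc.continuousOn.integrableOn_Icc
  have hfI : IntegrableOn (fun t => Real.exp (lam * ‖psumS σ y z (a * t)‖))
      (Set.Icc T (2 * T)) := by
    have : Continuous fun t => Real.exp (lam * ‖psumS σ y z (a * t)‖) :=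
      Real.continuous_exp.comp (continuous_const.mul hScont.norm)
    exact this.continuousOn.integrableOn_Icc
  have hTT : T ≤ 2 * T := by linarith
  have hi : ∀ w : ℂ, IntervalIntegrable (fun t => 2 * ‖expJ J ((lam : ℂ) * w * S t)‖ ^ 2)
      volume T (2 * T) := fun w => ((hc w).const_mul 2).intervalIntegrable _ _
  calc ∫ t in A, Real.exp (lam * ‖psumS σ y z (a * t)‖)
      ≤ ∫ t in A, g t :=
        setIntegral_mono_on (hfI.mono_set hAsub) (hgI.mono_set hAsub) hAmeas hpt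
    _ ≤ ∫ t in Set.Icc T (2 * T), g t :=
        setIntegral_mono_set hgI (Eventually.of_forall hg0) (Eventually.of_forall hAsub)
    _ = ∫ t in T..(2 * T), g t := by
        rw [intervalIntegral.integral_of_le hTT, integral_Icc_eq_integral_Ioc]
    _ = 2 * (∫ t in T..(2 * T), ‖expJ J ((lam : ℂ) * 1 * S t)‖ ^ 2) +
          2 * (∫ t in T..(2 * T), ‖expJ J ((lam : ℂ) * (-1) * S t)‖ ^ 2) +
          2 * (∫ t in T..(2 * T), ‖expJ J ((lam : ℂ) * I * S t)‖ ^ 2) +
          2 * (∫ t in T..(2 * T), ‖expJ J ((lam : ℂ) * (-I) * S t)‖ ^ 2) + 8 * T := by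
        simp only [g]
        rw [intervalIntegral.integral_add
            ((((hi 1).add (hi (-1))).add (hi I)).add (hi (-I)))
            (continuous_const.intervalIntegrable _ _),
          intervalIntegral.integral_add (((hi 1).add (hi (-1))).add (hi I)) (hi (-I)),
          intervalIntegral.integral_add ((hi 1).add (hi (-1))) (hi I),
          intervalIntegral.integral_add (hi 1) (hi (-1)),
          intervalIntegral.integral_const_mul, intervalIntegral.integral_const_mul,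
          intervalIntegral.integral_const_mul, intervalIntegral.integral_const_mul,
          intervalIntegral.integral_const, smul_eq_mul]
        ring
    _ ≤ 2 * (C * (a + 1) / a * E * T) + 2 * (C * (a + 1) / a * E * T) +
          2 * (C * (a + 1) / a * E * T) + 2 * (C * (a + 1) / a * E * T) + 8 * T := by
        have e1 := hmean 1 (by simp)
        have e2 := hmean (-1) (by simp)
        have e3 := hmean I (by simp)
        have e4 := hmean (-I) (by simp)
        linarith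
    _ = (8 * (C * (a + 1) / a * E) + 8) * T := by ring

end Pool.Agent.Lib.MP_aa9ae4_nt.S1
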