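import Pool.Agent.Lib.MP_aa9ae4_nt.S1.SpecW

/-!
MP_aa9ae4_nt, Theorem S: the multinomial theorem (`S_Mn`).
-/

namespace Pool.Agent.Lib.MP_aa9ae4_nt.S1

open Finset MeasureTheory Filter Topology
open Complex (I)

private theorem mn_disj (s : Finset ℕ) (J : ℕ) :
    Set.PairwiseDisjoint (↑(range (J + 1)) : Set ℕ) fun j => s.piAntidiag j := by
  intro i _ j _ hij
  refine Finset.disjoint_left.2 fun k hi hj => hij ?_
  rw [mem_piAntidiag] at hi hj
  exact hi.1.symm.trans hj.1

private theorem mn_aux {K : Type*} [Field K] [CharZero K] (s : Finset ℕ) (x : ℕ → K) (J : ℕ) :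
    ∑ j ∈ range (J + 1), (∑ p ∈ s, x p) ^ j / (j.factorial : K) =
      ∑ k ∈ KK s J, ∏ p ∈ s, (x p ^ k p / ((k p).factorial : K)) := by
  classical
  unfold KK
  rw [Finset.sum_biUnion (mn_disj s J)]
  refine Finset.sum_congr rfl fun j _ => ?_
  rw [Finset.sum_pow_eq_sum_piAntidiag, Finset.sum_div]
  refine Finset.sum_congr rfl fun k hk => ?_
  rw [mem_piAntidiag] at hk
  have h := Nat.multinomial_spec s k
  rw [hk.1] at h
  have h' : (∏ p ∈ s, ((k p).factorial : K)) * (Nat.multinomial s k : K) = (j.factorial : K) := by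
    exact_mod_cast h
  have h1 : (∏ p ∈ s, ((k p).factorial : K)) ≠ 0 :=
    Finset.prod_ne_zero_iff.2 fun p _ => by exact_mod_cast Nat.factorial_ne_zero _
  have h2 : (j.factorial : K) ≠ 0 := by exact_mod_cast Nat.factorial_ne_zero _
  rw [Finset.prod_div_distrib, div_eq_div_iff h2 h1, ← h']
  ring

/-- The multinomial theorem for the truncated exponential series. -/
theorem pMn : S_Mn := by
  refine ⟨fun s x J => ?_, fun s x J hx => ?_⟩
  · unfold expJ
    exact mn_aux s x J
  · rw [← mn_aux s x J]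
    exact Real.sum_le_exp_of_nonneg (Finset.sum_nonneg fun p _ => hx p) _

end Pool.Agent.Lib.MP_aa9ae4_nt.S1
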