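import Mathlib
import Pool.Agent.Lib.MP_aa9ae4_nt.S1.SpecW

/-!
MP_aa9ae4_nt, Theorem S, part W: the truncated exponential series (`S_Tay`).
-/

namespace Pool.Agent.Lib.MP_aa9ae4_nt.S1

open Finset MeasureTheory Filter Topology
open Complex (I)

theorem pTay : S_Tay := by
  intro J x hx
  have hJ0 : (0 : ℝ) ≤ (J : ℝ) := Nat.cast_nonneg J
  have hn0 : 0 ≤ ‖x‖ := norm_nonneg x
  have h1 : ‖x‖ / ((J + 1 : ℕ).succ : ℝ) ≤ 1 / 2 := by
    rw [div_le_iff₀ (by positivity)]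
    push_cast
    linarith
  have h2 := Complex.exp_bound' (n := J + 1) h1
  have h3 : ‖x‖ ^ (J + 1) / ((J + 1).factorial : ℝ) ≤
      (1 / 10) ^ (J + 1) * Real.exp ((J : ℝ) + 1) := by
    have h4 : ‖x‖ ^ (J + 1) ≤ ((1 / 10) * ((J : ℝ) + 1)) ^ (J + 1) :=
      pow_le_pow_left₀ hn0 (by linarith) _
    have h5 : ((J : ℝ) + 1) ^ (J + 1) / ((J + 1).factorial : ℝ) ≤ Real.exp ((J : ℝ) + 1) :=
      Real.pow_div_factorial_le_exp _ (by linarith) _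
    calc ‖x‖ ^ (J + 1) / ((J + 1).factorial : ℝ)
        ≤ ((1 / 10) * ((J : ℝ) + 1)) ^ (J + 1) / ((J + 1).factorial : ℝ) := by gcongr
      _ = (1 / 10) ^ (J + 1) * (((J : ℝ) + 1) ^ (J + 1) / ((J + 1).factorial : ℝ)) := by
          rw [mul_pow, mul_div_assoc]
      _ ≤ (1 / 10) ^ (J + 1) * Real.exp ((J : ℝ) + 1) := by gcongr
  have he : Real.exp 1 < 2.7182818286 := Real.exp_one_lt_d9
  have he0 : 0 < Real.exp 1 := Real.exp_pos 1
  have h6 : Real.exp 1 / 10 ≤ Real.exp (-1) := by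
    rw [Real.exp_neg, div_le_iff₀ (by norm_num), inv_mul_eq_div, le_div_iff₀ he0]
    nlinarith
  have h7 : (1 / 10 : ℝ) ^ (J + 1) * Real.exp ((J : ℝ) + 1) = (Real.exp 1 / 10) ^ (J + 1) := by
    have : Real.exp ((J : ℝ) + 1) = Real.exp 1 ^ (J + 1) := by
      rw [← Real.exp_nat_mul]
      push_cast
      ring_nf
    rw [this, ← mul_pow]
    ring_nf
  have h8 : Real.exp (-(J : ℝ)) = Real.exp (-1) ^ J := by
    rw [← Real.exp_nat_mul]
    ring_nf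
  have h9 : (Real.exp 1 / 10) ^ J ≤ Real.exp (-1) ^ J := pow_le_pow_left₀ (by positivity) h6 _
  have h10 : 0 ≤ (Real.exp 1 / 10) ^ J := by positivity
  have h11 : (Real.exp 1 / 10) ^ (J + 1) * 2 ≤ Real.exp (-1) ^ J := by
    rw [pow_succ]
    have : Real.exp 1 / 10 * 2 ≤ 1 := by linarith
    nlinarith
  unfold expJ
  calc ‖Complex.exp x - ∑ j ∈ range (J + 1), x ^ j / (j.factorial : ℂ)‖
      ≤ ‖x‖ ^ (J + 1) / ((J + 1).factorial : ℝ) * 2 := h2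
    _ ≤ (1 / 10) ^ (J + 1) * Real.exp ((J : ℝ) + 1) * 2 := by gcongr
    _ = (Real.exp 1 / 10) ^ (J + 1) * 2 := by rw [h7]
    _ ≤ Real.exp (-1) ^ J := h11
    _ = Real.exp (-(J : ℝ)) := h8.symm

end Pool.Agent.Lib.MP_aa9ae4_nt.S1
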