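import Mathlib
import Pool.Agent.Lib.MP_aa9ae4_nt.S1.SpecG

/-!
MP_aa9ae4_nt, Theorem S, proof of `S_Bad` (mean square of the part with too many prime factors).
-/

namespace Pool.Agent.Lib.MP_aa9ae4_nt.S1

open Finset MeasureTheory Filter Topology
open Complex (I)

private lemma bad_pw (σ u : ℝ) (k : ℕ) (hk : 1 ≤ k) :
    pw σ k u = (((k : ℝ) ^ (-σ) : ℝ) : ℂ) * (k : ℂ) ^ (-(u * I)) := by
  have hk0 : (k : ℂ) ≠ 0 := by
    rw [Nat.cast_ne_zero]; omega
  unfold pw
  rw [neg_add, Complex.cpow_add _ _ hk0, Complex.ofReal_cpow (Nat.cast_nonneg k)]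
  simp

private lemma bad_prod (R : ℝ) (w z k : ℕ) (hwz : w ≤ z) :
    ∏ p ∈ k.primeFactors.filter (fun p => p ≤ z), (1 + (if p ≤ w then (3 : ℝ) else 4 * R - 1)) =
      4 ^ (k.primeFactors.filter fun p => p ≤ z).card *
        R ^ (k.primeFactors.filter fun p => w < p ∧ p ≤ z).card := by
  have h1 : ∀ p : ℕ, (1 + (if p ≤ w then (3 : ℝ) else 4 * R - 1)) = 4 * (if w < p then R else 1) := by
    intro p
    by_cases h : p ≤ w
    · rw [if_pos h, if_neg (by omega)]; norm_num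
    · rw [if_neg h, if_pos (by omega)]; ring
  rw [Finset.prod_congr rfl (fun p _ => h1 p), Finset.prod_mul_distrib, Finset.prod_const,
    Finset.prod_ite, Finset.prod_const, Finset.prod_const_one, mul_one, Finset.filter_filter]
  have h2 : k.primeFactors.filter (fun p => p ≤ z ∧ w < p) =
      k.primeFactors.filter (fun p => w < p ∧ p ≤ z) := by
    refine Finset.filter_congr ?_
    intro p _
    exact and_comm
  rw [h2]

private lemma bad_split (τ R : ℝ) (w z : ℕ) (hwz : w ≤ z) :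
    ∑ p ∈ prs 0 z, (if p ≤ w then (3 : ℝ) else 4 * R - 1) * (p : ℝ) ^ (-τ) ≤
      3 * tail τ 0 w + 4 * R * tail τ w z := by
  have h1 : prs 0 z = prs 0 w ∪ prs w z := by
    ext p
    simp only [prs, mem_union, mem_filter, mem_Ioc]
    constructor
    · rintro ⟨⟨h0, hz⟩, hp⟩
      by_cases h : p ≤ w
      · exact Or.inl ⟨⟨h0, h⟩, hp⟩
      · exact Or.inr ⟨⟨by omega, hz⟩, hp⟩
    · rintro (⟨⟨h0, hz⟩, hp⟩ | ⟨⟨h0, hz⟩, hp⟩)
      · exact ⟨⟨h0, by omega⟩, hp⟩
      · exact ⟨⟨by omega, hz⟩, hp⟩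
  have h2 : Disjoint (prs 0 w) (prs w z) := by
    rw [Finset.disjoint_left]
    intro p hp hq
    simp only [prs, mem_filter, mem_Ioc] at hp hq
    omega
  rw [h1, Finset.sum_union h2]
  unfold tail
  rw [Finset.mul_sum, Finset.mul_sum]
  refine add_le_add (le_of_eq ?_) ?_
  · refine Finset.sum_congr rfl ?_
    intro p hp
    simp only [prs, mem_filter, mem_Ioc] at hp
    rw [if_pos hp.1.2]
  · refine Finset.sum_le_sum ?_
    intro p hp
    simp only [prs, mem_filter, mem_Ioc] at hp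
    rw [if_neg (by omega)]
    have := Real.rpow_nonneg (Nat.cast_nonneg (α := ℝ) p) (-τ)
    nlinarith

/-- **Mean square of the part with too many prime factors** -/
theorem pBad (hMc : S_Mc) : S_Bad := by
  obtain ⟨C, hC, hmv⟩ := mean_value
  refine ⟨C, hC, ?_⟩
  intro σ U R w z J N c hσ hU hR hwz hc1 hc2
  have hR0 : 0 < R := by linarith
  have h1 := hmv U U hU N (fun k => c k * (((k : ℝ) ^ (-σ) : ℝ) : ℂ))
  have e1 : ∀ u : ℝ, ‖∑ k ∈ Icc 1 N, c k * pw σ k u‖ ^ 2 =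
      ‖∑ k ∈ Icc 1 N, (fun k : ℕ => c k * (((k : ℝ) ^ (-σ) : ℝ) : ℂ)) k * (k : ℂ) ^ (-(u * I))‖ ^ 2 := by
    intro u
    rw [Finset.sum_congr rfl]
    intro k hk
    rw [bad_pw σ u k (mem_Icc.1 hk).1]
    simp only []
    ring
  simp_rw [e1]
  rw [two_mul]
  refine h1.trans ?_
  have hUN : 0 ≤ C * (U + N) := by positivity
  rw [mul_assoc (C * (U + N)), mul_assoc (C * (U + N))]
  refine mul_le_mul_of_nonneg_left ?_ hUN
  -- the coefficients
  have e2 : ∀ k ∈ Icc 1 N, ‖(fun k : ℕ => c k * (((k : ℝ) ^ (-σ) : ℝ) : ℂ)) k‖ ^ 2 ≤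
      (R ^ J)⁻¹ * ((∏ p ∈ k.primeFactors.filter (fun p => p ≤ z),
        (1 + (if p ≤ w then (3 : ℝ) else 4 * R - 1))) * (k : ℝ) ^ (-(2 * σ))) := by
    intro k hk
    have hk0 : (0 : ℝ) ≤ k := Nat.cast_nonneg k
    have hkp : 0 ≤ (k : ℝ) ^ (-σ) := Real.rpow_nonneg hk0 _
    have e3 : ‖(fun k : ℕ => c k * (((k : ℝ) ^ (-σ) : ℝ) : ℂ)) k‖ ^ 2 =
        ‖c k‖ ^ 2 * (k : ℝ) ^ (-(2 * σ)) := by
      simp only []
      have e4 : ((k : ℝ) ^ (-σ)) ^ 2 = (k : ℝ) ^ (-(2 * σ)) := by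
        rw [← Real.rpow_natCast, ← Real.rpow_mul hk0]
        congr 1
        push_cast; ring
      rw [norm_mul, mul_pow, Complex.norm_real, Real.norm_of_nonneg hkp, e4]
    rw [e3, ← mul_assoc]
    refine mul_le_mul_of_nonneg_right ?_ (Real.rpow_nonneg hk0 _)
    rw [bad_prod R w z k hwz]
    by_cases hck : c k = 0
    · rw [hck]
      have : 0 ≤ (R ^ J)⁻¹ * ((4 : ℝ) ^ (k.primeFactors.filter fun p => p ≤ z).card *
        R ^ (k.primeFactors.filter fun p => w < p ∧ p ≤ z).card) := by positivity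
      simpa using this
    · have hJ := hc2 k hk hck
      have hb := hc1 k hk
      have h4 : ‖c k‖ ^ 2 ≤ 4 ^ (k.primeFactors.filter fun p => p ≤ z).card := by
        calc ‖c k‖ ^ 2 ≤ (2 ^ (k.primeFactors.filter fun p => p ≤ z).card) ^ 2 :=
              pow_le_pow_left₀ (norm_nonneg _) hb 2
          _ = 4 ^ (k.primeFactors.filter fun p => p ≤ z).card := by
              rw [← pow_mul, mul_comm, pow_mul]; norm_num
      have h5 : R ^ J ≤ R ^ (k.primeFactors.filter fun p => w < p ∧ p ≤ z).card :=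
        pow_le_pow_right₀ hR hJ.le
      have h6 : 0 < R ^ J := pow_pos hR0 _
      calc ‖c k‖ ^ 2 ≤ 4 ^ (k.primeFactors.filter fun p => p ≤ z).card := h4
        _ = 4 ^ (k.primeFactors.filter fun p => p ≤ z).card * ((R ^ J)⁻¹ * R ^ J) := by
            rw [inv_mul_cancel₀ h6.ne', mul_one]
        _ ≤ 4 ^ (k.primeFactors.filter fun p => p ≤ z).card * ((R ^ J)⁻¹ *
              R ^ (k.primeFactors.filter fun p => w < p ∧ p ≤ z).card) := by
            refine mul_le_mul_of_nonneg_left ?_ (by positivity)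
            exact mul_le_mul_of_nonneg_left h5 (inv_nonneg.2 h6.le)
        _ = _ := by ring
  refine (Finset.sum_le_sum e2).trans ?_
  rw [← Finset.mul_sum, mul_assoc]
  refine mul_le_mul_of_nonneg_left ?_ (inv_nonneg.2 (pow_pos hR0 _).le)
  have h7 := hMc (2 * σ) (fun p => if p ≤ w then (3 : ℝ) else 4 * R - 1) z N (by linarith) (by
    intro p
    show (0 : ℝ) ≤ if p ≤ w then (3 : ℝ) else 4 * R - 1
    split_ifs
    · norm_num
    · linarith)
  refine h7.trans ?_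
  refine mul_le_mul_of_nonneg_right ?_ ?_
  · exact Real.exp_le_exp.2 (bad_split (2 * σ) R w z hwz)
  · exact Finset.sum_nonneg fun k _ => Real.rpow_nonneg (Nat.cast_nonneg k) _

end Pool.Agent.Lib.MP_aa9ae4_nt.S1
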