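import Mathlib
import Pool.Agent.Lib.MP_aa9ae4_nt.S1.SpecW
import Pool.Agent.Lib.MP_aa9ae4_nt.Weight
import Pool.Agent.Lib.MP_aa9ae4_nt.K2.Main

/-!
MP_aa9ae4_nt, Theorem S, part W: comparison of the weights and masses (task Cf).
-/

namespace Pool.Agent.Lib.MP_aa9ae4_nt.S1

open Finset MeasureTheory Filter Topology
open Complex (I)

private theorem cf_logs (c : ℝ) : ∀ᶠ L : ℝ in atTop, c * (2 + Real.log L ^ 3) ≤ L ^ (1 / 3 : ℝ) := by
  have h1 : Tendsto (fun L : ℝ => c * (2 + Real.log L ^ 3) / L ^ (1 / 3 : ℝ)) atTop (𝓝 0) := by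
    have h2 : Tendsto (fun L : ℝ => Real.log L ^ (3 : ℝ) / L ^ (1 / 3 : ℝ)) atTop (𝓝 0) :=
      (isLittleO_log_rpow_rpow_atTop (3 : ℝ) (by norm_num : (0 : ℝ) < 1 / 3)).tendsto_div_nhds_zero
    have h3 : Tendsto (fun L : ℝ => (L ^ (1 / 3 : ℝ))⁻¹) atTop (𝓝 0) :=
      (tendsto_rpow_atTop (by norm_num : (0 : ℝ) < 1 / 3)).inv_tendsto_atTop
    have h4 := ((h3.const_mul 2).add h2).const_mul c
    simp only [mul_zero, add_zero] at h4
    refine h4.congr fun L => ?_
    rw [show Real.log L ^ (3 : ℝ) = Real.log L ^ 3 by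
      rw [show (3 : ℝ) = ((3 : ℕ) : ℝ) by norm_num, Real.rpow_natCast]]
    ring
  filter_upwards [h1.eventually (ge_mem_nhds (show (0 : ℝ) < 1 by norm_num)), eventually_gt_atTop 0]
    with L hL hL0
  have h5 : 0 < L ^ (1 / 3 : ℝ) := by positivity
  rwa [div_le_one h5] at hL

/-- basic facts on `N(T)` -/
private theorem cf_NT : ∀ᶠ T : ℝ in atTop, 1 ≤ NT T ∧ (NT T : ℝ) ≤ T ∧
    Real.log (T / NT T) ≤ 1 + Real.log (Real.log T) ^ 3 := by
  have hL : ∀ᶠ T : ℝ in atTop, 1 * (2 + Real.log (Real.log T) ^ 3) ≤ (Real.log T) ^ (1 / 3 : ℝ) :=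
    Real.tendsto_log_atTop.eventually (cf_logs 1)
  filter_upwards [hL, Real.tendsto_log_atTop.eventually (eventually_ge_atTop (3 : ℝ)),
    eventually_ge_atTop (3 : ℝ)] with T h1 h2 h3
  have hT0 : 0 < T := by linarith
  have hl0 : 0 ≤ Real.log (Real.log T) := Real.log_nonneg (by linarith)
  have h4 : (Real.log T) ^ (1 / 3 : ℝ) ≤ Real.log T := by
    calc (Real.log T) ^ (1 / 3 : ℝ) ≤ (Real.log T) ^ (1 : ℝ) :=
          Real.rpow_le_rpow_of_exponent_le (by linarith) (by norm_num)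
      _ = Real.log T := Real.rpow_one _
  have h5 : Real.log (Real.log T) ^ 3 ≤ Real.log T := by linarith
  have h6 : 1 ≤ T * Real.exp (-(Real.log (Real.log T)) ^ 3) := by
    have h7 : T * Real.exp (-(Real.log (Real.log T)) ^ 3) =
        Real.exp (Real.log T - Real.log (Real.log T) ^ 3) := by
      rw [sub_eq_add_neg, Real.exp_add, Real.exp_log hT0]
    rw [h7]
    exact Real.one_le_exp (by linarith)
  have h8 : 1 ≤ NT T := Nat.le_floor (by exact_mod_cast h6)
  have h9 : (NT T : ℝ) ≤ T * Real.exp (-(Real.log (Real.log T)) ^ 3) :=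
    Nat.floor_le (by positivity)
  have h10 : T * Real.exp (-(Real.log (Real.log T)) ^ 3) < NT T + 1 := Nat.lt_floor_add_one _
  have h11 : (1 : ℝ) ≤ NT T := by exact_mod_cast h8
  have h12 : Real.exp (-(Real.log (Real.log T)) ^ 3) ≤ 1 := by
    rw [Real.exp_le_one_iff]
    have : 0 ≤ Real.log (Real.log T) ^ 3 := by positivity
    linarith
  refine ⟨h8, h9.trans (by nlinarith), ?_⟩
  have h13 : T / NT T ≤ 2 * Real.exp (Real.log (Real.log T) ^ 3) := by
    rw [div_le_iff₀ (by linarith)]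
    have h14 : T * Real.exp (-(Real.log (Real.log T)) ^ 3) ≤ 2 * NT T := by linarith
    have h15 : Real.exp (-(Real.log (Real.log T)) ^ 3) * Real.exp (Real.log (Real.log T) ^ 3) = 1 := by
      rw [← Real.exp_add]; simp
    have h16 : 0 < Real.exp (Real.log (Real.log T) ^ 3) := Real.exp_pos _
    calc T = T * Real.exp (-(Real.log (Real.log T)) ^ 3) * Real.exp (Real.log (Real.log T) ^ 3) := by
          rw [mul_assoc, h15, mul_one]
      _ ≤ 2 * NT T * Real.exp (Real.log (Real.log T) ^ 3) := mul_le_mul_of_nonneg_right h14 h16.le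
      _ = 2 * Real.exp (Real.log (Real.log T) ^ 3) * NT T := by ring
  calc Real.log (T / NT T) ≤ Real.log (2 * Real.exp (Real.log (Real.log T) ^ 3)) :=
        Real.log_le_log (by positivity) h13
    _ = Real.log 2 + Real.log (Real.log T) ^ 3 := by
        rw [Real.log_mul (by norm_num) (Real.exp_pos _).ne', Real.log_exp]
    _ ≤ 1 + Real.log (Real.log T) ^ 3 := by
        have := Real.log_two_lt_d9
        linarith

private theorem cf_a :
    ∀ᶠ T : ℝ in atTop, ∫ t in T..(2 * T), |fw t - zw T t| ≤ fn T * Real.log T ^ (-(1 / 3) : ℝ) := by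
  obtain ⟨C, hC, h⟩ := weight_compare
  have hL : ∀ᶠ T : ℝ in atTop, (2 * C ^ 2) * (2 + Real.log (Real.log T) ^ 3) ≤
      (Real.log T) ^ (1 / 3 : ℝ) :=
    Real.tendsto_log_atTop.eventually (cf_logs (2 * C ^ 2))
  filter_upwards [hL, cf_NT, Real.tendsto_log_atTop.eventually (eventually_ge_atTop (1 : ℝ)),
    eventually_ge_atTop (3 : ℝ)] with T h1 h2 h3 h4
  obtain ⟨hN1, hNT, hlog⟩ := h2
  have hT0 : 0 < T := by linarith
  have h5 := h T h4 (NT T) hN1 hNT
  refine le_trans h5 ?_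
  have hl0 : 0 ≤ Real.log (Real.log T) := Real.log_nonneg (by linarith)
  have hL0 : 0 < Real.log T := by linarith
  have h6 : fn T * Real.log T ^ (-(1 / 3) : ℝ) = T * Real.log T ^ (2 / 3 : ℝ) := by
    unfold fn
    rw [mul_assoc]
    congr 1
    nth_rewrite 1 [← Real.rpow_one (Real.log T)]
    rw [← Real.rpow_add hL0]
    norm_num
  rw [h6]
  have h7 : √((1 + Real.log T) * (1 + Real.log (T / NT T))) ≤ Real.log T ^ (2 / 3 : ℝ) / C := by
    rw [Real.sqrt_le_left (by positivity)]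
    have h8 : (Real.log T ^ (2 / 3 : ℝ)) ^ 2 = Real.log T * Real.log T ^ (1 / 3 : ℝ) := by
      rw [← Real.rpow_natCast, ← Real.rpow_mul hL0.le]
      nth_rewrite 2 [← Real.rpow_one (Real.log T)]
      rw [← Real.rpow_add hL0]
      norm_num
    rw [div_pow, h8, le_div_iff₀ (by positivity)]
    have h9 : 0 ≤ Real.log (Real.log T) ^ 3 := by positivity
    have h10 : (1 + Real.log T) * (1 + Real.log (T / NT T)) ≤
        (2 * Real.log T) * (2 + Real.log (Real.log T) ^ 3) :=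
      mul_le_mul (by linarith) (by linarith)
        (by
          have : 1 ≤ T / NT T := by
            rw [one_le_div (by exact_mod_cast hN1)]
            exact hNT
          have := Real.log_nonneg this
          linarith) (by positivity)
    calc (1 + Real.log T) * (1 + Real.log (T / NT T)) * C ^ 2
        ≤ (2 * Real.log T) * (2 + Real.log (Real.log T) ^ 3) * C ^ 2 :=
          mul_le_mul_of_nonneg_right h10 (by positivity)
      _ = Real.log T * ((2 * C ^ 2) * (2 + Real.log (Real.log T) ^ 3)) := by ring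
      _ ≤ Real.log T * Real.log T ^ (1 / 3 : ℝ) := mul_le_mul_of_nonneg_left h1 hL0.le
  calc C * T * √((1 + Real.log T) * (1 + Real.log (T / NT T)))
      ≤ C * T * (Real.log T ^ (2 / 3 : ℝ) / C) := mul_le_mul_of_nonneg_left h7 (by positivity)
    _ = T * Real.log T ^ (2 / 3 : ℝ) := by field_simp

private theorem cf_b :
    ∃ C : ℝ, 0 < C ∧ ∀ᶠ T : ℝ in atTop, ∫ t in T..(2 * T), zw T t ≤ C * fn T := by
  obtain ⟨C, hC, h⟩ := weight_mv
  refine ⟨2 * C, by positivity, ?_⟩
  filter_upwards [cf_NT, Real.tendsto_log_atTop.eventually (eventually_ge_atTop (1 : ℝ)),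
    eventually_ge_atTop (3 : ℝ)] with T h2 h3 h4
  obtain ⟨hN1, hNT, -⟩ := h2
  have hT0 : 0 < T := by linarith
  have h5 := h T (by linarith) 0 (NT T) (Nat.zero_le _) hNT
  have h6 : ∀ t : ℝ, ‖zsum (1 / 2 + t * I) (NT T) - zsum (1 / 2 + t * I) 0‖ ^ 2 = zw T t := by
    intro t
    simp [zsum, zw]
  simp only [h6] at h5
  refine h5.trans ?_
  have h7 := weight_sum_inv' (NT T) hN1
  have h8 : Real.log (NT T) ≤ Real.log T := Real.log_le_log (by exact_mod_cast hN1) hNT
  unfold fn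
  calc C * T * ∑ n ∈ Ioc 0 (NT T), (1 : ℝ) / n ≤ C * T * (2 * Real.log T) :=
        mul_le_mul_of_nonneg_left (by linarith) (by positivity)
    _ = 2 * C * (T * Real.log T) := by ring

private theorem cf_c :
    ∃ C : ℝ, 0 < C ∧ ∀ᶠ T : ℝ in atTop, ∫ t in T..(2 * T), fw t ^ 2 ≤ C * (T * Real.log T ^ 4) := by
  obtain ⟨D, hD, h⟩ := K2.main 1 0 one_pos
  refine ⟨D + 1, by positivity, ?_⟩
  filter_upwards [h.eventually (ge_mem_nhds (show D < D + 1 by linarith)),
    Real.tendsto_log_atTop.eventually (eventually_ge_atTop (1 : ℝ)),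
    eventually_ge_atTop (3 : ℝ)] with T h1 h2 h3
  have h4 : 0 < T * Real.log T ^ 4 := by positivity
  rw [div_le_iff₀ h4] at h1
  refine le_trans (le_of_eq ?_) h1
  congr 1
  ext t
  rw [Real.rpow_zero, div_one]
  unfold fw
  ring

theorem pCf : S_Cf := ⟨cf_a, cf_b, cf_c, mass_limit⟩

end Pool.Agent.Lib.MP_aa9ae4_nt.S1
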