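import Mathlib
import Pool.Agent.Lib.MP_aa9ae4_nt.S1.SpecW

/-!
MP_aa9ae4_nt, Theorem S, part W: the combinatorial inequality.
-/

namespace Pool.Agent.Lib.MP_aa9ae4_nt.S1

open Finset MeasureTheory Filter Topology
open Complex (I)

/-- comparison of sums along an injective map -/
private lemma pCmb_sum_le {α β : Type*} [DecidableEq β] (A : Finset α) (B : Finset β) (φ : α → β)
    (F : α → ℝ) (G : β → ℝ) (hφ : ∀ x ∈ A, φ x ∈ B) (hinj : Set.InjOn φ A)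
    (hG : ∀ y ∈ B, 0 ≤ G y) (hFG : ∀ x ∈ A, F x ≤ G (φ x)) :
    ∑ x ∈ A, F x ≤ ∑ y ∈ B, G y := by
  calc ∑ x ∈ A, F x ≤ ∑ x ∈ A, G (φ x) := Finset.sum_le_sum hFG
    _ = ∑ y ∈ A.image φ, G y := (Finset.sum_image hinj).symm
    _ ≤ ∑ y ∈ B, G y := by
      refine Finset.sum_le_sum_of_subset_of_nonneg ?_ (fun y hy _ => hG y hy)
      intro y hy
      obtain ⟨x, hx, rfl⟩ := Finset.mem_image.mp hy
      exact hφ x hx

theorem pCmb (hNn : S_Nn) : S_Cmb := by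
  classical
  intro s J H b ψ u v Cp hs hb hsub hu hv huv hψ hCp hH
  obtain ⟨hinj, -, hadd, hgcd, hmem, -⟩ := hNn s hs J
  set A := KK s J with hA
  -- the map
  let φ : (ℕ → ℕ) × (ℕ → ℕ) → (ℕ → ℕ) × ((ℕ → ℕ) × (ℕ → ℕ)) := fun x =>
    (fun p => min (x.1 p) (x.2 p),
      (fun p => x.1 p - min (x.1 p) (x.2 p), fun p => x.2 p - min (x.1 p) (x.2 p)))
  have hk : ∀ x : (ℕ → ℕ) × (ℕ → ℕ), x.1 = (φ x).1 + (φ x).2.1 := by
    intro x
    funext p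
    show x.1 p = min (x.1 p) (x.2 p) + (x.1 p - min (x.1 p) (x.2 p))
    have := min_le_left (x.1 p) (x.2 p)
    omega
  have hl : ∀ x : (ℕ → ℕ) × (ℕ → ℕ), x.2 = (φ x).1 + (φ x).2.2 := by
    intro x
    funext p
    show x.2 p = min (x.1 p) (x.2 p) + (x.2 p - min (x.1 p) (x.2 p))
    have := min_le_right (x.1 p) (x.2 p)
    omega
  have hφinj : Function.Injective φ := by
    intro x y hxy
    apply Prod.ext
    · rw [hk x, hk y, hxy]
    · rw [hl x, hl y, hxy]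
  -- step 1
  have h1 : ∑ k ∈ A, ∑ l ∈ A, b k * b l *
        ψ (nn s k / Nat.gcd (nn s k) (nn s l)) (nn s l / Nat.gcd (nn s k) (nn s l)) ≤
      ∑ x ∈ A ×ˢ (A ×ˢ A), b x.1 ^ 2 * (b x.2.1 * b x.2.2 * ψ (nn s x.2.1) (nn s x.2.2)) := by
    rw [← Finset.sum_product' (s := A) (t := A) (f := fun k l => b k * b l *
        ψ (nn s k / Nat.gcd (nn s k) (nn s l)) (nn s l / Nat.gcd (nn s k) (nn s l)))]
    refine pCmb_sum_le (A ×ˢ A) (A ×ˢ (A ×ˢ A)) φ _ _ ?_ (fun x _ y _ h => hφinj h) ?_ ?_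
    · intro x hx
      rw [Finset.mem_product] at hx
      have e1 := hmem x.1 hx.1 (fun p => min (x.1 p) (x.2 p)) (fun p => min_le_left _ _)
      have e2 := hmem x.2 hx.2 (fun p => min (x.1 p) (x.2 p)) (fun p => min_le_right _ _)
      rw [Finset.mem_product, Finset.mem_product]
      exact ⟨e1.1, e1.2, e2.2⟩
    · intro y _
      exact mul_nonneg (sq_nonneg _) (mul_nonneg (mul_nonneg (hb _) (hb _)) (hψ _ _))
    · intro x hx
      rw [Finset.mem_product] at hx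
      have e1 := hmem x.1 hx.1 (fun p => min (x.1 p) (x.2 p)) (fun p => min_le_left _ _)
      have hgpos : 1 ≤ nn s (φ x).1 := (Finset.mem_Icc.mp (hH _ e1.1)).1
      have g1 : Nat.gcd (nn s x.1) (nn s x.2) = nn s (φ x).1 := hgcd x.1 x.2
      have g2 : nn s x.1 = nn s (φ x).1 * nn s (φ x).2.1 := by
        conv_lhs => rw [hk x]
        exact hadd _ _
      have g3 : nn s x.2 = nn s (φ x).1 * nn s (φ x).2.2 := by
        conv_lhs => rw [hl x]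
        exact hadd _ _
      have g4 : nn s x.1 / Nat.gcd (nn s x.1) (nn s x.2) = nn s (φ x).2.1 := by
        rw [g1, g2]
        exact Nat.mul_div_cancel_left _ hgpos
      have g5 : nn s x.2 / Nat.gcd (nn s x.1) (nn s x.2) = nn s (φ x).2.2 := by
        rw [g1, g3]
        exact Nat.mul_div_cancel_left _ hgpos
      show b x.1 * b x.2 * ψ (nn s x.1 / Nat.gcd (nn s x.1) (nn s x.2))
        (nn s x.2 / Nat.gcd (nn s x.1) (nn s x.2)) ≤ _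
      rw [g4, g5]
      have b1 : b x.1 ≤ b (φ x).1 * b (φ x).2.1 := by
        conv_lhs => rw [hk x]
        exact hsub _ _
      have b2 : b x.2 ≤ b (φ x).1 * b (φ x).2.2 := by
        conv_lhs => rw [hl x]
        exact hsub _ _
      have b3 : b x.1 * b x.2 ≤ (b (φ x).1 * b (φ x).2.1) * (b (φ x).1 * b (φ x).2.2) :=
        mul_le_mul b1 b2 (hb _) (mul_nonneg (hb _) (hb _))
      calc b x.1 * b x.2 * ψ (nn s (φ x).2.1) (nn s (φ x).2.2)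
          ≤ (b (φ x).1 * b (φ x).2.1) * (b (φ x).1 * b (φ x).2.2) *
            ψ (nn s (φ x).2.1) (nn s (φ x).2.2) := mul_le_mul_of_nonneg_right b3 (hψ _ _)
        _ = b (φ x).1 ^ 2 * (b (φ x).2.1 * b (φ x).2.2 *
            ψ (nn s (φ x).2.1) (nn s (φ x).2.2)) := by ring
  -- step 2
  have h2 : ∑ x ∈ A ×ˢ (A ×ˢ A), b x.1 ^ 2 * (b x.2.1 * b x.2.2 * ψ (nn s x.2.1) (nn s x.2.2)) =
      (∑ g ∈ A, b g ^ 2) * ∑ x ∈ A ×ˢ A, b x.1 * b x.2 * ψ (nn s x.1) (nn s x.2) := by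
    rw [Finset.sum_mul_sum, ← Finset.sum_product']
  -- Hölder
  have hpq : u.HolderConjugate v := by
    rw [Real.holderConjugate_iff]
    exact ⟨hu, by rw [← huv, one_div, one_div]⟩
  have h3 : ∑ x ∈ A ×ˢ A, b x.1 * b x.2 * ψ (nn s x.1) (nn s x.2) ≤
      (∑ x ∈ A ×ˢ A, (b x.1 * b x.2) ^ u) ^ (1 / u) *
        (∑ x ∈ A ×ˢ A, ψ (nn s x.1) (nn s x.2) ^ v) ^ (1 / v) :=
    Real.inner_le_Lp_mul_Lq_of_nonneg (A ×ˢ A) hpq
      (f := fun x => b x.1 * b x.2) (g := fun x => ψ (nn s x.1) (nn s x.2))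
      (fun x _ => mul_nonneg (hb _) (hb _)) (fun x _ => hψ _ _)
  have h4 : ∑ x ∈ A ×ˢ A, (b x.1 * b x.2) ^ u = (∑ h ∈ A, b h ^ u) ^ 2 := by
    rw [sq, Finset.sum_mul_sum, ← Finset.sum_product']
    refine Finset.sum_congr rfl fun x _ => ?_
    exact Real.mul_rpow (hb _) (hb _)
  have h5 : ((∑ h ∈ A, b h ^ u) ^ 2) ^ (1 / u) = (∑ h ∈ A, b h ^ u) ^ (2 / u) := by
    have h0 : 0 ≤ ∑ h ∈ A, b h ^ u := Finset.sum_nonneg fun h _ => Real.rpow_nonneg (hb _) _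
    rw [← Real.rpow_natCast, ← Real.rpow_mul h0]
    congr 1
    push_cast
    ring
  have h6 : ∑ x ∈ A ×ˢ A, ψ (nn s x.1) (nn s x.2) ^ v ≤ Cp := by
    refine le_trans ?_ hCp
    rw [← Finset.sum_product' (s := Icc 1 H) (t := Icc 1 H) (f := fun h k => ψ h k ^ v)]
    refine pCmb_sum_le (A ×ˢ A) (Icc 1 H ×ˢ Icc 1 H) (fun x => (nn s x.1, nn s x.2)) _ _ ?_ ?_ ?_ ?_
    · intro x hx
      rw [Finset.mem_product] at hx ⊢
      exact ⟨hH _ hx.1, hH _ hx.2⟩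
    · intro x hx y hy hxy
      rw [Finset.mem_coe, Finset.mem_product] at hx hy
      obtain ⟨e1, e2⟩ := Prod.ext_iff.mp hxy
      exact Prod.ext (hinj _ hx.1 _ hy.1 e1) (hinj _ hx.2 _ hy.2 e2)
    · intro y _
      exact Real.rpow_nonneg (hψ _ _) _
    · intro x _
      exact le_rfl
  have h7 : 0 ≤ ∑ x ∈ A ×ˢ A, ψ (nn s x.1) (nn s x.2) ^ v :=
    Finset.sum_nonneg fun x _ => Real.rpow_nonneg (hψ _ _) _
  have h8 : (∑ x ∈ A ×ˢ A, ψ (nn s x.1) (nn s x.2) ^ v) ^ (1 / v) ≤ Cp ^ (1 / v) :=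
    Real.rpow_le_rpow h7 h6 (by positivity)
  have h9 : 0 ≤ ∑ g ∈ A, b g ^ 2 := Finset.sum_nonneg fun g _ => sq_nonneg _
  have h10 : 0 ≤ (∑ h ∈ A, b h ^ u) ^ (2 / u) :=
    Real.rpow_nonneg (Finset.sum_nonneg fun h _ => Real.rpow_nonneg (hb _) _) _
  calc _ ≤ _ := h1
    _ = _ := h2
    _ ≤ (∑ g ∈ A, b g ^ 2) * ((∑ x ∈ A ×ˢ A, (b x.1 * b x.2) ^ u) ^ (1 / u) *
        (∑ x ∈ A ×ˢ A, ψ (nn s x.1) (nn s x.2) ^ v) ^ (1 / v)) := mul_le_mul_of_nonneg_left h3 h9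
    _ ≤ (∑ g ∈ A, b g ^ 2) * ((∑ h ∈ A, b h ^ u) ^ (2 / u) * Cp ^ (1 / v)) := by
      rw [h4, h5]
      exact mul_le_mul_of_nonneg_left (mul_le_mul_of_nonneg_left h8 h10) h9

end Pool.Agent.Lib.MP_aa9ae4_nt.S1
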