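import Pool.Agent.Lib.MP_aa9ae4_nt.S1.SpecM

/-!
MP_aa9ae4_nt, Theorem S, part M: comparison of the integrals (the primes above `y`).
-/

namespace Pool.Agent.Lib.MP_aa9ae4_nt.S1

open Finset MeasureTheory Filter Topology
open Complex (I)

theorem cmp_cont_pw (σ : ℝ) {p : ℕ} (hp : p ≠ 0) : Continuous fun u : ℝ => pw σ p u := by
  unfold pw
  refine Continuous.const_cpow (by fun_prop) (Or.inl ?_)
  exact_mod_cast hp

theorem cmp_prime {y z p : ℕ} (hp : p ∈ prs y z) : p.Prime := (Finset.mem_filter.mp hp).2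

theorem cmp_cont_eul (σ : ℝ) (y z : ℕ) : Continuous fun u : ℝ => eulS σ y z u := by
  unfold eulS
  refine continuous_finset_prod _ fun p hp => continuous_const.sub ?_
  exact cmp_cont_pw σ (cmp_prime hp).ne_zero

theorem cmp_cont_psum (σ : ℝ) (y z : ℕ) : Continuous fun u : ℝ => psumS σ y z u := by
  unfold psumS
  exact continuous_finset_sum _ fun p hp => cmp_cont_pw σ (cmp_prime hp).ne_zero

theorem cmp_cont_mul {f : ℝ → ℂ} (hf : Continuous f) (a : ℝ) : Continuous fun t : ℝ => f (a * t) :=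
  hf.comp (continuous_const.mul continuous_id)

theorem cmp_norm_psum (σ : ℝ) (hσ : 0 < σ) (y : ℕ) (u : ℝ) : ‖psumS σ 0 y u‖ ≤ y := by
  unfold psumS
  refine (norm_sum_le _ _).trans ?_
  have h1 : ∀ p ∈ prs 0 y, ‖pw σ p u‖ ≤ 1 := by
    intro p hp
    have hpp := cmp_prime hp
    unfold pw
    rw [Complex.norm_natCast_cpow_of_pos hpp.pos]
    simp only [Complex.neg_re, Complex.add_re, Complex.ofReal_re, Complex.mul_re, Complex.I_re,
      mul_zero, Complex.ofReal_im, Complex.I_im, mul_one, sub_zero, add_zero]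
    have hp1 : (1 : ℝ) ≤ p := by exact_mod_cast hpp.one_lt.le
    exact Real.rpow_le_one_of_one_le_of_nonpos hp1 (by linarith)
  refine (Finset.sum_le_card_nsmul _ _ 1 h1).trans ?_
  rw [nsmul_eq_mul, mul_one]
  have h2 : (prs 0 y).card ≤ y := by
    refine (Finset.card_filter_le _ _).trans ?_
    simp
  exact_mod_cast h2

theorem cmp_pow_le (x c γ e : ℝ) (hx : 0 < x) (hc : |γ| ≤ c) (he : |Real.log x| ≤ e) :
    x ^ γ ≤ Real.exp (c * e) := by
  rw [Real.rpow_def_of_pos hx]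
  apply Real.exp_le_exp.2
  have h1 : Real.log x * γ ≤ |Real.log x * γ| := le_abs_self _
  rw [abs_mul] at h1
  have h2 : |Real.log x| * |γ| ≤ e * c :=
    mul_le_mul he hc (abs_nonneg _) ((abs_nonneg _).trans he)
  linarith

theorem cmp_log (hSz : S_Sz) (hEs : S_Es) (σ : ℝ) (hσ : 1 / 2 < σ) (y z : ℕ) (u : ℝ) :
    |Real.log ‖eulS σ y z u‖| ≤ ‖psumS σ y z u‖ + 2 * (2 * σ / (2 * σ - 1)) := by
  have h1 := (hEs σ y z u hσ.le).2
  have h2 := hSz.2.1 (2 * σ) (by linarith) y z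
  have h3 := Complex.abs_re_le_norm (psumS σ y z u)
  have h4 : |Real.log ‖eulS σ y z u‖| ≤
      |Real.log ‖eulS σ y z u‖ + (psumS σ y z u).re| + |(psumS σ y z u).re| := by
    have := abs_sub (Real.log ‖eulS σ y z u‖ + (psumS σ y z u).re) (psumS σ y z u).re
    rwa [add_sub_cancel_right] at this
  linarith

/-- the pointwise bound -/
theorem cmp_point (hSz : S_Sz) (hEs : S_Es) (σ : ℝ) (hσ : 1 / 2 < σ) (a γ : ℝ) (y : ℕ)
    (T t : ℝ) : gm σ a γ y T t ≤
      (Real.exp (|γ| * (y + 2 * (2 * σ / (2 * σ - 1)))) *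
        (2 * Real.exp (|γ| * (2 * (2 * σ / (2 * σ - 1)))))) *
        Real.exp (|γ| * ‖psumS σ y (zT σ T) (a * t)‖) := by
  have hc1 : 0 ≤ 2 * (2 * σ / (2 * σ - 1)) := by
    have : 0 < 2 * σ - 1 := by linarith
    positivity
  unfold gm
  set z := zT σ T with hz
  have h0 : 0 < ‖eulS σ 0 y (a * t)‖ := norm_pos_iff.2 (hEs σ 0 y (a * t) hσ.le).1
  have h1 : 0 < ‖eulS σ y z (a * t)‖ := norm_pos_iff.2 (hEs σ y z (a * t) hσ.le).1
  have h2 : ‖eulS σ 0 y (a * t)‖ ^ γ ≤ Real.exp (|γ| * (y + 2 * (2 * σ / (2 * σ - 1)))) := by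
    refine cmp_pow_le _ _ _ _ h0 le_rfl ((cmp_log hSz hEs σ hσ 0 y (a * t)).trans ?_)
    have := cmp_norm_psum σ (by linarith) y (a * t)
    linarith
  have h3 : ‖eulS σ y z (a * t)‖ ^ γ ≤
      Real.exp (|γ| * (‖psumS σ y z (a * t)‖ + 2 * (2 * σ / (2 * σ - 1)))) :=
    cmp_pow_le _ _ _ _ h1 le_rfl (cmp_log hSz hEs σ hσ y z (a * t))
  have h4 : 1 ≤ Real.exp (|γ| * (‖psumS σ y z (a * t)‖ + 2 * (2 * σ / (2 * σ - 1)))) := by
    apply Real.one_le_exp
    positivity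
  have h5 : 0 ≤ ‖eulS σ y z (a * t)‖ ^ γ := by positivity
  have h6 : |‖eulS σ y z (a * t)‖ ^ γ - 1| ≤
      2 * Real.exp (|γ| * (2 * (2 * σ / (2 * σ - 1)))) *
        Real.exp (|γ| * ‖psumS σ y z (a * t)‖) := by
    have e1 : Real.exp (|γ| * (‖psumS σ y z (a * t)‖ + 2 * (2 * σ / (2 * σ - 1)))) =
        Real.exp (|γ| * (2 * (2 * σ / (2 * σ - 1)))) *
          Real.exp (|γ| * ‖psumS σ y z (a * t)‖) := by
      rw [← Real.exp_add]
      congr 1
      ring
    rw [mul_assoc, ← e1, abs_le]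
    constructor <;> linarith
  calc ‖eulS σ 0 y (a * t)‖ ^ γ * |‖eulS σ y z (a * t)‖ ^ γ - 1|
      ≤ Real.exp (|γ| * (y + 2 * (2 * σ / (2 * σ - 1)))) *
        (2 * Real.exp (|γ| * (2 * (2 * σ / (2 * σ - 1)))) *
        Real.exp (|γ| * ‖psumS σ y z (a * t)‖)) :=
        mul_le_mul h2 h6 (abs_nonneg _) (Real.exp_pos _).le
    _ = _ := by ring

theorem cmp_cont_gm (hEs : S_Es) (σ : ℝ) (hσ : 1 / 2 < σ) (a γ : ℝ) (y : ℕ) (T : ℝ) :
    Continuous fun t => fw t * gm σ a γ y T t := by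
  refine fin_fw_cont.mul ?_
  unfold gm
  have h1 : ∀ y z : ℕ, Continuous fun t : ℝ => ‖eulS σ y z (a * t)‖ ^ γ := fun y z =>
    (cmp_cont_mul (cmp_cont_eul σ y z) a).norm.rpow_const fun t =>
      Or.inl (norm_ne_zero_iff.2 (hEs σ y z (a * t) hσ.le).1)
  exact (h1 0 y).mul ((h1 y (zT σ T)).sub continuous_const).abs

theorem cmp_gm_nonneg (σ a γ : ℝ) (y : ℕ) (T t : ℝ) : 0 ≤ fw t * gm σ a γ y T t := by
  refine mul_nonneg (fin_fw_nonneg t) ?_
  unfold gm
  positivity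

theorem cmp_meas_Gz (σ a T : ℝ) : MeasurableSet (Gz σ a T) := by
  have h1 : Gz σ a T = Set.Icc T (2 * T) ∩
      {t | ‖psumS σ 0 (zT σ T) (a * t)‖ ≤ 2 * Real.log T ^ (1 - σ / 2)} := rfl
  rw [h1]
  refine measurableSet_Icc.inter (IsClosed.measurableSet ?_)
  exact isClosed_le (cmp_cont_mul (cmp_cont_psum σ 0 (zT σ T)) a).norm continuous_const

theorem cmp_meas_bigF (σ a kap : ℝ) (y : ℕ) (T : ℝ) : MeasurableSet (bigF σ a kap y T) := by
  have h1 : bigF σ a kap y T = Gz σ a T ∩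
      ({t | kap * Real.log (Real.log T) < ‖psumS σ y (y1 σ T) (a * t)‖} ∪
        {t | Real.log (Real.log T) ^ (-(1 / 4) : ℝ) <
          ‖psumS σ (y1 σ T) (zT σ T) (a * t)‖}) := rfl
  rw [h1]
  refine (cmp_meas_Gz σ a T).inter (MeasurableSet.union ?_ ?_)
  · exact (isOpen_lt continuous_const
      (cmp_cont_mul (cmp_cont_psum σ y (y1 σ T)) a).norm).measurableSet
  · exact (isOpen_lt continuous_const
      (cmp_cont_mul (cmp_cont_psum σ (y1 σ T) (zT σ T)) a).norm).measurableSet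

theorem pCmp (hSz : S_Sz) (hEs : S_Es) (hFt : S_Ft) (hMd : S_Md) (hGd : S_Gd) : S_Cmp := by
  intro σ a γ hσ hσ1 ha
  obtain ⟨kap, C1, hkap, hC1, hM⟩ := hMd σ a γ hσ hσ1 ha
  obtain ⟨δ, _, hG⟩ := hGd σ a hσ hσ1 ha
  refine ⟨C1 + 1, by linarith, fun y hy => ?_⟩
  have hy0 : (0 : ℝ) < y := by exact_mod_cast hy
  set Cy : ℝ := Real.exp (|γ| * (y + 2 * (2 * σ / (2 * σ - 1)))) *
        (2 * Real.exp (|γ| * (2 * (2 * σ / (2 * σ - 1))))) with hCy
  have hCy0 : 0 < Cy := by positivity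
  set ε : ℝ := (y : ℝ) ^ (-(2 * σ - 1) / 4) / Cy with hε
  have hε0 : 0 < ε := by positivity
  have hF := (hFt σ a |γ| kap hσ hσ1 ha (abs_nonneg _) hkap y).eventually (gt_mem_nhds hε0)
  filter_upwards [hM y hy, hG, hF, fin_fn_pos] with T h1 h2 h3 h4
  have hint : ∀ s : Set ℝ, s ⊆ Set.Icc T (2 * T) → ∀ f : ℝ → ℝ, Continuous f →
      IntegrableOn f s := fun s hs f hf => (hf.integrableOn_Icc).mono_set hs
  have hGz : Gz σ a T ⊆ Set.Icc T (2 * T) := fun t ht => ht.1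
  have hFG : bigF σ a kap y T ⊆ Gz σ a T := fun t ht => ht.1
  have hcont := cmp_cont_gm hEs σ hσ a γ y T
  have hFmeas := cmp_meas_bigF σ a kap y T
  -- the integral over the good set
  have e1 : ∫ t in good σ a T, fw t * gm σ a γ y T t ≤ ∫ t in Gz σ a T, fw t * gm σ a γ y T t :=
    setIntegral_mono_set (hint _ hGz _ hcont)
      (Eventually.of_forall fun t => cmp_gm_nonneg σ a γ y T t)
      (HasSubset.Subset.eventuallyLE h2.2.2.1)
  have e2 : ∫ t in Gz σ a T, fw t * gm σ a γ y T t =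
      (∫ t in Gz σ a T \ bigF σ a kap y T, fw t * gm σ a γ y T t) +
        ∫ t in bigF σ a kap y T, fw t * gm σ a γ y T t := by
    rw [← setIntegral_union Set.disjoint_sdiff_left hFmeas
      (hint _ (Set.diff_subset.trans hGz) _ hcont) (hint _ (hFG.trans hGz) _ hcont),
      Set.sdiff_union_of_subset hFG]
  have hcexp : Continuous fun t => fw t * Real.exp (|γ| * ‖psumS σ y (zT σ T) (a * t)‖) :=
    fin_fw_cont.mul (Real.continuous_exp.comp
      (continuous_const.mul (cmp_cont_mul (cmp_cont_psum σ y (zT σ T)) a).norm))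
  have e3 : ∫ t in bigF σ a kap y T, fw t * gm σ a γ y T t ≤
      ∫ t in bigF σ a kap y T,
        Cy * (fw t * Real.exp (|γ| * ‖psumS σ y (zT σ T) (a * t)‖)) := by
    refine setIntegral_mono (hint _ (hFG.trans hGz) _ hcont)
      (hint _ (hFG.trans hGz) _ (continuous_const.mul hcexp)) fun t => ?_
    have := mul_le_mul_of_nonneg_left (cmp_point hSz hEs σ hσ a γ y T t) (fin_fw_nonneg t)
    refine this.trans (le_of_eq ?_)
    rw [← hCy]
    ring
  rw [integral_const_mul] at e3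
  have e4 : ∫ t in bigF σ a kap y T,
      fw t * Real.exp (|γ| * ‖psumS σ y (zT σ T) (a * t)‖) ≤ ε * fn T := by
    rw [div_lt_iff₀ h4] at h3
    exact h3.le
  have e5 : Cy * (ε * fn T) = (y : ℝ) ^ (-(2 * σ - 1) / 4) * fn T := by
    rw [hε]
    field_simp
  have e6 := mul_le_mul_of_nonneg_left e4 hCy0.le
  rw [e5] at e6
  calc ∫ t in good σ a T, fw t * gm σ a γ y T t
      ≤ C1 * (y : ℝ) ^ (-(2 * σ - 1) / 4) * fn T + (y : ℝ) ^ (-(2 * σ - 1) / 4) * fn T := by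
        rw [e2] at e1
        linarith
    _ = (C1 + 1) * (y : ℝ) ^ (-(2 * σ - 1) / 4) * fn T := by ring

end Pool.Agent.Lib.MP_aa9ae4_nt.S1
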