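import Pool.Agent.Lib.MP_aa9ae4_nt.S1.SpecG

/-!
MP_aa9ae4_nt, Theorem S: tail of the elementary symmetric polynomials (`S_Ej`).
-/

namespace Pool.Agent.Lib.MP_aa9ae4_nt.S1

open Finset MeasureTheory Filter Topology
open Complex (I)

/-- `‖1-v‖ ≤ exp(-Re v + ‖v‖^2/2)` -/
private theorem ej_one (v : ℂ) : ‖1 - v‖ ≤ Real.exp (-v.re + ‖v‖ ^ 2 / 2) := by
  have h1 : ‖1 - v‖ ^ 2 = 1 + (-(2 * v.re) + ‖v‖ ^ 2) := by
    rw [Complex.sq_norm, Complex.sq_norm, Complex.normSq_sub]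
    simp
    ring
  have h2 : ‖1 - v‖ ^ 2 ≤ (Real.exp (-v.re + ‖v‖ ^ 2 / 2)) ^ 2 := by
    rw [h1, ← Real.exp_nat_mul]
    have h3 := Real.add_one_le_exp (-(2 * v.re) + ‖v‖ ^ 2)
    have h4 : ((2 : ℕ) : ℝ) * (-v.re + ‖v‖ ^ 2 / 2) = -(2 * v.re) + ‖v‖ ^ 2 := by
      push_cast
      ring
    rw [h4]
    linarith
  exact (pow_le_pow_iff_left₀ (norm_nonneg _) (Real.exp_pos _).le (by norm_num)).1 h2

/-- the coefficient of `X^j` in `∏ (1 - x_p X)` -/
private noncomputable def ejC (s : Finset ℕ) (x : ℕ → ℂ) (j : ℕ) : ℂ :=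
  ∑ D ∈ s.powersetCard j, ∏ p ∈ D, (-x p)

private theorem ej_expand (s : Finset ℕ) (x : ℕ → ℂ) (X : ℂ) :
    ∏ p ∈ s, (1 - x p * X) = ∑ j ∈ range (s.card + 1), ejC s x j * X ^ j := by
  have h1 : ∏ p ∈ s, (1 - x p * X) = ∑ D ∈ s.powerset, ∏ p ∈ D, (-x p * X) := by
    rw [← Finset.prod_one_add]
    refine Finset.prod_congr rfl fun p _ => by ring
  rw [h1, Finset.sum_powerset]
  refine Finset.sum_congr rfl fun j _ => ?_
  rw [ejC, Finset.sum_mul]
  refine Finset.sum_congr rfl fun D hD => ?_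
  rw [Finset.prod_mul_distrib, Finset.prod_const, (Finset.mem_powersetCard.1 hD).2]

private theorem ej_bound (s : Finset ℕ) (x : ℕ → ℂ) (R : ℝ) (hR : 0 ≤ R) (X : ℂ)
    (hX : ‖X‖ = R) : ‖∏ p ∈ s, (1 - x p * X)‖ ≤
      Real.exp (R * ‖∑ p ∈ s, x p‖ + R ^ 2 * ∑ p ∈ s, ‖x p‖ ^ 2) := by
  rw [norm_prod]
  calc ∏ p ∈ s, ‖1 - x p * X‖ ≤
        ∏ p ∈ s, Real.exp (-(x p * X).re + ‖x p * X‖ ^ 2 / 2) :=
        Finset.prod_le_prod (fun _ _ => norm_nonneg _) (fun p _ => ej_one _)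
    _ = Real.exp (-((∑ p ∈ s, x p) * X).re + R ^ 2 * (∑ p ∈ s, ‖x p‖ ^ 2) / 2) := by
        rw [← Real.exp_sum]
        congr 1
        rw [Finset.sum_add_distrib, Finset.sum_neg_distrib, Finset.sum_mul, Complex.re_sum,
          Finset.mul_sum, Finset.sum_div]
        congr 1
        refine Finset.sum_congr rfl fun p _ => ?_
        rw [norm_mul, hX]
        ring
    _ ≤ _ := by
        refine Real.exp_le_exp.2 ?_
        have h1 : |((∑ p ∈ s, x p) * X).re| ≤ R * ‖∑ p ∈ s, x p‖ := by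
          refine (Complex.abs_re_le_norm _).trans ?_
          rw [norm_mul, hX, mul_comm]
        have h2 := (abs_le.1 h1).1
        have h3 : 0 ≤ R ^ 2 * ∑ p ∈ s, ‖x p‖ ^ 2 :=
          mul_nonneg (sq_nonneg _) (Finset.sum_nonneg fun _ _ => sq_nonneg _)
        linarith

/-- orthogonality of the roots of unity -/
private theorem ej_orth (n : ℕ) (hn : 0 < n) (c : ℕ → ℂ) (j : ℕ) (hj : j < n) (ζ : ℂ)
    (hζ : IsPrimitiveRoot ζ n) :
    ∑ a ∈ range n, (∑ i ∈ range n, c i * (ζ ^ a) ^ i) * (ζ ^ a) ^ (n - j) = n * c j := by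
  have h1 : ∀ a ∈ range n, (∑ i ∈ range n, c i * (ζ ^ a) ^ i) * (ζ ^ a) ^ (n - j) =
      ∑ i ∈ range n, c i * (ζ ^ (i + (n - j))) ^ a := by
    intro a _
    rw [Finset.sum_mul]
    refine Finset.sum_congr rfl fun i _ => ?_
    rw [mul_assoc, ← pow_add, ← pow_mul, ← pow_mul, mul_comm a]
  rw [Finset.sum_congr rfl h1, Finset.sum_comm]
  rw [Finset.sum_eq_single_of_mem j (Finset.mem_range.2 hj)]
  · have h2 : j + (n - j) = n := by omega
    rw [← Finset.mul_sum, h2, hζ.pow_eq_one]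
    simp [mul_comm]
  · intro i hi hij
    rw [← Finset.mul_sum]
    have hi' := Finset.mem_range.1 hi
    have hne : ζ ^ (i + (n - j)) ≠ 1 := by
      intro h
      have h3 := (hζ.pow_eq_one_iff_dvd _).1 h
      obtain ⟨k, hk⟩ := h3
      have h4 : k = 1 := by
        have hk0 : k ≠ 0 := by
          rintro rfl
          omega
        have hk2 : k < 2 := by
          by_contra hcon
          have : 2 ≤ k := by omega
          have : n * 2 ≤ n * k := Nat.mul_le_mul_left n this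
          omega
        omega
      subst h4
      omega
    have h5 : (ζ ^ (i + (n - j))) ^ n = 1 := by
      rw [← pow_mul, mul_comm, pow_mul, hζ.pow_eq_one, one_pow]
    have h6 := geom_sum_eq hne n
    rw [h6, h5, sub_self, zero_div, mul_zero]

private theorem ej_coeff (s : Finset ℕ) (x : ℕ → ℂ) (R : ℝ) (hR : 0 < R) (j : ℕ)
    (hj : j < s.card + 1) : ‖ejC s x j‖ ≤ (R ^ j)⁻¹ *
      Real.exp (R * ‖∑ p ∈ s, x p‖ + R ^ 2 * ∑ p ∈ s, ‖x p‖ ^ 2) := by
  set n := s.card + 1 with hn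
  set M := Real.exp (R * ‖∑ p ∈ s, x p‖ + R ^ 2 * ∑ p ∈ s, ‖x p‖ ^ 2) with hM
  have hn0 : n ≠ 0 := by omega
  have hζ : IsPrimitiveRoot (Complex.exp (2 * Real.pi * I / n)) n := Complex.isPrimitiveRoot_exp n hn0
  set ζ := Complex.exp (2 * Real.pi * I / n) with hζdef
  have hnorm : ‖ζ‖ = 1 := hζ.norm'_eq_one hn0
  have h1 := ej_orth n (by omega) (fun i => ejC s x i * (R : ℂ) ^ i) j hj ζ hζ
  have h2 : ∀ a ∈ range n, (∑ i ∈ range n, ejC s x i * (R : ℂ) ^ i * (ζ ^ a) ^ i) =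
      ∏ p ∈ s, (1 - x p * (R * ζ ^ a)) := by
    intro a _
    rw [ej_expand, ← hn]
    refine Finset.sum_congr rfl fun i _ => ?_
    rw [mul_pow, mul_assoc]
  have h3 : ‖(n : ℂ) * (ejC s x j * (R : ℂ) ^ j)‖ ≤ n * M := by
    rw [← h1]
    refine (norm_sum_le _ _).trans ?_
    have h4 : ∀ a ∈ range n, ‖(∑ i ∈ range n, ejC s x i * (R : ℂ) ^ i * (ζ ^ a) ^ i) *
        (ζ ^ a) ^ (n - j)‖ ≤ M := by
      intro a ha
      rw [h2 a ha, norm_mul, norm_pow, norm_pow, hnorm, one_pow, one_pow, mul_one]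
      refine ej_bound s x R hR.le _ ?_
      rw [norm_mul, norm_pow, hnorm, one_pow, mul_one, Complex.norm_real, Real.norm_eq_abs,
        abs_of_pos hR]
    refine (Finset.sum_le_sum h4).trans ?_
    simp
  rw [norm_mul, norm_mul, Complex.norm_natCast, norm_pow, Complex.norm_real, Real.norm_eq_abs,
    abs_of_pos hR] at h3
  have hnpos : (0 : ℝ) < n := by positivity
  have h5 := le_of_mul_le_mul_left h3 hnpos
  rw [← div_eq_inv_mul, le_div_iff₀ (by positivity)]
  exact h5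

private theorem ej_geom (R : ℝ) (hR : 2 ≤ R) (J n : ℕ) :
    ∑ j ∈ range n, (if J < j then (R ^ j)⁻¹ else 0) ≤ (R ^ J)⁻¹ := by
  have hR0 : 0 < R := by linarith
  have key : ∀ n : ℕ, ∑ j ∈ range n, (if J < j then (R ^ j)⁻¹ else 0) +
      (if J < n then (R ^ (n - 1))⁻¹ else (R ^ J)⁻¹) ≤ (R ^ J)⁻¹ := by
    intro n
    induction n with
    | zero => simp
    | succ n ih =>
      rw [Finset.sum_range_succ]
      rcases lt_trichotomy J n with h | h | h
      · rw [if_pos h] at ih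
        rw [if_pos h, if_pos (by omega), Nat.add_sub_cancel]
        have h1 : (R ^ n)⁻¹ + (R ^ n)⁻¹ ≤ (R ^ (n - 1))⁻¹ := by
          obtain ⟨m, rfl⟩ : ∃ m, n = m + 1 := ⟨n - 1, by omega⟩
          rw [Nat.add_sub_cancel, pow_succ, mul_inv]
          have h2 : R⁻¹ ≤ 1 / 2 := by
            rw [one_div]
            exact inv_anti₀ (by norm_num) hR
          have h3 : 0 < (R ^ m)⁻¹ := by positivity
          nlinarith
        linarith
      · subst h
        rw [if_neg (lt_irrefl _)] at ih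
        rw [if_neg (lt_irrefl _), if_pos (by omega), Nat.add_sub_cancel]
        linarith
      · rw [if_neg (by omega)] at ih
        rw [if_neg (by omega), if_neg (by omega)]
        linarith
  refine le_trans ?_ (key n)
  have : 0 ≤ (if J < n then (R ^ (n - 1))⁻¹ else (R ^ J)⁻¹) := by
    split_ifs <;> positivity
  linarith

theorem pEj : S_Ej := by
  intro s x R J hR
  have hR0 : 0 < R := by linarith
  set M := Real.exp (R * ‖∑ p ∈ s, x p‖ + R ^ 2 * ∑ p ∈ s, ‖x p‖ ^ 2) with hM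
  have h1 : ∏ p ∈ s, (1 - x p) = ∑ j ∈ range (s.card + 1), ejC s x j := by
    have := ej_expand s x 1
    simpa using this
  have h2 : ∑ D ∈ s.powerset.filter (fun D => D.card ≤ J), ∏ p ∈ D, (-x p) =
      ∑ j ∈ range (s.card + 1), (if j ≤ J then ejC s x j else 0) := by
    rw [Finset.sum_filter, Finset.sum_powerset]
    refine Finset.sum_congr rfl fun j _ => ?_
    rw [ejC]
    by_cases hj : j ≤ J
    · rw [if_pos hj]
      refine Finset.sum_congr rfl fun D hD => ?_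
      rw [(Finset.mem_powersetCard.1 hD).2, if_pos hj]
    · rw [if_neg hj]
      refine Finset.sum_eq_zero fun D hD => ?_
      rw [(Finset.mem_powersetCard.1 hD).2, if_neg hj]
  rw [h1, h2, ← Finset.sum_sub_distrib]
  have h3 : ∀ j ∈ range (s.card + 1), ‖ejC s x j - (if j ≤ J then ejC s x j else 0)‖ ≤
      (if J < j then (R ^ j)⁻¹ else 0) * M := by
    intro j hj
    by_cases h : j ≤ J
    · rw [if_pos h, if_neg (by omega), sub_self, norm_zero, zero_mul]
    · rw [if_neg h, if_pos (by omega), sub_zero]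
      exact ej_coeff s x R hR0 j (Finset.mem_range.1 hj)
  refine (norm_sum_le _ _).trans ((Finset.sum_le_sum h3).trans ?_)
  rw [← Finset.sum_mul]
  exact mul_le_mul_of_nonneg_right (ej_geom R hR J _) (Real.exp_pos _).le

end Pool.Agent.Lib.MP_aa9ae4_nt.S1
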