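import Pool.Agent.Lib.MP_aa9ae4_nt.S1.SpecG

/-!
MP_aa9ae4_nt, Theorem S: size of the Euler product (`S_Es`).
-/

namespace Pool.Agent.Lib.MP_aa9ae4_nt.S1

open Finset MeasureTheory Filter Topology
open Complex (I)

private theorem es_norm (σ : ℝ) (p : ℕ) (hp : 0 < p) (u : ℝ) :
    ‖pw σ p u‖ = (p : ℝ) ^ (-σ) := by
  unfold pw
  rw [Complex.norm_natCast_cpow_of_pos hp]
  congr 1
  simp

private theorem es_one (σ : ℝ) (p : ℕ) (hp : 2 ≤ p) (u : ℝ) (hσ : 1 / 2 ≤ σ) :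
    1 - pw σ p u ≠ 0 ∧
      |Real.log ‖1 - pw σ p u‖ + (pw σ p u).re| ≤ 2 * (p : ℝ) ^ (-(2 * σ)) := by
  set x := pw σ p u with hx
  have hp0 : (0 : ℝ) < p := by
    have : 0 < p := by omega
    exact_mod_cast this
  have hp2 : (2 : ℝ) ≤ p := by exact_mod_cast hp
  have hn : ‖x‖ = (p : ℝ) ^ (-σ) := es_norm σ p (by omega) u
  have hsq : ‖x‖ ^ 2 = (p : ℝ) ^ (-(2 * σ)) := by
    rw [hn, ← Real.rpow_natCast, ← Real.rpow_mul hp0.le]
    congr 1
    push_cast
    ring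
  have hle : ‖x‖ ^ 2 ≤ 1 / 2 := by
    rw [hsq]
    calc (p : ℝ) ^ (-(2 * σ)) ≤ (p : ℝ) ^ (-1 : ℝ) :=
          Real.rpow_le_rpow_of_exponent_le (by linarith) (by linarith)
      _ ≤ (2 : ℝ) ^ (-1 : ℝ) := Real.rpow_le_rpow_of_nonpos (by norm_num) hp2 (by norm_num)
      _ = 1 / 2 := by rw [Real.rpow_neg_one]; norm_num
  have hle2 : ‖x‖ ≤ 3 / 4 := by
    have h0 := norm_nonneg x
    nlinarith
  have hne : 1 - x ≠ 0 := by
    intro h
    have : x = 1 := by
      rw [sub_eq_zero] at h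
      exact h.symm
    rw [this, norm_one] at hle2
    norm_num at hle2
  refine ⟨hne, ?_⟩
  have h1 := Complex.norm_log_one_add_sub_self_le (z := -x) (by rw [norm_neg]; linarith)
  have h2 : Real.log ‖1 - x‖ + x.re = (Complex.log (1 + -x) - -x).re := by
    rw [Complex.sub_re, Complex.log_re, Complex.neg_re]
    rw [← sub_eq_add_neg]
    ring
  rw [h2, ← hsq]
  refine (Complex.abs_re_le_norm _).trans (h1.trans ?_)
  rw [norm_neg]
  have h3 : (1 - ‖x‖)⁻¹ ≤ 4 := by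
    rw [inv_le_comm₀ (by linarith) (by norm_num)]
    linarith
  have h4 : 0 ≤ ‖x‖ ^ 2 := by positivity
  nlinarith

/-- **Size of the Euler product.** -/
theorem pEs : S_Es := by
  intro σ y z u hσ
  have hmem : ∀ p ∈ prs y z, 2 ≤ p := by
    intro p hp
    unfold prs at hp
    exact (mem_filter.1 hp).2.two_le
  have hne : ∀ p ∈ prs y z, 1 - pw σ p u ≠ 0 := fun p hp => (es_one σ p (hmem p hp) u hσ).1
  refine ⟨?_, ?_⟩
  · unfold eulS
    exact prod_ne_zero_iff.2 hne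
  · unfold eulS psumS tail
    rw [norm_prod, Real.log_prod (fun p hp => norm_ne_zero_iff.2 (hne p hp)), Complex.re_sum,
      ← sum_add_distrib, mul_sum]
    refine (abs_sum_le_sum_abs _ _).trans ?_
    exact sum_le_sum fun p hp => (es_one σ p (hmem p hp) u hσ).2

end Pool.Agent.Lib.MP_aa9ae4_nt.S1
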