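import Pool.Agent.Lib.MP_aa9ae4_nt.S1.SpecG

/-! MP_aa9ae4_nt, Theorem S, part G: expansion of the mollified sum. -/

namespace Pool.Agent.Lib.MP_aa9ae4_nt.S1

open Finset MeasureTheory Filter Topology
open Complex (I)

/-- the divisors which enter the coefficient of `k` -/
private noncomputable def exDiv (w z J N k : ℕ) : Finset ℕ :=
  k.divisors.filter (fun d => d ∈ dset w z J ∧ k / d ≤ N)

/-- the coefficient of `k` -/
private noncomputable def exC (w z J N k : ℕ) : ℂ :=
  ∑ d ∈ exDiv w z J N k, ((ArithmeticFunction.moebius d : ℤ) : ℂ)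

private theorem ex_mem_dset {w z J d : ℕ} :
    d ∈ dset w z J ↔ d ∣ primorial z ∧ (d.primeFactors.filter fun p => w < p).card ≤ J := by
  unfold dset
  rw [Finset.mem_filter, Nat.mem_divisors]
  constructor
  · rintro ⟨⟨h1, -⟩, h2⟩
    exact ⟨h1, h2⟩
  · rintro ⟨h1, h2⟩
    exact ⟨⟨h1, (primorial_pos z).ne'⟩, h2⟩

private theorem ex_norm_le (w z J N k : ℕ) : ‖exC w z J N k‖ ≤ (exDiv w z J N k).card := by
  calc ‖exC w z J N k‖ ≤ ∑ d ∈ exDiv w z J N k, ‖((ArithmeticFunction.moebius d : ℤ) : ℂ)‖ :=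
        norm_sum_le _ _
    _ ≤ ∑ d ∈ exDiv w z J N k, (1 : ℝ) := by
        refine Finset.sum_le_sum fun d _ => ?_
        have h1 : |ArithmeticFunction.moebius d| ≤ 1 := ArithmeticFunction.abs_moebius_le_one
        rw [Complex.norm_intCast]
        exact_mod_cast h1
    _ = ((exDiv w z J N k).card : ℝ) := by simp

private theorem ex_card_le (w z J N k : ℕ) :
    (exDiv w z J N k).card ≤ 2 ^ (k.primeFactors.filter fun p => p ≤ z).card := by
  classical
  rw [← Finset.card_powerset]
  refine Finset.card_le_card_of_injOn (fun d => d.primeFactors) ?_ ?_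
  · intro d hd
    rw [Finset.mem_coe] at hd ⊢
    simp only [exDiv, Finset.mem_filter, Nat.mem_divisors, ex_mem_dset] at hd
    obtain ⟨⟨h1, h2⟩, ⟨h3, -⟩, -⟩ := hd
    rw [Finset.mem_powerset]
    intro p hp
    have hpp := Nat.prime_of_mem_primeFactors hp
    have hpd := Nat.dvd_of_mem_primeFactors hp
    rw [Finset.mem_filter, Nat.mem_primeFactors]
    exact ⟨⟨hpp, hpd.trans h1, h2⟩, (Nat.Prime.dvd_primorial_iff hpp).mp (hpd.trans h3)⟩
  · intro d hd e he hde
    rw [Finset.mem_coe] at hd he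
    simp only [exDiv, Finset.mem_filter, Nat.mem_divisors, ex_mem_dset] at hd he
    have h1 : Squarefree d := (squarefree_primorial z).squarefree_of_dvd hd.2.1.1
    have h2 : Squarefree e := (squarefree_primorial z).squarefree_of_dvd he.2.1.1
    rw [← Nat.prod_primeFactors_of_squarefree h1, ← Nat.prod_primeFactors_of_squarefree h2]
    have h3 : d.primeFactors = e.primeFactors := hde
    rw [h3]

private theorem ex_sum_moebius (k : ℕ) :
    ∑ d ∈ k.divisors, ((ArithmeticFunction.moebius d : ℤ) : ℂ) = if k = 1 then 1 else 0 := by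
  have h1 : ∑ d ∈ k.divisors, ArithmeticFunction.moebius d = if k = 1 then 1 else 0 := by
    rw [← ArithmeticFunction.coe_mul_zeta_apply, ArithmeticFunction.moebius_mul_coe_zeta,
      ArithmeticFunction.one_apply]
  have h2 := congrArg (fun n : ℤ => (n : ℂ)) h1
  simp only [Int.cast_sum] at h2
  rw [h2]
  split_ifs <;> simp

private theorem ex_case1 (w z J N k : ℕ) (hk : k ≠ 0) (hkN : k ≤ N)
    (hJ : (k.primeFactors.filter fun p => w < p ∧ p ≤ z).card ≤ J) :
    exC w z J N k = if Nat.gcd k (primorial z) = 1 then 1 else 0 := by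
  have h1 : exDiv w z J N k = (Nat.gcd k (primorial z)).divisors := by
    ext d
    simp only [exDiv, Finset.mem_filter, Nat.mem_divisors, Nat.dvd_gcd_iff, ne_eq,
      Nat.gcd_eq_zero_iff, not_and, ex_mem_dset]
    constructor
    · rintro ⟨⟨h1, h2⟩, ⟨h3, h4⟩, h5⟩
      exact ⟨⟨h1, h3⟩, fun h => absurd h hk⟩
    · rintro ⟨⟨h1, h2⟩, h3⟩
      refine ⟨⟨h1, hk⟩, ⟨h2, le_trans (Finset.card_le_card ?_) hJ⟩,
        (Nat.div_le_self k d).trans hkN⟩
      intro p hp
      rw [Finset.mem_filter] at hp ⊢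
      have hpp := Nat.prime_of_mem_primeFactors hp.1
      have hpd := Nat.dvd_of_mem_primeFactors hp.1
      rw [Nat.mem_primeFactors]
      exact ⟨⟨hpp, hpd.trans h1, hk⟩, hp.2,
        (Nat.Prime.dvd_primorial_iff hpp).mp (hpd.trans h2)⟩
  rw [exC, h1, ex_sum_moebius]

private theorem ex_prod (w z J N D : ℕ) (hD : ∀ d ∈ dset w z J, d ≤ D) (σ u : ℝ) :
    zsum ((σ : ℂ) + (u : ℂ) * I) N * mollS σ w z J u =
    ∑ k ∈ Icc 1 (N * D), exC w z J N k * pw σ k u := by
  unfold zsum mollS
  rw [Finset.sum_mul_sum]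
  simp only [exC, Finset.sum_mul]
  rw [Finset.sum_sigma', Finset.sum_sigma']
  refine Finset.sum_nbij' (fun x => ⟨x.1 * x.2, x.2⟩) (fun x => ⟨x.1 / x.2, x.2⟩) ?_ ?_ ?_ ?_ ?_
  · rintro ⟨n, d⟩ hx
    simp only [Finset.mem_sigma, Finset.mem_Icc] at hx
    obtain ⟨⟨h1, h2⟩, h3⟩ := hx
    have h4 := ex_mem_dset.mp h3
    have hd : 0 < d := Nat.pos_of_dvd_of_pos h4.1 (primorial_pos z)
    simp only [Finset.mem_sigma, Finset.mem_Icc, exDiv, Finset.mem_filter, Nat.mem_divisors]
    refine ⟨⟨Nat.mul_pos h1 hd, Nat.mul_le_mul h2 (hD d h3)⟩, ⟨Dvd.intro_left n rfl,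
      (Nat.mul_pos h1 hd).ne'⟩, h3, ?_⟩
    rw [Nat.mul_div_cancel _ hd]
    exact h2
  · rintro ⟨k, d⟩ hx
    simp only [Finset.mem_sigma, Finset.mem_Icc, exDiv, Finset.mem_filter,
      Nat.mem_divisors] at hx
    obtain ⟨⟨h1, h2⟩, ⟨h3, h4⟩, h5, h7⟩ := hx
    have h6 := ex_mem_dset.mp h5
    have hd : 0 < d := Nat.pos_of_dvd_of_pos h6.1 (primorial_pos z)
    simp only [Finset.mem_sigma, Finset.mem_Icc]
    exact ⟨⟨Nat.div_pos (Nat.le_of_dvd h1 h3) hd, h7⟩, h5⟩
  · rintro ⟨n, d⟩ hx
    simp only [Finset.mem_sigma, Finset.mem_Icc] at hx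
    have hd : 0 < d := Nat.pos_of_dvd_of_pos (ex_mem_dset.mp hx.2).1 (primorial_pos z)
    simp [Nat.mul_div_cancel _ hd]
  · rintro ⟨k, d⟩ hx
    simp only [Finset.mem_sigma, Finset.mem_Icc, exDiv, Finset.mem_filter,
      Nat.mem_divisors] at hx
    simp [Nat.div_mul_cancel hx.2.1.1]
  · rintro ⟨n, d⟩ _
    simp only [pw]
    rw [Nat.cast_mul, Complex.natCast_mul_natCast_cpow]
    ring

theorem pEx : S_Ex := by
  classical
  intro w z J N D hwz hz hzN hD
  refine ⟨fun k => if Nat.gcd k (primorial z) = 1 then 1 else 0,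
    fun k => if J < (k.primeFactors.filter fun p => w < p ∧ p ≤ z).card then exC w z J N k else 0,
    exC w z J N, ?_, ?_, ?_, ?_, ?_, ?_⟩
  · intro k
    simp only
    split_ifs <;> simp
  · intro k hk p hp hpk
    by_contra hcon
    have h1 : Nat.gcd k (primorial z) = 1 := by
      by_contra h
      simp [h] at hk
    have h2 : p ∣ Nat.gcd k (primorial z) :=
      Nat.dvd_gcd hpk ((Nat.Prime.dvd_primorial_iff hp).mpr (by omega))
    rw [h1] at h2
    exact hp.one_lt.ne' (Nat.dvd_one.mp h2)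
  · intro k _
    simp only
    split_ifs
    · refine (ex_norm_le w z J N k).trans ?_
      exact_mod_cast ex_card_le w z J N k
    · simp
  · intro k _ hk
    by_contra hcon
    simp [hcon] at hk
  · intro k
    refine (ex_norm_le w z J N k).trans ?_
    exact_mod_cast Finset.card_le_card (Finset.filter_subset _ _)
  · intro σ u
    rw [ex_prod w z J N D hD]
    have hD1 : 1 ≤ D := hD 1 (ex_mem_dset.mpr ⟨one_dvd _, by simp⟩)
    have hND : N ≤ N * D := Nat.le_mul_of_pos_right N hD1
    have hsplit : Icc 1 (N * D) = Icc 1 N ∪ Ioc N (N * D) := by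
      ext k
      simp only [Finset.mem_Icc, Finset.mem_union, Finset.mem_Ioc]
      omega
    rw [hsplit, Finset.sum_union (by
      rw [Finset.disjoint_left]
      intro k
      simp only [Finset.mem_Icc, Finset.mem_Ioc]
      omega)]
    congr 1
    have hcoef : ∀ k ∈ Icc 1 N, exC w z J N k * pw σ k u =
        (if Nat.gcd k (primorial z) = 1 then (1 : ℂ) else 0) * pw σ k u +
        (if J < (k.primeFactors.filter fun p => w < p ∧ p ≤ z).card then exC w z J N k else 0) *
          pw σ k u := by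
      intro k hk
      rw [Finset.mem_Icc] at hk
      by_cases hJ : J < (k.primeFactors.filter fun p => w < p ∧ p ≤ z).card
      · have hg : Nat.gcd k (primorial z) ≠ 1 := by
          intro h
          obtain ⟨p, hp⟩ := Finset.card_pos.mp (lt_of_le_of_lt (Nat.zero_le J) hJ)
          rw [Finset.mem_filter] at hp
          have hpp := Nat.prime_of_mem_primeFactors hp.1
          have h2 : p ∣ Nat.gcd k (primorial z) := Nat.dvd_gcd (Nat.dvd_of_mem_primeFactors hp.1)
            ((Nat.Prime.dvd_primorial_iff hpp).mpr hp.2.2)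
          rw [h] at h2
          exact hpp.one_lt.ne' (Nat.dvd_one.mp h2)
        rw [if_neg hg, if_pos hJ]
        ring
      · rw [if_neg hJ, ex_case1 w z J N k (by omega) hk.2 (not_lt.mp hJ)]
        ring
    rw [Finset.sum_congr rfl hcoef, Finset.sum_add_distrib]
    congr 1
    have hsplit2 : Icc 1 N = insert 1 (Ioc 1 z ∪ Ioc z N) := by
      ext k
      simp only [Finset.mem_Icc, Finset.mem_insert, Finset.mem_union, Finset.mem_Ioc]
      omega
    rw [hsplit2, Finset.sum_insert (by simp; omega), Finset.sum_union (by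
      rw [Finset.disjoint_left]
      intro k
      simp only [Finset.mem_Ioc]
      omega)]
    have h2 : ∑ k ∈ Ioc 1 z, (if Nat.gcd k (primorial z) = 1 then (1 : ℂ) else 0) * pw σ k u =
        0 := by
      refine Finset.sum_eq_zero fun k hk => ?_
      rw [Finset.mem_Ioc] at hk
      have h3 : Nat.gcd k (primorial z) ≠ 1 := by
        intro h
        have hp := Nat.minFac_prime (n := k) (by omega)
        have h4 : k.minFac ∣ Nat.gcd k (primorial z) :=
          Nat.dvd_gcd (Nat.minFac_dvd k) ((Nat.Prime.dvd_primorial_iff hp).mpr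
            ((Nat.minFac_le (by omega)).trans hk.2))
        rw [h] at h4
        exact hp.one_lt.ne' (Nat.dvd_one.mp h4)
      simp [h3]
    rw [h2]
    simp [pw]

end Pool.Agent.Lib.MP_aa9ae4_nt.S1
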