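import Mathlib
import Pool.Agent.Lib.MP_aa9ae4_nt.S1.SpecM

/-!
MP_aa9ae4_nt, Theorem S. The final assembly.
-/

namespace Pool.Agent.Lib.MP_aa9ae4_nt.S1

open Finset MeasureTheory Filter Topology
open Complex (I)

private lemma pfin_pt (w y β V : ℝ) (hy : 0 ≤ y) :
    w ^ 2 * min (y ^ (-(2 * β))) V ≤ (w / y ^ β) ^ 2 := by
  rcases hy.lt_or_eq with h | h
  · have h1 : y ^ (-(2 * β)) = ((y ^ β) ^ 2)⁻¹ := by
      rw [Real.rpow_neg hy, mul_comm, Real.rpow_mul hy]
      norm_num
    rw [div_pow, div_eq_mul_inv, ← h1]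
    exact mul_le_mul_of_nonneg_left (min_le_left _ _) (sq_nonneg w)
  · subst h
    by_cases hb : β = 0
    · subst hb
      simp only [mul_zero, neg_zero, Real.rpow_zero, div_one]
      calc w ^ 2 * min 1 V ≤ w ^ 2 * 1 := mul_le_mul_of_nonneg_left (min_le_left _ _) (sq_nonneg w)
        _ = w ^ 2 := mul_one _
    · rw [Real.zero_rpow (show -(2 * β) ≠ 0 by simpa using hb)]
      calc w ^ 2 * min 0 V ≤ w ^ 2 * 0 := mul_le_mul_of_nonneg_left (min_le_left _ _) (sq_nonneg w)
        _ = 0 := mul_zero _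
        _ ≤ _ := sq_nonneg _

private lemma pfin_arg (σ a t : ℝ) : fzS σ a t = riemannZeta (σ + a * t * I) := by
  unfold fzS
  push_cast
  rfl

private lemma pfin_cont (σ a T : ℝ) (ha : 0 < a) (hT : 0 < T) :
    ContinuousOn (fun t => ‖fzS σ a t‖) (Set.Icc T (2 * T)) := by
  apply ContinuousOn.norm
  intro t ht
  have ht0 : 0 < t := lt_of_lt_of_le hT ht.1
  have h1 : ((σ : ℂ) + ((a * t : ℝ) : ℂ) * I) ≠ 1 := by
    intro h2
    have := congrArg Complex.im h2
    simp only [Complex.add_im, Complex.one_im, Complex.mul_im, Complex.ofReal_re, Complex.I_im,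
      Complex.ofReal_im, Complex.I_re] at this
    have h3 : a * t = 0 := by linarith
    exact (mul_pos ha ht0).ne' h3
  have h2 : ContinuousAt (fun t : ℝ => riemannZeta ((σ : ℂ) + ((a * t : ℝ) : ℂ) * I)) t := by
    have h3 : ContinuousAt (fun t : ℝ => (σ : ℂ) + ((a * t : ℝ) : ℂ) * I) t := by fun_prop
    exact ContinuousAt.comp (f := fun t : ℝ => (σ : ℂ) + ((a * t : ℝ) : ℂ) * I)
      (differentiableAt_riemannZeta h1).continuousAt h3
  exact h2.continuousWithinAt

private lemma pfin_int (σ a β T V : ℝ) (ha : 0 < a) (hT : 0 < T) (hV : 0 ≤ V) :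
    Integrable (fun t => fw t * min (‖fzS σ a t‖ ^ (-(2 * β))) V)
      (volume.restrict (Set.Icc T (2 * T))) := by
  have h1 : Integrable (fun t => fw t * V) (volume.restrict (Set.Icc T (2 * T))) :=
    (fin_fw_cont.mul continuous_const).continuousOn.integrableOn_compact isCompact_Icc
  apply h1.mono'
  · apply AEStronglyMeasurable.mul fin_fw_cont.aestronglyMeasurable
    have h2 : AEMeasurable (fun t => ‖fzS σ a t‖) (volume.restrict (Set.Icc T (2 * T))) :=
      ((pfin_cont σ a T ha hT).aestronglyMeasurable measurableSet_Icc).aemeasurable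
    exact ((h2.pow_const _).min aemeasurable_const).aestronglyMeasurable
  · refine Filter.Eventually.of_forall fun t => ?_
    have h3 : 0 ≤ min (‖fzS σ a t‖ ^ (-(2 * β))) V :=
      le_min (Real.rpow_nonneg (norm_nonneg _) _) hV
    rw [Real.norm_of_nonneg (mul_nonneg (fin_fw_nonneg t) h3)]
    exact mul_le_mul_of_nonneg_left (min_le_right _ _) (fin_fw_nonneg t)

theorem pFin (hLim : S_Lim) (hPos : S_Pos) (hTrc : S_Trc) : S_Fin := by
  intro σ a β hσ hσ1 ha
  obtain ⟨D, hD⟩ := hLim σ a (2 * β) hσ hσ1 ha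
  have hDp := hPos σ a (2 * β) D hσ hσ1 ha hD
  obtain ⟨δ, hδ, hT⟩ := hTrc σ a hσ hσ1 ha
  have key := hT (2 * β) D hD
  refine ⟨D, δ, hDp, hδ, ?_, ?_⟩
  · intro V hV hVT
    have h1 := key V hV hVT
    refine h1.congr fun T => ?_
    unfold fn fw
    congr 1
    apply intervalIntegral.integral_congr
    intro t _
    simp only [pfin_arg]
  · intro c hc
    have hlog : ∀ᶠ T : ℝ in atTop, Real.log T ≤ T ^ δ := by
      have h1 := (isLittleO_log_rpow_atTop hδ).bound (show (0 : ℝ) < 1 by norm_num)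
      filter_upwards [h1, eventually_ge_atTop (1 : ℝ)] with T hT1 hT2
      rw [one_mul, Real.norm_of_nonneg (Real.log_nonneg hT2),
        Real.norm_of_nonneg (Real.rpow_nonneg (by linarith) _)] at hT1
      exact hT1
    have h1 := key Real.log Real.tendsto_log_atTop hlog
    have h2 := h1.eventually (lt_mem_nhds hc)
    filter_upwards [h2, eventually_gt_atTop (1 : ℝ)] with T hcT hT1
    have hT0 : (0 : ℝ) < T := by linarith
    have hlp : 0 < Real.log T := Real.log_pos hT1
    have hfn : 0 < fn T := mul_pos hT0 hlp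
    rw [lt_div_iff₀ hfn] at hcT
    have h3 : (∫ t in T..(2 * T), fw t * min (‖fzS σ a t‖ ^ (-(2 * β))) (Real.log T)) =
        ∫ t in Set.Icc T (2 * T), fw t * min (‖fzS σ a t‖ ^ (-(2 * β))) (Real.log T) := by
      rw [intervalIntegral.integral_of_le (by linarith), integral_Icc_eq_integral_Ioc]
    have h4 := pfin_int σ a β T (Real.log T) ha hT0 hlp.le
    have h5 : 0 ≤ᵐ[volume.restrict (Set.Icc T (2 * T))]
        fun t => fw t * min (‖fzS σ a t‖ ^ (-(2 * β))) (Real.log T) :=
      Filter.Eventually.of_forall fun t => mul_nonneg (fin_fw_nonneg t)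
        (le_min (Real.rpow_nonneg (norm_nonneg _) _) hlp.le)
    calc ENNReal.ofReal (c * (T * Real.log T)) ≤ ENNReal.ofReal (∫ t in Set.Icc T (2 * T),
          fw t * min (‖fzS σ a t‖ ^ (-(2 * β))) (Real.log T)) := by
          apply ENNReal.ofReal_le_ofReal
          rw [← h3]
          exact hcT.le
      _ = ∫⁻ t in Set.Icc T (2 * T), ENNReal.ofReal
          (fw t * min (‖fzS σ a t‖ ^ (-(2 * β))) (Real.log T)) :=
          ofReal_integral_eq_lintegral_ofReal h4 h5
      _ ≤ _ := by
          apply lintegral_mono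
          intro t
          apply ENNReal.ofReal_le_ofReal
          rw [← pfin_arg]
          exact pfin_pt _ _ β _ (norm_nonneg _)

end Pool.Agent.Lib.MP_aa9ae4_nt.S1
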