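import Pool.Agent.Lib.MP_aa9ae4_nt.S1.SpecM

/-!
MP_aa9ae4_nt, Theorem S: the set of large prime sums is negligible (`S_Ft`).
-/

namespace Pool.Agent.Lib.MP_aa9ae4_nt.S1

open Finset MeasureTheory Filter Topology
open Complex (I)

private theorem ft_prs_pos {y z p : ℕ} (hp : p ∈ prs y z) : 0 < p := by
  unfold prs at hp
  exact (mem_filter.1 hp).2.pos

private theorem ft_psum_cont (σ a : ℝ) (y z : ℕ) :
    Continuous (fun t : ℝ => psumS σ y z (a * t)) := by
  unfold psumS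
  refine continuous_finsetSum _ fun p hp => ?_
  have hk0 : (p : ℂ) ≠ 0 := by
    have := ft_prs_pos hp
    exact_mod_cast (by omega : p ≠ 0)
  unfold pw
  refine Continuous.const_cpow ?_ (Or.inl hk0)
  fun_prop

private theorem ft_split (σ : ℝ) (w z : ℕ) (u : ℝ) (h : w ≤ z) :
    psumS σ 0 z u = psumS σ 0 w u + psumS σ w z u := by
  unfold psumS prs
  have h1 : Ioc 0 z = Ioc 0 w ∪ Ioc w z := by
    ext p
    simp only [mem_union, mem_Ioc]
    omega
  have h2 : Disjoint ((Ioc 0 w).filter Nat.Prime) ((Ioc w z).filter Nat.Prime) := by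
    rw [Finset.disjoint_left]
    intro p hp hp'
    have := (mem_Ioc.1 (mem_filter.1 hp).1).2
    have := (mem_Ioc.1 (mem_filter.1 hp').1).1
    omega
  rw [h1, filter_union, sum_union h2]

private theorem ft_small (σ : ℝ) (y : ℕ) (u : ℝ) (hσ : 0 < σ) : ‖psumS σ 0 y u‖ ≤ y := by
  unfold psumS
  refine (norm_sum_le _ _).trans ?_
  have h1 : ∀ p ∈ prs 0 y, ‖pw σ p u‖ ≤ 1 := by
    intro p hp
    have hp0 := ft_prs_pos hp
    unfold pw
    rw [Complex.norm_natCast_cpow_of_pos hp0]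
    have hre : (-((σ : ℂ) + (u : ℂ) * I)).re = -σ := by simp
    rw [hre]
    have hp1 : (1 : ℝ) ≤ p := by exact_mod_cast hp0
    exact Real.rpow_le_one_of_one_le_of_nonpos hp1 (by linarith)
  refine (sum_le_sum h1).trans ?_
  rw [sum_const, nsmul_eq_mul, mul_one]
  have h2 : (prs 0 y).card ≤ y := by
    unfold prs
    refine (card_filter_le _ _).trans ?_
    rw [Nat.card_Ioc, Nat.sub_zero]
  exact_mod_cast h2

/-- **The set of large prime sums is negligible.** -/
theorem pFt (hHx : S_Hx) (hHol : S_Hol) (hTla : S_Tla) (hTlb : S_Tlb) : S_Ft := by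
  intro σ a lam kap hσ hσ1 ha hlam hkap y
  obtain ⟨C₁, hC₁, hhx⟩ := hHx σ a (4 * lam) (1 - σ / 4) (2 * Bs σ) hσ ha (by positivity)
    (by linarith) (by linarith)
  obtain ⟨C₂, hC₂, hhol⟩ := hHol
  have hta := hTla σ a kap hσ hσ1 ha hkap
  have htb := hTlb σ a hσ hσ1 ha
  have hκ0 : 0 < 2 * σ - 1 := by linarith
  have hB : 1 ≤ Bs σ := by
    unfold Bs
    have h1 : (1 : ℝ) ≤ 20 / (2 * σ - 1) := by
      rw [le_div_iff₀ hκ0]
      linarith
    have h2 := h1.trans (Nat.le_ceil (20 / (2 * σ - 1)))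
    exact_mod_cast h2
  set C₃ : ℝ := C₂ * √(1 + C₁) with hC₃
  have hlim : Tendsto (fun T : ℝ => C₃ / Real.log T) atTop (𝓝 0) :=
    Real.tendsto_log_atTop.const_div_atTop C₃
  refine squeeze_zero' ?_ ?_ hlim
  · filter_upwards [fin_fn_pos] with T hT
    apply div_nonneg _ hT.le
    exact integral_nonneg fun t => mul_nonneg (fin_fw_nonneg t) (Real.exp_pos _).le
  have ev1 := ((tendsto_rpow_atTop (show 0 < 1 - σ / 2 by linarith)).comp
    Real.tendsto_log_atTop).eventually_ge_atTop (y : ℝ)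
  have ev2 := ((tendsto_rpow_atTop (show 0 < σ / 4 by linarith)).comp
    Real.tendsto_log_atTop).eventually_ge_atTop (3 : ℝ)
  filter_upwards [fin_fn_pos, hhx, hhol, hta, htb, ev1, ev2,
    Real.tendsto_log_atTop.eventually_ge_atTop (max 1 (y : ℝ)), eventually_gt_atTop (0 : ℝ)]
    with T hfn hx ho ta tb e1 e2 e3 hT0
  set L := Real.log T with hL
  simp only [Function.comp_apply, ← hL] at e1 e2
  have hL1 : 1 ≤ L := (le_max_left _ _).trans e3
  have hyL : (y : ℝ) ≤ L := (le_max_right _ _).trans e3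
  have hL0 : 0 < L := by linarith
  set z := zT σ T with hz
  have hzL : (z : ℝ) ≤ L ^ (2 * Bs σ) := by
    rw [hz]
    exact Nat.floor_le (by positivity)
  have hyz : y ≤ z := by
    rw [hz]
    apply Nat.le_floor
    refine hyL.trans ?_
    calc L = L ^ 1 := (pow_one L).symm
      _ ≤ L ^ (2 * Bs σ) := pow_le_pow_right₀ hL1 (by omega)
  set F := bigF σ a kap y T with hF
  set S : ℝ → ℂ := fun t => psumS σ y z (a * t) with hS
  have hScont : Continuous S := ft_psum_cont σ a y z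
  have hFsub : F ⊆ Set.Icc T (2 * T) := fun t ht => ht.1.1
  -- measurability
  have hFmeas : MeasurableSet F := by
    have hset : F = (Set.Icc T (2 * T) ∩ ((fun t : ℝ => ‖psumS σ 0 z (a * t)‖) ⁻¹'
        Set.Iic (2 * L ^ (1 - σ / 2)))) ∩
        (((fun t : ℝ => ‖psumS σ y (y1 σ T) (a * t)‖) ⁻¹' Set.Ioi (kap * Real.log L)) ∪
          ((fun t : ℝ => ‖psumS σ (y1 σ T) z (a * t)‖) ⁻¹'
            Set.Ioi (Real.log L ^ (-(1 / 4) : ℝ)))) := by
      ext t
      rfl
    rw [hset]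
    exact ((isClosed_Icc.inter (isClosed_Iic.preimage
      (ft_psum_cont σ a 0 z).norm)).measurableSet).inter
      ((isOpen_Ioi.preimage (ft_psum_cont σ a y (y1 σ T)).norm).union
        (isOpen_Ioi.preimage (ft_psum_cont σ a (y1 σ T) z).norm)).measurableSet
  -- size of the prime sum
  have hSle : ∀ t ∈ F, ‖S t‖ ≤ L ^ (1 - σ / 4) := by
    intro t ht
    have h1 : ‖psumS σ 0 z (a * t)‖ ≤ 2 * L ^ (1 - σ / 2) := ht.1.2
    have h2 := ft_split σ y z (a * t) hyz
    have h3 := ft_small σ y (a * t) (by linarith)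
    have h4 : S t = psumS σ 0 z (a * t) - psumS σ 0 y (a * t) := by
      rw [h2]
      show psumS σ y z (a * t) = _
      ring
    have h5 : ‖S t‖ ≤ 2 * L ^ (1 - σ / 2) + y := by
      rw [h4]
      exact (norm_sub_le _ _).trans (add_le_add h1 h3)
    have h6 : L ^ (1 - σ / 4) = L ^ (1 - σ / 2) * L ^ (σ / 4) := by
      rw [← Real.rpow_add hL0]
      congr 1
      ring
    have h7 : 0 ≤ L ^ (1 - σ / 2) := Real.rpow_nonneg hL0.le _
    have h8 : L ^ (1 - σ / 2) * 3 ≤ L ^ (1 - σ / 2) * L ^ (σ / 4) :=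
      mul_le_mul_of_nonneg_left e2 h7
    rw [h6]
    linarith
  -- the volume
  have hvolE : volume F ≤ ENNReal.ofReal (T * (L ^ 100)⁻¹) + ENNReal.ofReal (T * (L ^ 100)⁻¹) := by
    have hp : L ^ (-(100 : ℝ)) = (L ^ 100)⁻¹ := by
      rw [Real.rpow_neg hL0.le]
      congr 1
      exact_mod_cast Real.rpow_natCast L 100
    rw [← hp]
    refine le_trans (measure_mono ?_) ((measure_union_le _ _).trans (add_le_add (ta y) tb))
    rintro t ⟨⟨ht, _⟩, h | h⟩
    · exact Or.inl ⟨ht, h⟩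
    · exact Or.inr ⟨ht, h⟩
  have hTL : 0 ≤ T * (L ^ 100)⁻¹ := by positivity
  have hvol : volume.real F ≤ 2 * (T * (L ^ 100)⁻¹) := by
    rw [← ENNReal.ofReal_add hTL hTL, ← two_mul] at hvolE
    exact ENNReal.toReal_le_of_le_ofReal (by positivity) hvolE
  -- the fourth power
  have hexpc : ∀ c : ℝ, Continuous (fun t : ℝ => Real.exp (c * ‖S t‖)) := fun c =>
    Real.continuous_exp.comp (continuous_const.mul hScont.norm)
  have hint : ∀ c : ℝ, IntegrableOn (fun t : ℝ => Real.exp (c * ‖S t‖)) F := fun c =>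
    ((hexpc c).continuousOn.integrableOn_Icc).mono_set hFsub
  have h4 : ∫ t in F, Real.exp (4 * lam * ‖S t‖) ≤ C₁ * T := by
    refine le_trans ?_ (hx y z hzL)
    refine setIntegral_mono_set ?_ (ae_of_all _ fun t => (Real.exp_pos _).le) ?_
    · exact ((hexpc (4 * lam)).continuousOn.integrableOn_Icc).mono_set fun t ht => ht.1
    · exact (show F ⊆ {t ∈ Set.Icc T (2 * T) | ‖psumS σ y z (a * t)‖ ≤ L ^ (1 - σ / 4)} from
        fun t ht => ⟨hFsub ht, hSle t ht⟩).eventuallyLE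
  -- the square
  set M : ℝ := L ^ 50 with hM
  have hM0 : 0 < M := by positivity
  have h2 : ∫ t in F, Real.exp (lam * ‖S t‖) ^ 2 ≤ (1 + C₁) * (T * (L ^ 50)⁻¹) := by
    have hpt : ∀ t, Real.exp (lam * ‖S t‖) ^ 2 ≤
        (M + Real.exp (4 * lam * ‖S t‖) / M) / 2 := by
      intro t
      have q1 : Real.exp (4 * lam * ‖S t‖) = (Real.exp (lam * ‖S t‖) ^ 2) ^ 2 := by
        rw [← pow_mul, ← Real.exp_nat_mul]
        congr 1
        push_cast
        ring
      rw [q1]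
      set h := Real.exp (lam * ‖S t‖) ^ 2
      rw [le_div_iff₀ (by norm_num), ← sub_nonneg]
      have q2 : M + h ^ 2 / M - h * 2 = (M - h) ^ 2 / M := by
        field_simp
        ring
      rw [q2]
      positivity
    have hi1 : IntegrableOn (fun t => Real.exp (lam * ‖S t‖) ^ 2) F :=
      (((hexpc lam).pow 2).continuousOn.integrableOn_Icc).mono_set hFsub
    have hic : IntegrableOn (fun _ : ℝ => M) F :=
      ((continuous_const (y := M)).continuousOn.integrableOn_Icc).mono_set hFsub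
    have hi2 : IntegrableOn (fun t => (M + Real.exp (4 * lam * ‖S t‖) / M) / 2) F :=
      (hic.add ((hint (4 * lam)).div_const M)).div_const 2
    have h3 : ∫ t in F, Real.exp (lam * ‖S t‖) ^ 2 ≤
        ∫ t in F, (M + Real.exp (4 * lam * ‖S t‖) / M) / 2 :=
      setIntegral_mono hi1 hi2 hpt
    refine h3.trans ?_
    rw [integral_div, integral_add hic ((hint (4 * lam)).div_const M), integral_div,
      setIntegral_const, smul_eq_mul]
    have q1 : volume.real F * M ≤ 2 * (T * (L ^ 100)⁻¹) * M := by gcongr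
    have q2 : (∫ t in F, Real.exp (4 * lam * ‖S t‖)) / M ≤ C₁ * T / M := by gcongr
    have q3 : 2 * (T * (L ^ 100)⁻¹) * M = 2 * (T * (L ^ 50)⁻¹) := by
      rw [hM]
      field_simp
    have q4 : C₁ * T / M = C₁ * (T * (L ^ 50)⁻¹) := by
      rw [hM, div_eq_mul_inv, mul_assoc]
    rw [q3] at q1
    rw [q4] at q2
    have q5 : 0 ≤ T * (L ^ 50)⁻¹ := by positivity
    have q6 : 0 ≤ C₁ * (T * (L ^ 50)⁻¹) := by positivity
    linarith
  -- conclusion
  have hmain := ho F (fun t => Real.exp (lam * ‖S t‖)) hFmeas hFsub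
    (fun t => (Real.exp_pos _).le) (hexpc lam).aestronglyMeasurable
    ((((hexpc lam).pow 2).continuousOn.integrableOn_Icc).mono_set hFsub)
  have hsq : √(∫ t in F, Real.exp (lam * ‖S t‖) ^ 2) ≤ √(1 + C₁) * (√T * (L ^ 25)⁻¹) := by
    refine (Real.sqrt_le_sqrt h2).trans (le_of_eq ?_)
    rw [Real.sqrt_mul (by positivity), Real.sqrt_mul hT0.le]
    congr 2
    rw [Real.sqrt_inv]
    congr 1
    rw [show L ^ 50 = (L ^ 25) ^ 2 by rw [← pow_mul]]
    exact Real.sqrt_sq (by positivity)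
  have hsT : √T * √T = T := Real.mul_self_sqrt hT0.le
  have hfin : ∫ t in F, fw t * Real.exp (lam * ‖S t‖) ≤ C₃ * (T * (L ^ 23)⁻¹) := by
    refine hmain.trans ?_
    calc C₂ * (√T * L ^ 2) * √(∫ t in F, Real.exp (lam * ‖S t‖) ^ 2)
        ≤ C₂ * (√T * L ^ 2) * (√(1 + C₁) * (√T * (L ^ 25)⁻¹)) := by gcongr
      _ = C₂ * √(1 + C₁) * ((√T * √T) * (L ^ 2 * (L ^ 25)⁻¹)) := by ring
      _ = C₃ * (T * (L ^ 23)⁻¹) := by
        rw [hsT, ← hC₃]
        congr 2
        field_simp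
  have hC₃0 : 0 ≤ C₃ := by positivity
  show (∫ t in F, fw t * Real.exp (lam * ‖S t‖)) / fn T ≤ C₃ / L
  have hfnT : fn T = T * L := rfl
  rw [div_le_div_iff₀ hfn hL0, hfnT]
  have h8 : (L ^ 23)⁻¹ * L ≤ L := by
    have : (L ^ 23)⁻¹ ≤ 1 := inv_le_one_of_one_le₀ (one_le_pow₀ hL1)
    exact mul_le_of_le_one_left hL0.le this
  calc (∫ t in F, fw t * Real.exp (lam * ‖S t‖)) * L ≤ C₃ * (T * (L ^ 23)⁻¹) * L := by
        gcongr
    _ = C₃ * T * ((L ^ 23)⁻¹ * L) := by ring
    _ ≤ C₃ * T * L := by gcongr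
    _ = C₃ * (T * L) := by ring

end Pool.Agent.Lib.MP_aa9ae4_nt.S1
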