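import Mathlib
import Pool.Agent.Lib.MP_aa9ae4_nt.S1.SpecG
import Pool.Agent.Lib.MP_aa9ae4_nt.Except

/-! Theorem G of Theorem S (MP_aa9ae4_nt). -/

namespace Pool.Agent.Lib.MP_aa9ae4_nt.S1

open Finset MeasureTheory Filter Topology
open Complex (I)

/-- size of the elements of `dset` -/
private theorem pG_dset (w z J d : ℕ) (hz : 1 ≤ z) (hd : d ∈ dset w z J) :
    d ≤ 4 ^ w * z ^ J := by
  unfold dset at hd
  rw [mem_filter, Nat.mem_divisors] at hd
  obtain ⟨⟨hdp, hp0⟩, hJ⟩ := hd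
  have hsq : Squarefree d := (squarefree_primorial z).squarefree_of_dvd hdp
  have h1 : ∏ p ∈ d.primeFactors, p = d := Nat.prod_primeFactors_of_squarefree hsq
  rw [← h1, ← prod_filter_mul_prod_filter_not d.primeFactors (fun p => w < p), mul_comm]
  apply Nat.mul_le_mul
  · refine le_trans ?_ (primorial_le_four_pow w)
    unfold primorial
    refine prod_le_prod_of_subset_of_one_le' ?_ ?_
    · intro p hp
      rw [mem_filter] at hp
      have hpp := Nat.prime_of_mem_primeFactors hp.1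
      rw [mem_filter, mem_range]
      exact ⟨by omega, hpp⟩
    · intro p hp _
      exact (mem_filter.1 hp).2.one_le
  · calc ∏ p ∈ d.primeFactors.filter (fun p => w < p), p
        ≤ ∏ _p ∈ d.primeFactors.filter (fun p => w < p), z := by
          refine prod_le_prod' fun p hp => ?_
          have hp1 := (mem_filter.1 hp).1
          have hpp := Nat.prime_of_mem_primeFactors hp1
          exact hpp.dvd_primorial_iff.1 ((Nat.dvd_of_mem_primeFactors hp1).trans hdp)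
      _ = z ^ (d.primeFactors.filter (fun p => w < p)).card := prod_const _
      _ ≤ z ^ J := Nat.pow_le_pow_right hz hJ

/-- number of dyadic blocks -/
private theorem pG_blocks (a b : ℕ) (ha : 1 ≤ a) :
    ∃ n : ℕ, (∀ i < n, a * 2 ^ i < b) ∧ b ≤ a * 2 ^ n := by
  have hex : ∃ n : ℕ, b ≤ a * 2 ^ n := by
    refine ⟨b, ?_⟩
    have h1 : b < 2 ^ b := Nat.lt_two_pow_self
    calc b ≤ 1 * 2 ^ b := by omega
      _ ≤ a * 2 ^ b := Nat.mul_le_mul_right _ ha
  classical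
  refine ⟨Nat.find hex, fun i hi => ?_, Nat.find_spec hex⟩
  exact not_le.1 (Nat.find_min hex hi)

/-- the count of the blocks -/
private theorem pG_count (a b n : ℕ) (L : ℝ) (hL : 10 ≤ L) (ha : 1 ≤ a)
    (h : ∀ i < n, a * 2 ^ i < b) (hb : (b : ℝ) ≤ Real.exp (5 / 4 * L)) : (n : ℝ) ≤ 2 * L := by
  rcases Nat.eq_zero_or_pos n with h0 | h0
  · subst h0; simp; linarith
  · have h1 := h (n - 1) (by omega)
    have h2 : 2 ^ (n - 1) < b := lt_of_le_of_lt (Nat.le_mul_of_pos_left _ (by omega)) h1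
    have h3 : ((2 : ℝ) ^ (n - 1)) ≤ Real.exp (5 / 4 * L) := by
      refine le_trans ?_ hb
      exact_mod_cast h2.le
    have h4 : ((n - 1 : ℕ) : ℝ) * Real.log 2 ≤ 5 / 4 * L := by
      have := Real.log_le_log (by positivity) h3
      rwa [Real.log_pow, Real.log_exp] at this
    have h5 := Real.log_two_gt_d9
    have h6 : ((n - 1 : ℕ) : ℝ) = n - 1 := by
      rw [Nat.cast_sub h0]; simp
    rw [h6] at h4
    have h7 : (1 : ℝ) ≤ n := by exact_mod_cast h0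
    nlinarith

private theorem pG_num (L : ℝ) (hL : 10 ≤ L) :
    (2 * L + 1 + 2 * L) * (1 / L ^ 3) ≤ 1 / (2 * L) := by
  have hL0 : 0 < L := by linarith
  rw [mul_one_div, div_le_div_iff₀ (by positivity) (by positivity)]
  nlinarith [mul_pos hL0 hL0, mul_nonneg (mul_pos hL0 hL0).le (sub_nonneg.2 hL)]

/-- decomposition into dyadic blocks -/
private theorem pG_sum (σ u : ℝ) (a b n : ℕ) (c : ℕ → ℂ) (hb : b ≤ a * 2 ^ n) :
    ∑ k ∈ Ioc a b, c k * pw σ k u =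
      ∑ i ∈ range n, ∑ k ∈ Ioc (a * 2 ^ i) (2 * (a * 2 ^ i)),
        (if k ≤ b then c k else 0) * pw σ k u := by
  rw [← except_blocks a n (fun k => (if k ≤ b then c k else 0) * pw σ k u)]
  have h1 : ∑ k ∈ Ioc a b, c k * pw σ k u =
      ∑ k ∈ Ioc a b, (if k ≤ b then c k else 0) * pw σ k u := by
    refine sum_congr rfl fun k hk => ?_
    rw [if_pos (mem_Ioc.1 hk).2]
  rw [h1]
  refine sum_subset (Ioc_subset_Ioc_right hb) fun k hk hk' => ?_
  have : ¬ k ≤ b := by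
    intro h
    exact hk' (mem_Ioc.2 ⟨(mem_Ioc.1 hk).1, h⟩)
  rw [if_neg this, zero_mul]

/-- the size of `N D` -/
private theorem pG_size (κ L : ℝ) (B w J z N : ℕ) (hκ0 : 0 < κ) (hL : 10 ≤ L)
    (hB : 1 ≤ B) (hw : (w : ℝ) ≤ κ / 32 * L) (hJ : (J : ℝ) ≤ κ * L / (100 * B * Real.log L))
    (hz1 : 1 ≤ z) (hz : (z : ℝ) ≤ L ^ (3 * B)) (hN : (N : ℝ) ≤ 2 * Real.exp L)
    (h2 : 2 ≤ Real.exp (κ / 20 * L)) :
    ((N * (4 ^ w * z ^ J) : ℕ) : ℝ) ≤ Real.exp ((1 + κ / 8) * L) := by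
  have hl0 : 0 < Real.log L := Real.log_pos (by linarith)
  have hBr : (1 : ℝ) ≤ B := by exact_mod_cast hB
  have hz0 : (0 : ℝ) < z := by exact_mod_cast hz1
  have h4 : ((4 : ℝ) ^ w) ≤ Real.exp (0.0435 * κ * L) := by
    have e : ((4 : ℝ) ^ w) = Real.exp (w * Real.log 4) := by
      rw [← Real.log_pow, Real.exp_log (by positivity)]
    rw [e]
    apply Real.exp_le_exp.2
    have e4 : Real.log 4 = 2 * Real.log 2 := by
      rw [show (4 : ℝ) = 2 ^ 2 by norm_num, Real.log_pow]; norm_num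
    have h5 := Real.log_two_lt_d9
    have h6 := Real.log_two_gt_d9
    rw [e4]
    have hw0 : (0 : ℝ) ≤ w := Nat.cast_nonneg _
    have : (w : ℝ) * (2 * Real.log 2) ≤ (κ / 32 * L) * 1.39 := by
      apply mul_le_mul hw (by linarith) (by linarith) (by positivity)
    nlinarith [mul_pos hκ0 (by linarith : (0 : ℝ) < L)]
  have h7 : ((z : ℝ) ^ J) ≤ Real.exp (0.03 * κ * L) := by
    have e : ((z : ℝ) ^ J) = Real.exp (J * Real.log z) := by
      rw [← Real.log_pow, Real.exp_log (by positivity)]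
    rw [e]
    apply Real.exp_le_exp.2
    have h8 : Real.log z ≤ 3 * B * Real.log L := by
      have := Real.log_le_log hz0 hz
      rw [Real.log_pow] at this
      push_cast at this
      exact this
    have h9 : 0 ≤ Real.log z := Real.log_natCast_nonneg z
    calc (J : ℝ) * Real.log z ≤ (κ * L / (100 * B * Real.log L)) * (3 * B * Real.log L) := by
          apply mul_le_mul hJ h8 h9 (by positivity)
      _ = 0.03 * κ * L := by field_simp; norm_num
  push_cast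
  calc (N : ℝ) * ((4 : ℝ) ^ w * (z : ℝ) ^ J)
      ≤ (2 * Real.exp L) * (Real.exp (0.0435 * κ * L) * Real.exp (0.03 * κ * L)) := by
        gcongr
    _ ≤ (Real.exp (κ / 20 * L) * Real.exp L) *
        (Real.exp (0.0435 * κ * L) * Real.exp (0.03 * κ * L)) := by gcongr
    _ = Real.exp (κ / 20 * L + L + (0.0435 * κ * L + 0.03 * κ * L)) := by
        rw [Real.exp_add, Real.exp_add, Real.exp_add]
    _ ≤ Real.exp ((1 + κ / 8) * L) := by
        apply Real.exp_le_exp.2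
        nlinarith [mul_pos hκ0 (by linarith : (0 : ℝ) < L)]

theorem pG (hEx : S_Ex) (hGr : S_Gr) (hGc : S_Gc) (hGb : S_Gb) (hGs : S_Gs) (hGp : S_Gp) :
    S_G := by
  intro σ hσ1 hσ2
  obtain ⟨δ₁, U₁, hδ₁, hr⟩ := hGr σ hσ1 hσ2
  obtain ⟨δ₂, U₂, hδ₂, hc⟩ := hGc σ hσ1 hσ2
  obtain ⟨δ₃, U₃, hδ₃, hb⟩ := hGb σ hσ1 hσ2
  obtain ⟨δ₄, U₄, hδ₄, hs⟩ := hGs σ hσ1 hσ2
  obtain ⟨U₅, hp⟩ := hGp σ hσ1 hσ2
  set κ := 2 * σ - 1 with hκ
  have hκ0 : 0 < κ := by rw [hκ]; linarith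
  have hκ1 : κ < 1 := by rw [hκ]; linarith
  set B := Bs σ with hBdef
  have hB1 : 1 ≤ B := by
    rw [hBdef]
    unfold Bs
    exact Nat.ceil_pos.2 (by rw [← hκ]; positivity)
  set δ := min (min δ₁ δ₂) (min δ₃ δ₄) with hδdef
  have hδ : 0 < δ := lt_min (lt_min hδ₁ hδ₂) (lt_min hδ₃ hδ₄)
  have hd1 : δ ≤ δ₁ := (min_le_left _ _).trans (min_le_left _ _)
  have hd2 : δ ≤ δ₂ := (min_le_left _ _).trans (min_le_right _ _)
  have hd3 : δ ≤ δ₃ := (min_le_right _ _).trans (min_le_left _ _)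
  have hd4 : δ ≤ δ₄ := (min_le_right _ _).trans (min_le_right _ _)
  have hev : ∀ᶠ U : ℝ in atTop, 1 ≤ U ∧ U₁ ≤ U ∧ U₂ ≤ U ∧ U₃ ≤ U ∧ U₄ ≤ U ∧ U₅ ≤ U ∧
      10 ≤ Real.log U ∧ 2 ≤ Real.exp (κ / 20 * Real.log U) ∧
      6 * Real.log U ≤ Real.exp (δ / 2 * Real.log U) ∧
      (Real.log U) ^ (3 * B) ≤ Real.exp (Real.log U) := by
    have hx : ∀ᶠ x : ℝ in atTop, 10 ≤ x ∧ 2 ≤ Real.exp (κ / 20 * x) ∧
      6 * x ≤ Real.exp (δ / 2 * x) ∧ x ^ (3 * B) ≤ Real.exp x := by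
      filter_upwards [eventually_ge_atTop (10 : ℝ),
        except_poly_exp 2 (κ / 20) (by positivity) 0,
        except_poly_exp 6 (δ / 2) (by positivity) 1,
        except_poly_exp 1 1 (by norm_num) (3 * B)] with x h1 h2 h3 h4
      exact ⟨h1, by simpa using h2, by simpa using h3, by simpa using h4⟩
    filter_upwards [eventually_ge_atTop (1 : ℝ), eventually_ge_atTop U₁, eventually_ge_atTop U₂,
      eventually_ge_atTop U₃, eventually_ge_atTop U₄, eventually_ge_atTop U₅,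
      Real.tendsto_log_atTop.eventually hx] with U h1 h2 h3 h4 h5 h6 h7
    exact ⟨h1, h2, h3, h4, h5, h6, h7⟩
  obtain ⟨U₀, hU₀⟩ := eventually_atTop.1 hev
  refine ⟨δ / 2, U₀, by positivity, fun U hU z hz1 hz2 => ?_⟩
  obtain ⟨hU1, hUU₁, hUU₂, hUU₃, hUU₄, hUU₅, hL, hn1, hn2, hn3⟩ := hU₀ U hU
  have hU0 : 0 < U := by linarith
  have hexp : Real.exp (Real.log U) = U := Real.exp_log hU0
  set L := Real.log U with hLdef
  have hL0 : 0 < L := by linarith
  set w := wU σ U with hwdef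
  set J := JU σ U with hJdef
  set N := ⌈U⌉₊ with hNdef
  have hN1 : U ≤ N := Nat.le_ceil _
  have hN2 : (N : ℝ) ≤ 2 * U := by
    have h1 : (N : ℝ) < U + 1 := Nat.ceil_lt_add_one hU0.le
    linarith
  have hLz : L ≤ z := by
    refine le_trans ?_ hz1
    exact le_self_pow₀ (by linarith) (by omega)
  have hz1' : 1 ≤ z := by
    have : (0 : ℝ) < z := by linarith
    exact_mod_cast this
  have hzN : z ≤ N := by
    have : (z : ℝ) ≤ N := by
      refine hz2.trans (hn3.trans ?_)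
      rw [hexp]; exact hN1
    exact_mod_cast this
  have hw1 : (w : ℝ) ≤ κ / 32 * L := by
    rw [hwdef]
    unfold wU
    exact Nat.floor_le (by positivity)
  have hwz : w ≤ z := by
    have : (w : ℝ) ≤ z := by
      refine hw1.trans (le_trans ?_ hLz)
      have h1 : κ / 32 * L ≤ 1 * L := mul_le_mul_of_nonneg_right (by linarith) hL0.le
      linarith
    exact_mod_cast this
  have hl0 : 0 < Real.log L := Real.log_pos (by linarith)
  have hBr : (1 : ℝ) ≤ B := by exact_mod_cast hB1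
  have hJ1 : (J : ℝ) ≤ κ * L / (100 * B * Real.log L) := by
    rw [hJdef]
    unfold JU
    exact Nat.floor_le (by positivity)
  set D := 4 ^ w * z ^ J with hDdef
  have hD : ∀ d ∈ dset w z J, d ≤ D := fun d hd => pG_dset w z J d hz1' hd
  have hND : ((N * D : ℕ) : ℝ) ≤ Real.exp ((1 + κ / 8) * L) :=
    pG_size κ L B w J z N hκ0 hL hB1 hw1 hJ1 hz1' hz2 (by rw [hexp]; exact hN2) hn1
  have hNr : (1 : ℝ) ≤ N := hU1.trans hN1
  have hNpos : 1 ≤ N := by exact_mod_cast hNr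
  obtain ⟨r, b, l, hr1, hr2, hb1, hb2, hl1, hexpand⟩ := hEx w z J N D hwz hz1' hzN hD
  obtain ⟨n₁, hn₁, hn₁'⟩ := pG_blocks z N hz1'
  obtain ⟨n₂, hn₂, hn₂'⟩ := pG_blocks N (N * D) hNpos
  have hN54 : (N : ℝ) ≤ Real.exp (5 / 4 * L) := by
    refine hN2.trans ?_
    have e : Real.exp (5 / 4 * L) = Real.exp (1 / 4 * L) * U := by
      rw [← hexp, ← Real.exp_add]; congr 1; ring
    rw [e]
    have h3 : 2 ≤ Real.exp (1 / 4 * L) := by
      refine hn1.trans (Real.exp_le_exp.2 ?_)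
      exact mul_le_mul_of_nonneg_right (by linarith) hL0.le
    exact mul_le_mul_of_nonneg_right h3 hU0.le
  have hND54 : ((N * D : ℕ) : ℝ) ≤ Real.exp (5 / 4 * L) := by
    refine hND.trans (Real.exp_le_exp.2 ?_)
    exact mul_le_mul_of_nonneg_right (by linarith) hL0.le
  have hc1 := pG_count z N n₁ L hL hz1' hn₁ hN54
  have hc2 := pG_count N (N * D) n₂ L hL hNpos hn₂ hND54
  set Er : ℕ → Set ℝ := fun i => {u ∈ Set.Icc U (2 * U) | 1 / L ^ 3 <
      ‖∑ k ∈ Ioc (z * 2 ^ i) (2 * (z * 2 ^ i)), (if k ≤ N then r k else 0) * pw σ k u‖} with hEr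
  set El : ℕ → Set ℝ := fun i => {u ∈ Set.Icc U (2 * U) | 1 / L ^ 3 <
      ‖∑ k ∈ Ioc (N * 2 ^ i) (2 * (N * 2 ^ i)), (if k ≤ N * D then l k else 0) * pw σ k u‖}
    with hEl
  set Eb : Set ℝ := {u ∈ Set.Icc U (2 * U) | 1 / L ^ 3 < ‖∑ k ∈ Icc 1 N, b k * pw σ k u‖}
    with hEb
  set Es : Set ℝ := {u ∈ Set.Icc U (2 * U) | L ^ (1 - σ / 2) / 2 < ‖psumS σ w z u‖} with hEs
  set M := ENNReal.ofReal (U ^ (1 - δ)) with hM
  have hmono : ∀ δ' : ℝ, δ ≤ δ' → ENNReal.ofReal (U ^ (1 - δ')) ≤ M := by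
    intro δ' h
    apply ENNReal.ofReal_le_ofReal
    exact Real.rpow_le_rpow_of_exponent_le hU1 (by linarith)
  have hvr : ∀ i ∈ range n₁, volume (Er i) ≤ M := by
    intro i hi
    have h1 := hn₁ i (mem_range.1 hi)
    refine (hr U hUU₁ z (z * 2 ^ i) (fun k => if k ≤ N then r k else 0) hz1
      (Nat.le_mul_of_pos_right _ (by positivity)) ?_ ?_ ?_).trans (hmono _ hd1)
    · refine le_trans ?_ hN2
      exact_mod_cast h1.le
    · intro k
      split_ifs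
      · exact hr1 k
      · simp
    · intro k hk p hp hpk
      split_ifs at hk
      · exact hr2 k hk p hp hpk
      · exact absurd rfl hk
  have hvl : ∀ i ∈ range n₂, volume (El i) ≤ M := by
    intro i hi
    have h1 := hn₂ i (mem_range.1 hi)
    refine (hc U hUU₂ (N * 2 ^ i) (fun k => if k ≤ N * D then l k else 0) ?_ ?_ ?_).trans
      (hmono _ hd2)
    · have h2 : N ≤ N * 2 ^ i := Nat.le_mul_of_pos_right _ (by positivity)
      have h3 : (N : ℝ) ≤ ((N * 2 ^ i : ℕ) : ℝ) := by exact_mod_cast h2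
      linarith
    · have h2 : ((N * 2 ^ i : ℕ) : ℝ) ≤ ((N * D : ℕ) : ℝ) := by exact_mod_cast h1.le
      have h3 : U ^ (1 + κ / 8) = Real.exp ((1 + κ / 8) * L) := by
        rw [Real.rpow_def_of_pos hU0, mul_comm]
      rw [h3]
      have h4 := Real.exp_pos ((1 + κ / 8) * L)
      linarith
    · intro k
      split_ifs
      · exact hl1 k
      · rw [norm_zero]; positivity
  have hvb : volume Eb ≤ M :=
    (hb U hUU₃ z b hz1 hb1 hb2).trans (hmono _ hd3)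
  have hvs : volume Es ≤ M := (hs U hUU₄ z hz1 hz2).trans (hmono _ hd4)
  have hincl : exc σ U z ⊆ (⋃ i ∈ range n₁, Er i) ∪ (⋃ i ∈ range n₂, El i) ∪ Eb ∪ Es := by
    rintro u ⟨hu, hbad⟩
    by_contra hcon
    simp only [Set.mem_union, not_or, Set.mem_iUnion, not_exists] at hcon
    obtain ⟨⟨⟨g1, g2⟩, g3⟩, g4⟩ := hcon
    have k1 : ∀ i ∈ range n₁, ‖∑ k ∈ Ioc (z * 2 ^ i) (2 * (z * 2 ^ i)),
        (if k ≤ N then r k else 0) * pw σ k u‖ ≤ 1 / L ^ 3 := fun i hi =>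
      not_lt.1 fun h => g1 i hi ⟨hu, h⟩
    have k2 : ∀ i ∈ range n₂, ‖∑ k ∈ Ioc (N * 2 ^ i) (2 * (N * 2 ^ i)),
        (if k ≤ N * D then l k else 0) * pw σ k u‖ ≤ 1 / L ^ 3 := fun i hi =>
      not_lt.1 fun h => g2 i hi ⟨hu, h⟩
    have k3 : ‖∑ k ∈ Icc 1 N, b k * pw σ k u‖ ≤ 1 / L ^ 3 := not_lt.1 fun h => g3 ⟨hu, h⟩
    have k4 : ‖psumS σ w z u‖ ≤ L ^ (1 - σ / 2) / 2 := not_lt.1 fun h => g4 ⟨hu, h⟩
    have k5 : ‖∑ k ∈ Ioc z N, r k * pw σ k u‖ ≤ n₁ * (1 / L ^ 3) := by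
      rw [pG_sum σ u z N n₁ r hn₁']
      calc _ ≤ ∑ i ∈ range n₁, ‖∑ k ∈ Ioc (z * 2 ^ i) (2 * (z * 2 ^ i)),
            (if k ≤ N then r k else 0) * pw σ k u‖ := norm_sum_le _ _
        _ ≤ ∑ _i ∈ range n₁, 1 / L ^ 3 := sum_le_sum k1
        _ = n₁ * (1 / L ^ 3) := by rw [sum_const, card_range, nsmul_eq_mul]
    have k6 : ‖∑ k ∈ Ioc N (N * D), l k * pw σ k u‖ ≤ n₂ * (1 / L ^ 3) := by
      rw [pG_sum σ u N (N * D) n₂ l hn₂']
      calc _ ≤ ∑ i ∈ range n₂, ‖∑ k ∈ Ioc (N * 2 ^ i) (2 * (N * 2 ^ i)),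
            (if k ≤ N * D then l k else 0) * pw σ k u‖ := norm_sum_le _ _
        _ ≤ ∑ _i ∈ range n₂, 1 / L ^ 3 := sum_le_sum k2
        _ = n₂ * (1 / L ^ 3) := by rw [sum_const, card_range, nsmul_eq_mul]
    have k7 : ‖zsum ((σ : ℂ) + (u : ℂ) * I) N * mollS σ w z J u - 1‖ ≤ 1 / (2 * L) := by
      rw [hexpand σ u]
      have e : (1 : ℂ) + ∑ k ∈ Ioc z N, r k * pw σ k u + ∑ k ∈ Icc 1 N, b k * pw σ k u +
          ∑ k ∈ Ioc N (N * D), l k * pw σ k u - 1 =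
          ∑ k ∈ Ioc z N, r k * pw σ k u + ∑ k ∈ Icc 1 N, b k * pw σ k u +
          ∑ k ∈ Ioc N (N * D), l k * pw σ k u := by ring
      rw [e]
      calc _ ≤ ‖∑ k ∈ Ioc z N, r k * pw σ k u‖ + ‖∑ k ∈ Icc 1 N, b k * pw σ k u‖ +
            ‖∑ k ∈ Ioc N (N * D), l k * pw σ k u‖ := norm_add₃_le
        _ ≤ n₁ * (1 / L ^ 3) + 1 / L ^ 3 + n₂ * (1 / L ^ 3) := by gcongr
        _ = (n₁ + 1 + n₂) * (1 / L ^ 3) := by ring
        _ ≤ (2 * L + 1 + 2 * L) * (1 / L ^ 3) := by gcongr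
        _ ≤ 1 / (2 * L) := pG_num L hL
    obtain ⟨q1, q2⟩ := hp U hUU₅ z hz1 u hu k7 k4
    rcases hbad with h | h
    · exact absurd q1 (not_le.2 h)
    · exact absurd q2 (not_le.2 h)
  refine (measure_mono hincl).trans ?_
  have hU1r : volume (⋃ i ∈ range n₁, Er i) ≤ n₁ * M := by
    refine (measure_biUnion_finset_le _ _).trans ((sum_le_sum hvr).trans ?_)
    rw [sum_const, card_range, nsmul_eq_mul]
  have hU1l : volume (⋃ i ∈ range n₂, El i) ≤ n₂ * M := by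
    refine (measure_biUnion_finset_le _ _).trans ((sum_le_sum hvl).trans ?_)
    rw [sum_const, card_range, nsmul_eq_mul]
  calc volume ((⋃ i ∈ range n₁, Er i) ∪ (⋃ i ∈ range n₂, El i) ∪ Eb ∪ Es)
      ≤ n₁ * M + n₂ * M + M + M := by
        refine (measure_union_le _ _).trans (add_le_add ?_ hvs)
        refine (measure_union_le _ _).trans (add_le_add ?_ hvb)
        exact (measure_union_le _ _).trans (add_le_add hU1r hU1l)
    _ = ((n₁ + n₂ + 2 : ℕ) : ENNReal) * M := by push_cast; ring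
    _ = ENNReal.ofReal (((n₁ + n₂ + 2 : ℕ) : ℝ) * U ^ (1 - δ)) := by
        rw [ENNReal.ofReal_mul (by positivity), ENNReal.ofReal_natCast]
    _ ≤ ENNReal.ofReal (U ^ (1 - δ / 2)) := by
        apply ENNReal.ofReal_le_ofReal
        have e1 : U ^ (1 - δ / 2) = U ^ (δ / 2) * U ^ (1 - δ) := by
          rw [← Real.rpow_add hU0]; congr 1; ring
        rw [e1]
        gcongr
        have e2 : U ^ (δ / 2) = Real.exp (δ / 2 * L) := by
          rw [Real.rpow_def_of_pos hU0, mul_comm]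
        rw [e2]
        refine le_trans ?_ hn2
        push_cast
        linarith

end Pool.Agent.Lib.MP_aa9ae4_nt.S1
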