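import Pool.Agent.Lib.MP_aa9ae4_nt.S1.SpecG
import Pool.Agent.Lib.MP_aa9ae4_nt.Except

/-!
MP_aa9ae4_nt, Theorem S: measure, numbers with too many prime factors (`S_Gb`).
-/

namespace Pool.Agent.Lib.MP_aa9ae4_nt.S1

open Finset MeasureTheory Filter Topology
open Complex (I)

private theorem gb_cont (σ : ℝ) (N : ℕ) (c : ℕ → ℂ) :
    Continuous (fun u : ℝ => ∑ k ∈ Icc 1 N, c k * pw σ k u) := by
  refine continuous_finsetSum _ fun k hk => ?_
  have hk0 : (k : ℂ) ≠ 0 := by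
    have := (mem_Icc.1 hk).1
    exact_mod_cast (by omega : k ≠ 0)
  refine continuous_const.mul ?_
  unfold pw
  refine Continuous.const_cpow ?_ (Or.inl hk0)
  fun_prop

/-- polynomials against exponentials -/
private theorem gb_ev (A δ : ℝ) (k : ℕ) (hδ : 0 < δ) :
    ∀ᶠ x : ℝ in atTop, A * x ^ k ≤ Real.exp (δ * x) := by
  have h1 := (isLittleO_pow_exp_pos_mul_atTop (k := k) hδ).bound
    (c := 1 / (|A| + 1)) (by positivity)
  filter_upwards [h1, eventually_ge_atTop (0 : ℝ)] with x hx hx0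
  rw [Real.norm_of_nonneg (by positivity), Real.norm_of_nonneg (Real.exp_pos _).le] at hx
  have h2 : (|A| + 1) * x ^ k ≤ Real.exp (δ * x) := by
    calc (|A| + 1) * x ^ k ≤ (|A| + 1) * (1 / (|A| + 1) * Real.exp (δ * x)) := by gcongr
      _ = Real.exp (δ * x) := by
        rw [← mul_assoc, mul_one_div_cancel (by positivity), one_mul]
  refine le_trans ?_ h2
  have : A ≤ |A| + 1 := by linarith [le_abs_self A]
  exact mul_le_mul_of_nonneg_right this (by positivity)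

/-- the facts about `w` and `J` used below -/
private theorem gb_params (κ L B : ℝ) (w J : ℕ) (hκ0 : 0 < κ) (hκ1 : κ ≤ 1) (hB : 1 ≤ B)
    (hL : (64 / κ) ^ 2 ≤ L) (hw : w = ⌊κ / 32 * L⌋₊) (hJ : J = ⌊κ * L / (100 * B * Real.log L)⌋₊) :
    1 ≤ w ∧ (w : ℝ) ≤ L ∧ Real.exp (κ ^ 2 * L / (200 * B) - Real.log L) ≤ ((w : ℝ) ^ κ) ^ J := by
  have h64 : 64 ≤ 64 / κ := by
    rw [le_div_iff₀ hκ0]
    nlinarith
  have hL1 : 64 / κ ≤ L := by nlinarith
  have hL64 : 64 ≤ L := h64.trans hL1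
  have hL0 : 0 < L := by linarith
  have hsq : Real.sqrt L ≤ κ / 64 * L := by
    have h1 : 64 / κ ≤ Real.sqrt L := Real.le_sqrt_of_sq_le hL
    have h2 : Real.sqrt L * Real.sqrt L = L := Real.mul_self_sqrt hL0.le
    have h3 : 0 ≤ Real.sqrt L := Real.sqrt_nonneg L
    rw [div_le_iff₀ hκ0] at h1
    nlinarith
  have hone : 1 ≤ κ / 64 * L := by
    rw [div_le_iff₀ hκ0] at hL1
    linarith
  have hfl := Nat.lt_floor_add_one (κ / 32 * L)
  rw [← hw] at hfl
  have hwl : Real.sqrt L ≤ w := by linarith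
  have hsq8 : 8 ≤ Real.sqrt L := Real.le_sqrt_of_sq_le (by linarith)
  have hw0 : (0 : ℝ) < w := by linarith
  have hw1 : 1 ≤ w := by
    have : 0 < w := by exact_mod_cast hw0
    omega
  have hwu : (w : ℝ) ≤ L := by
    have h1 : (w : ℝ) ≤ κ / 32 * L := by
      rw [hw]
      exact Nat.floor_le (by positivity)
    nlinarith
  refine ⟨hw1, hwu, ?_⟩
  have hll : 0 < Real.log L := Real.log_pos (by linarith)
  have hlw : Real.log L / 2 ≤ Real.log w := by
    rw [← Real.log_sqrt hL0.le]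
    exact Real.log_le_log (by linarith) hwl
  have hfJ := Nat.lt_floor_add_one (κ * L / (100 * B * Real.log L))
  rw [← hJ] at hfJ
  have e1 : ((w : ℝ) ^ κ) ^ J = Real.exp (κ * Real.log w * J) := by
    rw [Real.rpow_def_of_pos hw0, ← Real.exp_nat_mul]
    congr 1
    ring
  rw [e1]
  apply Real.exp_le_exp.2
  have hJ0 : (0 : ℝ) ≤ J := Nat.cast_nonneg J
  have h1 : κ * (Real.log L / 2) * J ≤ κ * Real.log w * J := by gcongr
  have h2 : κ * (Real.log L / 2) * (κ * L / (100 * B * Real.log L) - 1) ≤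
      κ * (Real.log L / 2) * J := by
    apply mul_le_mul_of_nonneg_left (by linarith) (by positivity)
  have h3 : κ * (Real.log L / 2) * (κ * L / (100 * B * Real.log L) - 1) =
      κ ^ 2 * L / (200 * B) - κ * Real.log L / 2 := by
    field_simp
    ring
  have h4 : κ * Real.log L / 2 ≤ Real.log L := by nlinarith
  linarith

/-- **Measure, numbers with too many prime factors.** -/
theorem pGb (hBad : S_Bad) (hSz : S_Sz) : S_Gb := by
  intro σ hσ hσ1
  obtain ⟨hSa, hSb, -, hSd⟩ := hSz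
  obtain ⟨Cb, hCb, hbad⟩ := hBad
  set κ : ℝ := 2 * σ - 1 with hκ
  have hκ0 : 0 < κ := by rw [hκ]; linarith
  have hκ1 : κ ≤ 1 := by rw [hκ]; linarith
  have hB20 : 20 ≤ Bs σ := by
    unfold Bs
    have h1 : (20 : ℝ) ≤ 20 / (2 * σ - 1) := by
      rw [le_div_iff₀ hκ0]
      nlinarith
    have h2 := h1.trans (Nat.le_ceil (20 / (2 * σ - 1)))
    exact_mod_cast h2
  have hBr : (1 : ℝ) ≤ (Bs σ : ℝ) := by
    have : 1 ≤ Bs σ := by omega
    exact_mod_cast this
  set B : ℝ := (Bs σ : ℝ) with hB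
  have hB0 : 0 < B := by linarith
  set C₁ : ℝ := 3 * Cb * Real.exp (10 / κ) * (2 / κ) with hC₁
  have hC₁0 : 0 < C₁ := by positivity
  set δ : ℝ := κ ^ 2 / (400 * B) with hδ
  have hδ0 : 0 < δ := by positivity
  obtain ⟨L₀, hL₀⟩ := eventually_atTop.1 (gb_ev C₁ δ 7 hδ0)
  refine ⟨δ, Real.exp (max L₀ ((64 / κ) ^ 2)), hδ0, ?_⟩
  intro U hU z c hz hc1 hc2
  have hU0 : 0 < U := lt_of_lt_of_le (Real.exp_pos _) hU
  set L := Real.log U with hL
  have hLmax : max L₀ ((64 / κ) ^ 2) ≤ L := by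
    rw [hL, Real.le_log_iff_exp_le hU0]
    exact hU
  have hL1 : L₀ ≤ L := (le_max_left _ _).trans hLmax
  have hL2 : (64 / κ) ^ 2 ≤ L := (le_max_right _ _).trans hLmax
  have hev := hL₀ L hL1
  have hexpL : Real.exp L = U := Real.exp_log hU0
  have hparams := gb_params κ L B (wU σ U) (JU σ U) hκ0 hκ1 hBr hL2 rfl rfl
  obtain ⟨hw1, hwL, hRJ⟩ := hparams
  set w := wU σ U with hw
  set J := JU σ U with hJ
  have h64 : 64 ≤ 64 / κ := by
    rw [le_div_iff₀ hκ0]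
    nlinarith
  have hL64 : 64 ≤ L := by nlinarith
  have hL0 : 0 < L := by linarith
  have hU1 : 1 ≤ U := by
    rw [← hexpL]
    exact Real.one_le_exp hL0.le
  have hwz : w ≤ z := by
    have h1 : (w : ℝ) ≤ z := by
      refine hwL.trans (le_trans ?_ hz)
      calc L = L ^ 1 := (pow_one L).symm
        _ ≤ L ^ Bs σ := pow_le_pow_right₀ (by linarith) (by omega)
    exact_mod_cast h1
  have hwr : (1 : ℝ) ≤ w := by exact_mod_cast hw1
  have hR1 : (1 : ℝ) ≤ (w : ℝ) ^ κ := Real.one_le_rpow hwr hκ0.le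
  set N := ⌈U⌉₊ with hN
  have hNU : (N : ℝ) ≤ 2 * U := by
    have := (Nat.ceil_lt_add_one hU0.le)
    rw [← hN] at this
    linarith
  have hmain := hbad σ U ((w : ℝ) ^ κ) w z J N c hσ hU1 hR1 hwz hc1 hc2
  -- the bounds for the sums over primes
  have hta : (w : ℝ) ^ κ * tail (2 * σ) w z ≤ 1 / κ := by
    have h1 := hSa (2 * σ) (by linarith) w z hw1
    have h2 : (w : ℝ) ^ (1 - 2 * σ) / (2 * σ - 1) = ((w : ℝ) ^ κ)⁻¹ / κ := by
      rw [← Real.rpow_neg (by linarith), hκ]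
      congr 2
      ring
    rw [h2] at h1
    calc (w : ℝ) ^ κ * tail (2 * σ) w z ≤ (w : ℝ) ^ κ * (((w : ℝ) ^ κ)⁻¹ / κ) := by
          gcongr
      _ = 1 / κ := by
          rw [← mul_div_assoc, mul_inv_cancel₀ (by linarith)]
  have htb : tail (2 * σ) 0 w ≤ 2 / κ := by
    refine (hSb (2 * σ) (by linarith) 0 w).trans ?_
    rw [← hκ]
    gcongr
    linarith
  have htd : ∑ k ∈ Icc 1 N, (k : ℝ) ^ (-(2 * σ)) ≤ 2 / κ := by
    refine (hSd (2 * σ) (by linarith) N).trans ?_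
    rw [← hκ]
    gcongr
    linarith
  have hexp : Real.exp (3 * tail (2 * σ) 0 w + 4 * (w : ℝ) ^ κ * tail (2 * σ) w z) ≤
      Real.exp (10 / κ) := by
    apply Real.exp_le_exp.2
    have e : 10 / κ = 3 * (2 / κ) + 4 * (1 / κ) := by ring
    rw [e]
    linarith
  have hinv : (((w : ℝ) ^ κ) ^ J)⁻¹ ≤ L * Real.exp (-(2 * δ * L)) := by
    have h1 : (((w : ℝ) ^ κ) ^ J)⁻¹ ≤ (Real.exp (κ ^ 2 * L / (200 * B) - Real.log L))⁻¹ :=
      inv_anti₀ (Real.exp_pos _) hRJ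
    refine h1.trans (le_of_eq ?_)
    rw [← Real.exp_neg]
    have h2 : L = Real.exp (Real.log L) := (Real.exp_log hL0).symm
    have h3 : -(κ ^ 2 * L / (200 * B) - Real.log L) = Real.log L + -(2 * δ * L) := by
      rw [hδ]
      field_simp
      ring
    rw [h3, Real.exp_add, ← h2]
  have hmom : ∫ u in U..(2 * U), ‖∑ k ∈ Icc 1 N, c k * pw σ k u‖ ^ (2 * 1) ≤
      C₁ * U * (L * Real.exp (-(2 * δ * L))) := by
    rw [mul_one]
    refine hmain.trans ?_
    have hs0 : 0 ≤ ∑ k ∈ Icc 1 N, (k : ℝ) ^ (-(2 * σ)) :=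
      sum_nonneg fun k _ => Real.rpow_nonneg (Nat.cast_nonneg k) _
    calc Cb * (U + N) * (((w : ℝ) ^ κ) ^ J)⁻¹ *
          Real.exp (3 * tail (2 * σ) 0 w + 4 * (w : ℝ) ^ κ * tail (2 * σ) w z) *
          ∑ k ∈ Icc 1 N, (k : ℝ) ^ (-(2 * σ))
        ≤ Cb * (U + 2 * U) * (L * Real.exp (-(2 * δ * L))) * Real.exp (10 / κ) * (2 / κ) := by
          gcongr
      _ = C₁ * U * (L * Real.exp (-(2 * δ * L))) := by
          rw [hC₁]
          ring
  have hmk := except_markov _ (gb_cont σ N c) U (1 / L ^ 3) _ 1 (by positivity) hU0.le hmom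
  refine hmk.trans (ENNReal.ofReal_le_ofReal ?_)
  have hUδ : U ^ (1 - δ) = U * Real.exp (-(δ * L)) := by
    rw [Real.rpow_def_of_pos hU0, ← hL]
    have : L * (1 - δ) = L + -(δ * L) := by ring
    rw [this, Real.exp_add, hexpL]
  rw [hUδ]
  have e1 : C₁ * U * (L * Real.exp (-(2 * δ * L))) / (1 / L ^ 3) ^ (2 * 1) =
      U * (C₁ * L ^ 7 * Real.exp (-(2 * δ * L))) := by
    have e0 : (1 / L ^ 3) ^ (2 * 1) = 1 / L ^ 6 := by
      rw [mul_one, div_pow, one_pow, ← pow_mul]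
    rw [e0]
    field_simp
  rw [e1]
  apply mul_le_mul_of_nonneg_left _ hU0.le
  calc C₁ * L ^ 7 * Real.exp (-(2 * δ * L)) ≤ Real.exp (δ * L) * Real.exp (-(2 * δ * L)) := by
        gcongr
    _ = Real.exp (-(δ * L)) := by
        rw [← Real.exp_add]
        congr 1
        ring

end Pool.Agent.Lib.MP_aa9ae4_nt.S1
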