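import Mathlib
import Pool.Agent.Lib.MP_aa9ae4_nt.S1.SpecG
import Pool.Agent.Lib.MP_aa9ae4_nt.Except

/-!
MP_aa9ae4_nt, Theorem S, `S_Gc`: the measure of the set where a coarse block is large.
-/

namespace Pool.Agent.Lib.MP_aa9ae4_nt.S1

open Finset MeasureTheory Filter Topology
open Complex (I)

private theorem pGc_cont (σ : ℝ) (Y W : ℕ) (c : ℕ → ℂ) :
    Continuous (fun u : ℝ => ∑ k ∈ Ioc Y W, c k * pw σ k u) := by
  refine continuous_finsetSum _ fun k hk => ?_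
  have hk0 : (k : ℂ) ≠ 0 := by
    have := (mem_Ioc.1 hk).1
    exact_mod_cast (by omega : k ≠ 0)
  refine continuous_const.mul ?_
  unfold pw
  refine Continuous.const_cpow ?_ (Or.inl hk0)
  fun_prop

theorem pGc (hCb : S_Cb) : S_Gc := by
  intro σ hσ hσ1
  obtain ⟨C, hC, hcoarse⟩ := hCb
  obtain ⟨κ, hκ⟩ : ∃ κ : ℝ, κ = 2 * σ - 1 := ⟨_, rfl⟩
  have hκ0 : 0 < κ := by linarith
  have hκ1 : κ < 1 := by linarith
  have hev : ∀ᶠ U : ℝ in atTop, 1 ≤ Real.log U ∧
      3072 * C * Real.log U ^ 10 ≤ Real.exp (3 * κ / 8 * Real.log U) := by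
    have h1 := except_poly_exp (3072 * C) (3 * κ / 8) (by positivity) 10
    have h2 := Real.tendsto_log_atTop.eventually h1
    have h3 := Real.tendsto_log_atTop.eventually (eventually_ge_atTop (1 : ℝ))
    filter_upwards [h2, h3] with U a b using ⟨b, a⟩
  obtain ⟨U₁, hU₁⟩ := eventually_atTop.1 hev
  refine ⟨κ / 2, max U₁ 1, by positivity, fun U hU Y c hY1 hY2 hc => ?_⟩
  obtain ⟨hL, hnum⟩ := hU₁ U ((le_max_left _ _).trans hU)
  have hU1 : 1 ≤ U := (le_max_right _ _).trans hU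
  have hU0 : 0 < U := by linarith
  have hrp : ∀ x : ℝ, U ^ x = Real.exp (x * Real.log U) := fun x => by
    rw [Real.rpow_def_of_pos hU0, mul_comm]
  rw [← hκ, hrp] at hY2
  rw [hrp]
  set L := Real.log U with hLdef
  have hL0 : 0 < L := by linarith
  have hY0 : (0 : ℝ) < Y := by linarith
  have hYn : 1 ≤ Y := by
    have : 0 < Y := by exact_mod_cast hY0
    omega
  have h1 := hcoarse σ U Y c hσ hσ1 hU1 hYn (fun k _ => hc k)
  refine (except_markov _ (pGc_cont σ Y (2 * Y) c) U (1 / L ^ 3) _ 1 (by positivity)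
    (by linarith) (by simpa using h1)).trans ?_
  apply ENNReal.ofReal_le_ofReal
  have hV : (1 / L ^ 3) ^ (2 * 1) = 1 / L ^ 6 := by
    rw [div_pow, one_pow, ← pow_mul]
  rw [hV, div_div_eq_mul_div, div_one]
  have h2 : (U + (Y : ℝ)) / Y ≤ 3 := by
    rw [div_le_iff₀ hY0]; linarith
  have hl4 : Real.log 4 < 1.4 := by
    have : (4 : ℝ) = 2 ^ 2 := by norm_num
    rw [this, Real.log_pow]
    have := Real.log_two_lt_d9
    push_cast
    linarith
  have h4e : (4 : ℝ) = Real.exp (Real.log 4) := (Real.exp_log (by norm_num)).symm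
  have h2Y : 2 * (Y : ℝ) ≤ Real.exp (Real.log 4 + (1 + κ / 8) * L) := by
    rw [Real.exp_add, ← h4e]
    linarith
  have h3 : 1 + Real.log (2 * Y) ≤ 4 * L := by
    have := Real.log_le_log (by positivity) h2Y
    rw [Real.log_exp] at this
    nlinarith
  have h3' : 0 ≤ 1 + Real.log (2 * (Y : ℝ)) := by
    have hY1' : (1 : ℝ) ≤ Y := by exact_mod_cast hYn
    have : 0 ≤ Real.log (2 * (Y : ℝ)) := Real.log_nonneg (by linarith)
    linarith
  have h5 : (2 * (Y : ℝ)) ^ (2 - 2 * σ) ≤ 4 * Real.exp ((1 - 7 * κ / 8) * L) := by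
    have e1 : 2 - 2 * σ = 1 - κ := by linarith
    rw [e1]
    calc (2 * (Y : ℝ)) ^ (1 - κ)
        ≤ (Real.exp (Real.log 4 + (1 + κ / 8) * L)) ^ (1 - κ) :=
          Real.rpow_le_rpow (by positivity) h2Y (by linarith)
      _ = Real.exp ((Real.log 4 + (1 + κ / 8) * L) * (1 - κ)) := by rw [← Real.exp_mul]
      _ ≤ Real.exp (Real.log 4 + (1 - 7 * κ / 8) * L) := by
          apply Real.exp_le_exp.2
          have hl4' : 0 ≤ Real.log 4 := Real.log_nonneg (by norm_num)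
          nlinarith [mul_nonneg hl4' hκ0.le, mul_nonneg (mul_nonneg hκ0.le hκ0.le) hL0.le]
      _ = 4 * Real.exp ((1 - 7 * κ / 8) * L) := by rw [Real.exp_add, ← h4e]
  calc C * ((U + (Y : ℝ)) / Y) * (1 + Real.log (2 * Y)) ^ 4 * (2 * (Y : ℝ)) ^ (2 - 2 * σ) * L ^ 6
      ≤ C * 3 * (4 * L) ^ 4 * (4 * Real.exp ((1 - 7 * κ / 8) * L)) * L ^ 6 := by gcongr
    _ = (3072 * C * L ^ 10) * Real.exp ((1 - 7 * κ / 8) * L) := by ring
    _ ≤ Real.exp (3 * κ / 8 * L) * Real.exp ((1 - 7 * κ / 8) * L) := by gcongr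
    _ = Real.exp ((1 - κ / 2) * L) := by
        rw [← Real.exp_add]
        congr 1
        ring

end Pool.Agent.Lib.MP_aa9ae4_nt.S1
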