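import Pool.Agent.Lib.MP_aa9ae4_nt.S1.SpecM

/-!
MP_aa9ae4_nt, Theorem S: the good set (`S_Gd`).
-/

namespace Pool.Agent.Lib.MP_aa9ae4_nt.S1

open Finset MeasureTheory Filter Topology
open Complex (I)

private theorem gd_pw_cont (σ a : ℝ) (p : ℕ) (hp : 0 < p) :
    Continuous (fun t : ℝ => pw σ p (a * t)) := by
  have hk0 : (p : ℂ) ≠ 0 := by
    exact_mod_cast (by omega : p ≠ 0)
  unfold pw
  refine Continuous.const_cpow ?_ (Or.inl hk0)
  fun_prop

private theorem gd_prs_pos {y z p : ℕ} (hp : p ∈ prs y z) : 0 < p := by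
  unfold prs at hp
  exact (mem_filter.1 hp).2.pos

private theorem gd_psum_cont (σ a : ℝ) (y z : ℕ) :
    Continuous (fun t : ℝ => psumS σ y z (a * t)) := by
  unfold psumS
  exact continuous_finsetSum _ fun p hp => gd_pw_cont σ a p (gd_prs_pos hp)

private theorem gd_eul_cont (σ a : ℝ) (y z : ℕ) :
    Continuous (fun t : ℝ => eulS σ y z (a * t)) := by
  unfold eulS
  exact continuous_finsetProd _ fun p hp =>
    continuous_const.sub (gd_pw_cont σ a p (gd_prs_pos hp))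

private theorem gd_zeta_cont (σ a : ℝ) (hσ : σ < 1) :
    Continuous (fun t : ℝ => riemannZeta ((σ : ℂ) + ((a * t : ℝ) : ℂ) * I)) := by
  rw [continuous_iff_continuousAt]
  intro t
  have h1 : ((σ : ℂ) + ((a * t : ℝ) : ℂ) * I) ≠ 1 := by
    intro h2
    have := congrArg Complex.re h2
    simp at this
    linarith
  exact ContinuousAt.comp (f := fun t : ℝ => ((σ : ℂ) + ((a * t : ℝ) : ℂ) * I))
    (differentiableAt_riemannZeta h1).continuousAt (by fun_prop)

private theorem gd_range (a : ℝ) (B : ℕ) (hB : 1 ≤ B) (ha : 0 < a) : ∀ᶠ T : ℝ in atTop,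
    (Real.log (a * T)) ^ B ≤ (⌊(Real.log T) ^ (2 * B)⌋₊ : ℝ) ∧
    (⌊(Real.log T) ^ (2 * B)⌋₊ : ℝ) ≤ (Real.log (a * T)) ^ (3 * B) := by
  filter_upwards [fin_log_mul a ha, Real.tendsto_log_atTop.eventually_ge_atTop 8] with T hT h8
  set x := Real.log T with hx
  have hx0 : 0 < x := by linarith
  constructor
  · have h1 : (Real.log (a * T)) ^ B ≤ (2 * x) ^ B :=
      pow_le_pow_left₀ (by linarith [hT.1]) hT.2 B
    have h2 : x ^ (2 * B) - 1 < (⌊x ^ (2 * B)⌋₊ : ℝ) := by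
      have := Nat.lt_floor_add_one (x ^ (2 * B))
      linarith
    have h3 : (2 * x) ^ B * 2 ≤ x ^ (2 * B) := by
      have e1 : x ^ (2 * B) = x ^ B * x ^ B := by rw [two_mul, pow_add]
      have e2 : (2 * x) ^ B * 2 ≤ (2 * x) ^ B * 2 ^ B := by
        apply mul_le_mul_of_nonneg_left _ (by positivity)
        calc (2 : ℝ) = 2 ^ 1 := (pow_one 2).symm
          _ ≤ 2 ^ B := pow_le_pow_right₀ (by norm_num) hB
      refine e2.trans ?_
      rw [← mul_pow, e1, ← mul_pow]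
      exact pow_le_pow_left₀ (by positivity) (by nlinarith) B
    have h4 : 1 ≤ (2 * x) ^ B := one_le_pow₀ (by linarith)
    linarith
  · have h1 : (⌊x ^ (2 * B)⌋₊ : ℝ) ≤ x ^ (2 * B) := Nat.floor_le (by positivity)
    refine h1.trans ?_
    have h2 : (x / 2) ^ (3 * B) ≤ (Real.log (a * T)) ^ (3 * B) :=
      pow_le_pow_left₀ (by positivity) hT.1 _
    refine le_trans ?_ h2
    have e1 : x ^ (2 * B) = (x ^ 2) ^ B := pow_mul x 2 B
    have e2 : (x / 2) ^ (3 * B) = ((x / 2) ^ 3) ^ B := pow_mul _ 3 B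
    rw [e1, e2]
    apply pow_le_pow_left₀ (by positivity)
    have e3 : (x / 2) ^ 3 = x ^ 2 * (x / 8) := by ring
    rw [e3]
    exact le_mul_of_one_le_right (by positivity) (by linarith)

/-- **The good set.** -/
theorem pGd (hG : S_G) : S_Gd := by
  intro σ a hσ hσ1 ha
  obtain ⟨δ₁, U₀, hδ₁, hvol⟩ := hG σ hσ hσ1
  have hκ0 : 0 < 2 * σ - 1 := by linarith
  have hB : 1 ≤ Bs σ := by
    unfold Bs
    have h1 : (1 : ℝ) ≤ 20 / (2 * σ - 1) := by
      rw [le_div_iff₀ hκ0]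
      linarith
    have h2 := h1.trans (Nat.le_ceil (20 / (2 * σ - 1)))
    exact_mod_cast h2
  refine ⟨δ₁ / 2, by linarith, ?_⟩
  have hTU : ∀ᶠ T : ℝ in atTop, U₀ ≤ a * T := by
    have : Tendsto (fun T : ℝ => a * T) atTop atTop := tendsto_id.const_mul_atTop ha
    exact this.eventually_ge_atTop U₀
  have hpow := (tendsto_rpow_atTop (show 0 < δ₁ / 2 by linarith)).eventually_ge_atTop
    (a⁻¹ * a ^ (1 - δ₁))
  filter_upwards [hTU, gd_range a (Bs σ) hB ha, eventually_gt_atTop (0 : ℝ), hpow,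
    fin_log_mul a ha, Real.tendsto_log_atTop.eventually_ge_atTop 8] with T hT1 hz hT0 hT2 hlm h8
  set z := zT σ T with hzdef
  have hx0 : 0 < Real.log T := by linarith
  have hlam : 0 < Real.log (a * T) := by linarith [hlm.1]
  -- description of the good set
  have hmem : ∀ t, t ∈ good σ a T ↔ t ∈ Set.Icc T (2 * T) ∧
      ‖riemannZeta ((σ : ℂ) + ((a * t : ℝ) : ℂ) * I) * eulS σ 0 z (a * t) - 1‖ ≤
        1 / Real.log (a * T) ∧ ‖psumS σ 0 z (a * t)‖ ≤ Real.log (a * T) ^ (1 - σ / 2) := by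
    intro t
    unfold good exc
    rw [Set.mem_ofPred_eq, Set.mem_ofPred_eq, not_and, not_or, not_lt, not_lt]
    constructor
    · rintro ⟨ht, h⟩
      refine ⟨ht, h ⟨?_, ?_⟩⟩
      · exact mul_le_mul_of_nonneg_left ht.1 ha.le
      · have := mul_le_mul_of_nonneg_left ht.2 ha.le
        linarith
    · rintro ⟨ht, h⟩
      exact ⟨ht, fun _ => h⟩
  refine ⟨?_, ?_, ?_, ?_⟩
  · -- measurability
    have hset : good σ a T = (Set.Icc T (2 * T) ∩
        ((fun t : ℝ => ‖riemannZeta ((σ : ℂ) + ((a * t : ℝ) : ℂ) * I) * eulS σ 0 z (a * t) - 1‖) ⁻¹'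
          Set.Iic (1 / Real.log (a * T)))) ∩
        ((fun t : ℝ => ‖psumS σ 0 z (a * t)‖) ⁻¹' Set.Iic (Real.log (a * T) ^ (1 - σ / 2))) := by
      ext t
      rw [hmem t]
      simp only [Set.mem_inter_iff, Set.mem_preimage, Set.mem_Iic, and_assoc]
    rw [hset]
    have c1 : Continuous (fun t : ℝ =>
        ‖riemannZeta ((σ : ℂ) + ((a * t : ℝ) : ℂ) * I) * eulS σ 0 z (a * t) - 1‖) :=
      (((gd_zeta_cont σ a hσ1).mul (gd_eul_cont σ a 0 z)).sub continuous_const).norm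
    have c2 : Continuous (fun t : ℝ => ‖psumS σ 0 z (a * t)‖) := (gd_psum_cont σ a 0 z).norm
    exact ((isClosed_Icc.inter (isClosed_Iic.preimage c1)).inter
      (isClosed_Iic.preimage c2)).measurableSet
  · -- measure
    have hsub : Set.Icc T (2 * T) \ good σ a T ⊆ (fun t => a * t) ⁻¹' exc σ (a * T) z := by
      rintro t ⟨ht, hn⟩
      by_contra h
      exact hn ⟨ht, h⟩
    refine (measure_mono hsub).trans ?_
    rw [Real.volume_preimage_mul_left ha.ne']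
    have h1 := hvol (a * T) hT1 z hz.1 hz.2
    refine (mul_le_mul_right h1 _).trans ?_
    rw [← ENNReal.ofReal_mul (abs_nonneg _)]
    apply ENNReal.ofReal_le_ofReal
    rw [abs_of_pos (inv_pos.2 ha), Real.mul_rpow ha.le hT0.le]
    have e1 : T ^ (1 - δ₁ / 2) = T ^ (1 - δ₁) * T ^ (δ₁ / 2) := by
      rw [← Real.rpow_add hT0]
      congr 1
      ring
    rw [e1]
    have h2 : 0 ≤ T ^ (1 - δ₁) := Real.rpow_nonneg hT0.le _
    calc a⁻¹ * (a ^ (1 - δ₁) * T ^ (1 - δ₁)) = T ^ (1 - δ₁) * (a⁻¹ * a ^ (1 - δ₁)) := by ring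
      _ ≤ T ^ (1 - δ₁) * T ^ (δ₁ / 2) := mul_le_mul_of_nonneg_left hT2 h2
  · -- in `Gz`
    intro t ht
    rw [hmem t] at ht
    refine ⟨ht.1, ht.2.2.trans ?_⟩
    have h1 : Real.log (a * T) ^ (1 - σ / 2) ≤ (2 * Real.log T) ^ (1 - σ / 2) :=
      Real.rpow_le_rpow hlam.le hlm.2 (by linarith)
    refine h1.trans ?_
    rw [Real.mul_rpow (by norm_num) hx0.le]
    have h2 : (2 : ℝ) ^ (1 - σ / 2) ≤ 2 := by
      calc (2 : ℝ) ^ (1 - σ / 2) ≤ 2 ^ (1 : ℝ) :=
            Real.rpow_le_rpow_of_exponent_le (by norm_num) (by linarith)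
        _ = 2 := Real.rpow_one 2
    exact mul_le_mul_of_nonneg_right h2 (Real.rpow_nonneg hx0.le _)
  · intro t ht
    rw [hmem t] at ht
    unfold fzS
    refine ht.2.1.trans ?_
    rw [div_le_div_iff₀ hlam hx0]
    linarith [hlm.1]

end Pool.Agent.Lib.MP_aa9ae4_nt.S1
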