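import Pool.Agent.Lib.MP_aa9ae4_nt.S1.SpecG

/-!
MP_aa9ae4_nt, Theorem S: pointwise conclusion (`S_Gp`).
-/

namespace Pool.Agent.Lib.MP_aa9ae4_nt.S1

open Finset MeasureTheory Filter Topology
open Complex (I)

private theorem gp_norm (σ : ℝ) (p : ℕ) (hp : 0 < p) (u : ℝ) :
    ‖pw σ p u‖ = (p : ℝ) ^ (-σ) := by
  unfold pw
  rw [Complex.norm_natCast_cpow_of_pos hp]
  congr 1
  simp

private theorem gp_psum (σ : ℝ) (y z : ℕ) (u : ℝ) : ‖psumS σ y z u‖ ≤ tail σ y z := by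
  unfold psumS tail
  refine (norm_sum_le _ _).trans (le_of_eq (sum_congr rfl fun p hp => ?_))
  unfold prs at hp
  exact gp_norm σ p (mem_filter.1 hp).2.pos u

private theorem gp_split (σ : ℝ) (w z : ℕ) (u : ℝ) (h : w ≤ z) :
    psumS σ 0 z u = psumS σ 0 w u + psumS σ w z u := by
  unfold psumS prs
  have h1 : Ioc 0 z = Ioc 0 w ∪ Ioc w z := by
    ext p
    simp only [mem_union, mem_Ioc]
    omega
  have h2 : Disjoint ((Ioc 0 w).filter Nat.Prime) ((Ioc w z).filter Nat.Prime) := by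
    rw [Finset.disjoint_left]
    intro p hp hp'
    have := (mem_Ioc.1 (mem_filter.1 hp).1).2
    have := (mem_Ioc.1 (mem_filter.1 hp').1).1
    omega
  rw [h1, filter_union, sum_union h2]

/-- the inequalities for large `L` -/
private theorem gp_ev (σ κ c₂ K : ℝ) (hσ : 1 / 2 < σ) (hσ1 : σ < 1) (hc₂ : 0 < c₂) :
    ∀ᶠ L : ℝ in atTop, 3 ≤ L ∧ 2 / (1 - σ) ≤ L ^ (σ / 2) ∧ 2 ≤ L ^ (σ / 4) ∧
      4 * σ / κ ≤ L ^ (1 - 3 * σ / 4) ∧
      3 * L ^ (1 - σ / 4) + 2 * Real.log L + K ≤ c₂ * L := by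
  have t1 := tendsto_rpow_atTop (show 0 < σ / 2 by linarith)
  have t2 := tendsto_rpow_atTop (show 0 < σ / 4 by linarith)
  have t3 := tendsto_rpow_atTop (show 0 < 1 - 3 * σ / 4 by linarith)
  have t4 := Real.isLittleO_log_id_atTop.bound (c := c₂ / 6) (by positivity)
  filter_upwards [eventually_ge_atTop (3 : ℝ), t1.eventually_ge_atTop (2 / (1 - σ)),
    t2.eventually_ge_atTop 2, t2.eventually_ge_atTop (9 / c₂),
    t3.eventually_ge_atTop (4 * σ / κ), t4, eventually_ge_atTop (3 * K / c₂)]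
    with L h1 h2 h3 h4 h5 h6 h7
  refine ⟨h1, h2, h3, h5, ?_⟩
  have hL0 : 0 < L := by linarith
  have e1 : L ^ (1 - σ / 4) * L ^ (σ / 4) = L := by
    rw [← Real.rpow_add hL0]
    have : 1 - σ / 4 + σ / 4 = 1 := by ring
    rw [this, Real.rpow_one]
  have e2 : 3 * L ^ (1 - σ / 4) ≤ c₂ * L / 3 := by
    have h8 : 0 ≤ L ^ (1 - σ / 4) := Real.rpow_nonneg hL0.le _
    have h9 : L ^ (1 - σ / 4) * (9 / c₂) ≤ L := by
      calc L ^ (1 - σ / 4) * (9 / c₂) ≤ L ^ (1 - σ / 4) * L ^ (σ / 4) := by gcongr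
        _ = L := e1
    have h10 : L ^ (1 - σ / 4) * (9 / c₂) = L ^ (1 - σ / 4) * 9 / c₂ := by ring
    rw [h10, div_le_iff₀ hc₂] at h9
    linarith
  have e3 : 2 * Real.log L ≤ c₂ * L / 3 := by
    rw [id_eq, Real.norm_of_nonneg hL0.le] at h6
    have := (le_abs_self _).trans h6
    linarith
  have e4 : K ≤ c₂ * L / 3 := by
    rw [div_le_iff₀ hc₂] at h7
    linarith
  linarith

/-- **Pointwise conclusion.** -/
theorem pGp (hZa : S_Za) (hSz : S_Sz) (hTrn : S_Trn) (hEs : S_Es) : S_Gp := by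
  intro σ hσ hσ1
  obtain ⟨-, hSb, hSc, -⟩ := hSz
  obtain ⟨C, hC, hza⟩ := hZa σ hσ hσ1
  set κ : ℝ := 2 * σ - 1 with hκ
  have hκ0 : 0 < κ := by rw [hκ]; linarith
  have hκ1 : κ ≤ 1 := by rw [hκ]; linarith
  have hB20 : 20 ≤ Bs σ := by
    unfold Bs
    have h1 : (20 : ℝ) ≤ 20 / (2 * σ - 1) := by
      rw [le_div_iff₀ hκ0]
      nlinarith
    have h2 := h1.trans (Nat.le_ceil (20 / (2 * σ - 1)))
    exact_mod_cast h2
  set B : ℝ := (Bs σ : ℝ) with hB
  have hBr : (20 : ℝ) ≤ B := by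
    rw [hB]
    exact_mod_cast hB20
  have hB0 : 0 < B := by linarith
  set c₁ : ℝ := 4 * σ / κ with hc₁
  have hc₁0 : 0 < c₁ := by
    rw [hc₁]
    exact div_pos (by linarith) hκ0
  set c₂ : ℝ := σ * κ / (400 * B) with hc₂
  have hσ0 : 0 < σ := by linarith
  have hc₂0 : 0 < c₂ := by positivity
  have hc₂κ : c₂ ≤ κ := by
    rw [hc₂, div_le_iff₀ (by positivity)]
    have : σ * κ ≤ κ := by nlinarith
    nlinarith
  set K : ℝ := |Real.log C| + 2 * c₁ + Real.log 16 with hK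
  obtain ⟨L₀, hL₀⟩ := eventually_atTop.1 (gp_ev σ κ c₂ K hσ hσ1 hc₂0)
  refine ⟨Real.exp (max L₀ 1), ?_⟩
  intro U hU z hz u hu hmoll hps
  have hU0 : 0 < U := lt_of_lt_of_le (Real.exp_pos _) hU
  set L := Real.log U with hL
  have hLmax : max L₀ 1 ≤ L := by
    rw [hL, Real.le_log_iff_exp_le hU0]
    exact hU
  have hexpL : Real.exp L = U := Real.exp_log hU0
  obtain ⟨hL3, g1, g2, g3, g4⟩ := hL₀ L ((le_max_left _ _).trans hLmax)
  have hL0 : 0 < L := by linarith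
  have hL1 : 1 ≤ L := by linarith
  have hll0 : 0 < Real.log L := Real.log_pos (by linarith)
  have hexpl : Real.exp (Real.log L) = L := Real.exp_log hL0
  have hU2 : 2 ≤ U := by
    rw [← hexpL]
    have := Real.add_one_le_exp L
    linarith
  set V : ℝ := L ^ (1 - σ / 2) with hV
  have hV0 : 0 < V := Real.rpow_pos_of_pos hL0 _
  have hVle : V ≤ L ^ (1 - σ / 4) :=
    Real.rpow_le_rpow_of_exponent_le hL1 (by linarith)
  -- the parameters
  set w := wU σ U with hw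
  set J := JU σ U with hJ
  have hwL : (w : ℝ) ≤ L := by
    have h1 : (w : ℝ) ≤ κ / 32 * L := by
      rw [hw]
      exact Nat.floor_le (by positivity)
    have h2 : κ / 32 * L ≤ 1 * L := mul_le_mul_of_nonneg_right (by linarith) hL0.le
    linarith
  have hwz : w ≤ z := by
    have h1 : (w : ℝ) ≤ z := by
      refine hwL.trans (le_trans ?_ hz)
      calc L = L ^ 1 := (pow_one L).symm
        _ ≤ L ^ Bs σ := pow_le_pow_right₀ (by linarith) (by omega)
    exact_mod_cast h1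
  -- (1)
  have hp1 : ‖psumS σ 0 w u‖ ≤ V / 2 := by
    refine (gp_psum σ 0 w u).trans ((hSc σ hσ0 hσ1 0 w).trans ?_)
    have h1 : (w : ℝ) ^ (1 - σ) ≤ L ^ (1 - σ) :=
      Real.rpow_le_rpow (Nat.cast_nonneg w) hwL (by linarith)
    have h2 : V = L ^ (1 - σ) * L ^ (σ / 2) := by
      rw [hV, ← Real.rpow_add hL0]
      congr 1
      ring
    have h3 : 0 < L ^ (1 - σ) := Real.rpow_pos_of_pos hL0 _
    have h4 : (0 : ℝ) < 1 - σ := by linarith
    rw [div_le_iff₀ h4] at g1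
    have h5 := mul_le_mul_of_nonneg_left g1 h3.le
    rw [div_le_iff₀ h4, h2]
    linarith
  have hp2 : ‖psumS σ 0 z u‖ ≤ V := by
    rw [gp_split σ w z u hwz]
    refine (norm_add_le _ _).trans ?_
    linarith
  refine ⟨?_, hp2⟩
  -- (2)
  set E : ℝ := Real.exp (V + c₁) with hE
  have hE0 : 0 < E := Real.exp_pos _
  have hlog : ∀ y' z' : ℕ, ‖psumS σ y' z' u‖ ≤ V →
      ‖eulS σ y' z' u‖ ≤ E ∧ 1 ≤ E * ‖eulS σ y' z' u‖ := by
    intro y' z' hy'
    obtain ⟨hne, habs⟩ := hEs σ y' z' u (by linarith)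
    have ht : 2 * tail (2 * σ) y' z' ≤ c₁ := by
      have h1 := hSb (2 * σ) (by linarith) y' z'
      rw [← hκ] at h1
      rw [hc₁]
      calc 2 * tail (2 * σ) y' z' ≤ 2 * (2 * σ / κ) := by linarith
        _ = 4 * σ / κ := by ring
    have hre := (Complex.abs_re_le_norm (psumS σ y' z' u)).trans hy'
    rw [abs_le] at hre habs
    have hpos : 0 < ‖eulS σ y' z' u‖ := norm_pos_iff.2 hne
    have e1 : ‖eulS σ y' z' u‖ = Real.exp (Real.log ‖eulS σ y' z' u‖) := (Real.exp_log hpos).symm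
    constructor
    · rw [e1, hE]
      apply Real.exp_le_exp.2
      linarith [hre.1, habs.2]
    · rw [e1, hE, ← Real.exp_add]
      apply Real.one_le_exp
      linarith [hre.2, habs.1]
  obtain ⟨hEw, -⟩ := hlog 0 w (hp1.trans (by linarith))
  obtain ⟨hEz, hEz'⟩ := hlog 0 z hp2
  -- (3)
  have htrn := hTrn σ u (L ^ (σ / 4)) w z J hwz g2
  set D : ℝ := ‖eulS σ 0 z u - mollS σ w z J u‖ with hD
  have hRpos : 0 < L ^ (σ / 4) := Real.rpow_pos_of_pos hL0 _
  have hRJ : ((L ^ (σ / 4)) ^ J)⁻¹ ≤ Real.exp (-(c₂ * L) + Real.log L) := by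
    have e1 : (L ^ (σ / 4)) ^ J = Real.exp (σ / 4 * Real.log L * J) := by
      rw [Real.rpow_def_of_pos hL0, ← Real.exp_nat_mul]
      congr 1
      ring
    rw [e1, ← Real.exp_neg]
    apply Real.exp_le_exp.2
    have hfJ := Nat.lt_floor_add_one (κ * L / (100 * B * Real.log L))
    have hJ' : J = ⌊κ * L / (100 * B * Real.log L)⌋₊ := rfl
    rw [← hJ'] at hfJ
    have h2 : σ / 4 * Real.log L * (κ * L / (100 * B * Real.log L) - 1) ≤
        σ / 4 * Real.log L * J := by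
      apply mul_le_mul_of_nonneg_left (by linarith) (by positivity)
    have h3 : σ / 4 * Real.log L * (κ * L / (100 * B * Real.log L) - 1) =
        c₂ * L - σ / 4 * Real.log L := by
      rw [hc₂]
      field_simp
      ring
    have h4 : σ / 4 * Real.log L ≤ 1 * Real.log L :=
      mul_le_mul_of_nonneg_right (by linarith) hll0.le
    linarith
  have hex : L ^ (σ / 4) * ‖psumS σ w z u‖ + (L ^ (σ / 4)) ^ 2 * tail (2 * σ) w z ≤
      L ^ (1 - σ / 4) := by
    have h1 : L ^ (σ / 4) * ‖psumS σ w z u‖ ≤ L ^ (1 - σ / 4) / 2 := by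
      calc L ^ (σ / 4) * ‖psumS σ w z u‖ ≤ L ^ (σ / 4) * (V / 2) := by gcongr
        _ = L ^ (1 - σ / 4) / 2 := by
          rw [hV, ← mul_div_assoc, ← Real.rpow_add hL0]
          congr 2
          ring
    have h2 : (L ^ (σ / 4)) ^ 2 * tail (2 * σ) w z ≤ L ^ (1 - σ / 4) / 2 := by
      have h3 := hSb (2 * σ) (by linarith) w z
      rw [← hκ] at h3
      have h4 : (L ^ (σ / 4)) ^ 2 = L ^ (σ / 2) := by
        rw [← Real.rpow_natCast, ← Real.rpow_mul hL0.le]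
        congr 1
        push_cast
        ring
      have h5 : L ^ (1 - σ / 4) = L ^ (σ / 2) * L ^ (1 - 3 * σ / 4) := by
        rw [← Real.rpow_add hL0]
        congr 1
        ring
      have h6 : 0 < L ^ (σ / 2) := Real.rpow_pos_of_pos hL0 _
      rw [h4, h5]
      calc L ^ (σ / 2) * tail (2 * σ) w z ≤ L ^ (σ / 2) * (2 * σ / κ) := by gcongr
        _ = L ^ (σ / 2) * (4 * σ / κ) / 2 := by ring
        _ ≤ L ^ (σ / 2) * L ^ (1 - 3 * σ / 4) / 2 := by gcongr
    linarith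
  have hlog16 : 0 < Real.log 16 := Real.log_pos (by norm_num)
  have hlog4 : Real.log 4 ≤ Real.log 16 := Real.log_le_log (by norm_num) (by norm_num)
  have habsC := abs_nonneg (Real.log C)
  have hED : E * D ≤ 1 / (16 * L) := by
    have h1 : D ≤ E * (Real.exp (-(c₂ * L) + Real.log L) * Real.exp (L ^ (1 - σ / 4))) := by
      refine htrn.trans ?_
      gcongr
    have h2 : E * D ≤ E * (E * (Real.exp (-(c₂ * L) + Real.log L) *
        Real.exp (L ^ (1 - σ / 4)))) := by gcongr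
    refine h2.trans ?_
    have h3 : 1 / (16 * L) = Real.exp (-(Real.log 16 + Real.log L)) := by
      rw [Real.exp_neg, Real.exp_add, hexpl, Real.exp_log (by norm_num), one_div]
    rw [h3, hE, ← Real.exp_add, ← Real.exp_add, ← Real.exp_add]
    apply Real.exp_le_exp.2
    rw [hK] at g4
    linarith
  have hL16 : 1 / (16 * L) ≤ 1 / 16 := by
    apply one_div_le_one_div_of_le (by norm_num)
    linarith
  -- (4)
  have hzs : ‖zsum ((σ : ℂ) + (u : ℂ) * I) ⌈U⌉₊‖ ≤ 4 * E := by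
    set Z := zsum ((σ : ℂ) + (u : ℂ) * I) ⌈U⌉₊ with hZ
    set M := mollS σ w z J u with hM
    have h1 : ‖eulS σ 0 z u‖ ≤ ‖M‖ + D := by
      have : eulS σ 0 z u = M + (eulS σ 0 z u - M) := by ring
      calc ‖eulS σ 0 z u‖ = ‖M + (eulS σ 0 z u - M)‖ := by rw [← this]
        _ ≤ ‖M‖ + D := norm_add_le _ _
    have h2 : 1 / 2 ≤ E * ‖M‖ := by
      have : E * ‖eulS σ 0 z u‖ ≤ E * (‖M‖ + D) := by gcongr
      rw [mul_add] at this
      linarith
    have h3 : ‖Z‖ * ‖M‖ ≤ 2 := by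
      rw [← norm_mul]
      have e1 : Z * M = (Z * M - 1) + 1 := by ring
      have e2 : 1 / (2 * L) ≤ 1 := by
        rw [div_le_one (by linarith)]
        linarith
      calc ‖Z * M‖ = ‖(Z * M - 1) + 1‖ := by rw [← e1]
        _ ≤ ‖Z * M - 1‖ + ‖(1 : ℂ)‖ := norm_add_le _ _
        _ ≤ 1 / (2 * L) + 1 := by
          rw [norm_one]
          linarith
        _ ≤ 2 := by linarith
    have h4 : 0 ≤ ‖Z‖ := norm_nonneg _
    have h5 : ‖Z‖ * (1 / 2) ≤ ‖Z‖ * (E * ‖M‖) := mul_le_mul_of_nonneg_left h2 h4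
    have h6 : ‖Z‖ * (E * ‖M‖) = E * (‖Z‖ * ‖M‖) := by ring
    have h7 : E * (‖Z‖ * ‖M‖) ≤ E * 2 := by gcongr
    linarith
  -- (5)
  have hUu := hu.1
  have huU := hu.2
  have hza' := hza u (by linarith) ⌈U⌉₊ (by
    have := Nat.le_ceil U
    linarith) (by
    have h1 := (Nat.ceil_lt_add_one hU0.le).le
    have h2 : U ≤ u ^ 2 := by
      rw [sq]
      exact hUu.trans (le_mul_of_one_le_left (by linarith) (by linarith))
    linarith)
  have hzE : C * u ^ (1 - 2 * σ) * E ≤ 1 / (4 * L) := by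
    have h1 : u ^ (1 - 2 * σ) ≤ U ^ (1 - 2 * σ) :=
      Real.rpow_le_rpow_of_nonpos hU0 hUu (by linarith)
    have h2 : U ^ (1 - 2 * σ) = Real.exp (-(κ * L)) := by
      rw [Real.rpow_def_of_pos hU0, ← hL, hκ]
      congr 1
      ring
    have h3 : C = Real.exp (Real.log C) := (Real.exp_log hC).symm
    calc C * u ^ (1 - 2 * σ) * E ≤ C * Real.exp (-(κ * L)) * E := by
          rw [← h2]
          gcongr
      _ = Real.exp (Real.log C + -(κ * L) + (V + c₁)) := by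
          rw [Real.exp_add, Real.exp_add, ← h3]
      _ ≤ Real.exp (-(Real.log 4 + Real.log L)) := by
          apply Real.exp_le_exp.2
          rw [hK] at g4
          have h4 : c₂ * L ≤ κ * L := mul_le_mul_of_nonneg_right hc₂κ hL0.le
          have h5 := le_abs_self (Real.log C)
          have h6 : 0 < L ^ (1 - σ / 4) := Real.rpow_pos_of_pos hL0 _
          linarith
      _ = 1 / (4 * L) := by
          rw [Real.exp_neg, Real.exp_add, hexpl, Real.exp_log (by norm_num), one_div]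
  have hid : riemannZeta ((σ : ℂ) + (u : ℂ) * I) * eulS σ 0 z u - 1 =
      (zsum ((σ : ℂ) + (u : ℂ) * I) ⌈U⌉₊ * mollS σ w z J u - 1) +
        zsum ((σ : ℂ) + (u : ℂ) * I) ⌈U⌉₊ * (eulS σ 0 z u - mollS σ w z J u) +
        (riemannZeta ((σ : ℂ) + (u : ℂ) * I) - zsum ((σ : ℂ) + (u : ℂ) * I) ⌈U⌉₊) *
          eulS σ 0 z u := by ring
  rw [hid]
  have n1 : ‖zsum ((σ : ℂ) + (u : ℂ) * I) ⌈U⌉₊ * (eulS σ 0 z u - mollS σ w z J u)‖ ≤
      1 / (4 * L) := by
    rw [norm_mul, ← hD]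
    have hD0 : 0 ≤ D := norm_nonneg _
    calc ‖zsum ((σ : ℂ) + (u : ℂ) * I) ⌈U⌉₊‖ * D ≤ 4 * E * D := by gcongr
      _ = 4 * (E * D) := by ring
      _ ≤ 4 * (1 / (16 * L)) := by gcongr
      _ = 1 / (4 * L) := by
        field_simp
        norm_num
  have n2 : ‖(riemannZeta ((σ : ℂ) + (u : ℂ) * I) - zsum ((σ : ℂ) + (u : ℂ) * I) ⌈U⌉₊) *
      eulS σ 0 z u‖ ≤ 1 / (4 * L) := by
    rw [norm_mul]
    refine le_trans ?_ hzE
    have : 0 ≤ C * u ^ (1 - 2 * σ) := (norm_nonneg _).trans hza'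
    gcongr
  have n3 : 1 / L = 1 / (2 * L) + 1 / (4 * L) + 1 / (4 * L) := by
    field_simp
    norm_num
  rw [n3]
  refine (norm_add_le _ _).trans (add_le_add ((norm_add_le _ _).trans (add_le_add hmoll n1)) n2)

end Pool.Agent.Lib.MP_aa9ae4_nt.S1
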