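import Mathlib
import Pool.Agent.Lib.MP_aa9ae4_nt.S1.SpecG
import Pool.Agent.Lib.MP_aa9ae4_nt.Except

/-!
MP_aa9ae4_nt, Theorem S, `S_Gr`: the measure of the set where a rough block is large.
-/

namespace Pool.Agent.Lib.MP_aa9ae4_nt.S1

open Finset MeasureTheory Filter Topology
open Complex (I)

private theorem pGr_cont (σ : ℝ) (Y W : ℕ) (c : ℕ → ℂ) :
    Continuous (fun u : ℝ => ∑ k ∈ Ioc Y W, c k * pw σ k u) := by
  refine continuous_finsetSum _ fun k hk => ?_
  have hk0 : (k : ℂ) ≠ 0 := by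
    have := (mem_Ioc.1 hk).1
    exact_mod_cast (by omega : k ≠ 0)
  refine continuous_const.mul ?_
  unfold pw
  refine Continuous.const_cpow ?_ (Or.inl hk0)
  fun_prop

/-- the choice of the exponent `m` -/
private theorem pGr_m (L B l lY : ℝ) (hL0 : 0 < L) (hB : 0 < B) (hl0 : 0 < l)
    (hBl : B * l ≤ L) (hlY : B * l ≤ lY) :
    ∃ m : ℕ, 1 ≤ m ∧ (lY ≤ L → (m : ℝ) * lY ≤ L) ∧ (L < lY → m = 1) ∧ L / 2 ≤ m * lY ∧
      (m : ℝ) ≤ L / (B * l) := by
  have hBl0 : 0 < B * l := by positivity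
  have hlY0 : 0 < lY := by linarith
  rcases le_or_gt lY L with h | h
  · refine ⟨⌊L / lY⌋₊, ?_, fun _ => ?_, fun h' => absurd h' (not_lt.2 h), ?_, ?_⟩
    · rw [Nat.one_le_floor_iff, le_div_iff₀ hlY0, one_mul]
      exact h
    · have h1 := Nat.floor_le (show 0 ≤ L / lY by positivity)
      rwa [le_div_iff₀ hlY0] at h1
    · have h1 : 1 ≤ ⌊L / lY⌋₊ := by
        rw [Nat.one_le_floor_iff, le_div_iff₀ hlY0, one_mul]
        exact h
      have h1' : (1 : ℝ) ≤ ⌊L / lY⌋₊ := by exact_mod_cast h1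
      have h2 := Nat.lt_floor_add_one (L / lY)
      rw [div_lt_iff₀ hlY0] at h2
      nlinarith
    · exact (Nat.floor_le (by positivity)).trans (div_le_div_of_nonneg_left hL0.le hBl0 hlY)
  · refine ⟨1, le_rfl, fun h' => absurd h (not_lt.2 h'), fun _ => rfl, ?_, ?_⟩
    · push_cast
      linarith
    · rw [Nat.cast_one, le_div_iff₀ hBl0, one_mul]
      exact hBl

theorem pGr (hRm : S_Rm) : S_Gr := by
  intro σ hσ hσ1
  obtain ⟨C, hC, hrough⟩ := hRm
  obtain ⟨κ, hκ⟩ : ∃ κ : ℝ, κ = 2 * σ - 1 := ⟨_, rfl⟩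
  have hκ0 : 0 < κ := by linarith
  have hκ1 : κ < 1 := by linarith
  obtain ⟨B, hBdef⟩ : ∃ B : ℕ, B = Bs σ := ⟨_, rfl⟩
  have hB1 : 20 / κ ≤ B := by
    rw [hBdef, Bs, hκ]
    exact Nat.le_ceil _
  have hBκ : 20 ≤ κ * B := by
    rw [div_le_iff₀ hκ0] at hB1
    linarith
  have hB20 : (20 : ℝ) ≤ B := by nlinarith [Nat.cast_nonneg (α := ℝ) B]
  have hB0 : (0 : ℝ) < B := by linarith
  have hev : ∀ᶠ U : ℝ in atTop, 100 ≤ Real.log U ∧ 21 ≤ Real.log (Real.log U) ∧
      B * Real.log (Real.log U) ≤ Real.log U ∧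
      3 * C ≤ Real.exp (0.035 * κ * Real.log U) := by
    have h0 : ∀ᶠ x : ℝ in atTop, 3 * C * x ^ 0 ≤ Real.exp (0.035 * κ * x) :=
      except_poly_exp (3 * C) (0.035 * κ) (by positivity) 0
    have h1 := Real.tendsto_log_atTop.eventually h0
    have h2 := Real.tendsto_log_atTop.eventually (eventually_ge_atTop (100 : ℝ))
    have h3 := (Real.tendsto_log_atTop.comp Real.tendsto_log_atTop).eventually
      (eventually_ge_atTop (21 : ℝ))
    have h4 : ∀ᶠ x : ℝ in atTop, B * Real.log x ≤ x := by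
      have h := Real.isLittleO_log_id_atTop.bound (c := 1 / B) (by positivity)
      filter_upwards [h, eventually_ge_atTop (1 : ℝ)] with x hx hx1
      rw [id, Real.norm_of_nonneg (Real.log_nonneg hx1), Real.norm_of_nonneg (by linarith),
        div_mul_eq_mul_div, one_mul, le_div_iff₀ hB0] at hx
      linarith
    have h5 := Real.tendsto_log_atTop.eventually h4
    filter_upwards [h1, h2, h3, h5] with U a b c d
    exact ⟨b, c, d, by simpa using a⟩
  obtain ⟨U₁, hU₁⟩ := eventually_atTop.1 hev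
  refine ⟨κ / 10, max U₁ 1, by positivity, fun U hU z Y c hz hzY hY2 hc1 hc2 => ?_⟩
  obtain ⟨hL, hl, hBl, hnum⟩ := hU₁ U ((le_max_left _ _).trans hU)
  have hU1 : 1 ≤ U := (le_max_right _ _).trans hU
  have hU0 : 0 < U := by linarith
  rw [Real.rpow_def_of_pos hU0, mul_comm (Real.log U) (1 - κ / 10)]
  rw [← hBdef] at hz
  have hUe : U = Real.exp (Real.log U) := (Real.exp_log hU0).symm
  obtain ⟨L, hLdef⟩ : ∃ L : ℝ, L = Real.log U := ⟨_, rfl⟩
  rw [← hLdef] at hL hl hBl hnum hz hUe ⊢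
  obtain ⟨l, hldef⟩ : ∃ l : ℝ, l = Real.log L := ⟨_, rfl⟩
  rw [← hldef] at hl hBl
  have hL0 : 0 < L := by linarith
  have hl0 : 0 < l := by linarith
  have hz0 : (0 : ℝ) < z := lt_of_lt_of_le (by positivity) hz
  have hYr : (z : ℝ) ≤ Y := by exact_mod_cast hzY
  have hY0 : (0 : ℝ) < Y := by linarith
  have hlz : B * l ≤ Real.log z := by
    have := Real.log_le_log (by positivity) hz
    rw [Real.log_pow, ← hldef] at this
    exact this
  have hBl0 : 0 < B * l := by positivity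
  have hlz0 : 0 < Real.log z := by linarith
  have hlY : B * l ≤ Real.log Y := hlz.trans (Real.log_le_log hz0 hYr)
  have hlY0 : 0 < Real.log Y := by linarith
  have hz2 : 2 ≤ z := by
    have h1 : (2 : ℝ) ≤ z := by
      have h2 := Real.add_one_le_exp (Real.log (z : ℝ))
      rw [Real.exp_log hz0] at h2
      nlinarith
    exact_mod_cast h1
  obtain ⟨m, hm1, hmle, hmone, hmge, hmB⟩ := pGr_m L B l (Real.log Y) hL0 hB0 hl0 hBl hlY
  have hmr : (1 : ℝ) ≤ m := by exact_mod_cast hm1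
  have hmB' : (m : ℝ) * l ≤ L / B := by
    rw [le_div_iff₀ hBl0] at hmB
    rw [le_div_iff₀ hB0]
    linarith
  have hmL : (m : ℝ) ≤ L / 420 := by
    have : (m : ℝ) * 420 ≤ m * (B * l) := by
      apply mul_le_mul_of_nonneg_left _ (by linarith)
      nlinarith
    rw [le_div_iff₀ hBl0] at hmB
    rw [le_div_iff₀ (by norm_num)]
    linarith
  have hYm : (Y : ℝ) ^ m ≤ 2 * U := by
    rcases le_or_gt (Real.log Y) L with h | h
    · have h1 := hmle h
      have h2 : (Y : ℝ) ^ m = Real.exp (m * Real.log Y) := by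
        rw [← Real.log_pow, Real.exp_log (by positivity)]
      rw [h2]
      calc Real.exp (m * Real.log Y) ≤ Real.exp L := Real.exp_le_exp.2 h1
        _ ≤ 2 * U := by rw [← hUe]; linarith
    · rw [hmone h, pow_one]
      exact hY2
  have hlog2 : Real.log 2 < 0.7 := by
    have := Real.log_two_lt_d9
    linarith
  have hlY2 : (m : ℝ) * Real.log Y ≤ L + 0.7 := by
    rcases le_or_gt (Real.log Y) L with h | h
    · linarith [hmle h]
    · rw [hmone h]
      have h1 := Real.log_le_log hY0 hY2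
      rw [Real.log_mul (by norm_num) hU0.ne', ← hLdef] at h1
      push_cast
      linarith
  have h1 := hrough σ U z Y m c hσ hσ1 hU1 hz2 hzY hm1 (fun k _ => hc1 k) (fun k _ => hc2 k)
  refine (except_markov _ (pGr_cont σ Y (2 * Y) c) U (1 / L ^ 3) _ m (by positivity)
    (by linarith) h1).trans ?_
  apply ENNReal.ofReal_le_ofReal
  have hV : (1 / L ^ 3) ^ (2 * m) = 1 / L ^ (6 * m) := by
    rw [div_pow, one_pow, ← pow_mul]
    congr 2
    ring
  rw [hV, div_div_eq_mul_div, div_one]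
  have g1 : U + (2 * (Y : ℝ)) ^ m ≤ 3 * 2 ^ m * U := by
    rw [mul_pow]
    have h2 : (1 : ℝ) ≤ 2 ^ m := one_le_pow₀ (by norm_num)
    have h3 : (2 : ℝ) ^ m * (Y : ℝ) ^ m ≤ 2 ^ m * (2 * U) := by gcongr
    nlinarith
  have g2 : (m : ℝ) ^ (m * Real.log (2 * Y) / Real.log z) ≤ Real.exp (1.2 * (L / B)) := by
    rw [Real.rpow_def_of_pos (by linarith)]
    apply Real.exp_le_exp.2
    have k1 : Real.log (2 * Y) = Real.log 2 + Real.log Y := Real.log_mul (by norm_num) hY0.ne'
    have k2 : (m : ℝ) * Real.log (2 * Y) ≤ 1.2 * L := by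
      rw [k1, mul_add]
      have : (m : ℝ) * Real.log 2 ≤ m * 0.7 := by gcongr
      linarith
    have k3 : Real.log m ≤ l := by
      rw [hldef]
      apply Real.log_le_log (by linarith)
      linarith
    have k4 : 0 ≤ Real.log m := Real.log_nonneg hmr
    have k5 : (m : ℝ) * Real.log (2 * Y) / Real.log z ≤ 1.2 * L / (B * l) := by
      apply div_le_div₀ (by positivity) k2 hBl0 hlz
    have k6 : 0 ≤ Real.log 2 := Real.log_nonneg (by norm_num)
    calc Real.log m * (m * Real.log (2 * Y) / Real.log z)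
        ≤ l * (1.2 * L / (B * l)) := by
          apply mul_le_mul k3 k5 _ hl0.le
          apply div_nonneg _ hlz0.le
          rw [k1]
          positivity
      _ = 1.2 * (L / B) := by field_simp
  have g3 : (Y : ℝ) ^ (m * (1 - 2 * σ)) ≤ Real.exp (-(κ * (L / 2))) := by
    rw [Real.rpow_def_of_pos hY0]
    apply Real.exp_le_exp.2
    have : Real.log Y * (m * (1 - 2 * σ)) = -(κ * (m * Real.log Y)) := by
      rw [hκ]; ring
    rw [this]
    have := mul_le_mul_of_nonneg_left hmge hκ0.le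
    linarith
  have g4 : L ^ (6 * m) ≤ Real.exp (6 * (L / B)) := by
    have : L ^ (6 * m) = Real.exp (6 * (m * l)) := by
      have e : (6 * (m * l) : ℝ) = Real.log (L ^ (6 * m)) := by
        rw [Real.log_pow, ← hldef]; push_cast; ring
      rw [e, Real.exp_log (by positivity)]
    rw [this]
    apply Real.exp_le_exp.2
    linarith
  have g5 : (2 : ℝ) ^ m * 4 ^ m ≤ Real.exp (0.1 * (L / B)) := by
    have k1 : (2 : ℝ) ^ m * 4 ^ m = Real.exp (m * Real.log 8) := by
      rw [← mul_pow, mul_comm (m : ℝ), Real.exp_mul, Real.exp_log (by norm_num), Real.rpow_natCast]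
      norm_num
    rw [k1]
    apply Real.exp_le_exp.2
    have k2 : Real.log 8 ≤ 2.1 := by
      have : (8 : ℝ) = 2 ^ 3 := by norm_num
      rw [this, Real.log_pow]
      push_cast
      linarith
    have k3 : (m : ℝ) * 21 ≤ m * l := by gcongr
    have k4 : (m : ℝ) * Real.log 8 ≤ m * 2.1 := by gcongr
    linarith
  have hLB : L / B ≤ κ * L / 20 := by
    rw [div_le_iff₀ hB0]
    nlinarith
  calc C * (U + (2 * (Y : ℝ)) ^ m) * (m : ℝ) ^ (m * Real.log (2 * Y) / Real.log z) *
        (4 ^ m * (Y : ℝ) ^ (m * (1 - 2 * σ))) * L ^ (6 * m)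
      ≤ C * (3 * 2 ^ m * U) * Real.exp (1.2 * (L / B)) *
        (4 ^ m * Real.exp (-(κ * (L / 2)))) * Real.exp (6 * (L / B)) := by gcongr
    _ = (3 * C) * (2 ^ m * 4 ^ m) * (U * Real.exp (1.2 * (L / B)) * Real.exp (-(κ * (L / 2))) *
        Real.exp (6 * (L / B))) := by ring
    _ ≤ Real.exp (0.035 * κ * L) * Real.exp (0.1 * (L / B)) * (Real.exp L *
        Real.exp (1.2 * (L / B)) * Real.exp (-(κ * (L / 2))) * Real.exp (6 * (L / B))) := by
        rw [← hUe]
        gcongr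
    _ = Real.exp (0.035 * κ * L + 0.1 * (L / B) + (L + 1.2 * (L / B) + -(κ * (L / 2)) +
        6 * (L / B))) := by
        simp only [Real.exp_add]
    _ ≤ Real.exp ((1 - κ / 10) * L) := by
        apply Real.exp_le_exp.2
        linarith

end Pool.Agent.Lib.MP_aa9ae4_nt.S1
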