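import Mathlib
import Pool.Agent.Lib.MP_aa9ae4_nt.S1.SpecG
import Pool.Agent.Lib.MP_aa9ae4_nt.Except

/-!
MP_aa9ae4_nt, Theorem S, `S_Gs`: the measure of the set where the prime sum is large.
-/

namespace Pool.Agent.Lib.MP_aa9ae4_nt.S1

open Finset MeasureTheory Filter Topology
open Complex (I)

private theorem pGs_cont (σ : ℝ) (y z : ℕ) : Continuous (fun u : ℝ => psumS σ y z u) := by
  unfold psumS
  refine continuous_finsetSum _ fun k hk => ?_
  have hk0 : (k : ℂ) ≠ 0 := by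
    have := (mem_Ioc.1 (mem_filter.1 hk).1).1
    exact_mod_cast (by omega : k ≠ 0)
  unfold pw
  refine Continuous.const_cpow ?_ (Or.inl hk0)
  fun_prop

theorem pGs (hHm : S_Hm) (hSz : S_Sz) : S_Gs := by
  intro σ hσ hσ1
  obtain ⟨C, hC, hmom⟩ := hHm
  obtain ⟨hSz1, -, -, -⟩ := hSz
  obtain ⟨κ, hκ⟩ : ∃ κ : ℝ, κ = 2 * σ - 1 := ⟨_, rfl⟩
  have hκ0 : 0 < κ := by linarith
  have hκ1 : κ < 1 := by linarith
  have hσ0 : 0 < σ := by linarith
  obtain ⟨B, hBdef⟩ : ∃ B : ℕ, B = Bs σ := ⟨_, rfl⟩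
  have hB1 : 20 / κ ≤ B := by
    rw [hBdef, Bs, hκ]
    exact Nat.le_ceil _
  have hBκ : 20 ≤ κ * B := by
    rw [div_le_iff₀ hκ0] at hB1
    linarith
  have hB20 : (20 : ℝ) ≤ B := by nlinarith [Nat.cast_nonneg (α := ℝ) B]
  have hB0 : (0 : ℝ) < B := by linarith
  obtain ⟨C', hC'⟩ : ∃ C' : ℝ, C' = 4 * (κ / 64) ^ (-κ) / κ := ⟨_, rfl⟩
  have hC'0 : 0 < C' := by rw [hC']; positivity
  have hev : ∀ᶠ U : ℝ in atTop, 100 ≤ Real.log U ∧ 1 ≤ Real.log (Real.log U) ∧
      64 / κ ≤ Real.log U ∧ 3 * B * Real.log (Real.log U) ≤ Real.log U ∧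
      C' ≤ Real.exp (σ / 2 * Real.log (Real.log U)) ∧
      2 * C * Real.log U ≤ Real.exp (σ / (42 * B) * Real.log U) := by
    have h0 : ∀ᶠ x : ℝ in atTop, C' * x ^ 0 ≤ Real.exp (σ / 2 * x) :=
      except_poly_exp C' (σ / 2) (by positivity) 0
    have h1 := (Real.tendsto_log_atTop.comp Real.tendsto_log_atTop).eventually h0
    have h2 := Real.tendsto_log_atTop.eventually (eventually_ge_atTop (100 : ℝ))
    have h3 := (Real.tendsto_log_atTop.comp Real.tendsto_log_atTop).eventually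
      (eventually_ge_atTop (1 : ℝ))
    have h2' := Real.tendsto_log_atTop.eventually (eventually_ge_atTop (64 / κ : ℝ))
    have h4 : ∀ᶠ x : ℝ in atTop, 3 * B * Real.log x ≤ x := by
      have h := Real.isLittleO_log_id_atTop.bound (c := 1 / (3 * B)) (by positivity)
      filter_upwards [h, eventually_ge_atTop (1 : ℝ)] with x hx hx1
      rw [id, Real.norm_of_nonneg (Real.log_nonneg hx1), Real.norm_of_nonneg (by linarith),
        div_mul_eq_mul_div, one_mul, le_div_iff₀ (by positivity)] at hx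
      linarith
    have h5 := Real.tendsto_log_atTop.eventually h4
    have h6 : ∀ᶠ x : ℝ in atTop, 2 * C * x ^ 1 ≤ Real.exp (σ / (42 * B) * x) :=
      except_poly_exp (2 * C) (σ / (42 * B)) (by positivity) 1
    have h7 := Real.tendsto_log_atTop.eventually h6
    filter_upwards [h1, h2, h3, h2', h5, h7] with U a b c d e f
    exact ⟨b, c, d, e, by simpa using a, by simpa using f⟩
  obtain ⟨U₁, hU₁⟩ := eventually_atTop.1 hev
  refine ⟨σ / (7 * B), max U₁ 1, by positivity, fun U hU z hz hz3 => ?_⟩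
  obtain ⟨hL, hl, hLκ, hBl, hC'l, hnum⟩ := hU₁ U ((le_max_left _ _).trans hU)
  have hU1 : 1 ≤ U := (le_max_right _ _).trans hU
  have hU0 : 0 < U := by linarith
  rw [Real.rpow_def_of_pos hU0, mul_comm (Real.log U) (1 - σ / (7 * B))]
  rw [← hBdef] at hz hz3
  have hUe : U = Real.exp (Real.log U) := (Real.exp_log hU0).symm
  have hw : wU σ U = ⌊κ / 32 * Real.log U⌋₊ := by rw [wU, hκ]
  obtain ⟨w, hwdef⟩ : ∃ w : ℕ, w = wU σ U := ⟨_, rfl⟩
  rw [← hwdef] at hw ⊢
  obtain ⟨L, hLdef⟩ : ∃ L : ℝ, L = Real.log U := ⟨_, rfl⟩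
  rw [← hLdef] at hL hl hLκ hBl hC'l hnum hz hz3 hUe hw ⊢
  obtain ⟨l, hldef⟩ : ∃ l : ℝ, l = Real.log L := ⟨_, rfl⟩
  rw [← hldef] at hl hBl hC'l
  have hL0 : 0 < L := by linarith
  have hl0 : 0 < l := by linarith
  have hLe : L = Real.exp l := by rw [hldef, Real.exp_log hL0]
  have hwge : κ * L / 64 ≤ w := by
    have h1 := Nat.lt_floor_add_one (κ / 32 * L)
    rw [← hw] at h1
    rw [div_le_iff₀ hκ0] at hLκ
    linarith
  have hκL : 0 < κ * L / 64 := by positivity
  have hw0 : (0 : ℝ) < w := by linarith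
  have hw1 : 1 ≤ w := by
    have : 0 < w := by exact_mod_cast hw0
    omega
  have hz0 : (0 : ℝ) < z := lt_of_lt_of_le (by positivity) hz
  have hlz : B * l ≤ Real.log z := by
    have := Real.log_le_log (by positivity) hz
    rw [Real.log_pow, ← hldef] at this
    exact this
  have hlz3 : Real.log z ≤ 3 * B * l := by
    have := Real.log_le_log hz0 hz3
    rw [Real.log_pow, ← hldef] at this
    push_cast at this
    exact this
  have hBl0 : 0 < B * l := by positivity
  have hlz0 : 0 < Real.log z := by linarith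
  obtain ⟨m, hm⟩ : ∃ m : ℕ, m = ⌊L / Real.log z⌋₊ := ⟨_, rfl⟩
  have hmle : (m : ℝ) * Real.log z ≤ L := by
    have h1 := Nat.floor_le (show 0 ≤ L / Real.log z by positivity)
    rw [le_div_iff₀ hlz0, ← hm] at h1
    exact h1
  have hmge : L / (3 * B * l) - 1 ≤ m := by
    have h1 := Nat.lt_floor_add_one (L / Real.log z)
    rw [← hm] at h1
    have h2 : L / (3 * B * l) ≤ L / Real.log z :=
      div_le_div_of_nonneg_left hL0.le hlz0 hlz3
    linarith
  have hmL : (m : ℝ) ≤ L := by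
    have h1 : (1 : ℝ) ≤ Real.log z := by nlinarith
    have h2 : (m : ℝ) * 1 ≤ m * Real.log z := by gcongr
    linarith
  have hzm : (z : ℝ) ^ m ≤ U := by
    have h2 : (z : ℝ) ^ m = Real.exp (m * Real.log z) := by
      rw [← Real.log_pow, Real.exp_log (by positivity)]
    rw [h2, hUe]
    exact Real.exp_le_exp.2 hmle
  have h1 := hmom σ U w z m hU1
  have hVpos : 0 < L ^ (1 - σ / 2) / 2 := by positivity
  refine (except_markov _ (pGs_cont σ w z) U (L ^ (1 - σ / 2) / 2) _ m hVpos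
    (by linarith) h1).trans ?_
  apply ENNReal.ofReal_le_ofReal
  have hLr : ∀ x : ℝ, L ^ x = Real.exp (x * l) := fun x => by
    rw [Real.rpow_def_of_pos hL0, ← hldef, mul_comm]
  have hV : (L ^ (1 - σ / 2) / 2) ^ (2 * m) = (Real.exp ((2 - σ) * l) / 4) ^ m := by
    rw [pow_mul, div_pow, hLr, ← Real.exp_nat_mul]
    congr 2
    · congr 1
      push_cast
      ring
    · norm_num
  rw [hV]
  have g1 : (m.factorial : ℝ) ≤ L ^ m := by
    have h2 : (m.factorial : ℝ) ≤ (m : ℝ) ^ m := by exact_mod_cast Nat.factorial_le_pow m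
    exact h2.trans (pow_le_pow_left₀ (Nat.cast_nonneg m) hmL m)
  have g2 : tail (2 * σ) w z ≤ C' / 4 * Real.exp (-κ * l) := by
    have k1 := hSz1 (2 * σ) (by linarith) w z hw1
    have e1 : 1 - 2 * σ = -κ := by rw [hκ]; ring
    rw [e1, ← hκ] at k1
    refine k1.trans ?_
    have k2 : (w : ℝ) ^ (-κ) ≤ (κ * L / 64) ^ (-κ) :=
      Real.rpow_le_rpow_of_nonpos hκL hwge (by linarith)
    have k3 : (κ * L / 64) ^ (-κ) = (κ / 64) ^ (-κ) * Real.exp (-κ * l) := by
      rw [← hLr, ← Real.mul_rpow (by positivity) hL0.le]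
      congr 1
      ring
    calc (w : ℝ) ^ (-κ) / κ ≤ (κ * L / 64) ^ (-κ) / κ := by gcongr
      _ = C' / 4 * Real.exp (-κ * l) := by
        rw [k3, hC']
        field_simp
  have g0 : 0 ≤ tail (2 * σ) w z := by
    unfold tail
    exact sum_nonneg fun p _ => by positivity
  have g3 : U + (z : ℝ) ^ m ≤ 2 * U := by linarith
  rw [div_le_iff₀ (by positivity)]
  have g4 : C' * Real.exp (-κ * l) / 4 * L ≤
      Real.exp (-(σ / 2) * l) * (Real.exp ((2 - σ) * l) / 4) := by
    calc C' * Real.exp (-κ * l) / 4 * L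
        ≤ Real.exp (σ / 2 * l) * Real.exp (-κ * l) / 4 * Real.exp l := by
          rw [← hLe]
          gcongr
      _ = Real.exp (σ / 2 * l + -κ * l + l) / 4 := by
          rw [Real.exp_add, Real.exp_add]; ring
      _ = Real.exp (-(σ / 2) * l + (2 - σ) * l) / 4 := by
          congr 2
          rw [hκ]; ring
      _ = _ := by rw [Real.exp_add]; ring
  have g5 : Real.exp (-(σ / 2) * l) ^ m ≤ Real.exp (-(σ * L / (6 * B)) + l) := by
    rw [← Real.exp_nat_mul]
    apply Real.exp_le_exp.2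
    have k1 : (L / (3 * B * l) - 1) * (σ / 2 * l) ≤ m * (σ / 2 * l) :=
      mul_le_mul_of_nonneg_right hmge (by positivity)
    have k2 : (L / (3 * B * l) - 1) * (σ / 2 * l) = σ * L / (6 * B) - σ / 2 * l := by
      field_simp
      ring
    have k3 : σ / 2 * l ≤ l := by nlinarith
    linarith
  calc C * (U + (z : ℝ) ^ m) * (m.factorial * tail (2 * σ) w z ^ m)
      ≤ C * (2 * U) * (L ^ m * (C' / 4 * Real.exp (-κ * l)) ^ m) := by gcongr
    _ = C * (2 * U) * (C' * Real.exp (-κ * l) / 4 * L) ^ m := by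
        rw [← mul_pow]
        congr 2
        ring
    _ ≤ C * (2 * U) * (Real.exp (-(σ / 2) * l) * (Real.exp ((2 - σ) * l) / 4)) ^ m := by
        gcongr
    _ = C * (2 * U) * (Real.exp (-(σ / 2) * l)) ^ m * (Real.exp ((2 - σ) * l) / 4) ^ m := by
        rw [mul_pow]; ring
    _ ≤ C * (2 * U) * Real.exp (-(σ * L / (6 * B)) + l) *
        (Real.exp ((2 - σ) * l) / 4) ^ m := by gcongr
    _ ≤ Real.exp ((1 - σ / (7 * B)) * L) * (Real.exp ((2 - σ) * l) / 4) ^ m := by
        gcongr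
        calc C * (2 * U) * Real.exp (-(σ * L / (6 * B)) + l)
            = (2 * C * L) * (Real.exp L * Real.exp (-(σ * L / (6 * B)))) := by
              rw [Real.exp_add, ← hLe, ← hUe]; ring
          _ ≤ Real.exp (σ / (42 * B) * L) * (Real.exp L * Real.exp (-(σ * L / (6 * B)))) := by
              gcongr
          _ = Real.exp ((1 - σ / (7 * B)) * L) := by
              rw [← Real.exp_add, ← Real.exp_add]
              congr 1
              field_simp
              ring

end Pool.Agent.Lib.MP_aa9ae4_nt.S1
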