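import Pool.Agent.Lib.MP_aa9ae4_nt.S1.SpecM

/-!
MP_aa9ae4_nt, Theorem S: the weighted means over the good set converge.
-/

namespace Pool.Agent.Lib.MP_aa9ae4_nt.S1

open Finset MeasureTheory Filter Topology
open Complex (I)

private lemma lim_pw_norm (σ : ℝ) (p : ℕ) (hp : 0 < p) (u : ℝ) :
    ‖pw σ p u‖ = (p : ℝ) ^ (-σ) := by
  unfold pw
  rw [Complex.norm_natCast_cpow_of_pos hp]
  congr 1
  simp

private lemma lim_pw_lt (σ : ℝ) (hσ : 1 / 2 < σ) (p : ℕ) (hp : p.Prime) (u : ℝ) :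
    ‖pw σ p u‖ ≤ 3 / 4 := by
  rw [lim_pw_norm σ p hp.pos]
  have h2 : (2 : ℝ) ≤ p := by exact_mod_cast hp.two_le
  calc (p : ℝ) ^ (-σ) ≤ (2 : ℝ) ^ (-σ) :=
        Real.rpow_le_rpow_of_nonpos (by norm_num) h2 (by linarith)
    _ ≤ (2 : ℝ) ^ (-(1 / 2) : ℝ) :=
        Real.rpow_le_rpow_of_exponent_le (by norm_num) (by linarith)
    _ ≤ 3 / 4 := by
        rw [Real.rpow_neg (by norm_num), ← Real.sqrt_eq_rpow]
        have h3 : (4 / 3 : ℝ) ≤ √2 := Real.le_sqrt_of_sq_le (by norm_num)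
        calc (√2)⁻¹ ≤ (4 / 3 : ℝ)⁻¹ := inv_anti₀ (by norm_num) h3
          _ = 3 / 4 := by norm_num

private lemma lim_pw_cont (σ : ℝ) (p : ℕ) (hp : 0 < p) : Continuous (pw σ p) := by
  unfold pw
  have h0 : (p : ℂ) ≠ 0 := by exact_mod_cast hp.ne'
  exact Continuous.const_cpow (by fun_prop) (Or.inl h0)

private lemma lim_prime {y z p : ℕ} (hp : p ∈ prs y z) : p.Prime := (mem_filter.1 hp).2

private lemma lim_eul_cont (σ : ℝ) (y z : ℕ) : Continuous (eulS σ y z) := by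
  unfold eulS
  exact continuous_finsetProd _ fun p hp =>
    continuous_const.sub (lim_pw_cont σ p (lim_prime hp).pos)

private lemma lim_eul_bd (σ : ℝ) (hσ : 1 / 2 < σ) (y z : ℕ) (u : ℝ) :
    (1 / 4 : ℝ) ^ (prs y z).card ≤ ‖eulS σ y z u‖ ∧ ‖eulS σ y z u‖ ≤ 4 ^ (prs y z).card := by
  unfold eulS
  rw [norm_prod]
  constructor
  · rw [← Finset.prod_const]
    refine Finset.prod_le_prod (fun _ _ => by norm_num) fun p hp => ?_
    have h1 := lim_pw_lt σ hσ p (lim_prime hp) u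
    have h2 : ‖(1 : ℂ)‖ - ‖pw σ p u‖ ≤ ‖1 - pw σ p u‖ := norm_sub_norm_le _ _
    rw [norm_one] at h2
    linarith
  · rw [← Finset.prod_const]
    refine Finset.prod_le_prod (fun _ _ => norm_nonneg _) fun p hp => ?_
    have h1 := lim_pw_lt σ hσ p (lim_prime hp) u
    have h2 : ‖1 - pw σ p u‖ ≤ ‖(1 : ℂ)‖ + ‖pw σ p u‖ := norm_sub_le _ _
    rw [norm_one] at h2
    linarith

private lemma lim_eul_pos (σ : ℝ) (hσ : 1 / 2 < σ) (y z : ℕ) (u : ℝ) :
    0 < ‖eulS σ y z u‖ :=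
  lt_of_lt_of_le (by positivity) (lim_eul_bd σ hσ y z u).1

private lemma lim_g_cont (σ a γ : ℝ) (hσ : 1 / 2 < σ) (y z : ℕ) :
    Continuous fun t : ℝ => ‖eulS σ y z (a * t)‖ ^ γ := by
  have h1 : Continuous fun t : ℝ => ‖eulS σ y z (a * t)‖ :=
    ((lim_eul_cont σ y z).comp (continuous_const.mul continuous_id)).norm
  exact h1.rpow_const fun t => Or.inl (lim_eul_pos σ hσ y z (a * t)).ne'

private lemma lim_g_bd (σ a γ : ℝ) (hσ : 1 / 2 < σ) (y z : ℕ) :
    ∃ B : ℝ, 0 < B ∧ ∀ t : ℝ, ‖eulS σ y z (a * t)‖ ^ γ ≤ B := by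
  refine ⟨max (((1 / 4 : ℝ) ^ (prs y z).card) ^ γ) (((4 : ℝ) ^ (prs y z).card) ^ γ),
    lt_max_of_lt_left (by positivity), fun t => ?_⟩
  obtain ⟨h1, h2⟩ := lim_eul_bd σ hσ y z (a * t)
  rcases le_or_gt 0 γ with hγ | hγ
  · exact le_max_of_le_right (Real.rpow_le_rpow (norm_nonneg _) h2 hγ)
  · exact le_max_of_le_left (Real.rpow_le_rpow_of_nonpos (by positivity) h1 hγ.le)

private lemma lim_split (σ : ℝ) (y z : ℕ) (h : y ≤ z) (u : ℝ) :
    eulS σ 0 z u = eulS σ 0 y u * eulS σ y z u := by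
  unfold eulS
  rw [← Finset.prod_union]
  · congr 1
    unfold prs
    rw [← Finset.filter_union]
    congr 1
    ext n
    simp only [mem_union, mem_Ioc]
    omega
  · unfold prs
    rw [Finset.disjoint_left]
    intro n h1 h2
    simp only [mem_filter, mem_Ioc] at h1 h2
    omega

private lemma lim_zT (σ : ℝ) (hσ : 1 / 2 < σ) (y : ℕ) : ∀ᶠ T : ℝ in atTop, y ≤ zT σ T := by
  have hB : 0 < Bs σ := by
    unfold Bs
    rw [Nat.ceil_pos]
    apply div_pos (by norm_num)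
    linarith
  have h1 : Tendsto (fun T : ℝ => Real.log T ^ (2 * Bs σ)) atTop atTop :=
    (tendsto_pow_atTop (by omega)).comp Real.tendsto_log_atTop
  filter_upwards [h1.eventually_ge_atTop (y : ℝ)] with T hT
  exact Nat.le_floor hT

theorem pLim (hCmp : S_Cmp) (hTor : S_Tor) (hGd : S_Gd) (hHol : S_Hol) : S_Lim := by
  intro σ a γ hσ hσ1 ha
  obtain ⟨C, hC, hCm⟩ := hCmp σ a γ hσ hσ1 ha
  obtain ⟨δ, hδ, hg⟩ := hGd σ a hσ hσ1 ha
  obtain ⟨C2, hC2, hHo⟩ := hHol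
  apply fin_conv
  intro η hη
  -- the choice of y
  obtain ⟨y, hy1, hy2⟩ : ∃ y : ℕ, 1 ≤ y ∧ C * (y : ℝ) ^ (-(2 * σ - 1) / 4) ≤ η / 3 := by
    have h1 : Tendsto (fun y : ℕ => C * (y : ℝ) ^ (-((2 * σ - 1) / 4))) atTop (𝓝 (C * 0)) :=
      ((tendsto_rpow_neg_atTop (y := (2 * σ - 1) / 4) (by linarith)).comp
        tendsto_natCast_atTop_atTop).const_mul C
    rw [mul_zero] at h1
    obtain ⟨y, h2, h3⟩ := ((h1.eventually (gt_mem_nhds (by linarith : (0 : ℝ) < η / 3))).and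
      (eventually_ge_atTop 1)).exists
    refine ⟨y, h3, ?_⟩
    rw [neg_div]
    exact h2.le
  obtain ⟨D, hD⟩ := hTor σ a γ y hσ ha
  obtain ⟨B, hB0, hB⟩ := lim_g_bd σ a γ hσ 0 y
  refine ⟨D, ?_⟩
  have h7 : ∀ᶠ T : ℝ in atTop, C2 * B * (Real.log T / T ^ (δ / 2)) ≤ η / 3 := by
    have h1 : Tendsto (fun T : ℝ => C2 * B * (Real.log T / T ^ (δ / 2))) atTop
        (𝓝 (C2 * B * 0)) :=
      (isLittleO_log_rpow_atTop (by linarith : 0 < δ / 2)).tendsto_div_nhds_zero.const_mul _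
    rw [mul_zero] at h1
    filter_upwards [h1.eventually (gt_mem_nhds (by linarith : (0 : ℝ) < η / 3))] with T hT
    exact hT.le
  filter_upwards [lim_zT σ hσ y, Metric.tendsto_nhds.1 hD (η / 3) (by linarith), hCm y hy1, hg,
    hHo, eventually_ge_atTop (3 : ℝ), h7] with T hz hDT hCT hgT hHT hT3 hsm
  obtain ⟨hgm, hgv, -, -⟩ := hgT
  have hT0 : 0 < T := by linarith
  have hL : 0 < Real.log T := Real.log_pos (by linarith)
  have hfn : 0 < fn T := mul_pos hT0 hL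
  have hle : T ≤ 2 * T := by linarith
  set G := good σ a T with hG
  have hGs : G ⊆ Set.Icc T (2 * T) := fun t ht => ht.1
  set fz : ℝ → ℝ := fun t => fw t * ‖eulS σ 0 (zT σ T) (a * t)‖ ^ γ with hfz
  set fy : ℝ → ℝ := fun t => fw t * ‖eulS σ 0 y (a * t)‖ ^ γ with hfy
  have hfzc : Continuous fz := fin_fw_cont.mul (lim_g_cont σ a γ hσ 0 _)
  have hfyc : Continuous fy := fin_fw_cont.mul (lim_g_cont σ a γ hσ 0 y)
  have hint : ∀ f : ℝ → ℝ, Continuous f → ∀ S : Set ℝ, S ⊆ Set.Icc T (2 * T) →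
      IntegrableOn f S := fun f hf S hS =>
    (hf.continuousOn.integrableOn_compact isCompact_Icc).mono_set hS
  -- the difference over the good set
  have e1 : |(∫ t in G, fz t) - ∫ t in G, fy t| ≤ ∫ t in G, fw t * gm σ a γ y T t := by
    rw [← integral_sub (hint _ hfzc _ hGs) (hint _ hfyc _ hGs), ← Real.norm_eq_abs]
    refine (norm_integral_le_integral_norm _).trans (le_of_eq ?_)
    refine integral_congr_ae (Eventually.of_forall fun t => ?_)
    simp only [hfz, hfy, gm]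
    rw [lim_split σ y _ hz, norm_mul, Real.mul_rpow (norm_nonneg _) (norm_nonneg _),
      Real.norm_eq_abs]
    have h8 : fw t * (‖eulS σ 0 y (a * t)‖ ^ γ * ‖eulS σ y (zT σ T) (a * t)‖ ^ γ) -
        fw t * ‖eulS σ 0 y (a * t)‖ ^ γ =
        (fw t * ‖eulS σ 0 y (a * t)‖ ^ γ) * (‖eulS σ y (zT σ T) (a * t)‖ ^ γ - 1) := by ring
    rw [h8, abs_mul, abs_of_nonneg (mul_nonneg (fin_fw_nonneg t)
      (Real.rpow_nonneg (norm_nonneg _) _)), mul_assoc]
  -- the bad set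
  set Bd := Set.Icc T (2 * T) \ G with hBd
  have hBs : Bd ⊆ Set.Icc T (2 * T) := Set.sdiff_subset
  have hBm : MeasurableSet Bd := measurableSet_Icc.diff hgm
  have e2 : ∫ t in Bd, fy t ≤ C2 * (√T * Real.log T ^ 2) * (B * √(T ^ (1 - δ))) := by
    have h9 := hHT Bd (fun t => ‖eulS σ 0 y (a * t)‖ ^ γ) hBm hBs
      (fun t => Real.rpow_nonneg (norm_nonneg _) _)
      (lim_g_cont σ a γ hσ 0 y).aestronglyMeasurable
      (hint _ ((lim_g_cont σ a γ hσ 0 y).pow 2) _ hBs)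
    refine h9.trans (mul_le_mul_of_nonneg_left ?_ (by positivity))
    have h10 : ∫ t in Bd, (‖eulS σ 0 y (a * t)‖ ^ γ) ^ 2 ≤ B ^ 2 * T ^ (1 - δ) := by
      have h11 : ∫ t in Bd, (‖eulS σ 0 y (a * t)‖ ^ γ) ^ 2 ≤ ∫ _ in Bd, B ^ 2 := by
        refine setIntegral_mono_on (hint _ ((lim_g_cont σ a γ hσ 0 y).pow 2) _ hBs)
          (hint _ continuous_const _ hBs) hBm fun t _ => ?_
        exact pow_le_pow_left₀ (Real.rpow_nonneg (norm_nonneg _) _) (hB t) 2
      rw [setIntegral_const, smul_eq_mul] at h11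
      have h12 : volume.real Bd ≤ T ^ (1 - δ) := by
        rw [Measure.real]
        refine (ENNReal.toReal_mono ENNReal.ofReal_ne_top hgv).trans (le_of_eq ?_)
        exact ENNReal.toReal_ofReal (Real.rpow_nonneg hT0.le _)
      calc _ ≤ volume.real Bd * B ^ 2 := h11
        _ ≤ T ^ (1 - δ) * B ^ 2 := mul_le_mul_of_nonneg_right h12 (by positivity)
        _ = _ := by ring
    calc √(∫ t in Bd, (‖eulS σ 0 y (a * t)‖ ^ γ) ^ 2) ≤ √(B ^ 2 * T ^ (1 - δ)) :=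
          Real.sqrt_le_sqrt h10
      _ = B * √(T ^ (1 - δ)) := by
          rw [Real.sqrt_mul (by positivity), Real.sqrt_sq hB0.le]
  have e3 : C2 * (√T * Real.log T ^ 2) * (B * √(T ^ (1 - δ))) ≤ η / 3 * fn T := by
    have h13 : √T * √(T ^ (1 - δ)) = T / T ^ (δ / 2) := by
      rw [← Real.sqrt_mul hT0.le]
      have h14 : T * T ^ (1 - δ) = (T / T ^ (δ / 2)) ^ 2 := by
        rw [div_pow, ← Real.rpow_natCast (T ^ (δ / 2)), ← Real.rpow_mul hT0.le,
          Real.rpow_sub hT0, Real.rpow_one]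
        have h15 : δ / 2 * ((2 : ℕ) : ℝ) = δ := by push_cast; ring
        rw [h15]
        ring
      rw [h14, Real.sqrt_sq (by positivity)]
    have h16 : C2 * (√T * Real.log T ^ 2) * (B * √(T ^ (1 - δ))) =
        C2 * B * (Real.log T / T ^ (δ / 2)) * fn T := by
      calc _ = C2 * B * Real.log T ^ 2 * (√T * √(T ^ (1 - δ))) := by ring
        _ = _ := by
            rw [h13, fn]
            ring
    rw [h16]
    exact mul_le_mul_of_nonneg_right hsm hfn.le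
  have e4 : 0 ≤ ∫ t in Bd, fy t := integral_nonneg fun t =>
    mul_nonneg (fin_fw_nonneg t) (Real.rpow_nonneg (norm_nonneg _) _)
  -- the decomposition
  have e5 : ∫ t in T..(2 * T), fy t = (∫ t in G, fy t) + ∫ t in Bd, fy t := by
    rw [intervalIntegral.integral_of_le hle, ← integral_Icc_eq_integral_Ioc]
    have h17 := integral_inter_add_sdiff (μ := volume) (s := Set.Icc T (2 * T)) (t := G) hgm
      (hint _ hfyc _ subset_rfl)
    rw [Set.inter_eq_right.2 hGs] at h17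
    exact h17.symm
  have e6 : LG σ a γ T = (∫ t in G, fz t) / fn T := rfl
  rw [Real.dist_eq] at hDT
  have hDT' : |(∫ t in T..(2 * T), fy t) / fn T - D| < η / 3 := hDT
  have e7 : LG σ a γ T - D = ((∫ t in G, fz t) - ∫ t in G, fy t) / fn T -
      (∫ t in Bd, fy t) / fn T + ((∫ t in T..(2 * T), fy t) / fn T - D) := by
    rw [e5, e6]
    ring
  rw [e7]
  have e8 : |((∫ t in G, fz t) - ∫ t in G, fy t) / fn T| ≤ η / 3 := by
    rw [abs_div, abs_of_pos hfn, div_le_iff₀ hfn]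
    refine (e1.trans hCT).trans ?_
    exact mul_le_mul_of_nonneg_right hy2 hfn.le
  have e9 : |(∫ t in Bd, fy t) / fn T| ≤ η / 3 := by
    rw [abs_div, abs_of_pos hfn, div_le_iff₀ hfn, abs_of_nonneg e4]
    exact e2.trans e3
  have e10 := abs_le.1 e8
  have e11 := abs_le.1 e9
  have e12 := abs_lt.1 hDT'
  rw [abs_le]
  constructor <;> linarith [e10.1, e10.2, e11.1, e11.2, e12.1, e12.2]

end Pool.Agent.Lib.MP_aa9ae4_nt.S1
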