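import Mathlib
import Pool.Agent.Lib.MP_aa9ae4_nt.S1.SpecG

/-!
MP_aa9ae4_nt, Theorem S, proof of `S_Mc` (Rankin sum).
-/

namespace Pool.Agent.Lib.MP_aa9ae4_nt.S1

open Finset MeasureTheory Filter Topology
open Complex (I)

private lemma mc_step (τ : ℝ) (N q : ℕ) (g : ℕ → ℝ) (hτ : 0 < τ) (hq : q.Prime)
    (hg0 : ∀ k, 0 ≤ g k) (hg : ∀ k, g (q * k) = g k) :
    ∑ k ∈ (Icc 1 N).filter (fun k => q ∣ k), g k * (k : ℝ) ^ (-τ) ≤
      (q : ℝ) ^ (-τ) * ∑ k ∈ Icc 1 N, g k * (k : ℝ) ^ (-τ) := by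
  have hsub : (Icc 1 N).filter (fun k => q ∣ k) ⊆ (Icc 1 N).image (fun k => q * k) := by
    intro k hk
    rw [mem_filter, mem_Icc] at hk
    obtain ⟨⟨h1, h2⟩, m, rfl⟩ := hk
    rw [mem_image]
    refine ⟨m, ?_, rfl⟩
    rw [mem_Icc]
    have hm : 0 < m := by
      rcases Nat.eq_zero_or_pos m with h | h
      · subst h; simp at h1
      · exact h
    exact ⟨hm, le_trans (Nat.le_mul_of_pos_left m hq.pos) h2⟩
  calc ∑ k ∈ (Icc 1 N).filter (fun k => q ∣ k), g k * (k : ℝ) ^ (-τ)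
      ≤ ∑ k ∈ (Icc 1 N).image (fun k => q * k), g k * (k : ℝ) ^ (-τ) := by
        refine Finset.sum_le_sum_of_subset_of_nonneg hsub ?_
        intro k _ _
        exact mul_nonneg (hg0 k) (Real.rpow_nonneg (Nat.cast_nonneg k) _)
    _ = ∑ k ∈ Icc 1 N, g (q * k) * ((q * k : ℕ) : ℝ) ^ (-τ) := by
        rw [Finset.sum_image]
        intro x _ y _ hxy
        exact Nat.eq_of_mul_eq_mul_left hq.pos hxy
    _ = (q : ℝ) ^ (-τ) * ∑ k ∈ Icc 1 N, g k * (k : ℝ) ^ (-τ) := by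
        rw [Finset.mul_sum]
        refine Finset.sum_congr rfl ?_
        intro k _
        rw [hg, Nat.cast_mul, Real.mul_rpow (Nat.cast_nonneg q) (Nat.cast_nonneg k)]
        ring

private lemma mc_ind (τ : ℝ) (a : ℕ → ℝ) (N : ℕ) (hτ : 0 < τ) (ha : ∀ p, 0 ≤ a p)
    (P : Finset ℕ) (hP : ∀ p ∈ P, p.Prime) :
    ∑ k ∈ Icc 1 N, (∏ p ∈ P.filter (fun p => p ∣ k), (1 + a p)) * (k : ℝ) ^ (-τ) ≤
      (∏ p ∈ P, (1 + a p * (p : ℝ) ^ (-τ))) * ∑ k ∈ Icc 1 N, (k : ℝ) ^ (-τ) := by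
  classical
  induction P using Finset.induction_on with
  | empty => simp
  | insert q P hqP ih =>
    have hq : q.Prime := hP q (mem_insert_self q P)
    have hP' : ∀ p ∈ P, p.Prime := fun p hp => hP p (mem_insert_of_mem hp)
    have ih' := ih hP'
    set g : ℕ → ℝ := fun k => ∏ p ∈ P.filter (fun p => p ∣ k), (1 + a p) with hgdef
    have hg0 : ∀ k, 0 ≤ g k := by
      intro k
      exact Finset.prod_nonneg fun p _ => by have := ha p; linarith
    have hg : ∀ k, g (q * k) = g k := by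
      intro k
      have : P.filter (fun p => p ∣ q * k) = P.filter (fun p => p ∣ k) := by
        refine Finset.filter_congr ?_
        intro p hp
        have hne : p ≠ q := fun h => hqP (h ▸ hp)
        have hcop : Nat.Coprime p q := (Nat.coprime_primes (hP' p hp) hq).2 hne
        exact hcop.dvd_mul_left
      simp only [hgdef, this]
    have hsplit : ∀ k : ℕ, (∏ p ∈ (insert q P).filter (fun p => p ∣ k), (1 + a p)) =
        g k + (if q ∣ k then a q * g k else 0) := by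
      intro k
      rw [Finset.filter_insert]
      split_ifs with h
      · rw [Finset.prod_insert (by simp [hqP])]
        simp only [hgdef]; ring
      · simp only [hgdef]; ring
    have h1 : ∑ k ∈ Icc 1 N, (∏ p ∈ (insert q P).filter (fun p => p ∣ k), (1 + a p)) * (k : ℝ) ^ (-τ)
        = ∑ k ∈ Icc 1 N, g k * (k : ℝ) ^ (-τ) +
          a q * ∑ k ∈ (Icc 1 N).filter (fun k => q ∣ k), g k * (k : ℝ) ^ (-τ) := by
      rw [Finset.mul_sum, Finset.sum_filter, ← Finset.sum_add_distrib]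
      refine Finset.sum_congr rfl ?_
      intro k _
      rw [hsplit]
      split_ifs <;> ring
    have h2 := mc_step τ N q g hτ hq hg0 hg
    rw [h1, Finset.prod_insert hqP]
    calc ∑ k ∈ Icc 1 N, g k * (k : ℝ) ^ (-τ) +
          a q * ∑ k ∈ (Icc 1 N).filter (fun k => q ∣ k), g k * (k : ℝ) ^ (-τ)
        ≤ ∑ k ∈ Icc 1 N, g k * (k : ℝ) ^ (-τ) +
          a q * ((q : ℝ) ^ (-τ) * ∑ k ∈ Icc 1 N, g k * (k : ℝ) ^ (-τ)) := by
          have := mul_le_mul_of_nonneg_left h2 (ha q)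
          linarith
      _ = (1 + a q * (q : ℝ) ^ (-τ)) * ∑ k ∈ Icc 1 N, g k * (k : ℝ) ^ (-τ) := by ring
      _ ≤ (1 + a q * (q : ℝ) ^ (-τ)) * ((∏ p ∈ P, (1 + a p * (p : ℝ) ^ (-τ))) *
            ∑ k ∈ Icc 1 N, (k : ℝ) ^ (-τ)) := by
          refine mul_le_mul_of_nonneg_left ih' ?_
          have := mul_nonneg (ha q) (Real.rpow_nonneg (Nat.cast_nonneg q) (-τ))
          linarith
      _ = _ := by ring

/-- **Rankin sum** -/
theorem pMc : S_Mc := by
  intro τ a z N hτ ha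
  have hP : ∀ p ∈ prs 0 z, p.Prime := by
    intro p hp
    unfold prs at hp
    exact (mem_filter.1 hp).2
  have h1 := mc_ind τ a N hτ ha (prs 0 z) hP
  have h2 : ∑ k ∈ Icc 1 N, (∏ p ∈ k.primeFactors.filter (fun p => p ≤ z), (1 + a p)) *
      (k : ℝ) ^ (-τ) =
      ∑ k ∈ Icc 1 N, (∏ p ∈ (prs 0 z).filter (fun p => p ∣ k), (1 + a p)) * (k : ℝ) ^ (-τ) := by
    refine Finset.sum_congr rfl ?_
    intro k hk
    have hk1 : 1 ≤ k := (mem_Icc.1 hk).1
    have : k.primeFactors.filter (fun p => p ≤ z) = (prs 0 z).filter (fun p => p ∣ k) := by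
      ext p
      simp only [prs, mem_filter, Nat.mem_primeFactors, mem_Ioc]
      constructor
      · rintro ⟨⟨hp, hd, _⟩, hz⟩
        exact ⟨⟨⟨hp.pos, hz⟩, hp⟩, hd⟩
      · rintro ⟨⟨⟨_, hz⟩, hp⟩, hd⟩
        exact ⟨⟨hp, hd, by omega⟩, hz⟩
    rw [this]
  rw [h2]
  refine h1.trans ?_
  refine mul_le_mul_of_nonneg_right ?_ ?_
  · rw [Real.exp_sum]
    refine Finset.prod_le_prod ?_ ?_
    · intro p _
      have := mul_nonneg (ha p) (Real.rpow_nonneg (Nat.cast_nonneg p) (-τ))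
      linarith
    · intro p _
      have := Real.add_one_le_exp (a p * (p : ℝ) ^ (-τ))
      linarith
  · exact Finset.sum_nonneg fun k _ => Real.rpow_nonneg (Nat.cast_nonneg k) _

end Pool.Agent.Lib.MP_aa9ae4_nt.S1
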