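import Pool.Agent.Lib.MP_aa9ae4_nt.S1.SpecM

/-!
MP_aa9ae4_nt, Theorem S: the remaining points (`S_Md`).
-/

namespace Pool.Agent.Lib.MP_aa9ae4_nt.S1

open Finset MeasureTheory Filter Topology
open Complex (I)

private theorem md_prs_pos {y z p : ℕ} (hp : p ∈ prs y z) : 0 < p := by
  unfold prs at hp
  exact (mem_filter.1 hp).2.pos

private theorem md_psum_cont (σ a : ℝ) (y z : ℕ) :
    Continuous (fun t : ℝ => psumS σ y z (a * t)) := by
  unfold psumS
  refine continuous_finsetSum _ fun p hp => ?_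
  have hk0 : (p : ℂ) ≠ 0 := by
    have := md_prs_pos hp
    exact_mod_cast (by omega : p ≠ 0)
  unfold pw
  refine Continuous.const_cpow ?_ (Or.inl hk0)
  fun_prop

private theorem md_split (σ : ℝ) (w m z : ℕ) (u : ℝ) (h : w ≤ m) (h' : m ≤ z) :
    psumS σ w z u = psumS σ w m u + psumS σ m z u := by
  unfold psumS prs
  have h1 : Ioc w z = Ioc w m ∪ Ioc m z := by
    ext p
    simp only [mem_union, mem_Ioc]
    omega
  have h2 : Disjoint ((Ioc w m).filter Nat.Prime) ((Ioc m z).filter Nat.Prime) := by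
    rw [Finset.disjoint_left]
    intro p hp hp'
    have := (mem_Ioc.1 (mem_filter.1 hp).1).2
    have := (mem_Ioc.1 (mem_filter.1 hp').1).1
    omega
  rw [h1, filter_union, sum_union h2]

private theorem md_small (σ : ℝ) (y : ℕ) (u : ℝ) (hσ : 0 < σ) : ‖psumS σ 0 y u‖ ≤ y := by
  unfold psumS
  refine (norm_sum_le _ _).trans ?_
  have h1 : ∀ p ∈ prs 0 y, ‖pw σ p u‖ ≤ 1 := by
    intro p hp
    have hp0 := md_prs_pos hp
    unfold pw
    rw [Complex.norm_natCast_cpow_of_pos hp0]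
    have hre : (-((σ : ℂ) + (u : ℂ) * I)).re = -σ := by simp
    rw [hre]
    have hp1 : (1 : ℝ) ≤ p := by exact_mod_cast hp0
    exact Real.rpow_le_one_of_one_le_of_nonpos hp1 (by linarith)
  refine (sum_le_sum h1).trans ?_
  rw [sum_const, nsmul_eq_mul, mul_one]
  have h2 : (prs 0 y).card ≤ y := by
    unfold prs
    refine (card_filter_le _ _).trans ?_
    rw [Nat.card_Ioc, Nat.sub_zero]
  exact_mod_cast h2

private theorem md_exp_sub_one (w : ℝ) : |Real.exp w - 1| ≤ |w| * Real.exp |w| := by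
  rcases le_total 0 w with h | h
  · rw [abs_of_nonneg h, abs_of_nonneg (by linarith [Real.one_le_exp h])]
    have h1 : 1 - w ≤ Real.exp (-w) := by
      have := Real.add_one_le_exp (-w)
      linarith
    have h2 : (1 - w) * Real.exp w ≤ 1 := by
      calc (1 - w) * Real.exp w ≤ Real.exp (-w) * Real.exp w :=
            mul_le_mul_of_nonneg_right h1 (Real.exp_pos w).le
        _ = 1 := by rw [← Real.exp_add]; simp
    nlinarith
  · have h1 : Real.exp w ≤ 1 := Real.exp_le_one_iff.mpr h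
    rw [abs_of_nonpos h, abs_of_nonpos (by linarith)]
    have h2 := Real.add_one_le_exp w
    have h3 : 1 ≤ Real.exp (-w) := Real.one_le_exp (by linarith)
    nlinarith

private theorem md_pow_sub_one (γ e x : ℝ) (hx : 0 < x) (h : |Real.log x| ≤ e) :
    |x ^ γ - 1| ≤ |γ| * e * Real.exp (|γ| * e) := by
  rw [Real.rpow_def_of_pos hx]
  have h1 : |Real.log x * γ| ≤ |γ| * e := by
    rw [abs_mul, mul_comm]
    exact mul_le_mul_of_nonneg_left h (abs_nonneg γ)
  refine (md_exp_sub_one _).trans ?_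
  exact mul_le_mul h1 (Real.exp_le_exp.mpr h1) (Real.exp_pos _).le
    ((abs_nonneg _).trans h1)

private theorem md_pow_le (γ e x : ℝ) (hx : 0 < x) (h : |Real.log x| ≤ e) :
    x ^ γ ≤ Real.exp (|γ| * e) := by
  rw [Real.rpow_def_of_pos hx]
  refine Real.exp_le_exp.mpr ((le_abs_self _).trans ?_)
  rw [abs_mul, mul_comm]
  exact mul_le_mul_of_nonneg_left h (abs_nonneg γ)

private theorem md_log (hEs : S_Es) (σ : ℝ) (y z : ℕ) (u B : ℝ) (hσ : 1 / 2 ≤ σ)
    (hB : tail (2 * σ) y z ≤ B) :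
    0 < ‖eulS σ y z u‖ ∧ |Real.log ‖eulS σ y z u‖| ≤ ‖psumS σ y z u‖ + 2 * B := by
  obtain ⟨h0, h1⟩ := hEs σ y z u hσ
  refine ⟨norm_pos_iff.mpr h0, ?_⟩
  have h2 : |(psumS σ y z u).re| ≤ ‖psumS σ y z u‖ := Complex.abs_re_le_norm _
  have h3 : Real.log ‖eulS σ y z u‖ =
      (Real.log ‖eulS σ y z u‖ + (psumS σ y z u).re) - (psumS σ y z u).re := by ring
  rw [h3]
  refine (abs_sub _ _).trans ?_
  linarith

/-- the pointwise bound -/
private theorem md_gm (hEs : S_Es) (σ γ u c₁ τ R r : ℝ) (y m z : ℕ) (hσ : 1 / 2 ≤ σ) (hym : y ≤ m)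
    (hmz : m ≤ z) (h0 : tail (2 * σ) 0 y ≤ c₁) (h1 : tail (2 * σ) y z ≤ τ)
    (hr : ‖psumS σ m z u‖ + 2 * τ ≤ r) (hrR : r ≤ R) (hr0 : 0 ≤ r) :
    ‖eulS σ 0 y u‖ ^ γ * |‖eulS σ y z u‖ ^ γ - 1| ≤
      (|γ| * Real.exp (|γ| * (R + 2 * c₁))) * ((‖psumS σ y m u‖ + r) *
        (Real.exp (|γ| * ‖psumS σ 0 y u‖) * Real.exp (|γ| * ‖psumS σ y m u‖))) := by
  obtain ⟨p0, l0⟩ := md_log hEs σ 0 y u c₁ hσ h0
  obtain ⟨p1, l1⟩ := md_log hEs σ y z u τ hσ h1
  have l2 : |Real.log ‖eulS σ y z u‖| ≤ ‖psumS σ y m u‖ + r := by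
    refine l1.trans ?_
    rw [md_split σ y m z u hym hmz]
    have := norm_add_le (psumS σ y m u) (psumS σ m z u)
    linarith
  have q1 := md_pow_le γ _ _ p0 l0
  have q2 := md_pow_sub_one γ _ _ p1 l2
  have hc : 0 ≤ |γ| := abs_nonneg γ
  have hs : 0 ≤ ‖psumS σ y m u‖ := norm_nonneg _
  calc ‖eulS σ 0 y u‖ ^ γ * |‖eulS σ y z u‖ ^ γ - 1| ≤
        Real.exp (|γ| * (‖psumS σ 0 y u‖ + 2 * c₁)) *
          (|γ| * (‖psumS σ y m u‖ + r) * Real.exp (|γ| * (‖psumS σ y m u‖ + r))) :=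
        mul_le_mul q1 q2 (abs_nonneg _) (Real.exp_pos _).le
    _ ≤ Real.exp (|γ| * (‖psumS σ 0 y u‖ + 2 * c₁)) *
          (|γ| * (‖psumS σ y m u‖ + r) * Real.exp (|γ| * (‖psumS σ y m u‖ + R))) := by
        gcongr
    _ = _ := by
        have e1 : Real.exp (|γ| * (‖psumS σ 0 y u‖ + 2 * c₁)) =
            Real.exp (|γ| * ‖psumS σ 0 y u‖) * Real.exp (|γ| * (2 * c₁)) := by
          rw [← Real.exp_add]; ring_nf
        have e2 : Real.exp (|γ| * (‖psumS σ y m u‖ + R)) =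
            Real.exp (|γ| * ‖psumS σ y m u‖) * Real.exp (|γ| * R) := by
          rw [← Real.exp_add]; ring_nf
        have e3 : Real.exp (|γ| * (R + 2 * c₁)) =
            Real.exp (|γ| * R) * Real.exp (|γ| * (2 * c₁)) := by
          rw [← Real.exp_add]; ring_nf
        rw [e1, e2, e3]
        ring

/-- arithmetic mean and geometric mean -/
private theorem md_amgm (c s0 s1 r θ : ℝ) (hθ : 0 < θ) :
    (s1 + r) * (Real.exp (c * s0) * Real.exp (c * s1)) ≤
      θ / 2 * Real.exp (4 * c * s0) + θ / 2 * Real.exp (4 * c * s1) + 1 / θ * s1 ^ 2 +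
        1 / θ * r ^ 2 := by
  set X := Real.exp (c * s0) with hX
  set Y := Real.exp (c * s1) with hY
  have e1 : Real.exp (4 * c * s0) = X ^ 4 := by
    rw [hX, ← Real.exp_nat_mul]
    congr 1
    push_cast
    ring
  have e2 : Real.exp (4 * c * s1) = Y ^ 4 := by
    rw [hY, ← Real.exp_nat_mul]
    congr 1
    push_cast
    ring
  rw [e1, e2]
  have h1 : (s1 + r) * (X * Y) ≤ θ / 2 * (X * Y) ^ 2 + 1 / (2 * θ) * (s1 + r) ^ 2 := by
    have h : θ / 2 * (X * Y) ^ 2 + 1 / (2 * θ) * (s1 + r) ^ 2 - (s1 + r) * (X * Y) =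
        1 / (2 * θ) * (θ * (X * Y) - (s1 + r)) ^ 2 := by
      field_simp
      ring
    have h' : 0 ≤ 1 / (2 * θ) * (θ * (X * Y) - (s1 + r)) ^ 2 := by positivity
    linarith
  have h2 : (X * Y) ^ 2 ≤ X ^ 4 + Y ^ 4 := by nlinarith [sq_nonneg (X ^ 2 - Y ^ 2), sq_nonneg (X ^ 2), sq_nonneg (Y ^ 2)]
  have h3 : (s1 + r) ^ 2 ≤ 2 * s1 ^ 2 + 2 * r ^ 2 := by nlinarith [sq_nonneg (s1 - r)]
  have h4 : θ / 2 * (X * Y) ^ 2 ≤ θ / 2 * (X ^ 4 + Y ^ 4) :=
    mul_le_mul_of_nonneg_left h2 (by positivity)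
  have h5 : 1 / (2 * θ) * (s1 + r) ^ 2 ≤ 1 / (2 * θ) * (2 * s1 ^ 2 + 2 * r ^ 2) :=
    mul_le_mul_of_nonneg_left h3 (by positivity)
  have h6 : 1 / (2 * θ) * (2 * s1 ^ 2 + 2 * r ^ 2) = 1 / θ * s1 ^ 2 + 1 / θ * r ^ 2 := by
    field_simp
  linarith

private theorem md_As (σ : ℝ) (hσ : 1 / 2 < σ) : 1 ≤ As σ ∧ As σ ≤ 2 * Bs σ := by
  have hκ : 0 < 2 * σ - 1 := by linarith
  constructor
  · unfold As
    exact Nat.one_le_iff_ne_zero.mpr (Nat.ceil_pos.mpr (by positivity)).ne'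
  · have h1 : As σ ≤ Bs σ := by
      unfold As Bs
      apply Nat.ceil_mono
      exact div_le_div_of_nonneg_right (by norm_num) hκ.le
    omega

theorem pMd (hSz : S_Sz) (hEs : S_Es) (hW2m : S_W2m) (hWe : S_We) (hCf : S_Cf) : S_Md := by
  intro σ a γ hσ hσ1 ha
  have hκ : 0 < 2 * σ - 1 := by linarith
  set c : ℝ := |γ| with hc
  have hc0 : 0 ≤ c := abs_nonneg γ
  set c₁ : ℝ := 2 * σ / (2 * σ - 1) with hc₁
  have hc₁0 : 0 < c₁ := by positivity
  set kap : ℝ := 1 / (16 * (c + 1)) with hkap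
  have hkap0 : 0 < kap := by positivity
  have hkap1 : kap ≤ 1 := by
    rw [hkap, div_le_one (by positivity)]
    linarith
  have hkapc : c * kap ≤ 1 / 16 := by
    rw [hkap, mul_one_div, div_le_div_iff₀ (by positivity) (by norm_num)]
    linarith
  set R : ℝ := 1 + 2 / (2 * σ - 1) with hR
  have hR0 : 0 < R := by positivity
  set C₁ : ℝ := c * Real.exp (c * (R + 2 * c₁)) with hC₁
  have hC₁0 : 0 ≤ C₁ := by positivity
  obtain ⟨C₂, hC₂, h2m⟩ := hW2m σ a (As σ) hσ hσ1 ha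
  obtain ⟨C₃, hC₃, h3⟩ := hWe σ a (4 * c) 1 (As σ) hσ hσ1 ha (by positivity) one_pos
  obtain ⟨hCfa, ⟨C₄, hC₄, h4⟩, -, -⟩ := hCf
  refine ⟨kap, C₁ * C₃ + 2 * C₁ * C₂ + C₁ * R ^ 2 * C₄ + 1, hkap0, by positivity, ?_⟩
  intro y hy
  have hy1 : (1 : ℝ) ≤ y := by exact_mod_cast hy
  have hy0 : (0 : ℝ) < y := by linarith
  set θ : ℝ := (y : ℝ) ^ (-(2 * σ - 1) / 4) with hθ
  have hθ0 : 0 < θ := Real.rpow_pos_of_pos hy0 _
  have hθ1 : θ ≤ 1 := Real.rpow_le_one_of_one_le_of_nonpos hy1 (by linarith)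
  have hθ2 : (y : ℝ) ^ (-(2 * σ - 1) / 2) = θ ^ 2 := by
    rw [hθ, ← Real.rpow_natCast, ← Real.rpow_mul hy0.le]
    congr 1
    push_cast
    ring
  have hlog := Real.tendsto_log_atTop
  have hll := Real.tendsto_log_atTop.comp Real.tendsto_log_atTop
  have ev1 := hll.eventually_ge_atTop (max (max 1 (y : ℝ))
    (512 * (C₁ * Real.exp (c * y) * (kap + R))))
  have ev2 : ∀ᶠ T : ℝ in atTop, Real.log T ^ (-(5 / 24) : ℝ) ≤ θ :=
    (((tendsto_rpow_neg_atTop (show (0 : ℝ) < 5 / 24 by norm_num)).comp hlog).eventually_le_const hθ0)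
  have ev3 : ∀ᶠ T : ℝ in atTop, 1 / Real.log T ≤ θ ^ 2 := by
    have := ((tendsto_inv_atTop_zero (𝕜 := ℝ)).comp hlog).eventually_le_const
      (show 0 < θ ^ 2 by positivity)
    filter_upwards [this] with T hT
    rw [one_div]
    exact hT
  have ev4 : ∀ᶠ T : ℝ in atTop, Real.log (Real.log T) ^ (-(1 / 4) : ℝ) ≤ θ :=
    (((tendsto_rpow_neg_atTop (show (0 : ℝ) < 1 / 4 by norm_num)).comp hll).eventually_le_const hθ0)
  filter_upwards [fin_fn_pos, h2m, h3, hCfa, h4, ev1, ev2, ev3, ev4,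
    hlog.eventually_ge_atTop 1, eventually_gt_atTop (0 : ℝ)]
    with T hfn k2 k3 ka k4 e1 e2 e3 e4 hL1 hT0
  set L := Real.log T with hL
  set l := Real.log L with hl
  have e1' : max (max 1 (y : ℝ)) (512 * (C₁ * Real.exp (c * y) * (kap + R))) ≤ l := e1
  have hl1 : 1 ≤ l := (le_max_left _ _).trans ((le_max_left _ _).trans e1')
  have hyl : (y : ℝ) ≤ l := (le_max_right _ _).trans ((le_max_left _ _).trans e1')
  have hbig : 512 * (C₁ * Real.exp (c * y) * (kap + R)) ≤ l := (le_max_right _ _).trans e1'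
  have hL0 : 0 < L := by linarith
  have hlL : l ≤ L := by
    have := Real.log_le_sub_one_of_pos hL0
    linarith
  obtain ⟨hAs1, hAB⟩ := md_As σ hσ
  set m := y1 σ T with hm
  set z := zT σ T with hz
  have hml : (m : ℝ) ≤ l ^ As σ := by
    rw [hm]
    exact Nat.floor_le (by positivity)
  have hyl' : (y : ℝ) ≤ l ^ As σ := by
    refine hyl.trans ?_
    calc l = l ^ 1 := (pow_one l).symm
      _ ≤ l ^ As σ := pow_le_pow_right₀ hl1 hAs1
  have hym : y ≤ m := by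
    rw [hm]
    exact Nat.le_floor hyl'
  have hmz : m ≤ z := by
    rw [hz]
    apply Nat.le_floor
    refine hml.trans ?_
    calc l ^ As σ ≤ L ^ As σ := pow_le_pow_left₀ (by linarith) hlL _
      _ ≤ L ^ (2 * Bs σ) := pow_le_pow_right₀ hL1 hAB
  set W := Gz σ a T \ bigF σ a kap y T with hW
  have hWsub : W ⊆ Set.Icc T (2 * T) := fun t ht => ht.1.1
  set s0 : ℝ → ℝ := fun t => ‖psumS σ 0 y (a * t)‖ with hs0
  set s1 : ℝ → ℝ := fun t => ‖psumS σ y m (a * t)‖ with hs1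
  set s2 : ℝ → ℝ := fun t => ‖psumS σ m z (a * t)‖ with hs2
  have cs0 : Continuous s0 := (md_psum_cont σ a 0 y).norm
  have cs1 : Continuous s1 := (md_psum_cont σ a y m).norm
  have cs2 : Continuous s2 := (md_psum_cont σ a m z).norm
  -- measurability
  have hWmeas : MeasurableSet W := by
    have hG : MeasurableSet (Gz σ a T) := by
      have hset : Gz σ a T = Set.Icc T (2 * T) ∩ ((fun t : ℝ => ‖psumS σ 0 z (a * t)‖) ⁻¹'
        Set.Iic (2 * L ^ (1 - σ / 2))) := by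
        ext t
        rfl
      rw [hset]
      exact (isClosed_Icc.inter (isClosed_Iic.preimage (md_psum_cont σ a 0 z).norm)).measurableSet
    have hF : MeasurableSet (bigF σ a kap y T) := by
      have hset : bigF σ a kap y T = Gz σ a T ∩ ((s1 ⁻¹' Set.Ioi (kap * l)) ∪
          (s2 ⁻¹' Set.Ioi (l ^ (-(1 / 4) : ℝ)))) := by
        ext t
        rfl
      rw [hset]
      exact hG.inter ((isOpen_Ioi.preimage cs1).union (isOpen_Ioi.preimage cs2)).measurableSet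
    exact hG.diff hF
  have hWs : ∀ t ∈ W, s1 t ≤ kap * l ∧ s2 t ≤ l ^ (-(1 / 4) : ℝ) := by
    intro t ht
    have h1 : t ∉ bigF σ a kap y T := ht.2
    constructor
    · by_contra hcon
      exact h1 ⟨ht.1, Or.inl (not_le.mp hcon)⟩
    · by_contra hcon
      exact h1 ⟨ht.1, Or.inr (not_le.mp hcon)⟩
  -- tails
  have ht0 : tail (2 * σ) 0 y ≤ c₁ := hSz.2.1 (2 * σ) (by linarith) 0 y
  set τ : ℝ := (y : ℝ) ^ (1 - 2 * σ) / (2 * σ - 1) with hτ
  have ht1 : tail (2 * σ) y z ≤ τ := hSz.1 (2 * σ) (by linarith) y z hy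
  have hτ0 : 0 ≤ τ := by positivity
  have hτθ : τ ≤ θ / (2 * σ - 1) := by
    rw [hτ]
    apply div_le_div_of_nonneg_right _ hκ.le
    exact Real.rpow_le_rpow_of_exponent_le hy1 (by linarith)
  set r : ℝ := l ^ (-(1 / 4) : ℝ) + 2 * τ with hr
  have hr0 : 0 ≤ r := by
    have : 0 ≤ l ^ (-(1 / 4) : ℝ) := Real.rpow_nonneg (by linarith) _
    positivity
  have hrθ : r ≤ R * θ := by
    rw [hr, hR]
    have : (1 + 2 / (2 * σ - 1)) * θ = θ + 2 * (θ / (2 * σ - 1)) := by ring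
    rw [this]
    linarith
  have hrR : r ≤ R := hrθ.trans (mul_le_of_le_one_right hR0.le hθ1)
  -- the pointwise bounds
  have hgm : ∀ t ∈ W, gm σ a γ y T t ≤
      C₁ * ((s1 t + r) * (Real.exp (c * s0 t) * Real.exp (c * s1 t))) := by
    intro t ht
    exact md_gm hEs σ γ (a * t) c₁ τ R r y m z hσ.le hym hmz ht0 ht1
      (by have := (hWs t ht).2; simp only [hs2] at this; linarith) hrR hr0
  have hs0y : ∀ t, s0 t ≤ y := fun t => md_small σ y (a * t) (by linarith)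
  have hs1n : ∀ t, 0 ≤ s1 t := fun t => norm_nonneg _
  have hgm2 : ∀ t ∈ W, gm σ a γ y T t ≤ L ^ (1 / 8 : ℝ) := by
    intro t ht
    refine (hgm t ht).trans ?_
    have b1 : s1 t + r ≤ (kap + R) * l := by
      have := (hWs t ht).1
      nlinarith
    have b2 : Real.exp (c * s0 t) ≤ Real.exp (c * y) :=
      Real.exp_le_exp.mpr (mul_le_mul_of_nonneg_left (hs0y t) hc0)
    have b3 : Real.exp (c * s1 t) ≤ Real.exp (l / 16) := by
      apply Real.exp_le_exp.mpr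
      calc c * s1 t ≤ c * (kap * l) := mul_le_mul_of_nonneg_left (hWs t ht).1 hc0
        _ = (c * kap) * l := by ring
        _ ≤ 1 / 16 * l := mul_le_mul_of_nonneg_right hkapc (by linarith)
        _ = l / 16 := by ring
    have b4 : l ^ 2 / 512 ≤ Real.exp (l / 16) := by
      have h := Real.quadratic_le_exp_of_nonneg (show 0 ≤ l / 16 by linarith)
      nlinarith
    have b5 : L ^ (1 / 8 : ℝ) = Real.exp (l / 16) * Real.exp (l / 16) := by
      rw [Real.rpow_def_of_pos hL0, ← hl, ← Real.exp_add]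
      congr 1
      ring
    have b6 : C₁ * Real.exp (c * y) * ((kap + R) * l) ≤ Real.exp (l / 16) := by
      refine le_trans ?_ b4
      have : 512 * (C₁ * Real.exp (c * y) * (kap + R)) * l ≤ l * l :=
        mul_le_mul_of_nonneg_right hbig (by linarith)
      nlinarith
    have b7 : 0 ≤ s1 t + r := add_nonneg (hs1n t) hr0
    calc C₁ * ((s1 t + r) * (Real.exp (c * s0 t) * Real.exp (c * s1 t)))
        ≤ C₁ * (((kap + R) * l) * (Real.exp (c * y) * Real.exp (l / 16))) := by gcongr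
      _ = (C₁ * Real.exp (c * y) * ((kap + R) * l)) * Real.exp (l / 16) := by ring
      _ ≤ Real.exp (l / 16) * Real.exp (l / 16) := by gcongr
      _ = L ^ (1 / 8 : ℝ) := b5.symm
  -- the functions
  have cz : Continuous (fun t => zw T t) := ((weight_zsum_cont (NT T)).norm).pow 2
  have zn : ∀ t, 0 ≤ zw T t := fun t => sq_nonneg _
  set f0 : ℝ → ℝ := fun t => zw T t * Real.exp (4 * c * s0 t) with hf0
  set f1 : ℝ → ℝ := fun t => zw T t * Real.exp (4 * c * s1 t) with hf1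
  set f2 : ℝ → ℝ := fun t => zw T t * s1 t ^ 2 with hf2
  set f4 : ℝ → ℝ := fun t => |fw t - zw T t| with hf4
  have cf0 : Continuous f0 := cz.mul (Real.continuous_exp.comp (continuous_const.mul cs0))
  have cf1 : Continuous f1 := cz.mul (Real.continuous_exp.comp (continuous_const.mul cs1))
  have cf2 : Continuous f2 := cz.mul (cs1.pow 2)
  have cf4 : Continuous f4 := (fin_fw_cont.sub cz).abs
  have hI : ∀ f : ℝ → ℝ, Continuous f → IntegrableOn f W := fun f hf =>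
    (hf.continuousOn.integrableOn_Icc).mono_set hWsub
  have hII : ∀ f : ℝ → ℝ, Continuous f → (∀ t, 0 ≤ f t) → ∫ t in W, f t ≤ ∫ t in T..(2 * T), f t := by
    intro f hf hf0
    rw [intervalIntegral.integral_of_le (by linarith), ← integral_Icc_eq_integral_Ioc]
    exact setIntegral_mono_set hf.continuousOn.integrableOn_Icc
      (ae_of_all _ fun t => hf0 t) hWsub.eventuallyLE
  have i0 : ∫ t in W, f0 t ≤ C₃ * fn T := by
    refine le_trans ?_ (k3 0 y hyl')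
    refine setIntegral_mono_set ?_ (ae_of_all _ fun t => mul_nonneg (zn t) (Real.exp_pos _).le) ?_
    · exact (cf0.continuousOn.integrableOn_Icc).mono_set fun t ht => ht.1
    · exact (show W ⊆ {t ∈ Set.Icc T (2 * T) | ‖psumS σ 0 y (a * t)‖ ≤ 1 * l} from
        fun t ht => ⟨hWsub ht, by rw [one_mul]; exact (hs0y t).trans hyl⟩).eventuallyLE
  have i1 : ∫ t in W, f1 t ≤ C₃ * fn T := by
    refine le_trans ?_ (k3 y m hml)
    refine setIntegral_mono_set ?_ (ae_of_all _ fun t => mul_nonneg (zn t) (Real.exp_pos _).le) ?_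
    · exact (cf1.continuousOn.integrableOn_Icc).mono_set fun t ht => ht.1
    · exact (show W ⊆ {t ∈ Set.Icc T (2 * T) | ‖psumS σ y m (a * t)‖ ≤ 1 * l} from
        fun t ht => ⟨hWsub ht, (hWs t ht).1.trans
          (mul_le_mul_of_nonneg_right hkap1 (by linarith))⟩).eventuallyLE
  have i2 : ∫ t in W, f2 t ≤ C₂ * (θ ^ 2 + θ ^ 2) * fn T := by
    refine (hII f2 cf2 fun t => mul_nonneg (zn t) (sq_nonneg _)).trans ?_
    refine (k2 y m hy hml).trans ?_
    rw [hθ2]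
    gcongr
  have i3 : ∫ t in W, zw T t ≤ C₄ * fn T := (hII _ cz zn).trans k4
  have i4 : ∫ t in W, f4 t ≤ fn T * L ^ (-(1 / 3) : ℝ) := (hII _ cf4 fun t => abs_nonneg _).trans ka
  -- the comparison
  have hmain : ∫ t in W, fw t * gm σ a γ y T t ≤
      ∫ t in W, (C₁ * (θ / 2) * f0 t + C₁ * (θ / 2) * f1 t + C₁ * (1 / θ) * f2 t +
        C₁ * (1 / θ * r ^ 2) * zw T t + L ^ (1 / 8 : ℝ) * f4 t) := by
    refine integral_mono_of_nonneg ?_ ?_ ?_
    · refine ae_of_all _ fun t => mul_nonneg (fin_fw_nonneg t) ?_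
      exact mul_nonneg (Real.rpow_nonneg (norm_nonneg _) _) (abs_nonneg _)
    · refine hI _ ?_
      exact ((((continuous_const.mul cf0).add (continuous_const.mul cf1)).add
        (continuous_const.mul cf2)).add (continuous_const.mul cz)).add (continuous_const.mul cf4)
    · refine (ae_restrict_iff' hWmeas).mpr (ae_of_all _ fun t ht => ?_)
      show fw t * gm σ a γ y T t ≤ C₁ * (θ / 2) * f0 t + C₁ * (θ / 2) * f1 t +
        C₁ * (1 / θ) * f2 t + C₁ * (1 / θ * r ^ 2) * zw T t + L ^ (1 / 8 : ℝ) * f4 t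
      have gn : 0 ≤ gm σ a γ y T t :=
        mul_nonneg (Real.rpow_nonneg (norm_nonneg _) _) (abs_nonneg _)
      have j1 : zw T t * gm σ a γ y T t ≤ zw T t * (C₁ *
          (θ / 2 * Real.exp (4 * c * s0 t) + θ / 2 * Real.exp (4 * c * s1 t) +
            1 / θ * s1 t ^ 2 + 1 / θ * r ^ 2)) := by
        apply mul_le_mul_of_nonneg_left _ (zn t)
        exact (hgm t ht).trans (mul_le_mul_of_nonneg_left (md_amgm c (s0 t) (s1 t) r θ hθ0) hC₁0)
      have j2 : (fw t - zw T t) * gm σ a γ y T t ≤ L ^ (1 / 8 : ℝ) * f4 t := by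
        calc (fw t - zw T t) * gm σ a γ y T t ≤ |fw t - zw T t| * gm σ a γ y T t :=
              mul_le_mul_of_nonneg_right (le_abs_self _) gn
          _ ≤ |fw t - zw T t| * L ^ (1 / 8 : ℝ) :=
              mul_le_mul_of_nonneg_left (hgm2 t ht) (abs_nonneg _)
          _ = L ^ (1 / 8 : ℝ) * f4 t := mul_comm _ _
      have j3 : fw t * gm σ a γ y T t = zw T t * gm σ a γ y T t +
          (fw t - zw T t) * gm σ a γ y T t := by ring
      rw [j3]
      simp only [hf0, hf1, hf2]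
      simp only [hf4] at j2 ⊢
      linarith
  refine hmain.trans ?_
  have I0 : Integrable (fun t => C₁ * (θ / 2) * f0 t) (volume.restrict W) :=
    hI _ (continuous_const.mul cf0)
  have I1 : Integrable (fun t => C₁ * (θ / 2) * f1 t) (volume.restrict W) :=
    hI _ (continuous_const.mul cf1)
  have I2 : Integrable (fun t => C₁ * (1 / θ) * f2 t) (volume.restrict W) :=
    hI _ (continuous_const.mul cf2)
  have I3 : Integrable (fun t => C₁ * (1 / θ * r ^ 2) * zw T t) (volume.restrict W) :=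
    hI _ (continuous_const.mul cz)
  have I4 : Integrable (fun t => L ^ (1 / 8 : ℝ) * f4 t) (volume.restrict W) :=
    hI _ (continuous_const.mul cf4)
  have hsum : ∫ t in W, (C₁ * (θ / 2) * f0 t + C₁ * (θ / 2) * f1 t + C₁ * (1 / θ) * f2 t +
      C₁ * (1 / θ * r ^ 2) * zw T t + L ^ (1 / 8 : ℝ) * f4 t) =
      C₁ * (θ / 2) * (∫ t in W, f0 t) + C₁ * (θ / 2) * (∫ t in W, f1 t) +
      C₁ * (1 / θ) * (∫ t in W, f2 t) + C₁ * (1 / θ * r ^ 2) * (∫ t in W, zw T t) +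
      L ^ (1 / 8 : ℝ) * (∫ t in W, f4 t) := by
    have g1 := integral_add (((I0.add I1).add I2).add I3) I4
    have g2 := integral_add ((I0.add I1).add I2) I3
    have g3 := integral_add (I0.add I1) I2
    have g4 := integral_add I0 I1
    simp only [Pi.add_apply] at g1 g2 g3 g4
    rw [g1, g2, g3, g4, integral_const_mul, integral_const_mul,
      integral_const_mul, integral_const_mul, integral_const_mul]
  rw [hsum]
  have n0 : C₁ * (θ / 2) * ∫ t in W, f0 t ≤ C₁ * (θ / 2) * (C₃ * fn T) := by gcongr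
  have n1 : C₁ * (θ / 2) * ∫ t in W, f1 t ≤ C₁ * (θ / 2) * (C₃ * fn T) := by gcongr
  have n2 : C₁ * (1 / θ) * ∫ t in W, f2 t ≤ C₁ * (1 / θ) * (C₂ * (θ ^ 2 + θ ^ 2) * fn T) := by
    gcongr
  have n3 : C₁ * (1 / θ * r ^ 2) * ∫ t in W, zw T t ≤
      C₁ * (1 / θ * (R * θ) ^ 2) * (C₄ * fn T) := by
    have q1 : C₁ * (1 / θ * r ^ 2) ≤ C₁ * (1 / θ * (R * θ) ^ 2) := by gcongr
    have q2 : 0 ≤ C₁ * (1 / θ * (R * θ) ^ 2) := by positivity
    have q3 : 0 ≤ ∫ t in W, zw T t := integral_nonneg fun t => zn t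
    exact (mul_le_mul_of_nonneg_right q1 q3).trans (mul_le_mul_of_nonneg_left i3 q2)
  have n4 : L ^ (1 / 8 : ℝ) * ∫ t in W, f4 t ≤ θ * fn T := by
    have q1 : 0 ≤ L ^ (1 / 8 : ℝ) := Real.rpow_nonneg hL0.le _
    calc L ^ (1 / 8 : ℝ) * ∫ t in W, f4 t ≤ L ^ (1 / 8 : ℝ) * (fn T * L ^ (-(1 / 3) : ℝ)) :=
          mul_le_mul_of_nonneg_left i4 q1
      _ = (L ^ (1 / 8 : ℝ) * L ^ (-(1 / 3) : ℝ)) * fn T := by ring
      _ = L ^ (-(5 / 24) : ℝ) * fn T := by
          rw [← Real.rpow_add hL0]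
          norm_num
      _ ≤ θ * fn T := mul_le_mul_of_nonneg_right e2 hfn.le
  have m2 : C₁ * (1 / θ) * (C₂ * (θ ^ 2 + θ ^ 2) * fn T) = 2 * C₁ * C₂ * θ * fn T := by
    field_simp
    ring
  have m3 : C₁ * (1 / θ * (R * θ) ^ 2) * (C₄ * fn T) = C₁ * R ^ 2 * C₄ * θ * fn T := by
    field_simp
  rw [m2] at n2
  rw [m3] at n3
  have fin : (C₁ * C₃ + 2 * C₁ * C₂ + C₁ * R ^ 2 * C₄ + 1) * θ * fn T =
      C₁ * (θ / 2) * (C₃ * fn T) + C₁ * (θ / 2) * (C₃ * fn T) + 2 * C₁ * C₂ * θ * fn T +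
        C₁ * R ^ 2 * C₄ * θ * fn T + θ * fn T := by ring
  rw [fin]
  linarith

end Pool.Agent.Lib.MP_aa9ae4_nt.S1
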