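import Mathlib
import Pool.Agent.Lib.MP_aa9ae4_nt.S1.SpecM

/-!
MP_aa9ae4_nt, Theorem S. Auxiliary lemmas for the modules Pos and Trc.
-/

namespace Pool.Agent.Lib.MP_aa9ae4_nt.S1

open Finset MeasureTheory Filter Topology
open Complex (I)

lemma a72_norm_pw (σ : ℝ) {n : ℕ} (hn : 0 < n) (u : ℝ) : ‖pw σ n u‖ = (n : ℝ) ^ (-σ) := by
  unfold pw
  rw [Complex.norm_natCast_cpow_of_pos hn]
  congr 1
  simp

lemma a72_factor_ne {σ : ℝ} (hσ : 0 < σ) {p : ℕ} (hp : 2 ≤ p) (u : ℝ) : 1 - pw σ p u ≠ 0 := by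
  intro h
  have h1 : pw σ p u = 1 := (sub_eq_zero.1 h).symm
  have h2 := a72_norm_pw σ (show 0 < p by omega) u
  rw [h1, norm_one] at h2
  have h3 : (p : ℝ) ^ (-σ) < 1 :=
    Real.rpow_lt_one_of_one_lt_of_neg (by exact_mod_cast (show 1 < p by omega)) (by linarith)
  linarith

lemma a72_prs {y z p : ℕ} (hp : p ∈ prs y z) : 2 ≤ p := (Finset.mem_filter.1 hp).2.two_le

lemma a72_eulS_pos {σ : ℝ} (hσ : 0 < σ) (y z : ℕ) (u : ℝ) : 0 < ‖eulS σ y z u‖ := by
  rw [norm_pos_iff]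
  unfold eulS
  exact Finset.prod_ne_zero_iff.2 fun p hp => a72_factor_ne hσ (a72_prs hp) u

lemma a72_cont_pw (σ : ℝ) {n : ℕ} (hn : 0 < n) (a : ℝ) : Continuous fun t : ℝ => pw σ n (a * t) := by
  unfold pw
  refine Continuous.const_cpow ?_ (Or.inl ?_)
  · fun_prop
  · exact_mod_cast hn.ne'

lemma a72_cont_eulS (σ : ℝ) (y z : ℕ) (a : ℝ) : Continuous fun t : ℝ => eulS σ y z (a * t) := by
  unfold eulS
  refine continuous_finsetProd _ fun p hp => continuous_const.sub (a72_cont_pw σ ?_ a)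
  have := a72_prs hp
  omega

lemma a72_cont_pow {σ : ℝ} (hσ : 0 < σ) (y z : ℕ) (a γ : ℝ) :
    Continuous fun t : ℝ => ‖eulS σ y z (a * t)‖ ^ γ :=
  (a72_cont_eulS σ y z a).norm.rpow_const fun t => Or.inl (a72_eulS_pos hσ y z (a * t)).ne'

lemma a72_good_sub (σ a T : ℝ) : good σ a T ⊆ Set.Icc T (2 * T) := fun _ h => h.1

lemma a72_int {f : ℝ → ℝ} (hf : Continuous f) {S : Set ℝ} {T : ℝ} (hS : S ⊆ Set.Icc T (2 * T)) :
    IntegrableOn f S :=
  (hf.continuousOn.integrableOn_compact isCompact_Icc).mono_set hS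

/-- the measure of the bad points, and the integral of the weight over them -/
lemma a72_bad (hGd : S_Gd) (hHol : S_Hol) {σ a : ℝ} (h1 : 1 / 2 < σ) (h2 : σ < 1) (ha : 0 < a) :
    ∃ δ : ℝ, 0 < δ ∧
    (∀ᶠ T : ℝ in atTop, MeasurableSet (good σ a T) ∧ good σ a T ⊆ Gz σ a T ∧
      ∀ t ∈ good σ a T, ‖fzS σ a t * eulS σ 0 (zT σ T) (a * t) - 1‖ ≤ 2 / Real.log T) ∧
    ∃ C : ℝ, 0 < C ∧ ∀ᶠ T : ℝ in atTop, ∫ t in Set.Icc T (2 * T) \ good σ a T, fw t ≤
      C * Real.log T ^ 2 * T ^ (1 - δ / 2) := by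
  obtain ⟨δ, hδ, hgd⟩ := hGd σ a h1 h2 ha
  obtain ⟨C, hC, hhol⟩ := hHol
  refine ⟨δ, hδ, ?_, C, hC, ?_⟩
  · filter_upwards [hgd] with T hT
    exact ⟨hT.1, hT.2.2.1, hT.2.2.2⟩
  · filter_upwards [hgd, hhol, eventually_gt_atTop (1 : ℝ)] with T hT hT' hT1
    have hT0 : 0 < T := by linarith
    have hmeas : MeasurableSet (Set.Icc T (2 * T) \ good σ a T) := measurableSet_Icc.diff hT.1
    have hfin : volume (Set.Icc T (2 * T) \ good σ a T) ≠ ⊤ :=
      (hT.2.1.trans_lt ENNReal.ofReal_lt_top).ne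
    have h3 := hT' (Set.Icc T (2 * T) \ good σ a T) (fun _ => 1) hmeas Set.sdiff_subset
      (fun _ => zero_le_one) aestronglyMeasurable_const (by
        simp only [one_pow]
        exact integrableOn_const hfin)
    simp only [mul_one, one_pow] at h3
    have h4 : ∫ _ in Set.Icc T (2 * T) \ good σ a T, (1 : ℝ) ≤ T ^ (1 - δ) := by
      rw [setIntegral_const, smul_eq_mul, mul_one]
      exact ENNReal.toReal_le_of_le_ofReal (by positivity) hT.2.1
    refine h3.trans ?_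
    have h5 : √(∫ _ in Set.Icc T (2 * T) \ good σ a T, (1 : ℝ)) ≤ √(T ^ (1 - δ)) :=
      Real.sqrt_le_sqrt h4
    have h6 : √T * √(T ^ (1 - δ)) = T ^ (1 - δ / 2) := by
      rw [Real.sqrt_eq_rpow, Real.sqrt_eq_rpow, ← Real.rpow_mul hT0.le, ← Real.rpow_add hT0]
      congr 1
      ring
    calc C * (√T * Real.log T ^ 2) * √(∫ _ in Set.Icc T (2 * T) \ good σ a T, (1 : ℝ)) ≤
        C * (√T * Real.log T ^ 2) * √(T ^ (1 - δ)) := by
          apply mul_le_mul_of_nonneg_left h5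
          positivity
      _ = C * Real.log T ^ 2 * (√T * √(T ^ (1 - δ))) := by ring
      _ = _ := by rw [h6]

/-- powers of `T` against logarithms -/
lemma a72_lim {C δ : ℝ} (hδ : 0 < δ) : Tendsto (fun T : ℝ =>
    T ^ (δ / 4) * (C * Real.log T ^ 2 * T ^ (1 - δ / 2)) / fn T) atTop (𝓝 0) := by
  have h1 := (isLittleO_log_rpow_rpow_atTop (s := δ / 4) 1 (by linarith)).tendsto_div_nhds_zero
  have h2 := h1.const_mul C
  rw [mul_zero] at h2
  refine h2.congr' ?_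
  filter_upwards [eventually_gt_atTop (1 : ℝ)] with T hT
  have hT0 : 0 < T := by linarith
  have hx : 0 < Real.log T := Real.log_pos hT
  unfold fn
  rw [Real.rpow_one]
  have e : T ^ (δ / 4) * T ^ (1 - δ / 2) * T ^ (δ / 4) = T := by
    rw [← Real.rpow_add hT0, ← Real.rpow_add hT0]
    have : δ / 4 + (1 - δ / 2) + δ / 4 = 1 := by ring
    rw [this, Real.rpow_one]
  have hp : 0 < T ^ (δ / 4) := by positivity
  rw [mul_div_assoc', div_eq_div_iff hp.ne' (by positivity)]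
  linear_combination (-(C * Real.log T ^ 2)) * e

end Pool.Agent.Lib.MP_aa9ae4_nt.S1
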