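import Mathlib
import Pool.Agent.Lib.MP_aa9ae4_nt.S1.SpecM
import Pool.Agent.Lib.MP_aa9ae4_nt.S1.Aux72

/-!
MP_aa9ae4_nt, Theorem S. Module Pos: the limit of the weighted means is positive.
-/

namespace Pool.Agent.Lib.MP_aa9ae4_nt.S1

open Finset MeasureTheory Filter Topology
open Complex (I)

/-- Cauchy-Schwarz -/
private lemma pos_cs {S : Set ℝ} {w x : ℝ → ℝ} (hw : ∀ t, 0 ≤ w t) (hx : ∀ t, 0 < x t)
    (hA : IntegrableOn w S) (hB : IntegrableOn (fun t => w t * x t) S)
    (hC : IntegrableOn (fun t => w t * (x t)⁻¹) S) :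
    (∫ t in S, w t) ^ 2 ≤ (∫ t in S, w t * x t) * ∫ t in S, w t * (x t)⁻¹ := by
  have hB0 : 0 ≤ ∫ t in S, w t * x t := integral_nonneg fun t => mul_nonneg (hw t) (hx t).le
  have hC0 : 0 ≤ ∫ t in S, w t * (x t)⁻¹ :=
    integral_nonneg fun t => mul_nonneg (hw t) (inv_pos.2 (hx t)).le
  have hA0 : 0 ≤ ∫ t in S, w t := integral_nonneg fun t => hw t
  have key : ∀ s : ℝ, 0 < s → 2 * (∫ t in S, w t) ≤
      s * (∫ t in S, w t * x t) + s⁻¹ * ∫ t in S, w t * (x t)⁻¹ := by
    intro s hs
    have h1 : ∫ t in S, 2 * w t ≤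
        ∫ t in S, (s * (w t * x t) + s⁻¹ * (w t * (x t)⁻¹)) := by
      apply integral_mono (hA.const_mul 2) ((hB.const_mul s).add (hC.const_mul s⁻¹))
      intro t
      have hp := hx t
      have h2 : 2 ≤ s * x t + s⁻¹ * (x t)⁻¹ := by
        have h3 : s * x t + s⁻¹ * (x t)⁻¹ - 2 = (s * x t - 1) ^ 2 / (s * x t) := by
          field_simp
          ring
        have h4 : 0 ≤ (s * x t - 1) ^ 2 / (s * x t) := by positivity
        linarith
      have h5 := mul_le_mul_of_nonneg_left h2 (hw t)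
      show 2 * w t ≤ s * (w t * x t) + s⁻¹ * (w t * (x t)⁻¹)
      linarith
    rw [integral_const_mul, integral_add (hB.const_mul s) (hC.const_mul s⁻¹),
      integral_const_mul, integral_const_mul] at h1
    exact h1
  set A := ∫ t in S, w t
  set B := ∫ t in S, w t * x t
  set C := ∫ t in S, w t * (x t)⁻¹
  rcases eq_or_lt_of_le hA0 with hA' | hA'
  · rw [← hA']
    have := mul_nonneg hB0 hC0
    simpa using this
  · by_cases hBz : B = 0
    · exfalso
      have h1 := key ((C + 1) / A) (by positivity)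
      rw [hBz, mul_zero, zero_add, inv_div] at h1
      have h2 : A / (C + 1) * C ≤ A := by
        rw [div_mul_eq_mul_div, div_le_iff₀ (by linarith)]
        nlinarith
      linarith
    · have hBp : 0 < B := lt_of_le_of_ne hB0 (Ne.symm hBz)
      have h1 := key (A / B) (by positivity)
      rw [div_mul_cancel₀ _ hBz, inv_div] at h1
      have h2 : A ≤ B / A * C := by linarith
      rw [div_mul_eq_mul_div, le_div_iff₀ hA'] at h2
      nlinarith

theorem pPos (hLim : S_Lim) (hGd : S_Gd) (hHol : S_Hol) (hCf : S_Cf) : S_Pos := by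
  intro σ a γ D h1 h2 ha hD
  have hσ : 0 < σ := by linarith
  obtain ⟨D', hD'⟩ := hLim σ a (-γ) h1 h2 ha
  obtain ⟨δ, hδ, hgd, C, hC, hbad⟩ := a72_bad hGd hHol h1 h2 ha
  -- the mass of the good points
  have hmass : Tendsto (fun T : ℝ => (∫ t in good σ a T, fw t) / fn T) atTop (𝓝 1) := by
    have h3 : Tendsto (fun T : ℝ => (∫ t in Set.Icc T (2 * T) \ good σ a T, fw t) / fn T)
        atTop (𝓝 0) := by
      refine squeeze_zero' ?_ ?_ (a72_lim (C := C) hδ)
      · filter_upwards [fin_fn_pos] with T hT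
        exact div_nonneg (integral_nonneg fun t => fin_fw_nonneg t) hT.le
      · filter_upwards [fin_fn_pos, hbad, eventually_ge_atTop (1 : ℝ)] with T hT hT' hT1
        apply div_le_div_of_nonneg_right _ hT.le
        refine hT'.trans ?_
        have h4 : 1 ≤ T ^ (δ / 4) := Real.one_le_rpow hT1 (by positivity)
        have h5 : 0 ≤ C * Real.log T ^ 2 * T ^ (1 - δ / 2) := by positivity
        nlinarith
    have h4 := hCf.2.2.2.sub h3
    rw [sub_zero] at h4
    refine h4.congr' ?_
    filter_upwards [hgd, eventually_gt_atTop (0 : ℝ)] with T hT hT0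
    rw [← sub_div]
    congr 1
    have h5 : ∫ t in T..(2 * T), fw t = ∫ t in Set.Icc T (2 * T), fw t := by
      rw [intervalIntegral.integral_of_le (by linarith), integral_Icc_eq_integral_Ioc]
    rw [h5, ← integral_inter_add_sdiff hT.1 (a72_int fin_fw_cont (le_refl _)),
      Set.inter_eq_right.2 (a72_good_sub σ a T)]
    ring
  have h3 : (1 : ℝ) ^ 2 ≤ D * D' := by
    refine le_of_tendsto_of_tendsto (hmass.pow 2) (hD.mul hD') ?_
    filter_upwards [fin_fn_pos] with T hT
    unfold LG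
    rw [div_pow, div_mul_div_comm, ← sq]
    apply div_le_div_of_nonneg_right _ (by positivity)
    have e : ∀ t, ‖eulS σ 0 (zT σ T) (a * t)‖ ^ (-γ) =
        (‖eulS σ 0 (zT σ T) (a * t)‖ ^ γ)⁻¹ := fun t =>
      Real.rpow_neg (norm_nonneg _) γ
    simp only [e]
    refine pos_cs fin_fw_nonneg (fun t => Real.rpow_pos_of_pos (a72_eulS_pos hσ _ _ _) _)
      (a72_int fin_fw_cont (a72_good_sub σ a T)) ?_ ?_
    · exact a72_int (fin_fw_cont.mul (a72_cont_pow hσ 0 _ a γ)) (a72_good_sub σ a T)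
    · have h6 := a72_int (fin_fw_cont.mul (a72_cont_pow hσ 0 (zT σ T) a (-γ)))
        (a72_good_sub σ a T)
      simp only [e] at h6
      exact h6
  have h4 : 0 ≤ D := by
    apply ge_of_tendsto hD
    filter_upwards [fin_fn_pos] with T hT
    exact div_nonneg (integral_nonneg fun t =>
      mul_nonneg (fin_fw_nonneg t) (Real.rpow_nonneg (norm_nonneg _) _)) hT.le
  rcases eq_or_lt_of_le h4 with h5 | h5
  · rw [← h5, zero_mul] at h3
    norm_num at h3
  · exact h5

end Pool.Agent.Lib.MP_aa9ae4_nt.S1
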