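import Pool.Agent.Lib.MP_aa9ae4_nt.S1.SpecW

/-!
MP_aa9ae4_nt, Theorem S: separation of the ratios `(k/h)^a` and twisted means (`S_Psi`).
-/

set_option autoImplicit false

namespace Pool.Agent.Lib.MP_aa9ae4_nt.S1

open Finset MeasureTheory Filter Topology
open Complex (I)

/-- the bound of `twisted_bound` in terms of `fn` -/
private theorem psi_bd {C T : ℝ} (hC : 0 < C)
    (hb : ∀ (T θ Λ : ℝ) (N q : ℕ), 2 ≤ T → 1 ≤ θ → 1 ≤ Λ → 1 ≤ N → (N : ℝ) ≤ T → 1 ≤ q →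
      (∀ n : ℕ, 1 ≤ n → n < q → ∀ m : ℤ, 8 * Λ * N / T < |θ * n - m|) →
      ‖∫ t in T..(2 * T), ((‖zsum (1 / 2 + t * I) N‖ ^ 2 : ℝ) : ℂ) * (θ : ℂ) ^ (t * I)‖ ≤
        C * (N * (1 + Real.log N) + T * (1 + Real.log N) * (1 / Λ + 1 / (√θ * q))))
    (hT : 2 ≤ T) (hL : 1 ≤ Real.log T) (r : ℝ) (hr0 : 0 < r) (hr1 : r ≤ 1)
    (hr : Real.exp (-(Real.log (Real.log T)) ^ 3) = r ^ 2) (hN : 1 ≤ NT T)
    (θ : ℝ) (hθ : 1 ≤ θ) (q : ℕ) (hq : 1 ≤ q)
    (hs : ∀ n : ℕ, 1 ≤ n → n < q → ∀ m : ℤ, 8 * r < |θ * n - m|) :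
    ‖∫ t in T..(2 * T), (zw T t : ℂ) * (θ : ℂ) ^ ((t : ℂ) * I)‖ ≤
      2 * C * (2 * r + 1 / (√θ * q)) * fn T := by
  have hT0 : 0 < T := by linarith
  have hNT : (NT T : ℝ) ≤ T * r ^ 2 := by
    unfold NT
    rw [hr]
    exact Nat.floor_le (by positivity)
  have hr2 : r ^ 2 ≤ r := by nlinarith
  have hr3 : r ^ 2 ≤ 1 := by nlinarith
  have hNT' : (NT T : ℝ) ≤ T := by nlinarith
  have hN1 : (1 : ℝ) ≤ NT T := by exact_mod_cast hN
  have hlog : Real.log (NT T : ℝ) ≤ Real.log T :=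
    Real.log_le_log (by linarith) hNT'
  have hlog0 : 0 ≤ Real.log (NT T : ℝ) := Real.log_nonneg hN1
  have h1 : 1 + Real.log (NT T : ℝ) ≤ 2 * Real.log T := by linarith
  have hq0 : (0 : ℝ) < q := by exact_mod_cast hq
  have hsθ : 1 ≤ √θ := Real.one_le_sqrt.mpr hθ
  have hb1 := hb T θ (1 / r) (NT T) q hT hθ (by rw [le_div_iff₀ hr0]; linarith) hN hNT' hq (by
    intro n hn1 hn2 m
    refine lt_of_le_of_lt ?_ (hs n hn1 hn2 m)
    rw [div_le_iff₀ hT0]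
    calc 8 * (1 / r) * (NT T : ℝ) ≤ 8 * (1 / r) * (T * r ^ 2) := by gcongr
      _ = 8 * r * T := by field_simp)
  unfold zw fn
  refine le_trans hb1 ?_
  rw [one_div_one_div]
  have h2 : (NT T : ℝ) * (1 + Real.log (NT T : ℝ)) ≤ (T * r) * (2 * Real.log T) := by
    refine mul_le_mul (by nlinarith) h1 (by linarith) (by positivity)
  have h3 : T * (1 + Real.log (NT T : ℝ)) * (r + 1 / (√θ * q)) ≤
      T * (2 * Real.log T) * (r + 1 / (√θ * q)) := by gcongr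
  calc C * ((NT T : ℝ) * (1 + Real.log (NT T : ℝ)) +
        T * (1 + Real.log (NT T : ℝ)) * (r + 1 / (√θ * q)))
      ≤ C * ((T * r) * (2 * Real.log T) + T * (2 * Real.log T) * (r + 1 / (√θ * q))) := by
        gcongr
    _ = 2 * C * (2 * r + 1 / (√θ * q)) * (T * Real.log T) := by ring

private theorem psi_sep_lt {a δ : ℝ} (ha : 0 < a) {H : ℕ} (hδ : 2 * δ < a / (H : ℝ) ^ 3)
    {h k h' k' q m : ℕ} (hh : 1 ≤ h) (hh' : 1 ≤ h') (hH : h ≤ H) (hH' : h' ≤ H) (kH : k ≤ H)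
    (hlt' : h' < k') (hq : 1 ≤ q)
    (h1 : |((k : ℝ) / h) ^ a * q - m| ≤ δ) (h2 : |((k' : ℝ) / h') ^ a * q - m| ≤ δ)
    (hlt : k' * h < k * h') : False := by
  have hh0 : (0 : ℝ) < h := by exact_mod_cast hh
  have hh0' : (0 : ℝ) < h' := by exact_mod_cast hh'
  have hH0 : (0 : ℝ) < H := lt_of_lt_of_le hh0 (by exact_mod_cast hH)
  have hHr : (h : ℝ) ≤ H := by exact_mod_cast hH
  have hHr' : (h' : ℝ) ≤ H := by exact_mod_cast hH'
  have kHr : (k : ℝ) ≤ H := by exact_mod_cast kH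
  have hq1 : (1 : ℝ) ≤ q := by exact_mod_cast hq
  have hk : 1 ≤ k := by
    rcases Nat.eq_zero_or_pos k with h0 | h0
    · rw [h0, Nat.zero_mul] at hlt
      omega
    · exact h0
  have hk0 : (0 : ℝ) < k := by exact_mod_cast hk
  have hx' : (1 : ℝ) ≤ (k' : ℝ) / h' := by
    rw [le_div_iff₀ hh0', one_mul]
    exact_mod_cast hlt'.le
  have hdiff : 1 / ((h : ℝ) * h') ≤ (k : ℝ) / h - (k' : ℝ) / h' := by
    rw [div_sub_div _ _ hh0.ne' hh0'.ne']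
    gcongr
    have : k' * h + 1 ≤ k * h' := hlt
    have h3 : (k' : ℝ) * h + 1 ≤ k * h' := by exact_mod_cast this
    nlinarith
  have hdiff2 : 1 / ((H : ℝ) * H) ≤ (k : ℝ) / h - (k' : ℝ) / h' := by
    refine le_trans ?_ hdiff
    gcongr
  have hle : (k' : ℝ) / h' ≤ (k : ℝ) / h := by
    have : (0 : ℝ) < 1 / ((H : ℝ) * H) := by positivity
    linarith
  have hx0 : (0 : ℝ) < (k : ℝ) / h := by positivity
  have hxH : (k : ℝ) / h ≤ H := by
    rw [div_le_iff₀ hh0]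
    have : (1 : ℝ) ≤ h := by exact_mod_cast hh
    nlinarith
  have h3 := primeweight_rpow_sub ha hx' hle
  have h4 : a / (H : ℝ) ^ 3 ≤ a * ((k : ℝ) / h - (k' : ℝ) / h') / ((k : ℝ) / h) := by
    rw [div_le_div_iff₀ (by positivity) hx0]
    calc a * ((k : ℝ) / h) ≤ a * H := by gcongr
      _ = a * (1 / ((H : ℝ) * H)) * (H : ℝ) ^ 3 := by field_simp
      _ ≤ a * ((k : ℝ) / h - (k' : ℝ) / h') * (H : ℝ) ^ 3 := by gcongr
  have h5 : ((k : ℝ) / h) ^ a - ((k' : ℝ) / h') ^ a ≤ 2 * δ := by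
    have hpos : 0 ≤ ((k : ℝ) / h) ^ a - ((k' : ℝ) / h') ^ a := by
      refine le_trans ?_ h3
      refine div_nonneg (mul_nonneg ha.le ?_) hx0.le
      linarith
    have h6 := abs_le.1 h1
    have h7 := abs_le.1 h2
    nlinarith
  linarith

private theorem psi_sep {a δ : ℝ} (ha : 0 < a) {H : ℕ} (hδ : 2 * δ < a / (H : ℝ) ^ 3)
    {h k h' k' q m : ℕ} (hh : 1 ≤ h) (hh' : 1 ≤ h') (hH : h ≤ H) (hH' : h' ≤ H) (kH : k ≤ H)
    (kH' : k' ≤ H) (hlt : h < k) (hlt' : h' < k') (hc : Nat.Coprime h k)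
    (hc' : Nat.Coprime h' k') (hq : 1 ≤ q)
    (h1 : |((k : ℝ) / h) ^ a * q - m| ≤ δ) (h2 : |((k' : ℝ) / h') ^ a * q - m| ≤ δ) :
    h = h' ∧ k = k' := by
  have he : k' * h = k * h' := by
    rcases lt_trichotomy (k' * h) (k * h') with h3 | h3 | h3
    · exact (psi_sep_lt ha hδ hh hh' hH hH' kH hlt' hq h1 h2 h3).elim
    · exact h3
    · exact (psi_sep_lt ha hδ hh' hh hH' hH kH' hlt hq h2 h1 h3).elim
  have h3 : h ∣ h' := by
    have : h ∣ k * h' := ⟨k', by rw [← he, mul_comm]⟩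
    exact hc.dvd_of_dvd_mul_left this
  have h4 : h' ∣ h := by
    have : h' ∣ k' * h := ⟨k, by rw [he, mul_comm]⟩
    exact hc'.dvd_of_dvd_mul_left this
  have h5 := Nat.dvd_antisymm h3 h4
  subst h5
  exact ⟨rfl, (Nat.eq_of_mul_eq_mul_right (by omega) he).symm⟩

/-- `q` is the first denominator, `m` the numerator -/
private def Sol (a r : ℝ) (h k : ℕ) (x : ℕ × ℕ) : Prop :=
  1 ≤ x.1 ∧ 1 ≤ x.2 ∧ |((k : ℝ) / h) ^ a * x.2 - x.1| ≤ 8 * r ∧
    ∀ n : ℕ, 1 ≤ n → n < x.2 → ∀ m : ℤ, 8 * r < |((k : ℝ) / h) ^ a * n - m|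

private theorem sol_or {a r s : ℝ} (ha : 0 < a) (hr : 8 * r < 1) {h k : ℕ}
    (hh : 1 ≤ h) (hlt : h < k) :
    (∃ x, Sol a r h k x) ∨
      ∀ n : ℕ, 1 ≤ n → (n : ℝ) < s → ∀ m : ℤ, 8 * r < |((k : ℝ) / h) ^ a * n - m| := by
  classical
  by_cases hex : ∃ n : ℕ, 1 ≤ n ∧ ∃ m : ℤ, |((k : ℝ) / h) ^ a * n - m| ≤ 8 * r
  · left
    obtain ⟨h1, m, h2⟩ := Nat.find_spec hex
    have hh0 : (0 : ℝ) < h := by exact_mod_cast hh
    have hx : (1 : ℝ) ≤ (k : ℝ) / h := by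
      rw [le_div_iff₀ hh0, one_mul]
      exact_mod_cast hlt.le
    have hθ : (1 : ℝ) ≤ ((k : ℝ) / h) ^ a := Real.one_le_rpow hx ha.le
    have hn1 : (1 : ℝ) ≤ (Nat.find hex : ℕ) := by exact_mod_cast h1
    have h3 : (1 : ℝ) ≤ ((k : ℝ) / h) ^ a * (Nat.find hex : ℕ) := by nlinarith
    have h4 := abs_le.1 h2
    have hm : 1 ≤ m := by
      have : (0 : ℝ) < m := by linarith
      have h5 : (0 : ℤ) < m := by exact_mod_cast this
      omega
    refine ⟨(m.toNat, Nat.find hex), ?_, h1, ?_, ?_⟩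
    · show 1 ≤ m.toNat
      omega
    · show |((k : ℝ) / h) ^ a * (Nat.find hex : ℕ) - (m.toNat : ℕ)| ≤ 8 * r
      have h6 : ((m.toNat : ℕ) : ℝ) = m := by
        have : ((m.toNat : ℕ) : ℤ) = m := Int.toNat_of_nonneg (by omega)
        exact_mod_cast this
      rw [h6]
      exact h2
    · intro n hn hlt2 m'
      have h7 := Nat.find_min hex hlt2
      push Not at h7
      exact h7 hn m'
  · right
    push Not at hex
    intro n hn _ m
    exact hex n hn m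

private theorem conj_int {T θ : ℝ} (hθ : 0 < θ) :
    ‖∫ t in T..(2 * T), (zw T t : ℂ) * ((θ⁻¹ : ℝ) : ℂ) ^ ((t : ℂ) * I)‖ =
      ‖∫ t in T..(2 * T), (zw T t : ℂ) * (θ : ℂ) ^ ((t : ℂ) * I)‖ := by
  have h1 : ∀ t : ℝ, (zw T t : ℂ) * ((θ⁻¹ : ℝ) : ℂ) ^ ((t : ℂ) * I) =
      (starRingEnd ℂ) ((zw T t : ℂ) * (θ : ℂ) ^ ((t : ℂ) * I)) := by
    intro t
    rw [map_mul, Complex.conj_ofReal]
    congr 1
    have hθ0 : (θ : ℂ) ≠ 0 := by exact_mod_cast hθ.ne'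
    have hθ1 : ((θ⁻¹ : ℝ) : ℂ) ≠ 0 := by exact_mod_cast (inv_pos.2 hθ).ne'
    rw [Complex.cpow_def_of_ne_zero hθ1, Complex.cpow_def_of_ne_zero hθ0, ← Complex.exp_conj,
      ← Complex.ofReal_log hθ.le, ← Complex.ofReal_log (inv_pos.2 hθ).le, Real.log_inv]
    congr 1
    simp only [map_mul, Complex.conj_ofReal, Complex.conj_I, Complex.ofReal_neg]
    ring
  have h2 : (∫ t in T..(2 * T), (zw T t : ℂ) * ((θ⁻¹ : ℝ) : ℂ) ^ ((t : ℂ) * I)) =
      (starRingEnd ℂ) (∫ t in T..(2 * T), (zw T t : ℂ) * (θ : ℂ) ^ ((t : ℂ) * I)) := by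
    rw [← intervalIntegral.intervalIntegral_conj]
    exact intervalIntegral.integral_congr fun t _ => h1 t
  rw [h2, RCLike.norm_conj]

/-- the weight of a pair -/
private noncomputable def wt (K : ℝ) (x : ℕ × ℕ) : ℝ :=
  K * ((x.1 : ℝ) * x.2) ^ (-(1 / 2) : ℝ)

private theorem wt_nonneg {K : ℝ} (hK : 0 ≤ K) (x : ℕ × ℕ) : 0 ≤ wt K x :=
  mul_nonneg hK (Real.rpow_nonneg (by positivity) _)

private theorem wt_le {K : ℝ} (hK : 0 ≤ K) {x : ℕ × ℕ} (h1 : 1 ≤ x.1) (h2 : 1 ≤ x.2) :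
    wt K x ≤ K := by
  unfold wt
  refine mul_le_of_le_one_right hK (Real.rpow_le_one_of_one_le_of_nonpos ?_ (by norm_num))
  have h3 : (1 : ℝ) ≤ x.1 := by exact_mod_cast h1
  have h4 : (1 : ℝ) ≤ x.2 := by exact_mod_cast h2
  nlinarith

private theorem wt_pow {K v : ℝ} (hK : 0 ≤ K) (x : ℕ × ℕ) :
    wt K x ^ v = K ^ v * ((x.1 : ℝ) ^ (-(v / 2)) * (x.2 : ℝ) ^ (-(v / 2))) := by
  unfold wt
  rw [Real.mul_rpow hK (Real.rpow_nonneg (by positivity) _), ← Real.rpow_mul (by positivity),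
    Real.mul_rpow (by positivity) (by positivity)]
  congr 2 <;> congr 1 <;> ring

private theorem sum_wt {v : ℝ} (hv : 2 < v)
    (hS : ∀ τ : ℝ, 1 < τ → ∀ N : ℕ, ∑ n ∈ Icc 1 N, (n : ℝ) ^ (-τ) ≤ τ / (τ - 1))
    (A : Finset (ℕ × ℕ)) (hA : ∀ x ∈ A, 1 ≤ x.1 ∧ 1 ≤ x.2) :
    ∑ x ∈ A, ((x.1 : ℝ) ^ (-(v / 2)) * (x.2 : ℝ) ^ (-(v / 2))) ≤
      (v / 2 / (v / 2 - 1)) ^ 2 := by
  classical
  set M := A.sup (fun x => max x.1 x.2) with hM
  have hsub : A ⊆ Icc 1 M ×ˢ Icc 1 M := by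
    intro x hx
    have h1 := hA x hx
    have h2 : max x.1 x.2 ≤ M := Finset.le_sup (f := fun x : ℕ × ℕ => max x.1 x.2) hx
    rw [Finset.mem_product, mem_Icc, mem_Icc]
    exact ⟨⟨h1.1, le_trans (le_max_left _ _) h2⟩, ⟨h1.2, le_trans (le_max_right _ _) h2⟩⟩
  calc ∑ x ∈ A, ((x.1 : ℝ) ^ (-(v / 2)) * (x.2 : ℝ) ^ (-(v / 2)))
      ≤ ∑ x ∈ Icc 1 M ×ˢ Icc 1 M, ((x.1 : ℝ) ^ (-(v / 2)) * (x.2 : ℝ) ^ (-(v / 2))) :=
        Finset.sum_le_sum_of_subset_of_nonneg hsub fun x _ _ => by positivity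
    _ = (∑ n ∈ Icc 1 M, (n : ℝ) ^ (-(v / 2))) * ∑ n ∈ Icc 1 M, (n : ℝ) ^ (-(v / 2)) := by
        rw [Finset.sum_mul_sum, Finset.sum_product]
    _ ≤ (v / 2 / (v / 2 - 1)) ^ 2 := by
        rw [← sq]
        have h3 : 0 ≤ ∑ n ∈ Icc 1 M, (n : ℝ) ^ (-(v / 2)) :=
          Finset.sum_nonneg fun n _ => by positivity
        exact pow_le_pow_left₀ h3 (hS (v / 2) (by linarith) M) 2

/-- the statement for one `T` -/
private theorem psi_core {a v C T : ℝ} (ha : 0 < a) (hv : 2 < v) (hC : 0 < C)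
    (hS : ∀ τ : ℝ, 1 < τ → ∀ N : ℕ, ∑ n ∈ Icc 1 N, (n : ℝ) ^ (-τ) ≤ τ / (τ - 1))
    (hb : ∀ (T θ Λ : ℝ) (N q : ℕ), 2 ≤ T → 1 ≤ θ → 1 ≤ Λ → 1 ≤ N → (N : ℝ) ≤ T → 1 ≤ q →
      (∀ n : ℕ, 1 ≤ n → n < q → ∀ m : ℤ, 8 * Λ * N / T < |θ * n - m|) →
      ‖∫ t in T..(2 * T), ((‖zsum (1 / 2 + t * I) N‖ ^ 2 : ℝ) : ℂ) * (θ : ℂ) ^ (t * I)‖ ≤
        C * (N * (1 + Real.log N) + T * (1 + Real.log N) * (1 / Λ + 1 / (√θ * q))))
    (hT : 2 ≤ T) (hL : 1 ≤ Real.log T) (r s : ℝ) (hs0 : 0 < s) (hrs : r = s ^ 2)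
    (hr1 : 16 * r ≤ 1) (hr : Real.exp (-(Real.log (Real.log T)) ^ 3) = r ^ 2) (hN : 1 ≤ NT T)
    (hE : 6 * C * s ≤ Real.exp (-(Real.log (Real.log T)) ^ 3 / 8))
    (hsep : 2 * (8 * r) < a / (HT T : ℝ) ^ 3) :
    ∃ ψ : ℕ → ℕ → ℝ, PsiOK a T ψ ∧ (∀ h k, ψ h k ≤ 4 * C) ∧
      ∑ h ∈ Icc 1 (HT T), ∑ k ∈ Icc 1 (HT T), ψ h k ^ v ≤
        (4 * C) ^ v * (1 + 2 * (v / 2 / (v / 2 - 1)) ^ 2) := by
  classical
  have hr0 : 0 < r := by rw [hrs]; positivity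
  have hs1 : s ≤ 1 := by nlinarith
  have hK : 0 ≤ 4 * C := by positivity
  set K := 4 * C with hKd
  set H := HT T with hHd
  set S : Finset (ℕ × ℕ) := (Icc 1 H ×ˢ Icc 1 H).filter
    (fun p => Nat.Coprime p.1 p.2 ∧ p.1 < p.2 ∧ ∃ x, Sol a r p.1 p.2 x) with hSd
  have hmem : ∀ p, p ∈ S ↔ ((1 ≤ p.1 ∧ p.1 ≤ H) ∧ (1 ≤ p.2 ∧ p.2 ≤ H)) ∧
      Nat.Coprime p.1 p.2 ∧ p.1 < p.2 ∧ ∃ x, Sol a r p.1 p.2 x := by
    intro p
    rw [hSd, Finset.mem_filter, Finset.mem_product, mem_Icc, mem_Icc]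
  have hch : ∀ p : ℕ × ℕ, ∃ x : ℕ × ℕ, (∃ y, Sol a r p.1 p.2 y) → Sol a r p.1 p.2 x := by
    intro p
    by_cases h : ∃ y, Sol a r p.1 p.2 y
    · obtain ⟨y, hy⟩ := h
      exact ⟨y, fun _ => hy⟩
    · exact ⟨(1, 1), fun h' => absurd h' h⟩
  choose G hG using hch
  have hGS : ∀ p ∈ S, Sol a r p.1 p.2 (G p) := fun p hp => hG p ((hmem p).1 hp).2.2.2
  have hGinj : Set.InjOn G (S : Set (ℕ × ℕ)) := by
    intro p hp p' hp' he
    have h1 := (hmem p).1 hp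
    have h2 := (hmem p').1 hp'
    have h3 := hGS p hp
    have h4 := hGS p' hp'
    rw [← he] at h4
    have h5 := psi_sep (q := (G p).2) (m := (G p).1) ha hsep h1.1.1.1 h2.1.1.1 h1.1.1.2
      h2.1.1.2 h1.1.2.2 h2.1.2.2 h1.2.2.1 h2.2.2.1 h1.2.1 h2.2.1 h3.2.1
      h3.2.2.1 h4.2.2.1
    exact Prod.ext h5.1 h5.2
  -- the function
  set ψ : ℕ → ℕ → ℝ := fun h k => if h = 1 ∧ k = 1 then K else
    if (h, k) ∈ S then wt K (G (h, k)) else if (k, h) ∈ S then wt K (G (k, h)) else 0 with hψ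
  have hψ0 : ∀ h k, 0 ≤ ψ h k := by
    intro h k
    rw [hψ]
    dsimp only
    split_ifs
    · exact hK
    · exact wt_nonneg hK _
    · exact wt_nonneg hK _
    · exact le_refl _
  have hsym : ∀ h k, ψ h k = ψ k h := by
    intro h k
    rw [hψ]
    dsimp only
    by_cases h1 : h = 1 ∧ k = 1
    · rw [if_pos h1, if_pos ⟨h1.2, h1.1⟩]
    · rw [if_neg h1, if_neg (fun h2 : k = 1 ∧ h = 1 => h1 ⟨h2.2, h2.1⟩)]
      by_cases h2 : (h, k) ∈ S
      · have h3 : (k, h) ∉ S := fun h3 => by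
          have h4 := ((hmem _).1 h2).2.2.1
          have h5 := ((hmem _).1 h3).2.2.1
          simp only at h4 h5
          omega
        rw [if_pos h2, if_neg h3, if_pos h2]
      · by_cases h3 : (k, h) ∈ S
        · rw [if_neg h2, if_pos h3, if_pos h3]
        · rw [if_neg h2, if_neg h3, if_neg h3, if_neg h2]
  have hfn : 0 ≤ fn T := by
    unfold fn
    have : (0 : ℝ) ≤ T := by linarith
    positivity
  have hEr : 4 * C * r ≤ Real.exp (-(Real.log (Real.log T)) ^ 3 / 8) := by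
    refine le_trans ?_ hE
    have : r ≤ s := by rw [hrs]; nlinarith
    have h2 : 4 * C * r ≤ 4 * C * s := by gcongr
    have h3 : 0 < C * s := by positivity
    nlinarith
  -- ordered pairs
  have hlt : ∀ h ∈ Icc 1 H, ∀ k ∈ Icc 1 H, Nat.Coprime h k → h < k →
      ‖∫ t in T..(2 * T), (zw T t : ℂ) * ((((k : ℝ) / h) ^ a : ℝ) : ℂ) ^ ((t : ℂ) * I)‖ ≤
        (ψ h k + Real.exp (-(Real.log (Real.log T)) ^ 3 / 8)) * fn T := by
    intro h hh k hk hcop hlt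
    rw [mem_Icc] at hh hk
    have hh0 : (0 : ℝ) < h := by exact_mod_cast hh.1
    have hx : (1 : ℝ) ≤ (k : ℝ) / h := by
      rw [le_div_iff₀ hh0, one_mul]
      exact_mod_cast hlt.le
    have hθ : (1 : ℝ) ≤ ((k : ℝ) / h) ^ a := Real.one_le_rpow hx ha.le
    set θ := ((k : ℝ) / h) ^ a with hθd
    have hsθ : 1 ≤ √θ := Real.one_le_sqrt.mpr hθ
    have hn1 : ¬ (h = 1 ∧ k = 1) := by omega
    rcases sol_or (a := a) (r := r) (s := 1 / s) ha (by linarith) hh.1 hlt with hex | hno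
    · have hp : (h, k) ∈ S := (hmem _).2 ⟨⟨hh, hk⟩, hcop, hlt, hex⟩
      have hsol := hGS _ hp
      have hψe : ψ h k = wt K (G (h, k)) := by
        rw [hψ]
        dsimp only
        rw [if_neg hn1, if_pos hp]
      have hbd := psi_bd hC hb hT hL r hr0 (by linarith) hr hN θ hθ (G (h, k)).2 hsol.2.1
        hsol.2.2.2
      refine le_trans hbd (mul_le_mul_of_nonneg_right ?_ hfn)
      have hq1 : (1 : ℝ) ≤ (G (h, k)).2 := by exact_mod_cast hsol.2.1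
      have hm1 : (1 : ℝ) ≤ (G (h, k)).1 := by exact_mod_cast hsol.1
      have hmq : ((G (h, k)).1 : ℝ) ≤ 2 * θ * (G (h, k)).2 := by
        have h6 := abs_le.1 hsol.2.2.1
        simp only [← hθd] at h6
        have h7 : 1 ≤ θ * (G (h, k)).2 := by nlinarith
        nlinarith [h6.1]
      have h8 : 1 / (√θ * ((G (h, k)).2 : ℝ)) ≤
          2 * (((G (h, k)).1 : ℝ) * (G (h, k)).2) ^ (-(1 / 2) : ℝ) := by
        rw [Real.rpow_neg (by positivity), ← Real.sqrt_eq_rpow, ← div_eq_mul_inv,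
          div_le_div_iff₀ (by positivity) (by positivity), one_mul]
        refine Real.sqrt_le_iff.2 ⟨by positivity, ?_⟩
        have h9 : (2 * (√θ * ((G (h, k)).2 : ℝ))) ^ 2 = 4 * θ * ((G (h, k)).2 : ℝ) ^ 2 := by
          rw [mul_pow, mul_pow, Real.sq_sqrt (by linarith)]
          ring
        rw [h9]
        nlinarith [mul_le_mul_of_nonneg_right hmq (by linarith : (0 : ℝ) ≤ (G (h, k)).2)]
      rw [hψe]
      unfold wt
      have h10 := mul_le_mul_of_nonneg_left h8 (by positivity : 0 ≤ 2 * C)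
      rw [hKd]
      calc 2 * C * (2 * r + 1 / (√θ * ((G (h, k)).2 : ℝ)))
          = 4 * C * r + 2 * C * (1 / (√θ * ((G (h, k)).2 : ℝ))) := by ring
        _ ≤ Real.exp (-(Real.log (Real.log T)) ^ 3 / 8) +
            2 * C * (2 * (((G (h, k)).1 : ℝ) * (G (h, k)).2) ^ (-(1 / 2) : ℝ)) :=
          add_le_add hEr h10
        _ = _ := by ring
    · have hq : 1 ≤ ⌈1 / s⌉₊ := Nat.one_le_ceil_iff.2 (by positivity)
      have hbd := psi_bd hC hb hT hL r hr0 (by linarith) hr hN θ hθ ⌈1 / s⌉₊ hq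
        fun n hn1 hn2 m => hno n hn1 (Nat.lt_ceil.1 hn2) m
      refine le_trans hbd (mul_le_mul_of_nonneg_right ?_ hfn)
      have h1 : 1 / (√θ * ((⌈1 / s⌉₊ : ℕ) : ℝ)) ≤ s := by
        have h2 : 1 / s ≤ ((⌈1 / s⌉₊ : ℕ) : ℝ) := Nat.le_ceil _
        have h3 : 1 / s ≤ √θ * ((⌈1 / s⌉₊ : ℕ) : ℝ) := by
          have : 0 < 1 / s := by positivity
          nlinarith
        calc 1 / (√θ * ((⌈1 / s⌉₊ : ℕ) : ℝ)) ≤ 1 / (1 / s) :=
              one_div_le_one_div_of_le (by positivity) h3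
          _ = s := one_div_one_div s
      have h4 : 2 * r + 1 / (√θ * ((⌈1 / s⌉₊ : ℕ) : ℝ)) ≤ 3 * s := by
        have : r ≤ s := by rw [hrs]; nlinarith
        linarith
      have h5 := mul_le_mul_of_nonneg_left h4 (by positivity : 0 ≤ 2 * C)
      have h6 := hψ0 h k
      nlinarith
  refine ⟨ψ, ⟨hψ0, ?_⟩, ?_, ?_⟩
  · intro h hh k hk hcop
    rcases lt_trichotomy h k with h1 | h1 | h1
    · exact hlt h hh k hk hcop h1
    · subst h1
      have h2 : h = 1 := by rwa [Nat.coprime_self] at hcop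
      subst h2
      have hψe : ψ 1 1 = K := by
        rw [hψ]
        dsimp only
        rw [if_pos ⟨rfl, rfl⟩]
      rw [hψe]
      have h3 : (((1 : ℕ) : ℝ) / ((1 : ℕ) : ℝ)) ^ a = 1 := by
        rw [Nat.cast_one, div_one, Real.one_rpow]
      rw [h3]
      have hbd := psi_bd hC hb hT hL r hr0 (by linarith) hr hN 1 (le_refl _) 1 (le_refl _)
        fun n hn1 hn2 m => by omega
      refine le_trans hbd (mul_le_mul_of_nonneg_right ?_ hfn)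
      rw [Real.sqrt_one, Nat.cast_one, one_mul, div_one, hKd]
      have h4 : 0 ≤ Real.exp (-(Real.log (Real.log T)) ^ 3 / 8) := (Real.exp_pos _).le
      nlinarith
    · have h2 := hlt k hk h hh hcop.symm h1
      rw [hsym h k]
      refine le_trans (le_of_eq ?_) h2
      have h3 : ((k : ℝ) / h) ^ a = (((h : ℝ) / k) ^ a)⁻¹ := by
        rw [← Real.inv_rpow (by positivity), inv_div]
      rw [h3]
      refine conj_int (Real.rpow_pos_of_pos ?_ _)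
      rw [mem_Icc] at hh hk
      have hh0 : (0 : ℝ) < h := by exact_mod_cast hh.1
      have hk0 : (0 : ℝ) < k := by exact_mod_cast hk.1
      positivity
  · intro h k
    rw [hψ]
    dsimp only
    split_ifs with h1 h2 h3
    · exact le_refl _
    · exact wt_le hK (hGS _ h2).1 (hGS _ h2).2.1
    · exact wt_le hK (hGS _ h3).1 (hGS _ h3).2.1
    · exact hK
  · have hv0 : v ≠ 0 := by linarith
    have hpt : ∀ h k, ψ h k ^ v ≤ (if h = 1 ∧ k = 1 then K ^ v else 0) +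
        (if (h, k) ∈ S then wt K (G (h, k)) ^ v else 0) +
        (if (k, h) ∈ S then wt K (G (k, h)) ^ v else 0) := by
      intro h k
      have e1 : 0 ≤ K ^ v := Real.rpow_nonneg hK _
      have e2 : 0 ≤ wt K (G (h, k)) ^ v := Real.rpow_nonneg (wt_nonneg hK _) _
      have e3 : 0 ≤ wt K (G (k, h)) ^ v := Real.rpow_nonneg (wt_nonneg hK _) _
      rw [hψ]
      dsimp only
      split_ifs <;> first | linarith | (rw [Real.zero_rpow hv0]; linarith)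
    have hsum1 : ∑ h ∈ Icc 1 H, ∑ k ∈ Icc 1 H,
        (if (h, k) ∈ S then wt K (G (h, k)) ^ v else 0) ≤
        K ^ v * (v / 2 / (v / 2 - 1)) ^ 2 := by
      have e1 : ∑ h ∈ Icc 1 H, ∑ k ∈ Icc 1 H,
          (if (h, k) ∈ S then wt K (G (h, k)) ^ v else 0) = ∑ p ∈ S, wt K (G p) ^ v := by
        rw [← Finset.sum_product' (Icc 1 H) (Icc 1 H)
          (fun h k => if (h, k) ∈ S then wt K (G (h, k)) ^ v else 0)]
        simp only [Prod.mk.eta]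
        rw [← Finset.sum_filter]
        refine Finset.sum_congr ?_ fun _ _ => rfl
        ext p
        rw [Finset.mem_filter]
        refine ⟨fun h => h.2, fun h => ⟨?_, h⟩⟩
        have := ((hmem p).1 h).1
        rw [Finset.mem_product, mem_Icc, mem_Icc]
        exact this
      rw [e1]
      have e2 : ∑ p ∈ S, wt K (G p) ^ v = K ^ v *
          ∑ x ∈ S.image G, ((x.1 : ℝ) ^ (-(v / 2)) * (x.2 : ℝ) ^ (-(v / 2))) := by
        rw [Finset.sum_image (fun p hp p' hp' he => hGinj hp hp' he), Finset.mul_sum]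
        exact Finset.sum_congr rfl fun p _ => wt_pow hK _
      rw [e2]
      refine mul_le_mul_of_nonneg_left (sum_wt hv hS _ ?_) (Real.rpow_nonneg hK _)
      intro x hx
      rw [Finset.mem_image] at hx
      obtain ⟨p, hp, rfl⟩ := hx
      exact ⟨(hGS p hp).1, (hGS p hp).2.1⟩
    have hsum2 : ∑ h ∈ Icc 1 H, ∑ k ∈ Icc 1 H,
        (if (k, h) ∈ S then wt K (G (k, h)) ^ v else 0) ≤
        K ^ v * (v / 2 / (v / 2 - 1)) ^ 2 := by
      rw [Finset.sum_comm]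
      exact hsum1
    have hsum0 : ∑ h ∈ Icc 1 H, ∑ k ∈ Icc 1 H, (if h = 1 ∧ k = 1 then K ^ v else 0) ≤ K ^ v := by
      have e1 : 0 ≤ K ^ v := Real.rpow_nonneg hK _
      have e2 : ∀ h ∈ Icc 1 H, ∑ k ∈ Icc 1 H, (if h = 1 ∧ k = 1 then K ^ v else 0) ≤
          if h = 1 then K ^ v else 0 := by
        intro h _
        by_cases h1 : h = 1
        · rw [if_pos h1]
          have : ∀ k ∈ Icc 1 H, (if h = 1 ∧ k = 1 then K ^ v else 0) =
              if k = 1 then K ^ v else 0 := by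
            intro k _
            simp only [h1, true_and]
          rw [Finset.sum_congr rfl this, Finset.sum_ite_eq']
          split_ifs
          · exact le_refl _
          · exact e1
        · rw [if_neg h1]
          refine le_of_eq (Finset.sum_eq_zero fun k _ => ?_)
          rw [if_neg (fun h2 => h1 h2.1)]
      refine le_trans (Finset.sum_le_sum e2) ?_
      rw [Finset.sum_ite_eq']
      split_ifs
      · exact le_refl _
      · exact e1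
    calc ∑ h ∈ Icc 1 H, ∑ k ∈ Icc 1 H, ψ h k ^ v
        ≤ ∑ h ∈ Icc 1 H, ∑ k ∈ Icc 1 H, ((if h = 1 ∧ k = 1 then K ^ v else 0) +
          (if (h, k) ∈ S then wt K (G (h, k)) ^ v else 0) +
          (if (k, h) ∈ S then wt K (G (k, h)) ^ v else 0)) :=
          Finset.sum_le_sum fun h _ => Finset.sum_le_sum fun k _ => hpt h k
      _ = (∑ h ∈ Icc 1 H, ∑ k ∈ Icc 1 H, (if h = 1 ∧ k = 1 then K ^ v else 0)) +
          (∑ h ∈ Icc 1 H, ∑ k ∈ Icc 1 H, (if (h, k) ∈ S then wt K (G (h, k)) ^ v else 0)) +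
          ∑ h ∈ Icc 1 H, ∑ k ∈ Icc 1 H, (if (k, h) ∈ S then wt K (G (k, h)) ^ v else 0) := by
          simp only [Finset.sum_add_distrib]
      _ ≤ K ^ v + K ^ v * (v / 2 / (v / 2 - 1)) ^ 2 + K ^ v * (v / 2 / (v / 2 - 1)) ^ 2 :=
          add_le_add (add_le_add hsum0 hsum1) hsum2
      _ = K ^ v * (1 + 2 * (v / 2 / (v / 2 - 1)) ^ 2) := by ring

theorem pPsi (hSz : S_Sz) : S_Psi := by
  intro a v ha hv
  obtain ⟨C, hC, hb⟩ := twisted_bound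
  have hrp : 0 ≤ (4 * C) ^ v * (1 + 2 * (v / 2 / (v / 2 - 1)) ^ 2) := by positivity
  refine ⟨4 * C + (4 * C) ^ v * (1 + 2 * (v / 2 / (v / 2 - 1)) ^ 2), by positivity, ?_⟩
  have hℓ : Tendsto (fun T : ℝ => Real.log (Real.log T)) atTop atTop :=
    Real.tendsto_log_atTop.comp Real.tendsto_log_atTop
  -- conditions on `ℓ`
  have c1 : ∀ᶠ ℓ : ℝ in atTop, ℓ ^ 3 ≤ Real.exp ℓ := by
    have h1 : Tendsto (fun x : ℝ => Real.exp x / x ^ 3) atTop atTop :=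
      Real.tendsto_exp_div_pow_atTop 3
    filter_upwards [h1.eventually_ge_atTop 1, eventually_gt_atTop 0] with x hx hx0
    rwa [le_div_iff₀ (by positivity), one_mul] at hx
  have h8 : Tendsto (fun ℓ : ℝ => ℓ ^ 3 / 8) atTop atTop :=
    (tendsto_pow_atTop (by norm_num : (3 : ℕ) ≠ 0)).atTop_div_const (by norm_num)
  have c2 : ∀ᶠ ℓ : ℝ in atTop, 16 * Real.exp (-(ℓ ^ 3 / 2)) ≤ 1 := by
    have h1 : Tendsto (fun ℓ : ℝ => Real.exp (ℓ ^ 3 / 8)) atTop atTop :=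
      Real.tendsto_exp_atTop.comp h8
    filter_upwards [h1.eventually_ge_atTop 16, eventually_ge_atTop 0] with ℓ h2 h0
    have h3 : Real.exp (-(ℓ ^ 3 / 2)) ≤ Real.exp (-(ℓ ^ 3 / 8)) := by
      have h5 : 0 ≤ ℓ ^ 3 / 8 := by positivity
      exact Real.exp_le_exp.2 (by linarith)
    have h6 : Real.exp (-(ℓ ^ 3 / 8)) * Real.exp (ℓ ^ 3 / 8) = 1 := by
      rw [← Real.exp_add]
      simp
    nlinarith [Real.exp_pos (-(ℓ ^ 3 / 8))]
  have c3 : ∀ᶠ ℓ : ℝ in atTop, 6 * C * Real.exp (-(ℓ ^ 3 / 4)) ≤ Real.exp (-ℓ ^ 3 / 8) := by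
    have h1 : Tendsto (fun ℓ : ℝ => Real.exp (ℓ ^ 3 / 8)) atTop atTop :=
      Real.tendsto_exp_atTop.comp h8
    filter_upwards [h1.eventually_ge_atTop (6 * C)] with ℓ h2
    calc 6 * C * Real.exp (-(ℓ ^ 3 / 4)) ≤ Real.exp (ℓ ^ 3 / 8) * Real.exp (-(ℓ ^ 3 / 4)) := by
          gcongr
      _ = Real.exp (-ℓ ^ 3 / 8) := by
          rw [← Real.exp_add]
          congr 1
          ring
  have c4 : ∀ᶠ ℓ : ℝ in atTop,
      2 * (8 * Real.exp (-(ℓ ^ 3 / 2))) < a * Real.exp (-(3 * ℓ ^ 2)) := by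
    have h1 : Tendsto (fun ℓ : ℝ => Real.exp (ℓ ^ 3 / 8)) atTop atTop :=
      Real.tendsto_exp_atTop.comp h8
    filter_upwards [h1.eventually_gt_atTop (16 / a), eventually_ge_atTop 12] with ℓ h2 h3
    rw [div_lt_iff₀ ha] at h2
    have h4 : Real.exp (-(ℓ ^ 3 / 2)) ≤ Real.exp (-(ℓ ^ 3 / 8)) * Real.exp (-(3 * ℓ ^ 2)) := by
      rw [← Real.exp_add]
      refine Real.exp_le_exp.2 ?_
      have : 12 * ℓ ^ 2 ≤ ℓ * ℓ ^ 2 := by gcongr
      nlinarith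
    have h5 : Real.exp (-(ℓ ^ 3 / 8)) * Real.exp (ℓ ^ 3 / 8) = 1 := by
      rw [← Real.exp_add]
      simp
    have h6 : 16 * Real.exp (-(ℓ ^ 3 / 8)) < a := by
      have h7 := Real.exp_pos (-(ℓ ^ 3 / 8))
      nlinarith
    have h7 := Real.exp_pos (-(3 * ℓ ^ 2))
    calc 2 * (8 * Real.exp (-(ℓ ^ 3 / 2)))
        ≤ 16 * Real.exp (-(ℓ ^ 3 / 8)) * Real.exp (-(3 * ℓ ^ 2)) := by linarith
      _ < a * Real.exp (-(3 * ℓ ^ 2)) := by gcongr
  filter_upwards [hℓ.eventually c1, hℓ.eventually c2, hℓ.eventually c3, hℓ.eventually c4,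
    eventually_ge_atTop 2, Real.tendsto_log_atTop.eventually_ge_atTop 1,
    hℓ.eventually_ge_atTop 0] with T d1 d2 d3 d4 hT hL hℓ0
  set ℓ := Real.log (Real.log T) with hℓd
  have hT0 : 0 < T := by linarith
  have hHT1 : (HT T : ℝ) ≤ Real.exp (ℓ ^ 2) := by
    unfold HT
    exact Nat.floor_le (Real.exp_pos _).le
  have hHT0 : (1 : ℝ) ≤ HT T := by
    have : 1 ≤ HT T := by
      unfold HT
      refine Nat.le_floor ?_
      rw [Nat.cast_one]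
      exact Real.one_le_exp (by positivity)
    exact_mod_cast this
  have hN : 1 ≤ NT T := by
    unfold NT
    refine Nat.le_floor ?_
    rw [Nat.cast_one, ← hℓd]
    have h1 : Real.exp (ℓ ^ 3) ≤ T := by
      calc Real.exp (ℓ ^ 3) ≤ Real.exp (Real.exp ℓ) := Real.exp_le_exp.2 d1
        _ = T := by rw [hℓd, Real.exp_log (by linarith), Real.exp_log hT0]
    calc (1 : ℝ) = Real.exp (ℓ ^ 3) * Real.exp (-ℓ ^ 3) := by
          rw [← Real.exp_add]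
          simp
      _ ≤ T * Real.exp (-ℓ ^ 3) := by gcongr
  obtain ⟨ψ, h1, h2, h3⟩ := psi_core ha hv hC hSz.2.2.2 hb hT hL (Real.exp (-(ℓ ^ 3 / 2)))
    (Real.exp (-(ℓ ^ 3 / 4))) (Real.exp_pos _)
    (by rw [← Real.exp_nat_mul]; congr 1; push_cast; ring) d2
    (by rw [← hℓd, ← Real.exp_nat_mul]; congr 1; push_cast; ring) hN d3 (by
      refine lt_of_lt_of_le d4 ?_
      rw [le_div_iff₀ (by positivity)]
      have h4 : (HT T : ℝ) ^ 3 ≤ Real.exp (3 * ℓ ^ 2) := by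
        calc (HT T : ℝ) ^ 3 ≤ (Real.exp (ℓ ^ 2)) ^ 3 := by gcongr
          _ = Real.exp (3 * ℓ ^ 2) := by rw [← Real.exp_nat_mul]; push_cast; rfl
      have h5 : Real.exp (-(3 * ℓ ^ 2)) * Real.exp (3 * ℓ ^ 2) = 1 := by
        rw [← Real.exp_add]
        simp
      calc a * Real.exp (-(3 * ℓ ^ 2)) * (HT T : ℝ) ^ 3
          ≤ a * Real.exp (-(3 * ℓ ^ 2)) * Real.exp (3 * ℓ ^ 2) := by gcongr
        _ = a := by rw [mul_assoc, h5, mul_one])
  exact ⟨ψ, h1, fun h k => le_trans (h2 h k) (by linarith), le_trans h3 (by linarith)⟩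

end Pool.Agent.Lib.MP_aa9ae4_nt.S1
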