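import Pool.Agent.Lib.MP_aa9ae4_nt.S1.SpecG

/-!
MP_aa9ae4_nt, Theorem S, part G: rough blocks on the line `σ`.
-/

namespace Pool.Agent.Lib.MP_aa9ae4_nt.S1

open Finset MeasureTheory Filter Topology
open Complex (I)

theorem rm_term (σ : ℝ) (Y k : ℕ) (hY : 1 ≤ Y) (hk : 1 ≤ k) (u : ℝ) :
    pw σ k u = (((2 * Y : ℝ) ^ (1 - σ) : ℝ) : ℂ) *
      ((((k : ℝ) / (2 * Y)) ^ (1 - σ) : ℝ) : ℂ) * (k : ℂ) ^ (-(1 + u * I)) := by
  have hk0 : (k : ℂ) ≠ 0 := by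
    rw [Ne, Nat.cast_eq_zero]
    omega
  have hY0 : (0 : ℝ) < 2 * Y := by
    have : (0 : ℝ) < Y := by exact_mod_cast hY
    linarith
  have h1 : (2 * Y : ℝ) ^ (1 - σ) * ((k : ℝ) / (2 * Y)) ^ (1 - σ) = (k : ℝ) ^ (1 - σ) := by
    rw [← Real.mul_rpow hY0.le (by positivity), mul_div_cancel₀ _ hY0.ne']
  rw [← Complex.ofReal_mul, h1, Complex.ofReal_cpow (Nat.cast_nonneg k)]
  have h2 : ((k : ℝ) : ℂ) = (k : ℂ) := by simp
  rw [h2, ← Complex.cpow_add _ _ hk0]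
  unfold pw
  congr 1
  push_cast
  ring

theorem rm_sum (σ : ℝ) (Y : ℕ) (hY : 1 ≤ Y) (c : ℕ → ℂ) (u : ℝ) :
    ∑ k ∈ Ioc Y (2 * Y), c k * pw σ k u = (((2 * Y : ℝ) ^ (1 - σ) : ℝ) : ℂ) *
      ∑ k ∈ Ioc Y (2 * Y), (c k * ((((k : ℝ) / (2 * Y)) ^ (1 - σ) : ℝ) : ℂ)) *
        (k : ℂ) ^ (-(1 + u * I)) := by
  rw [Finset.mul_sum]
  refine Finset.sum_congr rfl fun k hk => ?_
  rw [Finset.mem_Ioc] at hk
  rw [rm_term σ Y k hY (by omega) u]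
  ring

theorem rm_weight (σ : ℝ) (hσ : σ < 1) (Y k : ℕ) (hY : 1 ≤ Y) (hk : k ∈ Ioc Y (2 * Y)) :
    ‖((((k : ℝ) / (2 * Y)) ^ (1 - σ) : ℝ) : ℂ)‖ ≤ 1 := by
  rw [Finset.mem_Ioc] at hk
  have hY0 : (0 : ℝ) < 2 * Y := by
    have : (0 : ℝ) < Y := by exact_mod_cast hY
    linarith
  have h1 : (0 : ℝ) ≤ (k : ℝ) / (2 * Y) := by positivity
  rw [Complex.norm_real, Real.norm_of_nonneg (Real.rpow_nonneg h1 _)]
  refine Real.rpow_le_one h1 ?_ (by linarith)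
  rw [div_le_one hY0]
  exact_mod_cast hk.2

theorem pRm : S_Rm := by
  obtain ⟨C, hC, hrm⟩ := rough_moment
  refine ⟨C, hC, ?_⟩
  intro σ U z Y m c hσ hσ1 hU hz hzY hm hc hrough
  have hY : 1 ≤ Y := by omega
  have hY0 : (0 : ℝ) < Y := by exact_mod_cast hY
  have hY2 : (0 : ℝ) < 2 * Y := by linarith
  set c' : ℕ → ℂ := fun k => c k * ((((k : ℝ) / (2 * Y)) ^ (1 - σ) : ℝ) : ℂ) with hc'
  have h1 := hrm U z Y m c' hU hz hzY hm (fun k hk => by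
    rw [hc', norm_mul]
    exact mul_le_one₀ (hc k hk) (norm_nonneg _) (rm_weight σ hσ1 Y k hY hk)) (fun k hk hk0 =>
      hrough k hk (left_ne_zero_of_mul hk0))
  have h2 : ∀ u : ℝ, ‖∑ k ∈ Ioc Y (2 * Y), c k * pw σ k u‖ ^ (2 * m) =
      ((2 * Y : ℝ) ^ (1 - σ)) ^ (2 * m) *
        ‖∑ k ∈ Ioc Y (2 * Y), c' k * (k : ℂ) ^ (-(1 + u * I))‖ ^ (2 * m) := by
    intro u
    rw [rm_sum σ Y hY c u, norm_mul, mul_pow, Complex.norm_real,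
      Real.norm_of_nonneg (Real.rpow_nonneg hY2.le _)]
  simp_rw [h2]
  rw [intervalIntegral.integral_const_mul]
  have h3 : (0 : ℝ) ≤ ((2 * Y : ℝ) ^ (1 - σ)) ^ (2 * m) := by positivity
  refine (mul_le_mul_of_nonneg_left h1 h3).trans ?_
  have h4 : ((2 * Y : ℝ) ^ (1 - σ)) ^ (2 * m) / (Y : ℝ) ^ m ≤
      4 ^ m * (Y : ℝ) ^ (m * (1 - 2 * σ)) := by
    rw [Real.mul_rpow (by norm_num) hY0.le, mul_pow, mul_div_assoc]
    refine mul_le_mul ?_ ?_ (by positivity) (by positivity)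
    · have h5 : (2 : ℝ) ^ (1 - σ) ≤ 2 := by
        have := Real.rpow_le_rpow_of_exponent_le (x := 2) (by norm_num)
          (show 1 - σ ≤ 1 by linarith)
        rwa [Real.rpow_one] at this
      calc ((2 : ℝ) ^ (1 - σ)) ^ (2 * m) ≤ 2 ^ (2 * m) := pow_le_pow_left₀ (by positivity) h5 _
        _ = 4 ^ m := by rw [pow_mul]; norm_num
    · rw [← Real.rpow_natCast ((Y : ℝ) ^ (1 - σ)), ← Real.rpow_mul hY0.le,
        ← Real.rpow_natCast (Y : ℝ) m, ← Real.rpow_sub hY0]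
      apply le_of_eq
      congr 1
      push_cast
      ring
  have h5 : (0 : ℝ) ≤ C * (U + (2 * Y) ^ m) * (m : ℝ) ^ (m * Real.log (2 * Y) / Real.log z) := by
    positivity
  calc ((2 * Y : ℝ) ^ (1 - σ)) ^ (2 * m) * (C * (U + (2 * Y) ^ m) *
        (m : ℝ) ^ (m * Real.log (2 * Y) / Real.log z) / (Y : ℝ) ^ m)
      = C * (U + (2 * Y) ^ m) * (m : ℝ) ^ (m * Real.log (2 * Y) / Real.log z) *
        (((2 * Y : ℝ) ^ (1 - σ)) ^ (2 * m) / (Y : ℝ) ^ m) := by ring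
    _ ≤ _ := mul_le_mul_of_nonneg_left h4 h5

end Pool.Agent.Lib.MP_aa9ae4_nt.S1
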