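import Pool.Agent.Lib.MP_aa9ae4_nt.S1.SpecW

/-! MP_aa9ae4_nt, Theorem S, part W: large values of the short prime sum. -/

namespace Pool.Agent.Lib.MP_aa9ae4_nt.S1

open Finset MeasureTheory Filter Topology
open Complex (I)

private theorem tla_psum_cont (σ : ℝ) (y z : ℕ) : Continuous fun u : ℝ => psumS σ y z u := by
  unfold psumS
  refine continuous_finsetSum _ fun p hp => ?_
  unfold pw
  have hp0 : (p : ℂ) ≠ 0 := by
    have := (mem_filter.mp hp).2.ne_zero
    exact_mod_cast this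
  exact Continuous.const_cpow (by fun_prop) (Or.inl hp0)

private theorem tla_norm (σ : ℝ) (hσ : 0 ≤ σ) (y z : ℕ) (u : ℝ) : ‖psumS σ y z u‖ ≤ z := by
  unfold psumS
  have h1 : ∀ p ∈ prs y z, ‖pw σ p u‖ ≤ 1 := by
    intro p hp
    have hp1 : 1 ≤ p := (mem_filter.mp hp).2.one_lt.le
    unfold pw
    rw [Complex.norm_natCast_cpow_of_pos (by omega)]
    apply Real.rpow_le_one_of_one_le_of_nonpos
    · exact_mod_cast hp1
    · simp
      exact hσ
  calc ‖∑ p ∈ prs y z, pw σ p u‖ ≤ ∑ p ∈ prs y z, ‖pw σ p u‖ := norm_sum_le _ _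
    _ ≤ ∑ p ∈ prs y z, (1 : ℝ) := Finset.sum_le_sum h1
    _ = ((prs y z).card : ℝ) := by simp
    _ ≤ ((Ioc y z).card : ℝ) := by
        exact_mod_cast Finset.card_le_card (Finset.filter_subset _ _)
    _ ≤ (z : ℝ) := by
        rw [Nat.card_Ioc]
        exact_mod_cast Nat.sub_le z y

private theorem tla_markov (f : ℝ → ℝ) (hf : Continuous f) (h0 : ∀ t, 0 ≤ f t) (A B ε M : ℝ)
    (hε : 0 < ε) (hI : ∫ t in Set.Icc A B, f t ≤ M) (E : Set ℝ) (hE : E ⊆ Set.Icc A B)
    (hEf : ∀ t ∈ E, ε ≤ f t) : volume E ≤ ENNReal.ofReal (M / ε) := by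
  have hint : Integrable f (volume.restrict (Set.Icc A B)) := hf.integrableOn_Icc
  have h1 := mul_meas_ge_le_integral_of_nonneg (μ := volume.restrict (Set.Icc A B))
    (Filter.Eventually.of_forall h0) hint ε
  have h2 : volume E ≤ (volume.restrict (Set.Icc A B)) {x | ε ≤ f x} := by
    rw [Measure.restrict_apply (measurableSet_le measurable_const hf.measurable)]
    exact measure_mono fun t ht => ⟨hEf t ht, hE ht⟩
  refine h2.trans ?_
  have hM : 0 ≤ M := le_trans (integral_nonneg h0) hI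
  rw [ENNReal.le_ofReal_iff_toReal_le (measure_ne_top _ _) (div_nonneg hM hε.le),
    le_div_iff₀' hε]
  exact h1.trans hI

theorem pTla (hHx : S_Hx) : S_Tla := by
  intro σ a kap hσ hσ1 ha hk
  obtain ⟨C, hC, hev⟩ := hHx σ a (101 / kap) (1 / 2) 1 hσ ha (by positivity) (by norm_num)
    (by norm_num)
  have hL : Tendsto (fun T : ℝ => Real.log T) atTop atTop := Real.tendsto_log_atTop
  have hl : Tendsto (fun T : ℝ => Real.log (Real.log T)) atTop atTop :=
    Real.tendsto_log_atTop.comp hL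
  have e1 : ∀ᶠ x : ℝ in atTop, x ^ As σ ≤ Real.exp (1 / 2 * x) := by
    have h := (isLittleO_pow_exp_pos_mul_atTop (k := As σ) (b := 1 / 2) (by norm_num)).bound
      (c := 1) one_pos
    filter_upwards [h] with x hx
    rw [one_mul, Real.norm_eq_abs, Real.norm_eq_abs, abs_of_pos (Real.exp_pos _)] at hx
    exact (le_abs_self _).trans hx
  filter_upwards [hev, hl.eventually e1, hL.eventually_ge_atTop 1, hL.eventually_ge_atTop C,
    hl.eventually_ge_atTop 0, eventually_gt_atTop 0] with T hT h1 h2 h3 h4 hT0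
  intro y
  have hLpos : 0 < Real.log T := by linarith
  set L := Real.log T with hLdef
  set l := Real.log L with hldef
  have hexp : Real.exp l = L := Real.exp_log hLpos
  have hhalf : L ^ (1 / 2 : ℝ) = Real.exp (1 / 2 * l) := by
    rw [Real.rpow_def_of_pos hLpos, mul_comm]
  have hz : ((y1 σ T : ℕ) : ℝ) ≤ L ^ (1 / 2 : ℝ) := by
    rw [hhalf]
    refine le_trans ?_ h1
    exact Nat.floor_le (by positivity)
  have hz' : ((y1 σ T : ℕ) : ℝ) ≤ L ^ 1 := by
    rw [pow_one]
    refine hz.trans ?_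
    calc L ^ (1 / 2 : ℝ) ≤ L ^ (1 : ℝ) :=
          Real.rpow_le_rpow_of_exponent_le h2 (by norm_num)
      _ = L := Real.rpow_one L
  have h5 := hT y (y1 σ T) hz'
  have hset : {t ∈ Set.Icc T (2 * T) | ‖psumS σ y (y1 σ T) (a * t)‖ ≤ L ^ (1 / 2 : ℝ)} =
      Set.Icc T (2 * T) := by
    ext t
    constructor
    · intro ht
      exact ht.1
    · intro ht
      exact ⟨ht, (tla_norm σ (by linarith) y _ _).trans hz⟩
  rw [hset] at h5
  have hcont : Continuous fun t : ℝ =>
      Real.exp (101 / kap * ‖psumS σ y (y1 σ T) (a * t)‖) :=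
    Real.continuous_exp.comp (continuous_const.mul
      (((tla_psum_cont σ y (y1 σ T)).comp (continuous_const.mul continuous_id)).norm))
  have h6 := tla_markov _ hcont (fun t => (Real.exp_pos _).le) T (2 * T) (Real.exp (101 * l))
    (C * T) (Real.exp_pos _) h5
    {t ∈ Set.Icc T (2 * T) | kap * l < ‖psumS σ y (y1 σ T) (a * t)‖} (fun t ht => ht.1) (by
      intro t ht
      apply Real.exp_le_exp.mpr
      have := ht.2
      rw [div_mul_eq_mul_div, le_div_iff₀ hk]
      nlinarith)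
  refine h6.trans (ENNReal.ofReal_le_ofReal ?_)
  have h7 : L ^ (-(100 : ℝ)) = Real.exp (-(100 * l)) := by
    rw [Real.rpow_def_of_pos hLpos]
    congr 1
    ring
  rw [h7, div_le_iff₀ (Real.exp_pos _), mul_assoc, ← Real.exp_add]
  have h8 : -(100 * l) + 101 * l = l := by ring
  rw [h8, hexp]
  nlinarith

end Pool.Agent.Lib.MP_aa9ae4_nt.S1
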