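import Pool.Agent.Lib.MP_aa9ae4_nt.S1.SpecW

/-! MP_aa9ae4_nt, Theorem S, part W: large values of the long prime sum. -/

namespace Pool.Agent.Lib.MP_aa9ae4_nt.S1

open Finset MeasureTheory Filter Topology
open Complex (I)

private theorem tlb_psum_cont (σ : ℝ) (y z : ℕ) : Continuous fun u : ℝ => psumS σ y z u := by
  unfold psumS
  refine continuous_finsetSum _ fun p hp => ?_
  unfold pw
  have hp0 : (p : ℂ) ≠ 0 := by
    have := (mem_filter.mp hp).2.ne_zero
    exact_mod_cast this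
  exact Continuous.const_cpow (by fun_prop) (Or.inl hp0)

private theorem tlb_markov (f : ℝ → ℝ) (hf : Continuous f) (h0 : ∀ t, 0 ≤ f t) (A B ε M : ℝ)
    (hε : 0 < ε) (hI : ∫ t in Set.Icc A B, f t ≤ M) (E : Set ℝ) (hE : E ⊆ Set.Icc A B)
    (hEf : ∀ t ∈ E, ε ≤ f t) : volume E ≤ ENNReal.ofReal (M / ε) := by
  have hint : Integrable f (volume.restrict (Set.Icc A B)) := hf.integrableOn_Icc
  have h1 := mul_meas_ge_le_integral_of_nonneg (μ := volume.restrict (Set.Icc A B))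
    (Filter.Eventually.of_forall h0) hint ε
  have h2 : volume E ≤ (volume.restrict (Set.Icc A B)) {x | ε ≤ f x} := by
    rw [Measure.restrict_apply (measurableSet_le measurable_const hf.measurable)]
    exact measure_mono fun t ht => ⟨hEf t ht, hE ht⟩
  refine h2.trans ?_
  have hM : 0 ≤ M := le_trans (integral_nonneg h0) hI
  rw [ENNReal.le_ofReal_iff_toReal_le (measure_ne_top _ _) (div_nonneg hM hε.le),
    le_div_iff₀' hε]
  exact h1.trans hI

/-- The tail bound. -/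
private theorem tlb_tail (hSz : S_Sz) (σ : ℝ) (hσ : 1 / 2 < σ) (hσ1 : σ < 1) (l : ℝ) (hl : 1 ≤ l)
    (z : ℕ) : tail (2 * σ) ⌊l ^ As σ⌋₊ z ≤ 2 / (l ^ 2 * (2 * σ - 1)) := by
  have hκ : 0 < 2 * σ - 1 := by linarith
  have hlA : 1 ≤ l ^ As σ := one_le_pow₀ hl
  have hy1 : 1 ≤ ⌊l ^ As σ⌋₊ := Nat.le_floor (by exact_mod_cast hlA)
  have hy2 : l ^ As σ / 2 ≤ (⌊l ^ As σ⌋₊ : ℝ) := by
    have h1 : (1 : ℝ) ≤ (⌊l ^ As σ⌋₊ : ℝ) := by exact_mod_cast hy1
    have h2 := Nat.lt_floor_add_one (l ^ As σ)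
    linarith
  have h3 := hSz.1 (2 * σ) (by linarith) ⌊l ^ As σ⌋₊ z hy1
  refine h3.trans ?_
  have hA : 2 ≤ (As σ : ℝ) * (2 * σ - 1) := by
    have := Nat.le_ceil (2 / (2 * σ - 1))
    rw [div_le_iff₀ hκ] at this
    exact this
  have h4 : (⌊l ^ As σ⌋₊ : ℝ) ^ (1 - 2 * σ) ≤ (l ^ As σ / 2) ^ (1 - 2 * σ) :=
    Real.rpow_le_rpow_of_nonpos (by positivity) hy2 (by linarith)
  have h5 : (l ^ As σ / 2) ^ (1 - 2 * σ) ≤ 2 / l ^ 2 := by
    rw [Real.div_rpow (by positivity) (by norm_num), ← Real.rpow_natCast, ← Real.rpow_mul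
      (by linarith), div_eq_mul_inv, ← Real.rpow_neg (by norm_num)]
    have h6 : (2 : ℝ) ^ (-(1 - 2 * σ)) ≤ 2 := by
      calc (2 : ℝ) ^ (-(1 - 2 * σ)) ≤ (2 : ℝ) ^ (1 : ℝ) :=
            Real.rpow_le_rpow_of_exponent_le (by norm_num) (by linarith)
        _ = 2 := Real.rpow_one 2
    have h7 : l ^ ((As σ : ℝ) * (1 - 2 * σ)) ≤ l ^ (-(2 : ℝ)) :=
      Real.rpow_le_rpow_of_exponent_le hl (by nlinarith)
    have h8 : l ^ (-(2 : ℝ)) = 1 / l ^ 2 := by
      rw [Real.rpow_neg (by linarith), one_div]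
      congr 1
      exact_mod_cast Real.rpow_natCast l 2
    rw [h8] at h7
    calc l ^ ((As σ : ℝ) * (1 - 2 * σ)) * (2 : ℝ) ^ (-(1 - 2 * σ)) ≤ 1 / l ^ 2 * 2 :=
          mul_le_mul h7 h6 (by positivity) (by positivity)
      _ = 2 / l ^ 2 := by ring
  have h9 : (⌊l ^ As σ⌋₊ : ℝ) ^ (1 - 2 * σ) ≤ 2 / l ^ 2 := h4.trans h5
  calc (⌊l ^ As σ⌋₊ : ℝ) ^ (1 - 2 * σ) / (2 * σ - 1) ≤ 2 / l ^ 2 / (2 * σ - 1) :=
        div_le_div_of_nonneg_right h9 hκ.le
    _ = 2 / (l ^ 2 * (2 * σ - 1)) := by rw [div_div]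

theorem pTlb (hHm : S_Hm) (hSz : S_Sz) : S_Tlb := by
  intro σ a hσ hσ1 ha
  obtain ⟨C, hC, hm⟩ := hHm
  have hκ : 0 < 2 * σ - 1 := by linarith
  have hL : Tendsto (fun T : ℝ => Real.log T) atTop atTop := Real.tendsto_log_atTop
  have hl : Tendsto (fun T : ℝ => Real.log (Real.log T)) atTop atTop :=
    Real.tendsto_log_atTop.comp hL
  set B : ℕ := Bs σ with hB
  have e1 : ∀ᶠ x : ℝ in atTop, 4 * (B : ℝ) * x ^ 2 ≤ Real.exp x := by
    have h := (isLittleO_pow_exp_pos_mul_atTop (k := 2) (b := 1) (by norm_num)).bound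
      (c := 1 / (4 * (B : ℝ) + 1)) (by positivity)
    filter_upwards [h] with x hx
    rw [one_mul, Real.norm_eq_abs, Real.norm_eq_abs, abs_of_pos (Real.exp_pos _),
      abs_of_nonneg (by positivity), div_mul_eq_mul_div, one_mul, le_div_iff₀ (by positivity)] at hx
    nlinarith [sq_nonneg x]
  have e2 : ∀ᶠ x : ℝ in atTop, 4 / ((2 * σ - 1) * x ^ (1 / 2 : ℝ)) ≤ Real.exp (-101) := by
    have h := (tendsto_rpow_atTop (y := 1 / 2) (by norm_num)).eventually_ge_atTop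
      (4 / ((2 * σ - 1) * Real.exp (-101)))
    filter_upwards [h, eventually_gt_atTop 0] with x hx hx0
    have hxp : 0 < x ^ (1 / 2 : ℝ) := Real.rpow_pos_of_pos hx0 _
    rw [div_le_iff₀ (by positivity)] at hx ⊢
    linarith
  filter_upwards [hl.eventually e1, hl.eventually e2, hL.eventually_ge_atTop 1,
    hL.eventually_ge_atTop (C / a * (a + 1)), hl.eventually_ge_atTop 1, eventually_gt_atTop 0,
    eventually_ge_atTop (1 / a)] with T h1 h2 h3 h4 h5 hT0 h6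
  have hLpos : 0 < Real.log T := by linarith
  have hTL : Real.exp (Real.log T) = T := Real.exp_log hT0
  set L := Real.log T with hLdef
  set l := Real.log L with hldef
  have hexp : Real.exp l = L := Real.exp_log hLpos
  have hlpos : 0 < l := by linarith
  set m : ℕ := ⌈l⌉₊ with hmdef
  have hm1 : l ≤ m := Nat.le_ceil l
  have hm2 : (m : ℝ) ≤ 2 * l := by
    have := Nat.ceil_lt_add_one hlpos.le
    linarith
  have hy : y1 σ T = ⌊l ^ As σ⌋₊ := rfl
  have htail := tlb_tail hSz σ hσ hσ1 l h5 (zT σ T)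
  rw [← hy] at htail
  have htail0 : 0 ≤ tail (2 * σ) (y1 σ T) (zT σ T) :=
    Finset.sum_nonneg fun p _ => Real.rpow_nonneg (Nat.cast_nonneg p) _
  have haT : 1 ≤ a * T := by
    rw [div_le_iff₀ ha] at h6
    linarith
  have hint := hm σ (a * T) (y1 σ T) (zT σ T) m haT
  -- the power of z
  have hz : (zT σ T : ℝ) ^ m ≤ T := by
    have hz1 : (zT σ T : ℝ) ≤ L ^ (2 * B) := Nat.floor_le (by positivity)
    have hz2 : L ^ (2 * B) = Real.exp (2 * B * l) := by
      rw [← hexp, ← Real.exp_nat_mul]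
      push_cast
      rfl
    calc (zT σ T : ℝ) ^ m ≤ (L ^ (2 * B)) ^ m := pow_le_pow_left₀ (Nat.cast_nonneg _) hz1 m
      _ = Real.exp ((m : ℝ) * (2 * B * l)) := by
          rw [hz2, ← Real.exp_nat_mul]
      _ ≤ Real.exp (Real.exp l) := by
          apply Real.exp_le_exp.mpr
          refine le_trans ?_ h1
          have hBl : 0 ≤ 2 * (B : ℝ) * l := by positivity
          nlinarith
      _ = T := by rw [hexp, hTL]
  have hfac : (m.factorial : ℝ) * tail (2 * σ) (y1 σ T) (zT σ T) ^ m ≤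
      (4 / (l * (2 * σ - 1))) ^ m := by
    have hf1 : (m.factorial : ℝ) ≤ (2 * l) ^ m := by
      calc (m.factorial : ℝ) ≤ (m : ℝ) ^ m := by exact_mod_cast Nat.factorial_le_pow m
        _ ≤ (2 * l) ^ m := pow_le_pow_left₀ (Nat.cast_nonneg _) hm2 m
    calc (m.factorial : ℝ) * tail (2 * σ) (y1 σ T) (zT σ T) ^ m
        ≤ (2 * l) ^ m * (2 / (l ^ 2 * (2 * σ - 1))) ^ m :=
          mul_le_mul hf1 (pow_le_pow_left₀ htail0 htail m) (pow_nonneg htail0 m)
            (by positivity)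
      _ = (4 / (l * (2 * σ - 1))) ^ m := by
          rw [← mul_pow]
          congr 1
          field_simp
          ring
  have hmain : ∫ t in Set.Icc T (2 * T), ‖psumS σ (y1 σ T) (zT σ T) (a * t)‖ ^ (2 * m) ≤
      C / a * (a + 1) * T * (4 / (l * (2 * σ - 1))) ^ m := by
    rw [integral_Icc_eq_integral_Ioc, ← intervalIntegral.integral_of_le (by linarith),
      intervalIntegral.integral_comp_mul_left
        (fun u => ‖psumS σ (y1 σ T) (zT σ T) u‖ ^ (2 * m)) ha.ne']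
    have e3 : a * (2 * T) = 2 * (a * T) := by ring
    rw [e3, smul_eq_mul]
    calc a⁻¹ * ∫ u in a * T..2 * (a * T), ‖psumS σ (y1 σ T) (zT σ T) u‖ ^ (2 * m)
        ≤ a⁻¹ * (C * (a * T + (zT σ T : ℝ) ^ m) *
          (m.factorial * tail (2 * σ) (y1 σ T) (zT σ T) ^ m)) :=
          mul_le_mul_of_nonneg_left hint (by positivity)
      _ ≤ a⁻¹ * (C * (a * T + T) * (4 / (l * (2 * σ - 1))) ^ m) := by
          apply mul_le_mul_of_nonneg_left _ (by positivity)
          apply mul_le_mul _ hfac (by positivity) (by positivity)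
          apply mul_le_mul_of_nonneg_left _ hC.le
          linarith
      _ = C / a * (a + 1) * T * (4 / (l * (2 * σ - 1))) ^ m := by
          field_simp
  have hcont : Continuous fun t : ℝ => ‖psumS σ (y1 σ T) (zT σ T) (a * t)‖ ^ (2 * m) :=
    (((tlb_psum_cont σ (y1 σ T) (zT σ T)).comp (continuous_const.mul continuous_id)).norm).pow _
  have hq : 0 < l ^ (-(1 / 4) : ℝ) := Real.rpow_pos_of_pos hlpos _
  have h7 := tlb_markov _ hcont (fun t => by positivity) T (2 * T)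
    ((l ^ (-(1 / 4) : ℝ)) ^ (2 * m)) _ (by positivity) hmain
    {t ∈ Set.Icc T (2 * T) | l ^ (-(1 / 4) : ℝ) < ‖psumS σ (y1 σ T) (zT σ T) (a * t)‖}
    (fun t ht => ht.1) (by
      intro t ht
      exact pow_le_pow_left₀ hq.le ht.2.le _)
  refine h7.trans (ENNReal.ofReal_le_ofReal ?_)
  have h8 : L ^ (-(100 : ℝ)) = Real.exp (-(100 * l)) := by
    rw [Real.rpow_def_of_pos hLpos]
    congr 1
    ring
  have hs : 0 < l ^ (1 / 2 : ℝ) := Real.rpow_pos_of_pos hlpos _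
  have hss : l ^ (1 / 2 : ℝ) * l ^ (1 / 2 : ℝ) = l := by
    rw [← Real.rpow_add hlpos]
    norm_num
  have h9 : (l ^ (-(1 / 4) : ℝ)) ^ (2 * m) = (1 / l ^ (1 / 2 : ℝ)) ^ m := by
    rw [pow_mul]
    congr 1
    rw [← Real.rpow_natCast, ← Real.rpow_mul hlpos.le, one_div (l ^ (1 / 2 : ℝ)),
      ← Real.rpow_neg hlpos.le]
    congr 1
    norm_num
  have h10 : (4 / (l * (2 * σ - 1))) ^ m / (l ^ (-(1 / 4) : ℝ)) ^ (2 * m) =
      (4 / ((2 * σ - 1) * l ^ (1 / 2 : ℝ))) ^ m := by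
    rw [h9, ← div_pow]
    congr 1
    nth_rewrite 1 [← hss]
    field_simp
  have h11 : (4 / ((2 * σ - 1) * l ^ (1 / 2 : ℝ))) ^ m ≤ Real.exp (-(101 * l)) := by
    calc (4 / ((2 * σ - 1) * l ^ (1 / 2 : ℝ))) ^ m ≤ Real.exp (-101) ^ m :=
          pow_le_pow_left₀ (by positivity) h2 m
      _ = Real.exp ((m : ℝ) * (-101)) := by rw [← Real.exp_nat_mul]
      _ ≤ Real.exp (-(101 * l)) := by
          apply Real.exp_le_exp.mpr
          linarith
  rw [mul_div_assoc, h10, h8]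
  calc C / a * (a + 1) * T * (4 / ((2 * σ - 1) * l ^ (1 / 2 : ℝ))) ^ m
      ≤ L * T * Real.exp (-(101 * l)) := by
        apply mul_le_mul _ h11 (by positivity) (by positivity)
        exact mul_le_mul_of_nonneg_right h4 hT0.le
    _ = T * Real.exp (-(100 * l)) := by
        have h12 : -(100 * l) = l + -(101 * l) := by ring
        rw [h12, Real.exp_add, hexp]
        ring

end Pool.Agent.Lib.MP_aa9ae4_nt.S1
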