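import Pool.Agent.Lib.MP_aa9ae4_nt.S1.SpecM

/-!
MP_aa9ae4_nt, Theorem S, part M: finite Euler products on the torus.
-/

namespace Pool.Agent.Lib.MP_aa9ae4_nt.S1

open Finset MeasureTheory Filter Topology
open Complex (I)

theorem tor_limit (w nrm : ℝ → ℝ) (hw0 : ∀ t, 0 ≤ w t) (hwc : Continuous w)
    (hn : ∀ᶠ T : ℝ in atTop, 0 < nrm T)
    (htw : ∀ θ : ℝ, 0 < θ → ∃ c : ℂ, Tendsto (fun T : ℝ =>
      (∫ t in T..(2 * T), (w t : ℂ) * (θ : ℂ) ^ (t * I)) / (nrm T : ℂ)) atTop (𝓝 c))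
    (σ : ℝ) (hσ : 0 < σ) (a : ℝ) (y : ℕ) (β : ℝ) : ∃ D : ℝ, Tendsto (fun T : ℝ =>
      (∫ t in T..(2 * T), w t * ‖eulS σ 0 y (a * t)‖ ^ β) / nrm T) atTop (𝓝 D) := by
  -- the function on the torus
  set f : UnitAddTorus (TorusPr y) → ℂ :=
    fun x => ∏ p : TorusPr y, (1 - ((((p : ℕ) : ℝ) ^ (-σ) : ℝ) : ℂ) * fourier 1 (x p)) with hf
  have hfc : Continuous f := by fun_prop
  have hf0 : ∀ x, f x ≠ 0 := by
    intro x
    rw [hf]
    refine Finset.prod_ne_zero_iff.mpr fun p _ h => ?_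
    rw [sub_eq_zero] at h
    have h1 := congrArg norm h
    have hp : Nat.Prime (p : ℕ) := (Finset.mem_filter.mp p.2).2
    have hp1 : (1 : ℝ) < ((p : ℕ) : ℝ) := by exact_mod_cast hp.one_lt
    have h2 : (((p : ℕ) : ℝ) ^ (-σ)) < 1 := Real.rpow_lt_one_of_one_lt_of_neg hp1 (by linarith)
    rw [norm_one, norm_mul, Complex.norm_real, fourier_apply, Circle.norm_coe,
      mul_one, Real.norm_of_nonneg (Real.rpow_nonneg (by linarith) _)] at h1
    linarith
  have hfe : ∀ t, eulS σ 0 y (a * t) = f (torusFlow a y t) := by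
    intro t
    rw [hf, eulS, prs, ← Finset.prod_attach]
    refine Finset.prod_congr rfl fun p _ => ?_
    have hp : Nat.Prime (p : ℕ) := (Finset.mem_filter.mp p.2).2
    have hp0 : ((p : ℕ) : ℂ) ≠ 0 := Nat.cast_ne_zero.mpr hp.ne_zero
    rw [fourier_torusFlow, pw, neg_add, Complex.cpow_add _ _ hp0,
      Complex.ofReal_cpow (Nat.cast_nonneg _), Complex.cpow_def_of_ne_zero (y := -((a * t : ℝ) * I))
        hp0, Complex.natCast_log]
    push_cast
    congr 3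
    ring
  set F : C(UnitAddTorus (TorusPr y), ℂ) :=
    ⟨fun x => ((‖f x‖ ^ β : ℝ) : ℂ), Complex.continuous_ofReal.comp
      (hfc.norm.rpow_const fun x => Or.inl (norm_ne_zero_iff.mpr (hf0 x)))⟩ with hF
  obtain ⟨c, hc⟩ := torus_good w nrm hw0 hwc hn htw a y F
  refine ⟨c.re, ((Complex.continuous_re.tendsto c).comp hc).congr fun T => ?_⟩
  rw [Function.comp_apply, torusMean]
  have h1 : (∫ t in T..(2 * T), (w t : ℂ) * F (torusFlow a y t)) =
      ((∫ t in T..(2 * T), w t * ‖eulS σ 0 y (a * t)‖ ^ β : ℝ) : ℂ) := by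
    rw [← intervalIntegral.integral_ofReal]
    refine intervalIntegral.integral_congr fun t _ => ?_
    simp only [hfe]
    push_cast
    rfl
  rw [h1, ← Complex.ofReal_div, Complex.ofReal_re]

theorem pTor : S_Tor := by
  intro σ a γ y hσ _
  exact tor_limit fw fn fin_fw_nonneg fin_fw_cont fin_fn_pos (fun θ hθ => twisted_limit θ hθ)
    σ (by linarith) a y γ

end Pool.Agent.Lib.MP_aa9ae4_nt.S1
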