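import Mathlib
import Pool.Agent.Lib.MP_aa9ae4_nt.S1.SpecW

/-!
MP_aa9ae4_nt, Theorem S, part W: weighted second moment of a prime sum (task W2m).
-/

namespace Pool.Agent.Lib.MP_aa9ae4_nt.S1

open Finset MeasureTheory Filter Topology
open Complex (I)

private theorem w2m_pow_exp (n : ℕ) : ∀ᶠ l : ℝ in atTop, l ^ n ≤ Real.exp l := by
  have h : Tendsto (fun l : ℝ => l ^ n / Real.exp l) atTop (𝓝 0) :=
    (Real.isLittleO_pow_exp_atTop (n := n)).tendsto_div_nhds_zero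
  filter_upwards [h.eventually (ge_mem_nhds (show (0 : ℝ) < 1 by norm_num))] with l hl
  rwa [div_le_one (Real.exp_pos l)] at hl

/-- all facts on `T` which are needed -/
private theorem w2m_T (A : ℕ) : ∀ᶠ T : ℝ in atTop, 0 < T ∧ 0 < Real.log T ∧
    0 ≤ Real.log (Real.log T) ∧
    Real.log (Real.log T) ^ A ≤ Real.exp (Real.log (Real.log T) ^ 2) ∧
    Real.log (Real.log T) ^ (2 * A) * Real.exp (-(Real.log (Real.log T)) ^ 3 / 8) ≤
      1 / Real.log T := by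
  have hl : Tendsto (fun T : ℝ => Real.log (Real.log T)) atTop atTop :=
    Real.tendsto_log_atTop.comp Real.tendsto_log_atTop
  filter_upwards [hl.eventually (w2m_pow_exp A), hl.eventually (w2m_pow_exp (2 * A)),
    hl.eventually (eventually_ge_atTop (4 : ℝ)), eventually_gt_atTop (0 : ℝ),
    Real.tendsto_log_atTop.eventually (eventually_gt_atTop (0 : ℝ))] with T h1 h2 h3 h4 h5
  refine ⟨h4, h5, by linarith, h1.trans (Real.exp_le_exp.2 (by nlinarith)), ?_⟩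
  have h6 : 1 / Real.log T = Real.exp (-Real.log (Real.log T)) := by
    rw [Real.exp_neg, Real.exp_log h5, one_div]
  rw [h6]
  calc Real.log (Real.log T) ^ (2 * A) * Real.exp (-(Real.log (Real.log T)) ^ 3 / 8)
      ≤ Real.exp (Real.log (Real.log T)) * Real.exp (-(Real.log (Real.log T)) ^ 3 / 8) :=
        mul_le_mul_of_nonneg_right h2 (Real.exp_pos _).le
    _ = Real.exp (Real.log (Real.log T) + -(Real.log (Real.log T)) ^ 3 / 8) :=
        (Real.exp_add _ _).symm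
    _ ≤ Real.exp (-Real.log (Real.log T)) := by
        apply Real.exp_le_exp.2
        set l := Real.log (Real.log T)
        have h7 : 16 * l ≤ l ^ 3 := by
          have : 16 ≤ l ^ 2 := by nlinarith
          nlinarith
        linarith

private theorem w2m_psum (σ : ℝ) (y z : ℕ) (u : ℝ) :
    psumS σ y z u = ∑ p ∈ prs y z, ((((p : ℝ) ^ (-σ) : ℝ)) : ℂ) * (p : ℂ) ^ (-((u : ℂ) * I)) := by
  unfold psumS
  refine sum_congr rfl fun p hp => ?_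
  have hp0 : (p : ℂ) ≠ 0 := by
    have := (mem_filter.1 hp).2.pos
    exact_mod_cast this.ne'
  unfold pw
  rw [neg_add, Complex.cpow_add _ _ hp0, Complex.ofReal_cpow (Nat.cast_nonneg p)]
  simp

private theorem w2m_sum (σ κ : ℝ) (hκ : κ = 2 * σ - 1) (hσ : 1 / 2 < σ) (hσ1 : σ < 1)
    (hSz : S_Sz) (C₁ : ℝ) (hC₁ : 0 < C₁) (ψ : ℕ → ℕ → ℝ) (hψ0 : ∀ h k, 0 ≤ ψ h k)
    (hψ1 : ∀ h k, ψ h k ≤ C₁) (H : ℕ)
    (hψ2 : ∑ h ∈ Icc 1 H, ∑ k ∈ Icc 1 H, ψ h k ^ (2 * σ + 1) ≤ C₁) (y z : ℕ) (hy : 1 ≤ y)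
    (hz : z ≤ H) :
    ∑ p ∈ prs y z, ∑ q ∈ prs y z, (p : ℝ) ^ (-σ) * (q : ℝ) ^ (-σ) *
      ψ (p / Nat.gcd p q) (q / Nat.gcd p q) ≤
      (C₁ / κ + C₁ ^ (1 / (2 * σ + 1)) * (2 / κ) ^ (2 / ((2 * σ + 1) / (2 * σ)))) *
        (y : ℝ) ^ (-κ / 2) := by
  have hσ0 : 0 < σ := by linarith
  have hκ0 : 0 < κ := by linarith
  have hyR : (1 : ℝ) ≤ y := by exact_mod_cast hy
  set v := 2 * σ + 1 with hv
  set u := v / (2 * σ) with hu
  have hv1 : 1 < v := by linarith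
  have hu1 : 1 < u := by rw [hu, one_lt_div (by linarith)]; linarith
  have hu2 : u ≤ 2 := by rw [hu, div_le_iff₀ (by linarith)]; linarith
  have hu0 : 0 < u := by linarith
  have hconj : u.HolderConjugate v := by
    rw [Real.holderConjugate_iff]
    refine ⟨hu1, ?_⟩
    rw [hu, hv]
    field_simp
  have hσu : σ * u = σ + 1 / 2 := by rw [hu, hv]; field_simp
  set P := prs y z with hP
  have hprime : ∀ p ∈ P, p.Prime := fun p hp => (mem_filter.1 hp).2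
  have hmem : ∀ p ∈ P, p ∈ Icc 1 H := fun p hp => by
    have h1 := (hprime p hp).pos
    have h2 := (mem_Ioc.1 (mem_filter.1 hp).1).2
    exact mem_Icc.2 ⟨h1, h2.trans hz⟩
  -- pointwise bound
  have hpt : ∀ p ∈ P, ∀ q ∈ P, (p : ℝ) ^ (-σ) * (q : ℝ) ^ (-σ) *
      ψ (p / Nat.gcd p q) (q / Nat.gcd p q) ≤
      (if p = q then C₁ * (p : ℝ) ^ (-(2 * σ)) else 0) +
        (p : ℝ) ^ (-σ) * (q : ℝ) ^ (-σ) * ψ p q := by
    intro p hp q hq
    have hp0 : (0 : ℝ) < p := by exact_mod_cast (hprime p hp).pos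
    have hq0 : (0 : ℝ) < q := by exact_mod_cast (hprime q hq).pos
    have hnn : 0 ≤ (p : ℝ) ^ (-σ) * (q : ℝ) ^ (-σ) := by positivity
    by_cases hpq : p = q
    · subst hpq
      rw [if_pos rfl]
      have h1 : (p : ℝ) ^ (-σ) * (p : ℝ) ^ (-σ) = (p : ℝ) ^ (-(2 * σ)) := by
        rw [← Real.rpow_add hp0]; ring_nf
      have h2 := mul_le_mul_of_nonneg_left (hψ1 (p / Nat.gcd p p) (p / Nat.gcd p p)) hnn
      have h3 := mul_nonneg hnn (hψ0 p p)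
      rw [h1] at h2 h3 ⊢
      linarith
    · rw [if_neg hpq, zero_add]
      have hg : Nat.gcd p q = 1 := (Nat.coprime_primes (hprime p hp) (hprime q hq)).2 hpq
      rw [hg, Nat.div_one, Nat.div_one]
  have h1 : ∑ p ∈ P, ∑ q ∈ P, (p : ℝ) ^ (-σ) * (q : ℝ) ^ (-σ) *
      ψ (p / Nat.gcd p q) (q / Nat.gcd p q) ≤
      C₁ * tail (2 * σ) y z +
        ∑ p ∈ P, ∑ q ∈ P, (p : ℝ) ^ (-σ) * (q : ℝ) ^ (-σ) * ψ p q := by
    refine (sum_le_sum fun p hp => sum_le_sum fun q hq => hpt p hp q hq).trans ?_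
    have h2 : ∑ p ∈ P, ∑ q ∈ P, ((if p = q then C₁ * (p : ℝ) ^ (-(2 * σ)) else 0) +
        (p : ℝ) ^ (-σ) * (q : ℝ) ^ (-σ) * ψ p q) =
        ∑ p ∈ P, C₁ * (p : ℝ) ^ (-(2 * σ)) +
          ∑ p ∈ P, ∑ q ∈ P, (p : ℝ) ^ (-σ) * (q : ℝ) ^ (-σ) * ψ p q := by
      rw [← sum_add_distrib]
      refine sum_congr rfl fun p hp => ?_
      rw [sum_add_distrib, sum_ite_eq, if_pos hp]
    rw [h2, ← mul_sum]
    rfl
  -- Hoelder
  have h3 : ∑ p ∈ P, ∑ q ∈ P, (p : ℝ) ^ (-σ) * (q : ℝ) ^ (-σ) * ψ p q ≤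
      (tail (σ * u) y z ^ 2) ^ (1 / u) * C₁ ^ (1 / v) := by
    have h4 := Real.inner_le_Lp_mul_Lq_of_nonneg (P ×ˢ P)
      (f := fun x : ℕ × ℕ => (x.1 : ℝ) ^ (-σ) * (x.2 : ℝ) ^ (-σ))
      (g := fun x : ℕ × ℕ => ψ x.1 x.2) hconj
      (fun x _ => by positivity) (fun x _ => hψ0 _ _)
    have h5 : ∑ x ∈ P ×ˢ P, ((x.1 : ℝ) ^ (-σ) * (x.2 : ℝ) ^ (-σ)) ^ u = tail (σ * u) y z ^ 2 := by
      rw [sq, tail, sum_mul_sum, ← sum_product']
      refine sum_congr rfl fun x _ => ?_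
      rw [Real.mul_rpow (by positivity) (by positivity), ← Real.rpow_mul (by positivity),
        ← Real.rpow_mul (by positivity), neg_mul]
    have h6 : ∑ x ∈ P ×ˢ P, ψ x.1 x.2 ^ v ≤ C₁ := by
      refine le_trans ?_ hψ2
      rw [← sum_product']
      refine sum_le_sum_of_subset_of_nonneg ?_ fun x _ _ => Real.rpow_nonneg (hψ0 _ _) _
      intro x hx
      rw [mem_product] at hx ⊢
      exact ⟨hmem _ hx.1, hmem _ hx.2⟩
    rw [← sum_product']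
    refine h4.trans ?_
    rw [h5]
    have h7 : 0 ≤ ∑ x ∈ P ×ˢ P, ψ x.1 x.2 ^ v :=
      sum_nonneg fun x _ => Real.rpow_nonneg (hψ0 _ _) _
    refine mul_le_mul_of_nonneg_left (Real.rpow_le_rpow h7 h6 (by positivity)) (by positivity)
  have ht0 : 0 ≤ tail (σ * u) y z := sum_nonneg fun p _ => by positivity
  have h8 : tail (σ * u) y z ≤ (2 / κ) * (y : ℝ) ^ (-κ / 2) := by
    have := hSz.1 (σ * u) (by rw [hσu]; linarith) y z hy
    rw [hσu] at this ⊢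
    refine this.trans (le_of_eq ?_)
    rw [show 1 - (σ + 1 / 2) = -κ / 2 by rw [hκ]; ring, show σ + 1 / 2 - 1 = κ / 2 by rw [hκ]; ring]
    field_simp
  have h9 : (tail (σ * u) y z ^ 2) ^ (1 / u) ≤ (2 / κ) ^ (2 / u) * (y : ℝ) ^ (-κ / 2) := by
    have h10 : (tail (σ * u) y z ^ 2) ^ (1 / u) = tail (σ * u) y z ^ (2 / u) := by
      rw [← Real.rpow_natCast, ← Real.rpow_mul ht0]
      congr 1
      push_cast
      ring
    rw [h10]
    refine (Real.rpow_le_rpow ht0 h8 (by positivity)).trans ?_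
    rw [Real.mul_rpow (by positivity) (by positivity), ← Real.rpow_mul (by positivity)]
    refine mul_le_mul_of_nonneg_left (Real.rpow_le_rpow_of_exponent_le hyR ?_) (by positivity)
    have h11 : 1 ≤ 2 / u := by rw [one_le_div hu0]; exact hu2
    nlinarith
  have h12 : tail (2 * σ) y z ≤ (y : ℝ) ^ (-κ / 2) / κ := by
    have := hSz.1 (2 * σ) (by linarith) y z hy
    rw [show (1 : ℝ) - 2 * σ = -κ by rw [hκ]; ring, ← hκ] at this
    refine this.trans ?_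
    gcongr
    linarith
  calc ∑ p ∈ P, ∑ q ∈ P, (p : ℝ) ^ (-σ) * (q : ℝ) ^ (-σ) *
        ψ (p / Nat.gcd p q) (q / Nat.gcd p q)
      ≤ C₁ * tail (2 * σ) y z + (tail (σ * u) y z ^ 2) ^ (1 / u) * C₁ ^ (1 / v) := by linarith
    _ ≤ C₁ * ((y : ℝ) ^ (-κ / 2) / κ) + ((2 / κ) ^ (2 / u) * (y : ℝ) ^ (-κ / 2)) * C₁ ^ (1 / v) := by
        gcongr
    _ = _ := by ring

theorem pW2m (hSz : S_Sz) (hPsi : S_Psi) (hWsq : S_Wsq) : S_W2m := by
  intro σ a A hσ hσ1 ha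
  obtain ⟨C₁, hC₁, hev⟩ := hPsi a (2 * σ + 1) ha (by linarith)
  set κ := 2 * σ - 1 with hκ
  have hκ0 : 0 < κ := by linarith
  set K := C₁ / κ + C₁ ^ (1 / (2 * σ + 1)) * (2 / κ) ^ (2 / ((2 * σ + 1) / (2 * σ))) with hK
  have hK0 : 0 ≤ K := by positivity
  refine ⟨K + 1, by positivity, ?_⟩
  filter_upwards [hev, w2m_T A] with T hT1 hT2 y z hy hz
  obtain ⟨ψ, hψ, hψ1, hψ2⟩ := hT1
  obtain ⟨hT0, hL0, hl0, hA1, hA2⟩ := hT2
  have hzH : z ≤ HT T := Nat.le_floor (hz.trans hA1)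
  have h1 := hWsq a T ψ hT0 hψ ℕ (prs y z) (fun p => p) (fun p => (((p : ℝ) ^ (-σ) : ℝ) : ℂ))
    (fun p hp => mem_Icc.2 ⟨(mem_filter.1 hp).2.pos,
      (mem_Ioc.1 (mem_filter.1 hp).1).2.trans hzH⟩)
  have h2 : ∀ t : ℝ, ∑ i ∈ prs y z, (((i : ℝ) ^ (-σ) : ℝ) : ℂ) *
      (i : ℂ) ^ (-(((a * t : ℝ) : ℂ) * I)) = psumS σ y z (a * t) := fun t =>
    (w2m_psum σ y z (a * t)).symm
  simp only [h2] at h1
  refine h1.trans ?_
  have hfn : 0 < fn T := mul_pos hT0 hL0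
  have h3 : ∀ p : ℕ, ‖(((p : ℝ) ^ (-σ) : ℝ) : ℂ)‖ = (p : ℝ) ^ (-σ) := fun p => by
    rw [Complex.norm_real, Real.norm_of_nonneg (by positivity)]
  simp only [h3]
  have h4 : ∑ p ∈ prs y z, ∑ q ∈ prs y z, (p : ℝ) ^ (-σ) * (q : ℝ) ^ (-σ) *
      (ψ (p / Nat.gcd p q) (q / Nat.gcd p q) + Real.exp (-(Real.log (Real.log T)) ^ 3 / 8)) =
      ∑ p ∈ prs y z, ∑ q ∈ prs y z, (p : ℝ) ^ (-σ) * (q : ℝ) ^ (-σ) *
        ψ (p / Nat.gcd p q) (q / Nat.gcd p q) +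
      (∑ p ∈ prs y z, (p : ℝ) ^ (-σ)) ^ 2 * Real.exp (-(Real.log (Real.log T)) ^ 3 / 8) := by
    rw [sq, sum_mul_sum, sum_mul, ← sum_add_distrib]
    refine sum_congr rfl fun p _ => ?_
    rw [sum_mul, ← sum_add_distrib]
    refine sum_congr rfl fun q _ => ?_
    ring
  have h5 : ∑ p ∈ prs y z, (p : ℝ) ^ (-σ) ≤ Real.log (Real.log T) ^ A := by
    refine le_trans ?_ hz
    calc ∑ p ∈ prs y z, (p : ℝ) ^ (-σ) ≤ ∑ p ∈ prs y z, (1 : ℝ) := by
          refine sum_le_sum fun p hp => ?_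
          exact Real.rpow_le_one_of_one_le_of_nonpos
            (by exact_mod_cast (mem_filter.1 hp).2.pos) (by linarith)
      _ = ((prs y z).card : ℝ) := by simp
      _ ≤ z := by
          have h6 : (prs y z).card ≤ (Ioc y z).card := card_filter_le _ _
          rw [Nat.card_Ioc] at h6
          exact_mod_cast h6.trans (Nat.sub_le _ _)
  have h7 : (∑ p ∈ prs y z, (p : ℝ) ^ (-σ)) ^ 2 * Real.exp (-(Real.log (Real.log T)) ^ 3 / 8) ≤
      1 / Real.log T := by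
    refine le_trans ?_ hA2
    refine mul_le_mul_of_nonneg_right ?_ (Real.exp_pos _).le
    rw [mul_comm 2 A, pow_mul]
    exact pow_le_pow_left₀ (sum_nonneg fun p _ => by positivity) h5 2
  have h8 := w2m_sum σ κ hκ hσ hσ1 hSz C₁ hC₁ ψ hψ.1 hψ1 (HT T) hψ2 y z hy hzH
  rw [h4]
  have h9 : 0 ≤ (y : ℝ) ^ (-κ / 2) := by positivity
  have h10 : 0 ≤ 1 / Real.log T := by positivity
  have h11 : fn T * (∑ p ∈ prs y z, ∑ q ∈ prs y z, (p : ℝ) ^ (-σ) * (q : ℝ) ^ (-σ) *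
        ψ (p / Nat.gcd p q) (q / Nat.gcd p q) +
      (∑ p ∈ prs y z, (p : ℝ) ^ (-σ)) ^ 2 * Real.exp (-(Real.log (Real.log T)) ^ 3 / 8)) ≤
      fn T * ((K + 1) * ((y : ℝ) ^ (-κ / 2) + 1 / Real.log T)) := by
    refine mul_le_mul_of_nonneg_left ?_ hfn.le
    nlinarith [mul_nonneg hK0 h10]
  refine h11.trans (le_of_eq ?_)
  ring

end Pool.Agent.Lib.MP_aa9ae4_nt.S1
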