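import Pool.Agent.Lib.MP_aa9ae4_nt.S1.SpecW

/-! MP_aa9ae4_nt, Theorem S, part W: weighted exponential moments. -/

namespace Pool.Agent.Lib.MP_aa9ae4_nt.S1

open Finset MeasureTheory Filter Topology
open Complex (I)

private theorem we_psum_cont (σ : ℝ) (y z : ℕ) : Continuous fun u : ℝ => psumS σ y z u := by
  unfold psumS
  refine continuous_finsetSum _ fun p hp => ?_
  unfold pw
  have hp0 : (p : ℂ) ≠ 0 := by
    have := (mem_filter.mp hp).2.ne_zero
    exact_mod_cast this
  exact Continuous.const_cpow (by fun_prop) (Or.inl hp0)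

private theorem we_expJ_cont (J : ℕ) : Continuous (expJ J) := by
  unfold expJ
  exact continuous_finsetSum _ fun j _ => (continuous_pow j).div_const _

private theorem we_exp_norm (lam : ℝ) (om S : ℂ) :
    ‖Complex.exp ((lam : ℂ) * om * S)‖ ^ 2 = Real.exp (2 * lam * (om * S).re) := by
  rw [Complex.norm_exp, ← Real.exp_nat_mul, mul_assoc, Complex.re_ofReal_mul]
  congr 1
  push_cast
  ring

private theorem we_exp_le (lam : ℝ) (hlam : 0 ≤ lam) (S : ℂ) :
    Real.exp (lam * ‖S‖) ≤ ‖Complex.exp ((lam : ℂ) * 1 * S)‖ ^ 2 +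
      ‖Complex.exp ((lam : ℂ) * I * S)‖ ^ 2 + ‖Complex.exp ((lam : ℂ) * (-1) * S)‖ ^ 2 +
      ‖Complex.exp ((lam : ℂ) * (-I) * S)‖ ^ 2 := by
  simp only [we_exp_norm]
  have h1 : (1 * S).re = S.re := by simp
  have h2 : (I * S).re = -S.im := by simp
  have h3 : (-1 * S).re = -S.re := by simp
  have h4 : (-I * S).re = S.im := by simp
  rw [h1, h2, h3, h4]
  have hn : ‖S‖ ≤ |S.re| + |S.im| := Complex.norm_le_abs_re_add_abs_im S
  have p1 := Real.exp_pos (2 * lam * S.re)
  have p2 := Real.exp_pos (2 * lam * -S.im)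
  have p3 := Real.exp_pos (2 * lam * -S.re)
  have p4 := Real.exp_pos (2 * lam * S.im)
  have key : ∀ x : ℝ, ‖S‖ ≤ 2 * x → Real.exp (lam * ‖S‖) ≤ Real.exp (2 * lam * x) := by
    intro x hx
    apply Real.exp_le_exp.mpr
    nlinarith
  rcases le_total |S.re| |S.im| with h | h
  · rcases abs_cases S.im with ⟨h5, -⟩ | ⟨h5, -⟩
    · have := key S.im (by linarith)
      linarith
    · have := key (-S.im) (by linarith)
      linarith
  · rcases abs_cases S.re with ⟨h5, -⟩ | ⟨h5, -⟩
    · have := key S.re (by linarith)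
      linarith
    · have := key (-S.re) (by linarith)
      linarith

private theorem we_trunc (hTay : S_Tay) (J : ℕ) (x : ℂ) (hx : ‖x‖ ≤ (J : ℝ) / 10) :
    ‖Complex.exp x‖ ^ 2 ≤ 2 * ‖expJ J x‖ ^ 2 + 2 := by
  have h1 := hTay J x hx
  have h2 : Real.exp (-(J : ℝ)) ≤ 1 := Real.exp_le_one_iff.mpr (by simp)
  have h3 : ‖Complex.exp x‖ ≤ ‖expJ J x‖ + 1 := by
    have h4 : Complex.exp x = expJ J x + (Complex.exp x - expJ J x) := by ring
    calc ‖Complex.exp x‖ = ‖expJ J x + (Complex.exp x - expJ J x)‖ := by rw [← h4]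
      _ ≤ ‖expJ J x‖ + ‖Complex.exp x - expJ J x‖ := norm_add_le _ _
      _ ≤ ‖expJ J x‖ + 1 := by linarith
  nlinarith [norm_nonneg (Complex.exp x), norm_nonneg (expJ J x), sq_nonneg (‖expJ J x‖ - 1)]

theorem pWe (hTay : S_Tay) (hWex : S_Wex) (hCf : S_Cf) : S_We := by
  intro σ a lam K A hσ hσ1 ha hlam hK
  obtain ⟨C₁, hC₁, hev₁⟩ := hWex σ a lam (10 * lam * K + 1) A hσ hσ1 ha hlam (by positivity)
  obtain ⟨-, ⟨C₂, hC₂, hev₂⟩, -⟩ := hCf
  refine ⟨8 * C₁ + 8 * C₂, by positivity, ?_⟩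
  have hl : Tendsto (fun T : ℝ => Real.log (Real.log T)) atTop atTop :=
    Real.tendsto_log_atTop.comp Real.tendsto_log_atTop
  filter_upwards [hev₁, hev₂, hl.eventually_ge_atTop 1, eventually_gt_atTop 0] with T h1 h2 h3 hT0
  intro y z hz
  set l := Real.log (Real.log T) with hldef
  set J : ℕ := ⌈10 * lam * K * l⌉₊ with hJdef
  have hl0 : 0 ≤ l := by linarith
  have hJ1 : 10 * lam * K * l ≤ J := Nat.le_ceil _
  have hJ2 : (J : ℝ) ≤ (10 * lam * K + 1) * l := by
    have h4 : (J : ℝ) < 10 * lam * K * l + 1 := Nat.ceil_lt_add_one (by positivity)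
    linarith
  have hI : ∀ om : ℂ, ‖om‖ ≤ 1 →
      ∫ t in T..(2 * T), zw T t * ‖expJ J ((lam : ℂ) * om * psumS σ y z (a * t))‖ ^ 2 ≤
        C₁ * fn T := fun om hom => h1 y z J om hz hJ2 hom
  have hcS : Continuous fun t : ℝ => psumS σ y z (a * t) :=
    (we_psum_cont σ y z).comp (continuous_const.mul continuous_id)
  have hcz : Continuous fun t : ℝ => zw T t := by
    unfold zw
    exact ((weight_zsum_cont (NT T)).norm).pow 2
  have hce : ∀ om : ℂ, Continuous fun t : ℝ =>
      zw T t * ‖expJ J ((lam : ℂ) * om * psumS σ y z (a * t))‖ ^ 2 := fun om =>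
    hcz.mul (((we_expJ_cont J).comp (continuous_const.mul hcS)).norm.pow 2)
  have hzw0 : ∀ t, 0 ≤ zw T t := fun t => by
    unfold zw
    positivity
  set E : Set ℝ := {t ∈ Set.Icc T (2 * T) | ‖psumS σ y z (a * t)‖ ≤ K * l} with hE
  have hEm : MeasurableSet E :=
    measurableSet_Icc.inter (measurableSet_le hcS.norm.measurable measurable_const)
  set g : ℝ → ℝ := fun t =>
    2 * (zw T t * ‖expJ J ((lam : ℂ) * 1 * psumS σ y z (a * t))‖ ^ 2) +
    2 * (zw T t * ‖expJ J ((lam : ℂ) * I * psumS σ y z (a * t))‖ ^ 2) +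
    2 * (zw T t * ‖expJ J ((lam : ℂ) * (-1) * psumS σ y z (a * t))‖ ^ 2) +
    2 * (zw T t * ‖expJ J ((lam : ℂ) * (-I) * psumS σ y z (a * t))‖ ^ 2) + 8 * zw T t with hg
  have hgc : Continuous g :=
    (((((hce 1).const_smul (2 : ℝ)).add ((hce I).const_smul (2 : ℝ))).add
      ((hce (-1)).const_smul (2 : ℝ))).add ((hce (-I)).const_smul (2 : ℝ))).add
      (hcz.const_smul (8 : ℝ))
  have hg0 : ∀ t, 0 ≤ g t := fun t => by
    have := hzw0 t
    simp only [hg]
    positivity
  have hfc : Continuous fun t : ℝ => zw T t * Real.exp (lam * ‖psumS σ y z (a * t)‖) :=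
    hcz.mul (Real.continuous_exp.comp (continuous_const.mul hcS.norm))
  have hle : ∀ t ∈ E, zw T t * Real.exp (lam * ‖psumS σ y z (a * t)‖) ≤ g t := by
    intro t ht
    have hS : ‖psumS σ y z (a * t)‖ ≤ K * l := ht.2
    have hn : ∀ om : ℂ, ‖om‖ ≤ 1 →
        ‖Complex.exp ((lam : ℂ) * om * psumS σ y z (a * t))‖ ^ 2 ≤
          2 * ‖expJ J ((lam : ℂ) * om * psumS σ y z (a * t))‖ ^ 2 + 2 := by
      intro om hom
      apply we_trunc hTay
      rw [norm_mul, norm_mul, Complex.norm_real, Real.norm_eq_abs, abs_of_nonneg hlam]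
      have h5 : lam * ‖om‖ * ‖psumS σ y z (a * t)‖ ≤ lam * 1 * (K * l) := by
        apply mul_le_mul _ hS (norm_nonneg _) (by linarith)
        exact mul_le_mul_of_nonneg_left hom hlam
      linarith
    have h6 := we_exp_le lam hlam (psumS σ y z (a * t))
    have n1 := hn 1 (by simp)
    have n2 := hn I (by simp)
    have n3 := hn (-1) (by simp)
    have n4 := hn (-I) (by simp)
    have h7 : Real.exp (lam * ‖psumS σ y z (a * t)‖) ≤
        2 * ‖expJ J ((lam : ℂ) * 1 * psumS σ y z (a * t))‖ ^ 2 +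
        2 * ‖expJ J ((lam : ℂ) * I * psumS σ y z (a * t))‖ ^ 2 +
        2 * ‖expJ J ((lam : ℂ) * (-1) * psumS σ y z (a * t))‖ ^ 2 +
        2 * ‖expJ J ((lam : ℂ) * (-I) * psumS σ y z (a * t))‖ ^ 2 + 8 := by linarith
    calc zw T t * Real.exp (lam * ‖psumS σ y z (a * t)‖) ≤ zw T t * _ :=
          mul_le_mul_of_nonneg_left h7 (hzw0 t)
      _ = g t := by
          simp only [hg]
          ring
  have hsub : E ⊆ Set.Icc T (2 * T) := fun t ht => ht.1
  have hint1 : IntegrableOn (fun t : ℝ => zw T t * Real.exp (lam * ‖psumS σ y z (a * t)‖)) E :=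
    (hfc.integrableOn_Icc).mono_set hsub
  have hint2 : IntegrableOn g (Set.Icc T (2 * T)) := hgc.integrableOn_Icc
  have hT2 : T ≤ 2 * T := by linarith
  calc ∫ t in E, zw T t * Real.exp (lam * ‖psumS σ y z (a * t)‖) ≤ ∫ t in E, g t :=
        setIntegral_mono_on hint1 (hint2.mono_set hsub) hEm hle
    _ ≤ ∫ t in Set.Icc T (2 * T), g t :=
        setIntegral_mono_set hint2 (Filter.Eventually.of_forall hg0)
          (Filter.Eventually.of_forall hsub)
    _ = ∫ t in T..(2 * T), g t := by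
        rw [integral_Icc_eq_integral_Ioc, ← intervalIntegral.integral_of_le hT2]
    _ = 2 * (∫ t in T..(2 * T), zw T t * ‖expJ J ((lam : ℂ) * 1 * psumS σ y z (a * t))‖ ^ 2) +
        2 * (∫ t in T..(2 * T), zw T t * ‖expJ J ((lam : ℂ) * I * psumS σ y z (a * t))‖ ^ 2) +
        2 * (∫ t in T..(2 * T), zw T t * ‖expJ J ((lam : ℂ) * (-1) * psumS σ y z (a * t))‖ ^ 2) +
        2 * (∫ t in T..(2 * T), zw T t * ‖expJ J ((lam : ℂ) * (-I) * psumS σ y z (a * t))‖ ^ 2) +
        8 * ∫ t in T..(2 * T), zw T t := by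
        have i0 : IntervalIntegrable (fun t : ℝ => 8 * zw T t) volume T (2 * T) :=
          (continuous_const.mul hcz).intervalIntegrable _ _
        have ii : ∀ om : ℂ, IntervalIntegrable (fun t : ℝ =>
            2 * (zw T t * ‖expJ J ((lam : ℂ) * om * psumS σ y z (a * t))‖ ^ 2)) volume T (2 * T) :=
          fun om => (continuous_const.mul (hce om)).intervalIntegrable _ _
        simp only [hg]
        rw [intervalIntegral.integral_add ((((ii 1).add (ii I)).add (ii (-1))).add (ii (-I))) i0,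
          intervalIntegral.integral_add (((ii 1).add (ii I)).add (ii (-1))) (ii (-I)),
          intervalIntegral.integral_add ((ii 1).add (ii I)) (ii (-1)),
          intervalIntegral.integral_add (ii 1) (ii I),
          intervalIntegral.integral_const_mul, intervalIntegral.integral_const_mul,
          intervalIntegral.integral_const_mul, intervalIntegral.integral_const_mul,
          intervalIntegral.integral_const_mul]
    _ ≤ (8 * C₁ + 8 * C₂) * fn T := by
        have n1 := hI 1 (by simp)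
        have n2 := hI I (by simp)
        have n3 := hI (-1) (by simp)
        have n4 := hI (-I) (by simp)
        linarith

end Pool.Agent.Lib.MP_aa9ae4_nt.S1
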