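import Pool.Agent.Lib.MP_aa9ae4_nt.S1.SpecW

/-!
MP_aa9ae4_nt, Theorem S, part W: the weighted mean square of the exponential.
-/

namespace Pool.Agent.Lib.MP_aa9ae4_nt.S1

open Finset MeasureTheory Filter Topology
open Complex (I)

private theorem wex_prime {y z : ℕ} : ∀ p ∈ prs y z, p.Prime := fun _ hp => (mem_filter.1 hp).2

private theorem wex_le {y z : ℕ} : ∀ p ∈ prs y z, p ≤ z + 1 := fun _ hp =>
  ((mem_Ioc.1 (mem_filter.1 hp).1).2).trans (Nat.le_succ z)

private theorem wex_pw (σ u : ℝ) (n : ℕ) (hn : 1 ≤ n) :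
    pw σ n u = pw σ n 0 * (n : ℂ) ^ (-((u : ℂ) * I)) := by
  have hn0 : (n : ℂ) ≠ 0 := by
    have : n ≠ 0 := by omega
    exact_mod_cast this
  unfold pw
  rw [← Complex.cpow_add _ _ hn0]
  congr 1
  push_cast
  ring

private theorem wex_norm (σ u : ℝ) (n : ℕ) (hn : 0 < n) : ‖pw σ n u‖ = (n : ℝ) ^ (-σ) := by
  unfold pw
  rw [Complex.norm_natCast_cpow_of_pos hn]
  congr 1
  simp

private theorem wex_expand (hMn : S_Mn) (hNn : S_Nn) (σ lam : ℝ) (om : ℂ) (y z J : ℕ) (u : ℝ) :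
    expJ J ((lam : ℂ) * om * psumS σ y z u) =
      ∑ k ∈ KK (prs y z) J, ((∏ p ∈ prs y z, (((lam : ℂ) * om) ^ k p / ((k p).factorial : ℂ))) *
        pw σ (nn (prs y z) k) 0) * (nn (prs y z) k : ℂ) ^ (-((u : ℂ) * I)) := by
  obtain ⟨-, hb, -, -, -, hf⟩ := hNn (prs y z) wex_prime J
  unfold psumS
  rw [Finset.mul_sum, hMn.1 (prs y z) (fun p => (lam : ℂ) * om * pw σ p u) J]
  refine Finset.sum_congr rfl fun k hk => ?_
  have h1 : 1 ≤ nn (prs y z) k := (hb (z + 1) (by omega) wex_le k hk).1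
  have h2 := wex_pw σ u (nn (prs y z) k) h1
  have h3 := hf σ u k
  calc ∏ p ∈ prs y z, (((lam : ℂ) * om * pw σ p u) ^ k p / ((k p).factorial : ℂ))
      = (∏ p ∈ prs y z, (((lam : ℂ) * om) ^ k p / ((k p).factorial : ℂ))) *
          ∏ p ∈ prs y z, pw σ p u ^ k p := by
        rw [← Finset.prod_mul_distrib]
        refine Finset.prod_congr rfl fun p _ => ?_
        rw [mul_pow]
        ring
    _ = _ := by rw [← h3, h2]; ring

/-- The majorant of the coefficients. -/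
private noncomputable def bt (σ lam : ℝ) (s : Finset ℕ) (k : ℕ → ℕ) : ℝ :=
  ∏ p ∈ s, ((lam * (p : ℝ) ^ (-σ)) ^ k p / ((k p).factorial : ℝ))

private theorem bt_nonneg (σ lam : ℝ) (hl : 0 ≤ lam) (s : Finset ℕ) (k : ℕ → ℕ) :
    0 ≤ bt σ lam s k := by
  unfold bt
  exact Finset.prod_nonneg fun p _ => by positivity

private theorem bt_add (σ lam : ℝ) (hl : 0 ≤ lam) (s : Finset ℕ) (g h : ℕ → ℕ) :
    bt σ lam s (g + h) ≤ bt σ lam s g * bt σ lam s h := by
  unfold bt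
  rw [← Finset.prod_mul_distrib]
  refine Finset.prod_le_prod (fun p _ => by positivity) fun p _ => ?_
  have h1 : ((g p).factorial : ℝ) * ((h p).factorial : ℝ) ≤ (((g + h) p).factorial : ℝ) := by
    have := Nat.le_of_dvd (Nat.factorial_pos _) (Nat.factorial_mul_factorial_dvd_factorial_add
      (g p) (h p))
    exact_mod_cast this
  have h2 : (0 : ℝ) < ((g p).factorial : ℝ) * ((h p).factorial : ℝ) := by positivity
  rw [div_mul_div_comm, ← pow_add]
  exact div_le_div_of_nonneg_left (by positivity) h2 h1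

private theorem bt_norm (hNn : S_Nn) (σ lam : ℝ) (hl : 0 ≤ lam) (om : ℂ) (hom : ‖om‖ ≤ 1)
    (y z : ℕ) (k : ℕ → ℕ) :
    ‖(∏ p ∈ prs y z, (((lam : ℂ) * om) ^ k p / ((k p).factorial : ℂ))) *
        pw σ (nn (prs y z) k) 0‖ ≤ bt σ lam (prs y z) k := by
  obtain ⟨-, -, -, -, -, hf⟩ := hNn (prs y z) wex_prime 0
  rw [hf σ 0 k, ← Finset.prod_mul_distrib, norm_prod]
  unfold bt
  refine Finset.prod_le_prod (fun p _ => norm_nonneg _) fun p hp => ?_
  rw [norm_mul, norm_div, norm_pow, norm_pow, wex_norm σ 0 p (wex_prime p hp).pos,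
    Complex.norm_natCast, mul_pow]
  have h1 : ‖(lam : ℂ) * om‖ ≤ lam := by
    rw [norm_mul, Complex.norm_real, Real.norm_of_nonneg hl]
    exact mul_le_of_le_one_right hl hom
  have h2 : ‖(lam : ℂ) * om‖ ^ k p ≤ lam ^ k p := pow_le_pow_left₀ (norm_nonneg _) h1 _
  calc ‖(lam : ℂ) * om‖ ^ k p / ((k p).factorial : ℝ) * ((p : ℝ) ^ (-σ)) ^ k p
      ≤ lam ^ k p / ((k p).factorial : ℝ) * ((p : ℝ) ^ (-σ)) ^ k p := by gcongr
    _ = _ := by ring

private theorem bt_rpow (σ lam w : ℝ) (hl : 0 ≤ lam) (hw : 1 ≤ w) (s : Finset ℕ) (k : ℕ → ℕ) :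
    bt σ lam s k ^ w ≤
      ∏ p ∈ s, ((lam ^ w * (p : ℝ) ^ (-(σ * w))) ^ k p / ((k p).factorial : ℝ)) := by
  unfold bt
  rw [← Real.finsetProd_rpow _ _ (fun p _ => by positivity)]
  refine Finset.prod_le_prod (fun p _ => by positivity) fun p _ => ?_
  have h1 : (1 : ℝ) ≤ ((k p).factorial : ℝ) := by exact_mod_cast (Nat.factorial_pos (k p))
  have h2 : ((k p).factorial : ℝ) ≤ ((k p).factorial : ℝ) ^ w := by
    calc ((k p).factorial : ℝ) = ((k p).factorial : ℝ) ^ (1 : ℝ) := (Real.rpow_one _).symm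
      _ ≤ _ := Real.rpow_le_rpow_of_exponent_le h1 hw
  have h3 : ((lam * (p : ℝ) ^ (-σ)) ^ k p) ^ w = (lam ^ w * (p : ℝ) ^ (-(σ * w))) ^ k p := by
    rw [← Real.rpow_natCast, ← Real.rpow_mul (by positivity), mul_comm ((k p : ℕ) : ℝ) w,
      Real.rpow_mul (by positivity), Real.rpow_natCast, Real.mul_rpow hl (by positivity),
      ← Real.rpow_mul (by positivity)]
    congr 3
    ring
  rw [Real.div_rpow (by positivity) (by positivity), h3]
  exact div_le_div_of_nonneg_left (by positivity) (by positivity) h2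

private theorem bt_sum_rpow (hMn : S_Mn) (hSz : S_Sz) (σ lam w : ℝ) (hl : 0 ≤ lam) (hw : 1 ≤ w)
    (hσw : 1 < σ * w) (y z J : ℕ) :
    ∑ k ∈ KK (prs y z) J, bt σ lam (prs y z) k ^ w ≤
      Real.exp (lam ^ w * (σ * w / (σ * w - 1))) := by
  have h1 := hMn.2 (prs y z) (fun p => lam ^ w * (p : ℝ) ^ (-(σ * w))) J
    (fun p => by positivity)
  refine (Finset.sum_le_sum fun k _ => bt_rpow σ lam w hl hw (prs y z) k).trans (h1.trans ?_)
  rw [Real.exp_le_exp, ← Finset.mul_sum]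
  exact mul_le_mul_of_nonneg_left (hSz.2.1 (σ * w) hσw y z) (by positivity)

private theorem bt_sum (hMn : S_Mn) (σ lam : ℝ) (hσ : 0 < σ) (hl : 0 ≤ lam) (y z J : ℕ) :
    ∑ k ∈ KK (prs y z) J, bt σ lam (prs y z) k ≤ ((J : ℝ) + 1) * (1 + lam * z) ^ J := by
  have h1 := hMn.1 (prs y z) (fun p => ((lam * (p : ℝ) ^ (-σ) : ℝ) : ℂ)) J
  have h2 : ∑ k ∈ KK (prs y z) J, ∏ p ∈ prs y z,
      (((lam * (p : ℝ) ^ (-σ) : ℝ) : ℂ) ^ k p / ((k p).factorial : ℂ)) =
      ((∑ k ∈ KK (prs y z) J, bt σ lam (prs y z) k : ℝ) : ℂ) := by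
    unfold bt
    push_cast
    rfl
  rw [h2, ← Complex.ofReal_sum] at h1
  have hX0 : 0 ≤ ∑ p ∈ prs y z, lam * (p : ℝ) ^ (-σ) := Finset.sum_nonneg fun p _ => by positivity
  have hX : ∑ p ∈ prs y z, lam * (p : ℝ) ^ (-σ) ≤ lam * z := by
    rw [← Finset.mul_sum]
    refine mul_le_mul_of_nonneg_left ?_ hl
    calc ∑ p ∈ prs y z, (p : ℝ) ^ (-σ) ≤ ∑ _p ∈ prs y z, (1 : ℝ) := by
          refine Finset.sum_le_sum fun p hp => ?_
          have hp1 : (1 : ℝ) ≤ p := by exact_mod_cast (wex_prime p hp).one_lt.le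
          exact Real.rpow_le_one_of_one_le_of_nonpos hp1 (by linarith)
      _ = ((prs y z).card : ℝ) := by simp
      _ ≤ z := by
          have h3 : (prs y z).card ≤ z := by
            refine (Finset.card_filter_le _ _).trans ?_
            rw [Nat.card_Ioc]
            exact Nat.sub_le _ _
          exact_mod_cast h3
  have h4 : ((∑ k ∈ KK (prs y z) J, bt σ lam (prs y z) k : ℝ)) =
      ‖expJ J ((∑ p ∈ prs y z, lam * (p : ℝ) ^ (-σ) : ℝ) : ℂ)‖ := by
    rw [h1, Complex.norm_real, Real.norm_of_nonneg]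
    exact Finset.sum_nonneg fun k _ => bt_nonneg σ lam hl _ k
  rw [h4]
  unfold expJ
  refine (norm_sum_le _ _).trans ?_
  have h5 : ∀ j ∈ range (J + 1),
      ‖((∑ p ∈ prs y z, lam * (p : ℝ) ^ (-σ) : ℝ) : ℂ) ^ j / (j.factorial : ℂ)‖ ≤
        (1 + lam * z) ^ J := by
    intro j hj
    rw [norm_div, norm_pow, Complex.norm_real, Complex.norm_natCast, Real.norm_of_nonneg hX0]
    have h6 : (1 : ℝ) ≤ (j.factorial : ℝ) := by exact_mod_cast Nat.factorial_pos j
    have h7 : (0 : ℝ) ≤ lam * z := by positivity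
    calc (∑ p ∈ prs y z, lam * (p : ℝ) ^ (-σ)) ^ j / (j.factorial : ℝ)
        ≤ (∑ p ∈ prs y z, lam * (p : ℝ) ^ (-σ)) ^ j := div_le_self (by positivity) h6
      _ ≤ (1 + lam * z) ^ j := pow_le_pow_left₀ hX0 (by linarith) _
      _ ≤ (1 + lam * z) ^ J := pow_le_pow_right₀ (by linarith)
          (Nat.lt_succ_iff.1 (mem_range.1 hj))
  refine (Finset.sum_le_sum h5).trans ?_
  rw [Finset.sum_const, card_range, nsmul_eq_mul]
  push_cast
  exact le_rfl

private theorem wex_growth (K c : ℝ) (A : ℕ) (hK : 0 < K) (hc : 1 ≤ c) :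
    ∀ᶠ l : ℝ in atTop, ∀ (J : ℕ) (x : ℝ), 0 ≤ x → x ≤ c * l ^ A → (J : ℝ) ≤ K * l →
      ((J : ℝ) + 1) * x ^ J ≤ Real.exp (l ^ 2) := by
  have hlog : ∀ᶠ l : ℝ in atTop, Real.log l ≤ 1 / (2 * K * ((A : ℝ) + 1)) * l := by
    have h1 := Real.isLittleO_log_id_atTop.bound
      (show (0 : ℝ) < 1 / (2 * K * ((A : ℝ) + 1)) by positivity)
    filter_upwards [h1, eventually_ge_atTop (0 : ℝ)] with l hl hl0
    have h2 : ‖id l‖ = l := Real.norm_of_nonneg hl0
    rw [h2] at hl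
    exact (le_abs_self _).trans hl
  filter_upwards [hlog, eventually_ge_atTop (1 : ℝ),
    eventually_ge_atTop (2 * K * (1 + Real.log c))] with l h1 hl1 h2 J x hx0 hx hJ
  have hl0 : (0 : ℝ) < l := by linarith
  have hlc : 0 ≤ Real.log c := Real.log_nonneg hc
  have hll : 0 ≤ Real.log l := Real.log_nonneg hl1
  have hcl : (0 : ℝ) < c * l ^ A := by positivity
  have hlcl : Real.log (c * l ^ A) = Real.log c + A * Real.log l := by
    rw [Real.log_mul (by positivity) (by positivity), Real.log_pow]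
  have h3 : x ^ J ≤ Real.exp ((J : ℝ) * Real.log (c * l ^ A)) := by
    calc x ^ J ≤ (c * l ^ A) ^ J := pow_le_pow_left₀ hx0 hx _
      _ = Real.exp ((J : ℝ) * Real.log (c * l ^ A)) := by
          rw [Real.exp_nat_mul, Real.exp_log hcl]
  have h4 : (J : ℝ) + 1 ≤ Real.exp (J : ℝ) := Real.add_one_le_exp _
  have h5 : K * (A * Real.log l) ≤ l / 2 := by
    have h6 : K * (A * Real.log l) ≤ K * (((A : ℝ) + 1) * Real.log l) := by gcongr; linarith
    refine h6.trans ?_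
    calc K * (((A : ℝ) + 1) * Real.log l)
        ≤ K * (((A : ℝ) + 1) * (1 / (2 * K * ((A : ℝ) + 1)) * l)) := by gcongr
      _ = l / 2 := by field_simp
  have h7 : K * (1 + (Real.log c + A * Real.log l)) ≤ l := by nlinarith
  calc ((J : ℝ) + 1) * x ^ J
      ≤ Real.exp (J : ℝ) * Real.exp ((J : ℝ) * Real.log (c * l ^ A)) :=
        mul_le_mul h4 h3 (by positivity) (Real.exp_nonneg _)
    _ = Real.exp ((J : ℝ) * (1 + (Real.log c + A * Real.log l))) := by
        rw [← Real.exp_add, hlcl]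
        congr 1
        ring
    _ ≤ Real.exp (l ^ 2) := by
        rw [Real.exp_le_exp]
        have h8 : 0 ≤ 1 + (Real.log c + A * Real.log l) := by positivity
        calc (J : ℝ) * (1 + (Real.log c + A * Real.log l))
            ≤ (K * l) * (1 + (Real.log c + A * Real.log l)) :=
              mul_le_mul_of_nonneg_right hJ h8
          _ = l * (K * (1 + (Real.log c + A * Real.log l))) := by ring
          _ ≤ l * l := mul_le_mul_of_nonneg_left h7 hl0.le
          _ = l ^ 2 := by ring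

theorem pWex (hSz : S_Sz) (hMn : S_Mn) (hNn : S_Nn) (hPsi : S_Psi) (hWsq : S_Wsq)
    (hCmb : S_Cmb) : S_Wex := by
  intro σ a lam K A hσ hσ1 ha hl hK
  have hσ0 : (0 : ℝ) < σ := by linarith
  set u : ℝ := 1 + 1 / (2 * σ) with hu
  set v : ℝ := 2 * σ + 1 with hv
  have hu1 : 1 < u := by
    have : (0 : ℝ) < 1 / (2 * σ) := by positivity
    linarith
  have hv2 : 2 < v := by linarith
  have hu' : u = (2 * σ + 1) / (2 * σ) := by rw [hu]; field_simp
  have huv : 1 / u + 1 / v = 1 := by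
    rw [hu', hv]
    field_simp
  have hσu : σ * u = σ + 1 / 2 := by rw [hu]; field_simp
  have hσu1 : 1 < σ * u := by rw [hσu]; linarith
  obtain ⟨C1, hC1, hev⟩ := hPsi a v ha hv2
  set B2 : ℝ := Real.exp (lam ^ (2 : ℝ) * (σ * 2 / (σ * 2 - 1))) with hB2
  set Bu : ℝ := Real.exp (lam ^ u * (σ * u / (σ * u - 1))) with hBu
  refine ⟨B2 * (Bu ^ (2 / u) * C1 ^ (1 / v)) + 1, by positivity, ?_⟩
  have hll : Tendsto (fun T : ℝ => Real.log (Real.log T)) atTop atTop :=
    Real.tendsto_log_atTop.comp Real.tendsto_log_atTop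
  filter_upwards [hev, hll.eventually (wex_growth K 2 A hK (by norm_num)),
    hll.eventually (wex_growth K (1 + lam) A hK (by linarith)),
    hll.eventually (eventually_ge_atTop (16 : ℝ)), eventually_ge_atTop (1 : ℝ)]
    with T hT hg2 hgl h16 hT1 y z J om hz hJ hom
  obtain ⟨ψ, hψ, hψC, hψv⟩ := hT
  set l : ℝ := Real.log (Real.log T) with hldef
  have hl1A : (1 : ℝ) ≤ l ^ A := one_le_pow₀ (by linarith)
  have hlogT : 0 ≤ Real.log T := Real.log_nonneg hT1
  have hfn : 0 ≤ fn T := by unfold fn; positivity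
  -- the integers are small
  have hnn : ∀ k ∈ KK (prs y z) J, nn (prs y z) k ∈ Icc 1 (HT T) := by
    intro k hk
    obtain ⟨-, hb, -, -, -, -⟩ := hNn (prs y z) wex_prime J
    obtain ⟨h1, h2⟩ := hb (z + 1) (by omega) wex_le k hk
    refine mem_Icc.2 ⟨h1, h2.trans ?_⟩
    unfold HT
    apply Nat.le_floor
    push_cast
    have h3 := hg2 J ((z : ℝ) + 1) (by positivity) (by linarith) hJ
    have h4 : ((z : ℝ) + 1) ^ J ≤ ((J : ℝ) + 1) * ((z : ℝ) + 1) ^ J := by
      have h5 : (0 : ℝ) ≤ ((z : ℝ) + 1) ^ J := by positivity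
      have h6 : (0 : ℝ) ≤ (J : ℝ) := by positivity
      nlinarith
    exact h4.trans h3
  -- the quadratic form
  have hq := hWsq a T ψ (by linarith) hψ (ℕ → ℕ) (KK (prs y z) J) (nn (prs y z))
    (fun k => (∏ p ∈ prs y z, (((lam : ℂ) * om) ^ k p / ((k p).factorial : ℂ))) *
        pw σ (nn (prs y z) k) 0) hnn
  have hint : (∫ t in T..(2 * T), zw T t *
      ‖expJ J ((lam : ℂ) * om * psumS σ y z (a * t))‖ ^ 2) =
      ∫ t in T..(2 * T), zw T t * ‖∑ k ∈ KK (prs y z) J,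
        ((∏ p ∈ prs y z, (((lam : ℂ) * om) ^ k p / ((k p).factorial : ℂ))) *
        pw σ (nn (prs y z) k) 0) *
        (nn (prs y z) k : ℂ) ^ (-(((a * t : ℝ) : ℂ) * I))‖ ^ 2 := by
    refine intervalIntegral.integral_congr fun t _ => ?_
    show zw T t * ‖expJ J ((lam : ℂ) * om * psumS σ y z (a * t))‖ ^ 2 = _
    rw [wex_expand hMn hNn σ lam om y z J (a * t)]
  rw [hint]
  refine hq.trans ?_
  rw [mul_comm _ (fn T)]
  refine mul_le_mul_of_nonneg_left ?_ hfn
  -- majorize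
  set E : ℝ := Real.exp (-l ^ 3 / 8) with hE
  have hE0 : 0 ≤ E := Real.exp_nonneg _
  have h1 : ∑ k ∈ KK (prs y z) J, ∑ m ∈ KK (prs y z) J,
      ‖(∏ p ∈ prs y z, (((lam : ℂ) * om) ^ k p / ((k p).factorial : ℂ))) *
        pw σ (nn (prs y z) k) 0‖ *
      ‖(∏ p ∈ prs y z, (((lam : ℂ) * om) ^ m p / ((m p).factorial : ℂ))) *
        pw σ (nn (prs y z) m) 0‖ *
      (ψ (nn (prs y z) k / Nat.gcd (nn (prs y z) k) (nn (prs y z) m))
        (nn (prs y z) m / Nat.gcd (nn (prs y z) k) (nn (prs y z) m)) + E) ≤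
      ∑ k ∈ KK (prs y z) J, ∑ m ∈ KK (prs y z) J,
        (bt σ lam (prs y z) k * bt σ lam (prs y z) m *
          ψ (nn (prs y z) k / Nat.gcd (nn (prs y z) k) (nn (prs y z) m))
            (nn (prs y z) m / Nat.gcd (nn (prs y z) k) (nn (prs y z) m)) +
          bt σ lam (prs y z) k * bt σ lam (prs y z) m * E) := by
    refine Finset.sum_le_sum fun k _ => Finset.sum_le_sum fun m _ => ?_
    rw [← mul_add]
    refine mul_le_mul_of_nonneg_right ?_ (add_nonneg (hψ.1 _ _) hE0)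
    exact mul_le_mul (bt_norm hNn σ lam hl om hom y z k) (bt_norm hNn σ lam hl om hom y z m)
      (norm_nonneg _) (bt_nonneg σ lam hl _ k)
  refine h1.trans ?_
  simp only [Finset.sum_add_distrib]
  refine add_le_add ?_ ?_
  · have h2 := hCmb (prs y z) J (HT T) (bt σ lam (prs y z)) ψ u v C1 wex_prime
      (bt_nonneg σ lam hl _) (bt_add σ lam hl _) hu1 (by linarith) huv hψ.1 hψv hnn
    refine h2.trans ?_
    have h3 := bt_sum_rpow hMn hSz σ lam 2 hl (by norm_num) (by linarith) y z J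
    have h4 := bt_sum_rpow hMn hSz σ lam u hl hu1.le hσu1 y z J
    have h3' : ∑ g ∈ KK (prs y z) J, bt σ lam (prs y z) g ^ 2 ≤ B2 := by
      have h5 : ∀ g, bt σ lam (prs y z) g ^ 2 = bt σ lam (prs y z) g ^ (2 : ℝ) := fun g =>
        (Real.rpow_two _).symm
      simp only [h5]
      exact h3
    have h6 : 0 ≤ ∑ h ∈ KK (prs y z) J, bt σ lam (prs y z) h ^ u :=
      Finset.sum_nonneg fun h _ => Real.rpow_nonneg (bt_nonneg σ lam hl _ h) _
    refine mul_le_mul h3' ?_ ?_ (Real.exp_nonneg _)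
    · refine mul_le_mul_of_nonneg_right ?_ (by positivity)
      exact Real.rpow_le_rpow h6 h4 (by positivity)
    · exact mul_nonneg (Real.rpow_nonneg h6 _) (by positivity)
  · have h2 : ∑ k ∈ KK (prs y z) J, ∑ m ∈ KK (prs y z) J,
        bt σ lam (prs y z) k * bt σ lam (prs y z) m * E =
        (∑ k ∈ KK (prs y z) J, bt σ lam (prs y z) k) ^ 2 * E := by
      rw [sq, Finset.sum_mul_sum, Finset.sum_mul]
      refine Finset.sum_congr rfl fun k _ => ?_
      rw [Finset.sum_mul]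
    rw [h2]
    have h3 : ∑ k ∈ KK (prs y z) J, bt σ lam (prs y z) k ≤ Real.exp (l ^ 2) := by
      refine (bt_sum hMn σ lam hσ0 hl y z J).trans ?_
      refine hgl J (1 + lam * z) (by positivity) ?_ hJ
      have : lam * z ≤ lam * l ^ A := mul_le_mul_of_nonneg_left hz hl
      linarith
    have h4 : 0 ≤ ∑ k ∈ KK (prs y z) J, bt σ lam (prs y z) k :=
      Finset.sum_nonneg fun k _ => bt_nonneg σ lam hl _ k
    calc (∑ k ∈ KK (prs y z) J, bt σ lam (prs y z) k) ^ 2 * E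
        ≤ (Real.exp (l ^ 2)) ^ 2 * E := by gcongr
      _ = Real.exp (2 * l ^ 2 + -l ^ 3 / 8) := by
          rw [hE, ← Real.exp_nat_mul, ← Real.exp_add]
          push_cast
          rfl
      _ ≤ Real.exp 0 := by
          rw [Real.exp_le_exp]
          have h5 : 0 ≤ l ^ 2 * (l - 16) := mul_nonneg (sq_nonneg _) (by linarith)
          nlinarith
      _ = 1 := Real.exp_zero

end Pool.Agent.Lib.MP_aa9ae4_nt.S1
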