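import Pool.Agent.Lib.MP_aa9ae4_nt.S1.SpecW

/-!
MP_aa9ae4_nt, Theorem S, part W: the quadratic form.
-/

namespace Pool.Agent.Lib.MP_aa9ae4_nt.S1

open Finset MeasureTheory Filter Topology
open Complex (I)

private theorem wsq_cpow (x : ℝ) (m : ℕ) (hm : 1 ≤ m) :
    (m : ℂ) ^ (-((x : ℂ) * I)) = Complex.exp (((-(x * Real.log m) : ℝ) : ℂ) * I) := by
  have hm0 : (m : ℂ) ≠ 0 := by
    have : m ≠ 0 := by omega
    exact_mod_cast this
  rw [Complex.cpow_def_of_ne_zero hm0, ← Complex.natCast_log]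
  congr 1
  push_cast
  ring

private theorem wsq_key (a t : ℝ) (m l : ℕ) (hm : 1 ≤ m) (hl : 1 ≤ l) :
    (m : ℂ) ^ (-(((a * t : ℝ) : ℂ) * I)) *
        (starRingEnd ℂ) ((l : ℂ) ^ (-(((a * t : ℝ) : ℂ) * I))) =
      (((((l / Nat.gcd m l : ℕ) : ℝ) / ((m / Nat.gcd m l : ℕ) : ℝ)) ^ a : ℝ) : ℂ) ^
        ((t : ℂ) * I) := by
  have hm0 : (0 : ℝ) < m := by exact_mod_cast hm
  have hl0 : (0 : ℝ) < l := by exact_mod_cast hl
  have hg0 : (Nat.gcd m l : ℝ) ≠ 0 := by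
    have : Nat.gcd m l ≠ 0 := (Nat.gcd_pos_of_pos_left l (by omega)).ne'
    exact_mod_cast this
  have e1 : (((l / Nat.gcd m l : ℕ) : ℝ) / ((m / Nat.gcd m l : ℕ) : ℝ)) = (l : ℝ) / m := by
    rw [Nat.cast_div (Nat.gcd_dvd_right m l) hg0, Nat.cast_div (Nat.gcd_dvd_left m l) hg0]
    field_simp
  rw [e1]
  have hr : (0 : ℝ) < ((l : ℝ) / m) ^ a := by positivity
  have e2 : ((((l : ℝ) / m) ^ a : ℝ) : ℂ) ^ ((t : ℂ) * I) =
      Complex.exp (((a * (Real.log l - Real.log m) * t : ℝ) : ℂ) * I) := by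
    rw [Complex.cpow_def_of_ne_zero (by exact_mod_cast hr.ne'), ← Complex.ofReal_log hr.le,
      Real.log_rpow (by positivity), Real.log_div hl0.ne' hm0.ne']
    congr 1
    push_cast
    ring
  rw [e2, wsq_cpow _ _ hm, wsq_cpow _ _ hl, ← Complex.exp_conj, map_mul, Complex.conj_ofReal,
    Complex.conj_I, ← Complex.exp_add]
  congr 1
  push_cast
  ring

private theorem zw_cont (T : ℝ) : Continuous (fun t : ℝ => zw T t) := by
  unfold zw
  exact (weight_zsum_cont (NT T)).norm.pow 2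

theorem pWsq : S_Wsq := by
  intro a T ψ hT hψ ι s n b hn
  obtain ⟨hψ0, hψ1⟩ := hψ
  set R : ι → ι → ℝ → ℂ := fun i j t =>
    (((((n j / Nat.gcd (n i) (n j) : ℕ) : ℝ) / ((n i / Nat.gcd (n i) (n j) : ℕ) : ℝ)) ^ a : ℝ) :
      ℂ) ^ ((t : ℂ) * I) with hR
  have hn1 : ∀ i ∈ s, 1 ≤ n i := fun i hi => (mem_Icc.1 (hn i hi)).1
  have hdiv : ∀ i ∈ s, ∀ j ∈ s, (n i / Nat.gcd (n i) (n j) ∈ Icc 1 (HT T)) ∧
      (n j / Nat.gcd (n i) (n j) ∈ Icc 1 (HT T)) ∧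
      Nat.Coprime (n i / Nat.gcd (n i) (n j)) (n j / Nat.gcd (n i) (n j)) := by
    intro i hi j hj
    have hi1 := hn1 i hi
    have hj1 := hn1 j hj
    have hg : 0 < Nat.gcd (n i) (n j) := Nat.gcd_pos_of_pos_left _ (by omega)
    refine ⟨mem_Icc.2 ⟨?_, ?_⟩, mem_Icc.2 ⟨?_, ?_⟩, Nat.coprime_div_gcd_div_gcd hg⟩
    · exact Nat.div_pos (Nat.gcd_le_left _ (by omega)) hg
    · exact (Nat.div_le_self _ _).trans (mem_Icc.1 (hn i hi)).2
    · exact Nat.div_pos (Nat.gcd_le_right _ (by omega)) hg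
    · exact (Nat.div_le_self _ _).trans (mem_Icc.1 (hn j hj)).2
  have hRc : ∀ i ∈ s, ∀ j ∈ s, Continuous (R i j) := by
    intro i hi j hj
    obtain ⟨h1, h2, -⟩ := hdiv i hi j hj
    have h1' : (0 : ℝ) < ((n i / Nat.gcd (n i) (n j) : ℕ) : ℝ) := by
      exact_mod_cast (mem_Icc.1 h1).1
    have h2' : (0 : ℝ) < ((n j / Nat.gcd (n i) (n j) : ℕ) : ℝ) := by
      exact_mod_cast (mem_Icc.1 h2).1
    have h3 : (0 : ℝ) < (((n j / Nat.gcd (n i) (n j) : ℕ) : ℝ) /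
      ((n i / Nat.gcd (n i) (n j) : ℕ) : ℝ)) ^ a := by positivity
    rw [hR]
    refine Continuous.const_cpow (by fun_prop) (Or.inl ?_)
    exact_mod_cast h3.ne'
  have hzc : Continuous (fun t : ℝ => (zw T t : ℂ)) := Complex.continuous_ofReal.comp (zw_cont T)
  have h1 : ((∫ t in T..(2 * T), zw T t *
      ‖∑ i ∈ s, b i * (n i : ℂ) ^ (-(((a * t : ℝ) : ℂ) * I))‖ ^ 2 : ℝ) : ℂ) =
      ∑ i ∈ s, ∑ j ∈ s, (b i * (starRingEnd ℂ) (b j)) *
        ∫ t in T..(2 * T), (zw T t : ℂ) * R i j t := by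
    rw [← intervalIntegral.integral_ofReal]
    have h2 : ∀ t : ℝ, ((zw T t *
        ‖∑ i ∈ s, b i * (n i : ℂ) ^ (-(((a * t : ℝ) : ℂ) * I))‖ ^ 2 : ℝ) : ℂ) =
        ∑ i ∈ s, ∑ j ∈ s, (b i * (starRingEnd ℂ) (b j)) * ((zw T t : ℂ) * R i j t) := by
      intro t
      rw [Complex.ofReal_mul, Complex.ofReal_pow, ← Complex.mul_conj', map_sum,
        Finset.sum_mul_sum, Finset.mul_sum]
      refine Finset.sum_congr rfl fun i hi => ?_
      rw [Finset.mul_sum]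
      refine Finset.sum_congr rfl fun j hj => ?_
      have hk : R i j t = (n i : ℂ) ^ (-(((a * t : ℝ) : ℂ) * I)) *
        (starRingEnd ℂ) ((n j : ℂ) ^ (-(((a * t : ℝ) : ℂ) * I))) :=
        (wsq_key a t (n i) (n j) (hn1 i hi) (hn1 j hj)).symm
      rw [hk, map_mul]
      ring
    rw [intervalIntegral.integral_congr (fun t _ => h2 t),
      intervalIntegral.integral_finsetSum]
    · refine Finset.sum_congr rfl fun i hi => ?_
      rw [intervalIntegral.integral_finsetSum]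
      · refine Finset.sum_congr rfl fun j hj => ?_
        rw [intervalIntegral.integral_const_mul]
      · intro j hj
        exact ((hzc.mul (hRc i hi j hj)).const_mul _).intervalIntegrable _ _
    · intro i hi
      refine Continuous.intervalIntegrable ?_ _ _
      exact continuous_finsetSum _ fun j hj => (hzc.mul (hRc i hi j hj)).const_mul _
  have h3 : (∫ t in T..(2 * T), zw T t *
      ‖∑ i ∈ s, b i * (n i : ℂ) ^ (-(((a * t : ℝ) : ℂ) * I))‖ ^ 2) ≤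
      ‖∑ i ∈ s, ∑ j ∈ s, (b i * (starRingEnd ℂ) (b j)) *
        ∫ t in T..(2 * T), (zw T t : ℂ) * R i j t‖ := by
    rw [← h1, Complex.norm_real]
    exact le_abs_self _
  refine h3.trans ?_
  rw [Finset.mul_sum]
  refine (norm_sum_le _ _).trans (Finset.sum_le_sum fun i hi => ?_)
  rw [Finset.mul_sum]
  refine (norm_sum_le _ _).trans (Finset.sum_le_sum fun j hj => ?_)
  rw [norm_mul, norm_mul, RCLike.norm_conj]
  obtain ⟨h4, h5, h6⟩ := hdiv i hi j hj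
  have h7 := hψ1 _ h4 _ h5 h6
  calc ‖b i‖ * ‖b j‖ * ‖∫ t in T..(2 * T), (zw T t : ℂ) * R i j t‖
      ≤ ‖b i‖ * ‖b j‖ * ((ψ (n i / Nat.gcd (n i) (n j)) (n j / Nat.gcd (n i) (n j)) +
          Real.exp (-(Real.log (Real.log T)) ^ 3 / 8)) * fn T) :=
        mul_le_mul_of_nonneg_left h7 (by positivity)
    _ = _ := by ring

end Pool.Agent.Lib.MP_aa9ae4_nt.S1
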