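import Mathlib
import Pool.Agent.Lib.MP_aa9ae4_nt.S1.SpecG

/-!
MP_aa9ae4_nt, Theorem S: approximation of `ζ(σ+iu)` by a sum of length about `u`.
-/

namespace Pool.Agent.Lib.MP_aa9ae4_nt.S1

open Finset MeasureTheory Filter Topology
open Complex (I)

private lemma za_step (σ : ℝ) (h0 : 0 < σ) (h1 : σ < 1) (n : ℕ) :
    (((n + 1 : ℕ) : ℝ)) ^ (-σ) ≤ ((((n + 1 : ℕ) : ℝ)) ^ (1 - σ) - (n : ℝ) ^ (1 - σ)) / (1 - σ) := by
  have hm0 : (0 : ℝ) < ((n + 1 : ℕ) : ℝ) := by positivity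
  have hσ1 : 0 < 1 - σ := by linarith
  set m : ℝ := ((n + 1 : ℕ) : ℝ) with hm
  have hmn : m = n + 1 := by rw [hm]; push_cast; ring
  have hr : 0 ≤ (n : ℝ) / m := by positivity
  have e1 : (n : ℝ) ^ (1 - σ) = m ^ (1 - σ) * ((n : ℝ) / m) ^ (1 - σ) := by
    rw [← Real.mul_rpow hm0.le hr]
    congr 1
    field_simp
  have e4 : (n : ℝ) / m = 1 + -(1 / m) := by
    rw [hmn] ; field_simp; ring
  have h2 : ((n : ℝ) / m) ^ (1 - σ) ≤ 1 + (1 - σ) * (-(1 / m)) := by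
    rw [e4]
    refine rpow_one_add_le_one_add_mul_self ?_ hσ1.le (by linarith)
    have : (1 : ℝ) / m ≤ 1 := by
      rw [div_le_one hm0, hmn]
      have : (0 : ℝ) ≤ n := Nat.cast_nonneg n
      linarith
    linarith
  have h7 : m ^ (-σ) = m ^ (1 - σ) / m := by
    rw [show -σ = (1 - σ) - 1 by ring, Real.rpow_sub_one hm0.ne']
  rw [le_div_iff₀ hσ1, e1, h7]
  have h8 : 0 < m ^ (1 - σ) := Real.rpow_pos_of_pos hm0 _
  have h9 := mul_le_mul_of_nonneg_left h2 h8.le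
  have h10 : m ^ (1 - σ) / m * (1 - σ) =
    m ^ (1 - σ) - m ^ (1 - σ) * (1 + (1 - σ) * (-(1 / m))) := by ring
  linarith

private lemma za_term (σ u : ℝ) {n : ℕ} (hn : 1 ≤ n) :
    (n : ℂ) ^ (-((σ : ℂ) + (u : ℂ) * I)) = (n : ℂ) ^ (-(u * I)) * (((n : ℝ) ^ (-σ) : ℝ) : ℂ) := by
  have h0 : (n : ℂ) ≠ 0 := by exact_mod_cast (by omega : n ≠ 0)
  rw [show (-((σ : ℂ) + (u : ℂ) * I)) = -(u * I) + ((-σ : ℝ) : ℂ) by push_cast; ring,
    Complex.cpow_add _ _ h0]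
  congr 1
  rw [← Complex.ofReal_natCast, ← Complex.ofReal_cpow (Nat.cast_nonneg n)]

private lemma za_zsum_sub (σ u : ℝ) {N K : ℕ} (h : N ≤ K) :
    zsum ((σ : ℂ) + (u : ℂ) * I) K - zsum ((σ : ℂ) + (u : ℂ) * I) N
      = ∑ n ∈ Ioc N K, (n : ℂ) ^ (-(u * I)) * (((n : ℝ) ^ (-σ) : ℝ) : ℂ) := by
  have h1 : ∀ M : ℕ, Icc 1 M = Ioc 0 M := by
    intro M
    ext n
    rw [mem_Icc, mem_Ioc]
    omega
  unfold zsum
  rw [h1, h1, ← sum_Ioc_consecutive _ (Nat.zero_le N) h, add_sub_cancel_left]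
  refine sum_congr rfl fun n hn => za_term σ u ?_
  have := (mem_Ioc.1 hn).1
  omega

/-- Abel summation with the weights `n ^ (-σ)`. -/
private lemma za_abel (σ : ℝ) (hσ0 : 0 < σ) (hσ1 : σ < 1) (a : ℕ → ℂ) (c : ℝ) (hc : 0 ≤ c)
    (N K : ℕ) (hN : 1 ≤ N) (hNK : N ≤ K)
    (h : ∀ x : ℕ, N ≤ x → x ≤ K → ‖∑ n ∈ Ioc N x, a n‖ ≤ c * x) :
    ‖∑ n ∈ Ioc N K, a n * (((n : ℝ) ^ (-σ) : ℝ) : ℂ)‖ ≤ c / (1 - σ) * (K : ℝ) ^ (1 - σ) := by
  have hσ' : 0 < 1 - σ := by linarith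
  have key : ∀ k : ℕ, N ≤ k → k ≤ K → ‖∑ n ∈ Ioc N k, a n * (((n : ℝ) ^ (-σ) : ℝ) : ℂ)
      - (((k : ℝ) ^ (-σ) : ℝ) : ℂ) * ∑ n ∈ Ioc N k, a n‖
        ≤ c * (σ / (1 - σ)) * (k : ℝ) ^ (1 - σ) := by
    intro k hk
    induction k, hk using Nat.le_induction with
    | base =>
      intro _
      rw [Ioc_self, sum_empty, sum_empty, mul_zero, sub_zero, norm_zero]
      positivity
    | succ k hk ih =>
      intro hkK
      have h1 := ih (by omega)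
      have h2 := h k hk (by omega)
      have hk0 : (0 : ℝ) < k := by
        have : 1 ≤ k := hN.trans hk
        exact_mod_cast this
      have hk1 : (0 : ℝ) < ((k + 1 : ℕ) : ℝ) := by positivity
      rw [sum_Ioc_succ_top (by omega), sum_Ioc_succ_top (by omega)]
      have h3 : (∑ n ∈ Ioc N k, a n * (((n : ℝ) ^ (-σ) : ℝ) : ℂ)
            + a (k + 1) * (((((k + 1 : ℕ) : ℝ)) ^ (-σ) : ℝ) : ℂ))
          - (((((k + 1 : ℕ) : ℝ)) ^ (-σ) : ℝ) : ℂ) * (∑ n ∈ Ioc N k, a n + a (k + 1))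
          = (∑ n ∈ Ioc N k, a n * (((n : ℝ) ^ (-σ) : ℝ) : ℂ)
            - (((k : ℝ) ^ (-σ) : ℝ) : ℂ) * ∑ n ∈ Ioc N k, a n)
            + (((k : ℝ) ^ (-σ) - (((k + 1 : ℕ) : ℝ)) ^ (-σ) : ℝ) : ℂ) * ∑ n ∈ Ioc N k, a n := by
        push_cast
        ring
      rw [h3]
      refine (norm_add_le _ _).trans ?_
      have hmono : (((k + 1 : ℕ) : ℝ)) ^ (-σ) ≤ (k : ℝ) ^ (-σ) :=
        Real.rpow_le_rpow_of_nonpos hk0 (by push_cast; linarith) (by linarith)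
      rw [norm_mul (((k : ℝ) ^ (-σ) - (((k + 1 : ℕ) : ℝ)) ^ (-σ) : ℝ) : ℂ), Complex.norm_real,
        Real.norm_eq_abs, abs_of_nonneg (by linarith)]
      have h4 := za_step σ hσ0 hσ1 k
      have h5 : (k : ℝ) ^ (-σ) * k = (k : ℝ) ^ (1 - σ) := by
        rw [← Real.rpow_add_one hk0.ne']
        congr 1
        ring
      have h6 : (((k + 1 : ℕ) : ℝ)) ^ (-σ) * (((k + 1 : ℕ) : ℝ)) = (((k + 1 : ℕ) : ℝ)) ^ (1 - σ) := by
        rw [← Real.rpow_add_one hk1.ne']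
        congr 1
        ring
      have h7 : ((k : ℝ) ^ (-σ) - (((k + 1 : ℕ) : ℝ)) ^ (-σ)) * k
          ≤ σ / (1 - σ) * ((((k + 1 : ℕ) : ℝ)) ^ (1 - σ) - (k : ℝ) ^ (1 - σ)) := by
        have e1 : ((k : ℝ) ^ (-σ) - (((k + 1 : ℕ) : ℝ)) ^ (-σ)) * k
            = (k : ℝ) ^ (1 - σ) - (((k + 1 : ℕ) : ℝ)) ^ (1 - σ) + (((k + 1 : ℕ) : ℝ)) ^ (-σ) := by
          rw [← h5, ← h6]
          push_cast
          ring
        have e2 : σ / (1 - σ) * ((((k + 1 : ℕ) : ℝ)) ^ (1 - σ) - (k : ℝ) ^ (1 - σ))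
            = ((((k + 1 : ℕ) : ℝ)) ^ (1 - σ) - (k : ℝ) ^ (1 - σ)) / (1 - σ)
              - ((((k + 1 : ℕ) : ℝ)) ^ (1 - σ) - (k : ℝ) ^ (1 - σ)) := by
          field_simp
          ring
        rw [e1, e2]
        linarith
      have h8 : ((k : ℝ) ^ (-σ) - (((k + 1 : ℕ) : ℝ)) ^ (-σ)) * ‖∑ n ∈ Ioc N k, a n‖
          ≤ ((k : ℝ) ^ (-σ) - (((k + 1 : ℕ) : ℝ)) ^ (-σ)) * (c * k) :=
        mul_le_mul_of_nonneg_left h2 (by linarith)
      have h9 : ((k : ℝ) ^ (-σ) - (((k + 1 : ℕ) : ℝ)) ^ (-σ)) * (c * k)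
          ≤ c * (σ / (1 - σ) * ((((k + 1 : ℕ) : ℝ)) ^ (1 - σ) - (k : ℝ) ^ (1 - σ))) := by
        have := mul_le_mul_of_nonneg_left h7 hc
        calc ((k : ℝ) ^ (-σ) - (((k + 1 : ℕ) : ℝ)) ^ (-σ)) * (c * k)
            = c * (((k : ℝ) ^ (-σ) - (((k + 1 : ℕ) : ℝ)) ^ (-σ)) * k) := by ring
          _ ≤ _ := this
      have h10 : c * (σ / (1 - σ)) * (((k + 1 : ℕ) : ℝ)) ^ (1 - σ)
          = c * (σ / (1 - σ)) * (k : ℝ) ^ (1 - σ)
            + c * (σ / (1 - σ) * ((((k + 1 : ℕ) : ℝ)) ^ (1 - σ) - (k : ℝ) ^ (1 - σ))) := by ring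
      rw [h10]
      exact add_le_add h1 (h8.trans h9)
  have hK0 : (0 : ℝ) < K := by
    have : 1 ≤ K := hN.trans hNK
    exact_mod_cast this
  have h2 := h K hNK le_rfl
  have h3 : ‖(((K : ℝ) ^ (-σ) : ℝ) : ℂ) * ∑ n ∈ Ioc N K, a n‖ ≤ c * (K : ℝ) ^ (1 - σ) := by
    rw [norm_mul, Complex.norm_real, Real.norm_eq_abs,
      abs_of_nonneg (Real.rpow_nonneg hK0.le _)]
    refine (mul_le_mul_of_nonneg_left h2 (Real.rpow_nonneg hK0.le _)).trans (le_of_eq ?_)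
    have h5 : (K : ℝ) ^ (-σ) * K = (K : ℝ) ^ (1 - σ) := by
      rw [← Real.rpow_add_one hK0.ne']
      congr 1
      ring
    rw [← h5]
    ring
  have h4 : ∑ n ∈ Ioc N K, a n * (((n : ℝ) ^ (-σ) : ℝ) : ℂ)
      = (∑ n ∈ Ioc N K, a n * (((n : ℝ) ^ (-σ) : ℝ) : ℂ)
        - (((K : ℝ) ^ (-σ) : ℝ) : ℂ) * ∑ n ∈ Ioc N K, a n)
        + (((K : ℝ) ^ (-σ) : ℝ) : ℂ) * ∑ n ∈ Ioc N K, a n := by ring
  rw [h4]
  refine (norm_add_le _ _).trans ?_
  have h5 := add_le_add (key K hNK le_rfl) h3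
  refine h5.trans (le_of_eq ?_)
  field_simp
  ring

theorem pZa : S_Za := by
  intro σ hσ hσ1
  obtain ⟨C, hC, hsum⟩ := sum_cpow_le
  have hσ0 : 0 < σ := by linarith
  have hσ' : 0 < 1 - σ := by linarith
  refine ⟨6 + 2 * C / (1 - σ), by positivity, ?_⟩
  intro u hu N hN1 hN2
  have hu0 : 0 < u := by linarith
  have hN : 1 ≤ N := by
    by_contra hcon
    have h0 : N = 0 := by omega
    rw [h0, Nat.cast_zero] at hN1
    linarith
  obtain ⟨K, hK⟩ : ∃ K : ℕ, K = ⌊u ^ 2⌋₊ + 1 := ⟨_, rfl⟩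
  have hNK : N ≤ K := by
    rw [hK, ← Nat.floor_add_one (by positivity)]
    exact Nat.le_floor hN2
  have hK1 : u ^ 2 ≤ K := by
    rw [hK]
    push_cast
    exact (Nat.lt_floor_add_one _).le
  have hK2 : (K : ℝ) ≤ u ^ 2 + 1 := by
    rw [hK]
    push_cast
    have := Nat.floor_le (show 0 ≤ u ^ 2 by positivity)
    linarith
  have hKpos : (0 : ℝ) < K := by nlinarith
  set s : ℂ := (σ : ℂ) + (u : ℂ) * I with hsdef
  have hre : s.re = σ := by simp [hsdef]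
  have him : s.im = u := by simp [hsdef]
  obtain ⟨P, hP⟩ : ∃ P : ℝ, P = u ^ (1 - 2 * σ) := ⟨_, rfl⟩
  have hPpos : 0 < P := by rw [hP]; exact Real.rpow_pos_of_pos hu0 _
  have hPa : (K : ℝ) ^ (1 - σ) ≤ 2 * (u * P) := by
    have h1 : (K : ℝ) ≤ 2 * u ^ 2 := by nlinarith
    have h2 : (K : ℝ) ^ (1 - σ) ≤ (2 * u ^ 2) ^ (1 - σ) :=
      Real.rpow_le_rpow hKpos.le h1 hσ'.le
    have h3 : (2 * u ^ 2 : ℝ) ^ (1 - σ) = 2 ^ (1 - σ) * (u * P) := by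
      rw [Real.mul_rpow (by norm_num) (by positivity), hP, ← Real.rpow_natCast u 2,
        ← Real.rpow_mul hu0.le]
      congr 1
      rw [← Real.rpow_one_add' hu0.le (by linarith)]
      congr 1
      push_cast
      ring
    have h4 : (2 : ℝ) ^ (1 - σ) ≤ 2 := by
      calc (2 : ℝ) ^ (1 - σ) ≤ 2 ^ (1 : ℝ) :=
            Real.rpow_le_rpow_of_exponent_le (by norm_num) (by linarith)
        _ = 2 := Real.rpow_one 2
    rw [h3] at h2
    exact h2.trans (mul_le_mul_of_nonneg_right h4 (by positivity))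
  have hPb : (K : ℝ) ^ (-σ) ≤ P / u := by
    have h1 : (K : ℝ) ^ (-σ) ≤ (u ^ 2) ^ (-σ) :=
      Real.rpow_le_rpow_of_nonpos (by positivity) hK1 (by linarith)
    refine h1.trans (le_of_eq ?_)
    rw [← Real.rpow_natCast u 2, ← Real.rpow_mul hu0.le, hP, ← Real.rpow_sub_one hu0.ne']
    congr 1
    push_cast
    ring
  have hs : s ≠ 1 := by
    intro h
    have := congrArg Complex.im h
    rw [him, Complex.one_im] at this
    linarith
  have h1 := zeta_approx (s := s) (by rw [hre]; exact hσ0) hs K (by omega)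
  rw [hre] at h1
  have h2 : ‖s‖ ≤ 2 * u := by
    refine (norm_add_le _ _).trans ?_
    rw [norm_mul, Complex.norm_I, mul_one, Complex.norm_real, Complex.norm_real,
      Real.norm_eq_abs, Real.norm_eq_abs, abs_of_pos hu0, abs_of_pos hσ0]
    linarith
  have h4 : ‖s‖ * (K : ℝ) ^ (-σ) / σ ≤ 4 * P := by
    have h5 : ‖s‖ * (K : ℝ) ^ (-σ) ≤ 2 * u * (P / u) :=
      mul_le_mul h2 hPb (Real.rpow_nonneg hKpos.le _) (by positivity)
    have h6 : 2 * u * (P / u) = 2 * P := by field_simp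
    rw [div_le_iff₀ hσ0]
    nlinarith
  have h6 : ‖(K : ℂ) ^ (1 - s) / (s - 1)‖ ≤ 2 * P := by
    rw [norm_div, Complex.norm_natCast_cpow_of_pos (by exact_mod_cast hKpos)]
    have h7 : (1 - s : ℂ).re = 1 - σ := by
      rw [Complex.sub_re, hre, Complex.one_re]
    rw [h7]
    have h8 : u ≤ ‖(s - 1 : ℂ)‖ := by
      have h9 := Complex.abs_im_le_norm (s - 1 : ℂ)
      have h10 : (s - 1 : ℂ).im = u := by rw [Complex.sub_im, him, Complex.one_im, sub_zero]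
      rw [h10, abs_of_pos hu0] at h9
      exact h9
    rw [div_le_iff₀ (by linarith)]
    refine hPa.trans ?_
    nlinarith
  have h7 : ‖zsum s K - zsum s N‖ ≤ 2 * C / (1 - σ) * P := by
    rw [hsdef, za_zsum_sub σ u hNK]
    refine (za_abel σ hσ0 hσ1 _ (C / u) (by positivity) N K hN hNK ?_).trans ?_
    · intro x hx _
      have h8 := hsum u (by linarith) N x hN1 hx
      rw [div_mul_eq_mul_div]
      exact h8
    · have h8 : C / u / (1 - σ) * (K : ℝ) ^ (1 - σ) ≤ C / u / (1 - σ) * (2 * (u * P)) :=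
        mul_le_mul_of_nonneg_left hPa (by positivity)
      refine h8.trans (le_of_eq ?_)
      field_simp
  have h8 : riemannZeta s - zsum s N
      = (riemannZeta s - zsum s K - (K : ℂ) ^ (1 - s) / (s - 1))
        + (K : ℂ) ^ (1 - s) / (s - 1)
        + (zsum s K - zsum s N) := by ring
  rw [h8, ← hP]
  refine (norm_add_le _ _).trans ?_
  refine (add_le_add (norm_add_le _ _) le_rfl).trans ?_
  have h9 : (6 + 2 * C / (1 - σ)) * P = 4 * P + 2 * P + 2 * C / (1 - σ) * P := by ring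
  rw [h9]
  linarith

end Pool.Agent.Lib.MP_aa9ae4_nt.S1
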