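import Mathlib
import Pool.Agent.Lib.MP_aa9ae4_nt.S1.PZa
import Pool.Agent.Lib.MP_aa9ae4_nt.S1.PSz
import Pool.Agent.Lib.MP_aa9ae4_nt.S1.PMc
import Pool.Agent.Lib.MP_aa9ae4_nt.S1.PBad
import Pool.Agent.Lib.MP_aa9ae4_nt.S1.PRm
import Pool.Agent.Lib.MP_aa9ae4_nt.S1.PCb
import Pool.Agent.Lib.MP_aa9ae4_nt.S1.PHm
import Pool.Agent.Lib.MP_aa9ae4_nt.S1.PEx
import Pool.Agent.Lib.MP_aa9ae4_nt.S1.PEj
import Pool.Agent.Lib.MP_aa9ae4_nt.S1.PTrn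
import Pool.Agent.Lib.MP_aa9ae4_nt.S1.PEs
import Pool.Agent.Lib.MP_aa9ae4_nt.S1.PGr
import Pool.Agent.Lib.MP_aa9ae4_nt.S1.PGc
import Pool.Agent.Lib.MP_aa9ae4_nt.S1.PGb
import Pool.Agent.Lib.MP_aa9ae4_nt.S1.PGs
import Pool.Agent.Lib.MP_aa9ae4_nt.S1.PGp
import Pool.Agent.Lib.MP_aa9ae4_nt.S1.PG
import Pool.Agent.Lib.MP_aa9ae4_nt.S1.PTay
import Pool.Agent.Lib.MP_aa9ae4_nt.S1.PMn
import Pool.Agent.Lib.MP_aa9ae4_nt.S1.PNn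
import Pool.Agent.Lib.MP_aa9ae4_nt.S1.PEq
import Pool.Agent.Lib.MP_aa9ae4_nt.S1.PHx
import Pool.Agent.Lib.MP_aa9ae4_nt.S1.PPsi
import Pool.Agent.Lib.MP_aa9ae4_nt.S1.PWsq
import Pool.Agent.Lib.MP_aa9ae4_nt.S1.PCmb
import Pool.Agent.Lib.MP_aa9ae4_nt.S1.PWex
import Pool.Agent.Lib.MP_aa9ae4_nt.S1.PW2m
import Pool.Agent.Lib.MP_aa9ae4_nt.S1.PCf
import Pool.Agent.Lib.MP_aa9ae4_nt.S1.PWe
import Pool.Agent.Lib.MP_aa9ae4_nt.S1.PHol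
import Pool.Agent.Lib.MP_aa9ae4_nt.S1.PTla
import Pool.Agent.Lib.MP_aa9ae4_nt.S1.PTlb
import Pool.Agent.Lib.MP_aa9ae4_nt.S1.PFt
import Pool.Agent.Lib.MP_aa9ae4_nt.S1.PMd
import Pool.Agent.Lib.MP_aa9ae4_nt.S1.PGd
import Pool.Agent.Lib.MP_aa9ae4_nt.S1.PCmp
import Pool.Agent.Lib.MP_aa9ae4_nt.S1.PTor
import Pool.Agent.Lib.MP_aa9ae4_nt.S1.PLim
import Pool.Agent.Lib.MP_aa9ae4_nt.S1.PPos
import Pool.Agent.Lib.MP_aa9ae4_nt.S1.PTrc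
import Pool.Agent.Lib.MP_aa9ae4_nt.S1.PFin

/-!
MP_aa9ae4_nt, Theorem S: the assembly of all modules.
-/

namespace Pool.Agent.Lib.MP_aa9ae4_nt.S1

open Finset MeasureTheory Filter Topology
open Complex (I)

theorem main_G : S_G :=
  pG pEx (pGr pRm) (pGc pCb) (pGb (pBad pMc) pSz) (pGs pHm pSz) (pGp pZa pSz (pTrn pEj) pEs)

theorem main_Hx : S_Hx := pHx pSz pTay (pEq pMn pNn)

theorem main_Psi : S_Psi := pPsi pSz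

theorem main_We : S_We := pWe pTay (pWex pSz pMn pNn main_Psi pWsq (pCmb pNn)) pCf

theorem main_W2m : S_W2m := pW2m pSz main_Psi pWsq

theorem main_Hol : S_Hol := pHol pCf

theorem main_Ft : S_Ft := pFt main_Hx main_Hol (pTla main_Hx) (pTlb pHm pSz)

theorem main_Md : S_Md := pMd pSz pEs main_W2m main_We pCf

theorem main_Gd : S_Gd := pGd main_G

theorem main_Cmp : S_Cmp := pCmp pSz pEs main_Ft main_Md main_Gd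

theorem main_Lim : S_Lim := pLim main_Cmp pTor main_Gd main_Hol

theorem main_Fin : S_Fin :=
  pFin main_Lim (pPos main_Lim main_Gd main_Hol pCf) (pTrc main_Gd main_Hol main_Lim)

end Pool.Agent.Lib.MP_aa9ae4_nt.S1
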