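import Mathlib
import Pool.Agent.Lib.MP_aa9ae4_nt.S1.SpecW

/-!
Hölder with the fourth moment (`S_Hol`).
-/

namespace Pool.Agent.Lib.MP_aa9ae4_nt.S1

open Finset MeasureTheory Filter Topology
open Complex (I)

theorem pHol (hCf : S_Cf) : S_Hol := by
  obtain ⟨-, -, ⟨C, hC, hev⟩, -⟩ := hCf
  refine ⟨√C, Real.sqrt_pos.2 hC, ?_⟩
  filter_upwards [hev, eventually_ge_atTop (1 : ℝ)] with T hT hT1 F g hF hsub hg0 hgm hgi
  have hT2 : T ≤ 2 * T := by linarith
  have hfi : IntegrableOn (fun t => fw t ^ 2) (Set.Icc T (2 * T)) :=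
    (fin_fw_cont.pow 2).continuousOn.integrableOn_Icc
  have hfF : IntegrableOn (fun t => fw t ^ 2) F := hfi.mono_set hsub
  have hfm : AEStronglyMeasurable fw (volume.restrict F) := fin_fw_cont.aestronglyMeasurable
  have hfL : MemLp fw (ENNReal.ofReal 2) (volume.restrict F) := by
    rw [ENNReal.ofReal_ofNat]
    exact (memLp_two_iff_integrable_sq hfm).2 hfF
  have hgL : MemLp g (ENNReal.ofReal 2) (volume.restrict F) := by
    rw [ENNReal.ofReal_ofNat]
    exact (memLp_two_iff_integrable_sq hgm).2 hgi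
  have h1 := integral_mul_le_Lp_mul_Lq_of_nonneg (μ := volume.restrict F)
    Real.HolderConjugate.two_two (Filter.Eventually.of_forall fin_fw_nonneg)
    (Filter.Eventually.of_forall hg0) hfL hgL
  simp only [Real.rpow_two, ← Real.sqrt_eq_rpow] at h1
  refine h1.trans (mul_le_mul_of_nonneg_right ?_ (Real.sqrt_nonneg _))
  have h2 : ∫ t in F, fw t ^ 2 ≤ C * (T * Real.log T ^ 4) := by
    refine le_trans ?_ hT
    rw [intervalIntegral.integral_of_le hT2, ← integral_Icc_eq_integral_Ioc]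
    exact setIntegral_mono_set hfi (Filter.Eventually.of_forall fun t => sq_nonneg _)
      hsub.eventuallyLE
  have h3 : √C * (√T * Real.log T ^ 2) = √(C * (T * Real.log T ^ 4)) := by
    rw [Real.sqrt_mul hC.le, Real.sqrt_mul (by linarith : (0 : ℝ) ≤ T),
      show Real.log T ^ 4 = (Real.log T ^ 2) ^ 2 by ring, Real.sqrt_sq (sq_nonneg _)]
  rw [h3]
  exact Real.sqrt_le_sqrt h2

end Pool.Agent.Lib.MP_aa9ae4_nt.S1
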