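import Mathlib
import Pool.Agent.Lib.MP_aa9ae4_nt.S1.SpecM
import Pool.Agent.Lib.MP_aa9ae4_nt.S1.Aux72

/-!
MP_aa9ae4_nt, Theorem S. Module Trc: the truncated asymptotic formula.
-/

namespace Pool.Agent.Lib.MP_aa9ae4_nt.S1

open Finset MeasureTheory Filter Topology
open Complex (I)

private lemma trc_fz_contAt (σ a t : ℝ) (h : a * t ≠ 0) : ContinuousAt (fzS σ a) t := by
  have h1 : ((σ : ℂ) + ((a * t : ℝ) : ℂ) * I) ≠ 1 := by
    intro h2
    have := congrArg Complex.im h2
    simp only [Complex.add_im, Complex.ofReal_im, Complex.mul_im, Complex.ofReal_re,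
      Complex.I_im, Complex.I_re, mul_one, mul_zero, add_zero, zero_add, Complex.one_im] at this
    exact h this
  exact ContinuousAt.comp (f := fun t : ℝ => ((σ : ℂ) + ((a * t : ℝ) : ℂ) * I))
    (differentiableAt_riemannZeta h1).continuousAt (by fun_prop)

/-- integrability of the truncated function -/
private lemma trc_int (σ a g V T : ℝ) (ha : 0 < a) (hT : 0 < T) (hV : 0 ≤ V) {S : Set ℝ}
    (hS : S ⊆ Set.Icc T (2 * T)) :
    IntegrableOn (fun t => fw t * min (‖fzS σ a t‖ ^ (-g)) V) S := by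
  refine IntegrableOn.mono_set (t := Set.Icc T (2 * T)) ?_ hS
  have hc : ContinuousOn (fzS σ a) (Set.Icc T (2 * T)) := fun t ht =>
    (trc_fz_contAt σ a t (by
      have : 0 < t := lt_of_lt_of_le hT ht.1
      positivity)).continuousWithinAt
  have hm : AEMeasurable (fun t => ‖fzS σ a t‖) (volume.restrict (Set.Icc T (2 * T))) :=
    (hc.norm.aestronglyMeasurable measurableSet_Icc).aemeasurable
  have hm2 : AEMeasurable (fun t => fw t * min (‖fzS σ a t‖ ^ (-g)) V)
      (volume.restrict (Set.Icc T (2 * T))) :=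
    fin_fw_cont.measurable.aemeasurable.mul ((hm.pow_const (-g)).min aemeasurable_const)
  have hi : IntegrableOn (fun t => fw t * V) (Set.Icc T (2 * T)) :=
    a72_int (fin_fw_cont.mul continuous_const) (le_refl _)
  refine Integrable.mono' hi hm2.aestronglyMeasurable (Eventually.of_forall fun t => ?_)
  have h0 : 0 ≤ min (‖fzS σ a t‖ ^ (-g)) V := le_min (Real.rpow_nonneg (norm_nonneg _) _) hV
  rw [Real.norm_eq_abs, abs_of_nonneg (mul_nonneg (fin_fw_nonneg t) h0)]
  exact mul_le_mul_of_nonneg_left (min_le_right _ _) (fin_fw_nonneg t)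

/-- truncation: if `x` is close to `e` then `min x V` is close to `e` -/
private lemma trc_min {x e ε V : ℝ} (hx : 0 ≤ x) (he : 0 ≤ e) (hε : 0 ≤ ε) (hε1 : ε ≤ 1)
    (hV : 0 < V) (h : |x - e| ≤ ε * e) : |min x V - e| ≤ ε * e + 4 / V * e ^ 2 := by
  have h1 : x ≤ 2 * e := by
    have := (abs_le.1 h).2
    nlinarith
  have h2 : 0 ≤ 4 / V * e ^ 2 := by positivity
  rcases le_total x V with hxV | hxV
  · rw [min_eq_left hxV]
    linarith
  · rw [min_eq_right hxV]
    have h3 : x - V ≤ 4 / V * e ^ 2 := by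
      have h4 : x ≤ x ^ 2 / V := by
        rw [le_div_iff₀ hV]
        nlinarith
      have h5 : x ^ 2 / V ≤ 4 / V * e ^ 2 := by
        rw [div_mul_eq_mul_div]
        apply div_le_div_of_nonneg_right _ hV.le
        nlinarith
      linarith
    have h6 := abs_le.1 h
    rw [abs_le]
    constructor
    · linarith [h6.1]
    · linarith [h6.2]

theorem pTrc (hGd : S_Gd) (hHol : S_Hol) (hLim : S_Lim) : S_Trc := by
  intro σ a h1 h2 ha
  have hσ : 0 < σ := by linarith
  obtain ⟨δ, hδ, hgd, C, hC, hbad⟩ := a72_bad hGd hHol h1 h2 ha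
  refine ⟨δ / 4, by linarith, fun g D hD V hV hVT => ?_⟩
  obtain ⟨D2, hD2⟩ := hLim σ a (2 * g) h1 h2 ha
  -- the bad points
  have hb : Tendsto (fun T : ℝ => (∫ t in Set.Icc T (2 * T) \ good σ a T,
      fw t * min (‖fzS σ a t‖ ^ (-g)) (V T)) / fn T) atTop (𝓝 0) := by
    refine squeeze_zero' ?_ ?_ (a72_lim (C := C) hδ)
    · filter_upwards [fin_fn_pos, hV.eventually_ge_atTop 0] with T hT hT'
      exact div_nonneg (integral_nonneg fun t => mul_nonneg (fin_fw_nonneg t)
        (le_min (Real.rpow_nonneg (norm_nonneg _) _) hT')) hT.le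
    · filter_upwards [fin_fn_pos, hbad, eventually_gt_atTop (1 : ℝ), hVT,
        hV.eventually_ge_atTop 0] with T hT hT' hT1 hT2 hT3
      have hT0 : 0 < T := by linarith
      apply div_le_div_of_nonneg_right _ hT.le
      have h3 : ∫ t in Set.Icc T (2 * T) \ good σ a T, fw t * min (‖fzS σ a t‖ ^ (-g)) (V T) ≤
          ∫ t in Set.Icc T (2 * T) \ good σ a T, fw t * V T := by
        apply integral_mono (trc_int σ a g (V T) T ha hT0 hT3 Set.sdiff_subset)
          (a72_int (fin_fw_cont.mul continuous_const) Set.sdiff_subset)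
        intro t
        exact mul_le_mul_of_nonneg_left (min_le_right _ _) (fin_fw_nonneg t)
      rw [integral_mul_const] at h3
      refine h3.trans ?_
      rw [mul_comm]
      have h4 : 0 ≤ ∫ t in Set.Icc T (2 * T) \ good σ a T, fw t :=
        integral_nonneg fun t => fin_fw_nonneg t
      exact mul_le_mul hT2 hT' h4 (by positivity)
  -- the good points
  have hg : Tendsto (fun T : ℝ => (∫ t in good σ a T,
      fw t * min (‖fzS σ a t‖ ^ (-g)) (V T)) / fn T) atTop (𝓝 D) := by
    have h3 : Tendsto (fun T : ℝ => (∫ t in good σ a T,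
        fw t * min (‖fzS σ a t‖ ^ (-g)) (V T)) / fn T - LG σ a g T) atTop (𝓝 0) := by
      rw [Metric.tendsto_nhds]
      intro η hη
      set ε := min 1 (η / (4 * (|D| + 1))) with hεd
      have hD1 : 0 < |D| + 1 := by positivity
      have hε : 0 < ε := lt_min one_pos (by positivity)
      have hε1 : ε ≤ 1 := min_le_left _ _
      have hε2 : ε * (|D| + 1) ≤ η / 4 := by
        calc ε * (|D| + 1) ≤ η / (4 * (|D| + 1)) * (|D| + 1) :=
              mul_le_mul_of_nonneg_right (min_le_right _ _) hD1.le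
          _ = η / 4 := by field_simp
      obtain ⟨δ', hδ', hfin⟩ := fin_good g ε hε
      have hlog : ∀ᶠ T : ℝ in atTop, 2 / Real.log T ≤ min δ' (1 / 2) := by
        have h4 : Tendsto (fun T : ℝ => 2 / Real.log T) atTop (𝓝 0) :=
          Real.tendsto_log_atTop.const_div_atTop 2
        exact (h4.eventually (gt_mem_nhds (lt_min hδ' (by norm_num)))).mono fun _ h => h.le
      have hV4 : Tendsto (fun T : ℝ => 4 / V T * LG σ a (2 * g) T) atTop (𝓝 0) := by
        have h4 := (hV.const_div_atTop 4).mul hD2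
        rwa [zero_mul] at h4
      filter_upwards [hgd, hlog, fin_fn_pos, eventually_gt_atTop (1 : ℝ),
        hV.eventually_gt_atTop 0, hV4.eventually (gt_mem_nhds (show 0 < η / 4 by linarith)),
        hD.eventually (gt_mem_nhds (show D < |D| + 1 by
          have := le_abs_self D
          linarith))] with T hT hT1 hT2 hT3 hT4 hT5 hT6
      have hT0 : 0 < T := by linarith
      have hsub := a72_good_sub σ a T
      have hE : ∀ γ : ℝ, IntegrableOn (fun t => fw t * ‖eulS σ 0 (zT σ T) (a * t)‖ ^ γ)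
          (good σ a T) := fun γ => a72_int (fin_fw_cont.mul (a72_cont_pow hσ 0 _ a γ)) hsub
      have hX := trc_int σ a g (V T) T ha hT0 hT4.le hsub
      have hpt : ∀ t ∈ good σ a T,
          |fw t * min (‖fzS σ a t‖ ^ (-g)) (V T) - fw t * ‖eulS σ 0 (zT σ T) (a * t)‖ ^ g| ≤
          ε * (fw t * ‖eulS σ 0 (zT σ T) (a * t)‖ ^ g) +
            4 / V T * (fw t * ‖eulS σ 0 (zT σ T) (a * t)‖ ^ (2 * g)) := by
        intro t ht
        have hEp := a72_eulS_pos hσ 0 (zT σ T) (a * t)
        have hZE := hT.2.2 t ht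
        have hZ : fzS σ a t ≠ 0 := by
          intro h0
          rw [h0, zero_mul, zero_sub, norm_neg, norm_one] at hZE
          have := hZE.trans (hT1.trans (min_le_right _ _))
          norm_num at this
        have h4 := hfin (fzS σ a t) (eulS σ 0 (zT σ T) (a * t)) hZ (norm_pos_iff.1 hEp)
          (hZE.trans (hT1.trans (min_le_left _ _)))
        have h5 := trc_min (Real.rpow_nonneg (norm_nonneg (fzS σ a t)) (-g))
          (Real.rpow_nonneg hEp.le g) hε.le hε1 hT4 h4
        have h6 : (‖eulS σ 0 (zT σ T) (a * t)‖ ^ g) ^ 2 =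
            ‖eulS σ 0 (zT σ T) (a * t)‖ ^ (2 * g) := by
          rw [← Real.rpow_natCast, ← Real.rpow_mul hEp.le]
          congr 1
          push_cast
          ring
        rw [h6] at h5
        rw [← mul_sub, abs_mul, abs_of_nonneg (fin_fw_nonneg t)]
        have h7 := mul_le_mul_of_nonneg_left h5 (fin_fw_nonneg t)
        linarith
      have h4 : |(∫ t in good σ a T, fw t * min (‖fzS σ a t‖ ^ (-g)) (V T)) -
          ∫ t in good σ a T, fw t * ‖eulS σ 0 (zT σ T) (a * t)‖ ^ g| ≤
          ε * (∫ t in good σ a T, fw t * ‖eulS σ 0 (zT σ T) (a * t)‖ ^ g) +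
            4 / V T * ∫ t in good σ a T, fw t * ‖eulS σ 0 (zT σ T) (a * t)‖ ^ (2 * g) := by
        rw [← integral_sub hX (hE g)]
        refine (abs_integral_le_integral_abs).trans ?_
        rw [← integral_const_mul, ← integral_const_mul,
          ← integral_add ((hE g).const_mul ε) ((hE (2 * g)).const_mul (4 / V T))]
        exact setIntegral_mono_on (hX.sub (hE g)).abs
          (((hE g).const_mul ε).add ((hE (2 * g)).const_mul (4 / V T))) hT.1 hpt
      have h5 := div_le_div_of_nonneg_right h4 hT2.le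
      rw [add_div, mul_div_assoc, mul_div_assoc] at h5
      rw [dist_zero_right, Real.norm_eq_abs]
      unfold LG at hT5 hT6 ⊢
      rw [← sub_div, abs_div, abs_of_pos hT2]
      have h6 : ε * ((∫ t in good σ a T, fw t * ‖eulS σ 0 (zT σ T) (a * t)‖ ^ g) / fn T) ≤
          ε * (|D| + 1) := mul_le_mul_of_nonneg_left hT6.le hε.le
      linarith
    have h4 := h3.add hD
    simp only [sub_add_cancel, zero_add] at h4
    exact h4
  have h3 := hg.add hb
  rw [add_zero] at h3
  refine h3.congr' ?_
  filter_upwards [hgd, eventually_gt_atTop (0 : ℝ), hV.eventually_ge_atTop 0] with T hT hT0 hT1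
  rw [← add_div]
  congr 1
  have h5 : ∫ t in T..(2 * T), fw t * min (‖fzS σ a t‖ ^ (-g)) (V T) =
      ∫ t in Set.Icc T (2 * T), fw t * min (‖fzS σ a t‖ ^ (-g)) (V T) := by
    rw [intervalIntegral.integral_of_le (by linarith), integral_Icc_eq_integral_Ioc]
  rw [h5, ← integral_inter_add_sdiff hT.1 (trc_int σ a g (V T) T ha hT0 hT1 (le_refl _)),
    Set.inter_eq_right.2 (a72_good_sub σ a T)]

end Pool.Agent.Lib.MP_aa9ae4_nt.S1
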