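import Pool.Agent.Lib.MP_aa9ae4_nt.S1.SpecG

/-!
MP_aa9ae4_nt, Theorem S: the mollifier against the Euler product (`S_Trn`).
-/

namespace Pool.Agent.Lib.MP_aa9ae4_nt.S1

open Finset MeasureTheory Filter Topology
open Complex (I)

private theorem trn_mem {y z p : ℕ} : p ∈ prs y z ↔ (y < p ∧ p ≤ z) ∧ p.Prime := by
  simp [prs]

private theorem trn_prs (w z : ℕ) (h : w ≤ z) : prs 0 z = prs 0 w ∪ prs w z := by
  ext p
  rw [Finset.mem_union, trn_mem, trn_mem, trn_mem]
  constructor
  · rintro ⟨⟨h1, h2⟩, hp⟩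
    rcases le_or_gt p w with h3 | h3
    · exact Or.inl ⟨⟨h1, h3⟩, hp⟩
    · exact Or.inr ⟨⟨h3, h2⟩, hp⟩
  · rintro (⟨⟨h1, h2⟩, hp⟩ | ⟨⟨h1, h2⟩, hp⟩)
    · exact ⟨⟨h1, h2.trans h⟩, hp⟩
    · exact ⟨⟨by omega, h2⟩, hp⟩

private theorem trn_squarefree (S : Finset ℕ) (hS : ∀ p ∈ S, p.Prime) :
    Squarefree (∏ p ∈ S, p) := by
  induction S using Finset.induction_on with
  | empty => simp
  | insert a S ha ih =>
    rw [Finset.prod_insert ha]
    have hc : Nat.Coprime a (∏ p ∈ S, p) := by
      refine Nat.Coprime.prod_right fun q hq => ?_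
      refine (Nat.coprime_primes (hS a (Finset.mem_insert_self _ _))
        (hS q (Finset.mem_insert_of_mem hq))).2 ?_
      rintro rfl
      exact ha hq
    rw [Nat.squarefree_mul hc]
    exact ⟨(hS a (Finset.mem_insert_self _ _)).squarefree,
      ih fun p hp => hS p (Finset.mem_insert_of_mem hp)⟩

private theorem trn_pw (σ u : ℝ) (S : Finset ℕ) :
    pw σ (∏ p ∈ S, p) u = ∏ p ∈ S, pw σ p u := by
  induction S using Finset.induction_on with
  | empty => simp [pw]
  | insert a S ha ih =>
    rw [Finset.prod_insert ha, Finset.prod_insert ha, ← ih]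
    unfold pw
    rw [Nat.cast_mul, Complex.natCast_mul_natCast_cpow]

private theorem trn_mu (S : Finset ℕ) (hS : ∀ p ∈ S, p.Prime) :
    ((ArithmeticFunction.moebius (∏ p ∈ S, p) : ℤ) : ℂ) = ∏ _p ∈ S, (-1 : ℂ) := by
  rw [ArithmeticFunction.isMultiplicative_moebius.map_prod_of_prime S hS]
  push_cast
  refine Finset.prod_congr rfl fun p hp => ?_
  rw [ArithmeticFunction.moebius_apply_prime (hS p hp)]
  norm_num

/-- the mollifier as a sum over sets of primes -/
private theorem trn_moll (σ u : ℝ) (w z J : ℕ) : mollS σ w z J u =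
    ∑ D ∈ (prs 0 z).powerset.filter (fun D => (D.filter fun p => w < p).card ≤ J),
      ∏ p ∈ D, (-pw σ p u) := by
  have hprim : primorial z = ∏ p ∈ prs 0 z, p := by
    rw [primorial_eq_prod_primesLE, Nat.primesLE_eq_filter_Ioc_zero]
    rfl
  have hprs : ∀ p ∈ prs 0 z, p.Prime := fun p hp => (trn_mem.1 hp).2
  have hpf : (primorial z).primeFactors = prs 0 z := by
    rw [hprim, Nat.primeFactors_prod hprs]
  have hsq : Squarefree (primorial z) := by
    rw [hprim]
    exact trn_squarefree _ hprs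
  unfold mollS dset
  refine Finset.sum_nbij' (fun d => d.primeFactors) (fun D => ∏ p ∈ D, p) ?_ ?_ ?_ ?_ ?_
  · intro d hd
    rw [Finset.mem_filter, Nat.mem_divisors] at hd
    rw [Finset.mem_filter, Finset.mem_powerset]
    refine ⟨?_, hd.2⟩
    rw [← hpf]
    exact Nat.primeFactors_mono hd.1.1 hd.1.2
  · intro D hD
    rw [Finset.mem_filter, Finset.mem_powerset] at hD
    rw [Finset.mem_filter, Nat.mem_divisors]
    refine ⟨⟨?_, primorial_ne_zero z⟩, ?_⟩
    · rw [hprim]
      exact Finset.prod_dvd_prod_of_subset _ _ _ hD.1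
    · rw [Nat.primeFactors_prod fun p hp => hprs p (hD.1 hp)]
      exact hD.2
  · intro d hd
    rw [Finset.mem_filter, Nat.mem_divisors] at hd
    exact Nat.prod_primeFactors_of_squarefree (hsq.squarefree_of_dvd hd.1.1)
  · intro D hD
    rw [Finset.mem_filter, Finset.mem_powerset] at hD
    exact Nat.primeFactors_prod fun p hp => hprs p (hD.1 hp)
  · intro d hd
    rw [Finset.mem_filter, Nat.mem_divisors] at hd
    have h1 := Nat.prod_primeFactors_of_squarefree (hsq.squarefree_of_dvd hd.1.1)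
    have h2 : ∀ p ∈ d.primeFactors, p.Prime := fun p hp => Nat.prime_of_mem_primeFactors hp
    calc ((ArithmeticFunction.moebius d : ℤ) : ℂ) * pw σ d u
        = ((ArithmeticFunction.moebius (∏ p ∈ d.primeFactors, p) : ℤ) : ℂ) *
          pw σ (∏ p ∈ d.primeFactors, p) u := by rw [h1]
      _ = ∏ p ∈ d.primeFactors, (-pw σ p u) := by
          rw [trn_mu _ h2, trn_pw, ← Finset.prod_mul_distrib]
          refine Finset.prod_congr rfl fun p _ => by ring

private theorem trn_split (A B : Finset ℕ) (w J : ℕ) (hA : ∀ p ∈ A, p ≤ w)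
    (hB : ∀ p ∈ B, w < p) (g : ℕ → ℂ) :
    ∑ D ∈ (A ∪ B).powerset.filter (fun D => (D.filter fun p => w < p).card ≤ J), ∏ p ∈ D, g p =
      (∑ D ∈ A.powerset, ∏ p ∈ D, g p) *
        ∑ D ∈ B.powerset.filter (fun D => D.card ≤ J), ∏ p ∈ D, g p := by
  rw [Finset.sum_mul_sum, ← Finset.sum_product']
  symm
  refine Finset.sum_nbij' (fun x => x.1 ∪ x.2)
    (fun D => (D.filter (fun p => p ≤ w), D.filter (fun p => w < p))) ?_ ?_ ?_ ?_ ?_
  · rintro ⟨D1, D2⟩ hD
    simp only [Finset.mem_product, Finset.mem_powerset, Finset.mem_filter] at hD ⊢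
    obtain ⟨h1, h2, h3⟩ := hD
    refine ⟨Finset.union_subset_union h1 h2, ?_⟩
    have h4 : (D1 ∪ D2).filter (fun p => w < p) = D2 := by
      ext p
      rw [Finset.mem_filter, Finset.mem_union]
      constructor
      · rintro ⟨h5 | h5, h6⟩
        · exact absurd (hA p (h1 h5)) (by omega)
        · exact h5
      · intro h5
        exact ⟨Or.inr h5, hB p (h2 h5)⟩
    rw [h4]
    exact h3
  · intro D hD
    simp only [Finset.mem_product, Finset.mem_powerset, Finset.mem_filter] at hD ⊢
    obtain ⟨h1, h2⟩ := hD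
    refine ⟨?_, ?_, h2⟩
    · intro p hp
      rw [Finset.mem_filter] at hp
      rcases Finset.mem_union.1 (h1 hp.1) with h | h
      · exact h
      · exact absurd (hB p h) (by omega)
    · intro p hp
      rw [Finset.mem_filter] at hp
      rcases Finset.mem_union.1 (h1 hp.1) with h | h
      · exact absurd (hA p h) (by omega)
      · exact h
  · rintro ⟨D1, D2⟩ hD
    simp only [Finset.mem_product, Finset.mem_powerset, Finset.mem_filter] at hD
    obtain ⟨h1, h2, -⟩ := hD
    rw [Prod.mk.injEq]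
    constructor
    · ext p
      rw [Finset.mem_filter, Finset.mem_union]
      constructor
      · rintro ⟨h5 | h5, h6⟩
        · exact h5
        · exact absurd (hB p (h2 h5)) (by omega)
      · intro h5
        exact ⟨Or.inl h5, hA p (h1 h5)⟩
    · ext p
      rw [Finset.mem_filter, Finset.mem_union]
      constructor
      · rintro ⟨h5 | h5, h6⟩
        · exact absurd (hA p (h1 h5)) (by omega)
        · exact h5
      · intro h5
        exact ⟨Or.inr h5, hB p (h2 h5)⟩
  · intro D _
    ext p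
    simp only [Finset.mem_union, Finset.mem_filter]
    constructor
    · rintro (h | h)
      · exact h.1
      · exact h.1
    · intro h
      rcases le_or_gt p w with h3 | h3
      · exact Or.inl ⟨h, h3⟩
      · exact Or.inr ⟨h, h3⟩
  · rintro ⟨D1, D2⟩ hD
    simp only [Finset.mem_product, Finset.mem_powerset, Finset.mem_filter] at hD
    obtain ⟨h1, h2, -⟩ := hD
    rw [Finset.prod_union]
    rw [Finset.disjoint_left]
    intro p h3 h4
    have h5 := hA p (h1 h3)
    have h6 := hB p (h2 h4)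
    omega

theorem pTrn (hEj : S_Ej) : S_Trn := by
  intro σ u R w z J hwz hR
  have hA : ∀ p ∈ prs 0 w, p ≤ w := fun p hp => (trn_mem.1 hp).1.2
  have hB : ∀ p ∈ prs w z, w < p := fun p hp => (trn_mem.1 hp).1.1
  have h1 : mollS σ w z J u = eulS σ 0 w u *
      ∑ D ∈ (prs w z).powerset.filter (fun D => D.card ≤ J), ∏ p ∈ D, (-pw σ p u) := by
    rw [trn_moll, trn_prs w z hwz, trn_split _ _ w J hA hB]
    congr 1
    rw [eulS, ← Finset.prod_one_add]
    refine Finset.prod_congr rfl fun p _ => by ring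
  have h2 : eulS σ 0 z u = eulS σ 0 w u * eulS σ w z u := by
    unfold eulS
    rw [trn_prs w z hwz, Finset.prod_union]
    rw [Finset.disjoint_left]
    intro p h3 h4
    have h5 := hA p h3
    have h6 := hB p h4
    omega
  rw [h1, h2, ← mul_sub, norm_mul]
  refine mul_le_mul_of_nonneg_left ?_ (norm_nonneg _)
  have h3 := hEj (prs w z) (fun p => pw σ p u) R J hR
  have h4 : ∑ p ∈ prs w z, ‖pw σ p u‖ ^ 2 = tail (2 * σ) w z := by
    unfold tail
    refine Finset.sum_congr rfl fun p hp => ?_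
    have hp0 : 0 < p := (trn_mem.1 hp).2.pos
    have hp1 : (0 : ℝ) < p := by exact_mod_cast hp0
    have hn : ‖pw σ p u‖ = (p : ℝ) ^ (-σ) := by
      unfold pw
      rw [Complex.norm_natCast_cpow_of_pos hp0]
      congr 1
      simp
    rw [hn, ← Real.rpow_natCast, ← Real.rpow_mul hp1.le]
    congr 1
    push_cast
    ring
  rw [h4] at h3
  exact h3

end Pool.Agent.Lib.MP_aa9ae4_nt.S1
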